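import Pool.Agent.Lib.MP_d79f69_nt.Z3.Basic

open Matrix MeasureTheory Complex Finset

namespace Pool.Agent.CubZ

open Pool.Agent.CubH

theorem ad_gauss {g : ℝ → ℂ} {K : ℝ} (hg : Continuous g)
    (hb : ∀ v, ‖g v‖ ≤ K * Real.exp (-1 * v ^ 2)) :
    Integrable g ∧ ‖∫ v, g v‖ ≤ K * √Real.pi := by
  have h := (integrable_exp_neg_mul_sq (b := 1) one_pos).const_mul K
  refine ⟨h.mono' hg.aestronglyMeasurable (Filter.Eventually.of_forall hb), ?_⟩
  refine (norm_integral_le_of_norm_le h (Filter.Eventually.of_forall hb)).trans (le_of_eq ?_)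
  rw [integral_const_mul, integral_gaussian, div_one]

theorem ad_sum : Summable fun n : ℕ => ((n + 1 : ℕ) : ℝ) ^ (-(11 / 10 : ℝ)) :=
  (summable_nat_add_iff (f := fun n : ℕ => (n : ℝ) ^ (-(11 / 10 : ℝ))) 1).2
    (Real.summable_nat_rpow.2 (by norm_num))

theorem ad_zeta {z : ℂ} (hz : z.re = 11 / 10) :
    riemannZeta z = ∑' n : ℕ, pw ((n + 1 : ℕ) : ℝ) (-z) := by
  rw [zeta_eq_tsum_one_div_nat_add_one_cpow (by rw [hz]; norm_num)]
  refine tsum_congr fun n => ?_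
  rw [pw_eq_cpow (by positivity), Complex.cpow_neg, one_div]
  push_cast
  rfl

theorem ad_zeta_le {z : ℂ} (hz : z.re = 11 / 10) :
    ‖riemannZeta z‖ ≤ ∑' n : ℕ, ((n + 1 : ℕ) : ℝ) ^ (-(11 / 10 : ℝ)) := by
  rw [ad_zeta hz]
  refine tsum_of_norm_bounded ad_sum.hasSum fun n => ?_
  rw [norm_pw (by positivity), neg_re, hz]

theorem ad_cont {s : ℂ} (hs : s.re = 1 / 2) :
    Continuous fun v : ℝ => riemannZeta (s + ((3 / 5 : ℝ) + v * I)) := by
  refine continuous_iff_continuousAt.2 fun v => ?_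
  refine ContinuousAt.comp (f := fun v : ℝ => s + (((3 / 5 : ℝ) : ℂ) + v * I))
    (differentiableAt_riemannZeta fun h => ?_).continuousAt (by fun_prop)
  have := congrArg Complex.re h
  simp [hs] at this
  norm_num at this

theorem ad_main (hV2 : StV2) {s : ℂ} (hs : s.re = 1 / 2) {x : ℝ} (hx : 0 < x) :
    HasSum (fun n : ℕ => pw ((n + 1 : ℕ) : ℝ) (-s) * VV ((((n + 1 : ℕ) : ℝ) / x : ℝ) : ℂ))
      (((2 * Real.pi : ℝ) : ℂ)⁻¹ * ∫ v : ℝ, riemannZeta (s + ((3 / 5 : ℝ) + v * I)) *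
        pw x ((3 / 5 : ℝ) + v * I) * gw ((3 / 5 : ℝ) + v * I)) := by
  have hp : ∀ n : ℕ, (0 : ℝ) < ((n + 1 : ℕ) : ℝ) := fun n => by positivity
  have H := fun n : ℕ => hV2.2 (3 / 5) (((n + 1 : ℕ) : ℝ) / x) (by norm_num) (div_pos (hp n) hx)
  have h1 := hasSum_integral_of_summable_integral_norm (μ := volume)
    (F := fun (n : ℕ) (v : ℝ) => pw ((n + 1 : ℕ) : ℝ) (-s) * (gw ((3 / 5 : ℝ) + v * I) *
      pw (((n + 1 : ℕ) : ℝ) / x) (-((3 / 5 : ℝ) + v * I)))) (fun n => (H n).1.const_mul _) (by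
    refine (ad_sum.mul_right (x ^ (3 / 5 : ℝ) * ∫ v : ℝ, ‖gw ((3 / 5 : ℝ) + v * I)‖)).congr
      fun n => ?_
    rw [← mul_assoc, ← integral_const_mul]
    refine integral_congr_ae (Filter.Eventually.of_forall fun v => ?_)
    have e : (-((3 / 5 : ℝ) + v * I : ℂ)).re = -(3 / 5) := by simp
    have e2 : ((n + 1 : ℕ) : ℝ) ^ (-(11 / 10 : ℝ)) =
        ((n + 1 : ℕ) : ℝ) ^ (-(1 / 2 : ℝ)) * ((n + 1 : ℕ) : ℝ) ^ (-(3 / 5 : ℝ)) := by
      rw [← Real.rpow_add (hp n)]; norm_num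
    simp only []
    rw [norm_mul, norm_mul, norm_pw (hp n), norm_pw (div_pos (hp n) hx), e, neg_re, hs,
      Real.div_rpow (hp n).le hx.le, Real.rpow_neg hx.le, e2, div_inv_eq_mul]
    ring)
  have h2 := h1.mul_left ((2 * Real.pi : ℝ) : ℂ)⁻¹
  have h3 : ∀ {f g : ℕ → ℂ} {a b : ℂ}, HasSum f a → g = f → b = a → HasSum g b :=
    fun h e e' => e ▸ e' ▸ h
  refine h3 h2 ?_ ?_
  · funext n
    rw [integral_const_mul, (H n).2]
    ring
  · congr 1
    refine integral_congr_ae (Filter.Eventually.of_forall fun v => ?_)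
    simp only []
    rw [ad_zeta (by simp [hs]; norm_num), mul_assoc, ← tsum_mul_right]
    refine tsum_congr fun n => ?_
    rw [pw_div (hp n) hx, neg_neg, neg_add s, pw_add]
    ring

theorem ad_tail {f : ℕ → ℂ} {S : ℂ} {K σ : ℝ} (hσ : 2 ≤ σ) (hK : 0 ≤ K) (h : HasSum f S)
    (hb : ∀ n, ‖f n‖ ≤ K * ((n + 1 : ℕ) : ℝ) ^ (-σ)) {X : ℕ} (hX : 1 ≤ X) :
    ‖S - ∑ n ∈ range X, f n‖ ≤ K * (X : ℝ) ^ (1 - σ) := by
  have hX' : (1 : ℝ) ≤ X := by exact_mod_cast hX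
  have h1 := ((hasSum_nat_add_iff' X).2 h).tendsto_sum_nat.norm
  refine le_of_tendsto' h1 fun N => (norm_sum_le _ _).trans ?_
  have key : ∀ n : ℕ, ‖f (n + X)‖ ≤
      K * (X : ℝ) ^ (2 - σ) * (1 / ((n : ℝ) + X) - 1 / ((n + 1 : ℕ) + X)) := fun n => by
    refine (hb _).trans ?_
    rw [mul_assoc]
    refine mul_le_mul_of_nonneg_left ?_ hK
    have n0 : (0 : ℝ) ≤ n := Nat.cast_nonneg n
    have e : ((n + X + 1 : ℕ) : ℝ) ^ (-σ) =
        ((n : ℝ) + X + 1) ^ (2 - σ) * (1 / ((n : ℝ) + X + 1) ^ 2) := by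
      push_cast
      rw [Real.rpow_sub (by linarith), Real.rpow_neg (by linarith), Real.rpow_two]
      field_simp
    rw [e]
    refine mul_le_mul (Real.rpow_le_rpow_of_nonpos (by linarith) (by linarith) (by linarith)) ?_
      (by positivity) (by positivity)
    push_cast
    rw [div_sub_div _ _ (by positivity) (by positivity), div_le_div_iff₀ (by positivity)
      (by positivity)]
    nlinarith
  refine (sum_le_sum fun n _ => key n).trans ?_
  rw [← mul_sum, Finset.sum_range_sub' (fun n : ℕ => 1 / ((n : ℝ) + X)), mul_assoc]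
  refine mul_le_mul_of_nonneg_left ?_ hK
  have e : (X : ℝ) ^ (1 - σ) = (X : ℝ) ^ (2 - σ) * (1 / X) := by
    rw [show 1 - σ = 2 - σ - 1 by ring, Real.rpow_sub_one (by linarith)]
    ring
  rw [e]
  refine mul_le_mul_of_nonneg_left ?_ (by positivity)
  have : (0 : ℝ) ≤ 1 / ((N : ℝ) + X) := by positivity
  simp only [Nat.cast_zero, zero_add]
  linarith

theorem stAd (hV1 : StV1) (hV2 : StV2) : StAd := by
  intro σ hσ
  obtain ⟨C, C0, hC⟩ := hV1.1 σ (by linarith)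
  obtain ⟨Z, hZ⟩ : ∃ Z, Z = ∑' n : ℕ, ((n + 1 : ℕ) : ℝ) ^ (-(11 / 10 : ℝ)) := ⟨_, rfl⟩
  have Z0 : 0 ≤ Z := hZ ▸ tsum_nonneg fun n => by positivity
  refine ⟨C + Z * Real.exp ((3 / 5) ^ 2) * √Real.pi, by positivity, fun α t x X ht hx hX => ?_⟩
  obtain ⟨s, hs'⟩ : ∃ s : ℂ, s = 1 / 2 + (α + t) * I := ⟨_, rfl⟩
  have hs : s.re = 1 / 2 := by simp [hs']
  have hi : α + t ≤ ‖s - 1‖ := by
    have := abs_im_le_norm (s - 1)
    have e : (s - 1).im = α + t := by simp [hs']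
    rw [e] at this
    exact (le_abs_self _).trans this
  have hz : ∀ v : ℝ, ‖riemannZeta (s + ((3 / 5 : ℝ) + v * I)) * pw x ((3 / 5 : ℝ) + v * I)‖ ≤
      Z * x ^ (3 / 5 : ℝ) := fun v => by
    have e : ((3 / 5 : ℝ) + v * I : ℂ).re = 3 / 5 := by simp
    rw [norm_mul, norm_pw hx, e, hZ]
    exact mul_le_mul_of_nonneg_right (ad_zeta_le (by simp [hs]; norm_num)) (by positivity)
  have hc : Continuous fun v : ℝ =>
      riemannZeta (s + ((3 / 5 : ℝ) + v * I)) * pw x ((3 / 5 : ℝ) + v * I) :=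
    (ad_cont hs).mul ((continuous_pw x).comp (by fun_prop))
  have ee : ∀ v : ℝ, Real.exp ((3 / 5) ^ 2 - v ^ 2) =
      Real.exp ((3 / 5) ^ 2) * Real.exp (-1 * v ^ 2) := fun v => by
    rw [← Real.exp_add]; congr 1; ring
  have i1 := (ad_gauss (K := Z * x ^ (3 / 5 : ℝ) * (Real.exp ((3 / 5) ^ 2) / |(3 / 5 : ℝ)|))
    (g := fun v : ℝ => riemannZeta (s + ((3 / 5 : ℝ) + v * I)) * pw x ((3 / 5 : ℝ) + v * I) *
      gw ((3 / 5 : ℝ) + v * I)) (hc.mul (continuous_gw (σ := 3 / 5) (by norm_num))) fun v => by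
      refine (norm_mul_le _ _).trans ((mul_le_mul (hz v) (norm_gw_le (by norm_num) v)
        (norm_nonneg _) (by positivity)).trans (le_of_eq ?_))
      rw [ee]; ring).1
  obtain ⟨i2, b2⟩ := ad_gauss (K := Z * x ^ (3 / 5 : ℝ) * Real.exp ((3 / 5) ^ 2))
    (g := fun v : ℝ => riemannZeta (s + ((3 / 5 : ℝ) + v * I)) * pw x ((3 / 5 : ℝ) + v * I) *
      cexp (((3 / 5 : ℝ) + v * I) ^ 2)) (hc.mul (by fun_prop)) fun v => by
      have e : (((3 / 5 : ℝ) + v * I : ℂ) ^ 2).re = (3 / 5) ^ 2 - v ^ 2 := by simp [sq]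
      rw [norm_mul, Complex.norm_exp, e, ee, mul_assoc (Z * _)]
      exact mul_le_mul_of_nonneg_right (hz v) (by positivity)
  have split : (∫ v : ℝ, FA s x (3 / 5 + v * I)) =
      (∫ v : ℝ, riemannZeta (s + ((3 / 5 : ℝ) + v * I)) * pw x ((3 / 5 : ℝ) + v * I) *
        gw ((3 / 5 : ℝ) + v * I)) + (s - 1)⁻¹ * ∫ v : ℝ, riemannZeta (s + ((3 / 5 : ℝ) + v * I)) *
        pw x ((3 / 5 : ℝ) + v * I) * cexp (((3 / 5 : ℝ) + v * I) ^ 2) := by
    rw [← integral_const_mul, ← integral_add i1 (i2.const_mul _)]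
    refine integral_congr_ae (Filter.Eventually.of_forall fun v => ?_)
    have e : (3 / 5 + v * I : ℂ) = ((3 / 5 : ℝ) : ℂ) + v * I := by push_cast; rfl
    have w0 : (((3 / 5 : ℝ) : ℂ) + v * I) ≠ 0 := fun h => by
      have := congrArg Complex.re h
      simp at this
    simp only []
    rw [e]
    generalize ((3 / 5 : ℝ) : ℂ) + v * I = w at w0
    unfold FA gw
    rw [div_eq_mul_inv w]
    field_simp
  have t1 := ad_tail (K := C * x ^ σ) hσ (by positivity) (ad_main hV2 hs hx) (fun n => by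
    have hp : (1 : ℝ) ≤ ((n + 1 : ℕ) : ℝ) := by exact_mod_cast Nat.le_add_left 1 n
    have hq : (0 : ℝ) < ((n + 1 : ℕ) : ℝ) / x := by positivity
    have a := hC ((((n + 1 : ℕ) : ℝ) / x : ℝ) : ℂ) (by rwa [ofReal_re])
    rw [Complex.norm_real, Real.norm_of_nonneg hq.le, Real.div_rpow (by linarith) hx.le,
      Real.rpow_neg hx.le, div_inv_eq_mul] at a
    have b : ‖pw ((n + 1 : ℕ) : ℝ) (-s)‖ ≤ 1 := by
      rw [norm_pw (by linarith), neg_re, hs]
      exact Real.rpow_le_one_of_one_le_of_nonpos hp (by norm_num)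
    refine (norm_mul_le _ _).trans ((mul_le_mul b a (norm_nonneg _) zero_le_one).trans
      (le_of_eq (by ring)))) hX
  have eD : DH α x X t = ∑ n ∈ range X,
      pw ((n + 1 : ℕ) : ℝ) (-s) * VV ((((n + 1 : ℕ) : ℝ) / x : ℝ) : ℂ) := by
    unfold DH
    rw [← hs', ← Finset.Ico_add_one_right_eq_Icc, Finset.sum_Ico_eq_sum_range, Nat.add_sub_cancel]
    exact sum_congr rfl fun n _ => by rw [add_comm 1 n]
  rw [← hs', split, eD, mul_add, add_sub_right_comm]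
  refine (norm_add_le _ _).trans ?_
  have p1 : ‖((2 * Real.pi : ℝ) : ℂ)⁻¹‖ ≤ 1 := by
    rw [norm_inv, Complex.norm_real, Real.norm_of_nonneg (by positivity)]
    exact inv_le_one_of_one_le₀ (by linarith [Real.pi_gt_three])
  have p2 : ‖(s - 1)⁻¹‖ ≤ (α + t)⁻¹ := by
    rw [norm_inv]
    exact inv_anti₀ (by linarith) hi
  have p3 := (norm_mul_le _ _).trans (mul_le_mul p1 ((norm_mul_le _ _).trans
    (mul_le_mul p2 b2 (norm_nonneg _) (by positivity))) (norm_nonneg _) zero_le_one)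
  have q1 : 0 ≤ C * (x ^ (3 / 5 : ℝ) / (α + t)) := by positivity
  have q2 : 0 ≤ Z * Real.exp ((3 / 5) ^ 2) * √Real.pi * (x ^ σ * (X : ℝ) ^ (1 - σ)) := by
    positivity
  refine (add_le_add t1 p3).trans ?_
  rw [div_eq_mul_inv (x ^ (3 / 5 : ℝ))] at q1 ⊢
  nlinarith

end Pool.Agent.CubZ
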