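import Pool.Agent.Lib.MP_d79f69_nt.Z3.Basic

open Matrix MeasureTheory Complex Finset

namespace Pool.Agent.CubZ

open Pool.Agent.CubH

theorem ae_tail {σ B : ℝ} (hσ : 2 ≤ σ) (hB : 0 ≤ B) {Y : ℕ} (hY : 1 ≤ Y) {f : ℕ → ℂ} {S : ℂ}
    (hS : HasSum f S) (hf : ∀ n : ℕ, ‖f n‖ ≤ B * ((n + 1 : ℕ) : ℝ) ^ (-σ)) :
    ‖S - ∑ n ∈ range Y, f n‖ ≤ B * (Y : ℝ) ^ (1 - σ) := by
  have hY0 : (0 : ℝ) < Y := by exact_mod_cast hY
  have h1 := (hasSum_nat_add_iff' Y).2 hS
  refine le_of_tendsto' h1.tendsto_sum_nat.norm fun N => ?_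
  have h2 : ∀ n : ℕ, ‖f (n + Y)‖ ≤
      B * (Y : ℝ) ^ (2 - σ) * (1 / ((n : ℝ) + Y) - 1 / (((n + 1 : ℕ) : ℝ) + Y)) := fun n => by
    refine (hf _).trans ?_
    rw [mul_assoc]
    refine mul_le_mul_of_nonneg_left ?_ hB
    have n0 : (0 : ℝ) ≤ n := Nat.cast_nonneg n
    push_cast
    have a1 : ((n : ℝ) + Y + 1) ^ (-σ) = ((n : ℝ) + Y + 1) ^ (2 - σ) * (((n : ℝ) + Y + 1) ^ 2)⁻¹ := by
      rw [← Real.rpow_two, ← Real.rpow_neg (by positivity), ← Real.rpow_add (by positivity)]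
      congr 1; ring
    have a2 : ((n : ℝ) + Y + 1) ^ (2 - σ) ≤ (Y : ℝ) ^ (2 - σ) :=
      Real.rpow_le_rpow_of_nonpos hY0 (by linarith) (by linarith)
    have a3 : (((n : ℝ) + Y + 1) ^ 2)⁻¹ ≤ 1 / ((n : ℝ) + Y) - 1 / ((n : ℝ) + 1 + Y) := by
      rw [div_sub_div _ _ (by positivity) (by positivity), ← one_div,
        div_le_div_iff₀ (by positivity) (by positivity)]
      nlinarith
    rw [a1]
    exact mul_le_mul a2 a3 (by positivity) (by positivity)
  refine (norm_sum_le_of_le _ fun n _ => h2 n).trans ?_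
  rw [← Finset.mul_sum, Finset.sum_range_sub' (fun n : ℕ => 1 / ((n : ℝ) + Y)), mul_assoc]
  refine mul_le_mul_of_nonneg_left ?_ hB
  have e : (Y : ℝ) ^ (1 - σ) = (Y : ℝ) ^ (2 - σ) * (1 / Y) := by
    rw [one_div, ← Real.rpow_neg_one, ← Real.rpow_add hY0]; congr 1; ring
  rw [e]
  refine mul_le_mul_of_nonneg_left ?_ (by positivity)
  have : (0 : ℝ) ≤ 1 / ((N : ℝ) + Y) := by positivity
  simp only [Nat.cast_zero, zero_add]
  linarith

theorem ae_Icc (g : ℕ → ℂ) (Y : ℕ) : ∑ y ∈ Icc 1 Y, g y = ∑ n ∈ range Y, g (n + 1) := by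
  induction Y with
  | zero => simp
  | succ Y ih => rw [Finset.sum_Icc_succ_top (by omega), ih, Finset.sum_range_succ]

theorem ae_pos (n : ℕ) : (0 : ℝ) < ((n + 1 : ℕ) : ℝ) := by positivity

theorem ae_summ {r : ℝ} (hr : 1 < r) : Summable fun n : ℕ => ((n + 1 : ℕ) : ℝ) ^ (-r) :=
  (summable_nat_add_iff 1).2 (Real.summable_nat_rpow.2 (by linarith))

theorem ae_zeta {z : ℂ} (hz : 1 < z.re) :
    HasSum (fun n : ℕ => pw ((n + 1 : ℕ) : ℝ) (-z)) (riemannZeta z) := by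
  have h1 : Summable fun n : ℕ => pw ((n + 1 : ℕ) : ℝ) (-z) :=
    Summable.of_norm ((ae_summ hz).congr fun n => by rw [norm_pw (ae_pos n), Complex.neg_re])
  rw [zeta_eq_tsum_one_div_nat_add_one_cpow hz]
  convert h1.hasSum using 3 with n
  rw [pw_eq_cpow (ae_pos n), Complex.cpow_neg, one_div]
  push_cast
  rfl

theorem ae_line (hV2 : StV2) {y : ℝ} (hy : 0 < y) :
    Integrable (fun v : ℝ => gw (-(3 / 5) + v * I) * pw y (-(3 / 5) + v * I)) ∧
    ∫ v : ℝ, gw (-(3 / 5) + v * I) * pw y (-(3 / 5) + v * I) =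
      -(((2 * Real.pi : ℝ) : ℂ) * VV y) := by
  obtain ⟨h1, h2⟩ := hV2.2 (3 / 5) y (by norm_num) hy
  have e : ∀ v : ℝ, gw (-(3 / 5) + v * I) * pw y (-(3 / 5) + v * I) =
      -(gw (((3 / 5 : ℝ) : ℂ) + ((-v : ℝ) : ℂ) * I) *
        pw y (-(((3 / 5 : ℝ) : ℂ) + ((-v : ℝ) : ℂ) * I))) := fun v => by
    have e1 : (((3 / 5 : ℝ) : ℂ) + ((-v : ℝ) : ℂ) * I) = -(-(3 / 5) + v * I) := by
      push_cast; ring
    rw [e1, neg_neg, gw, gw, neg_sq, div_neg, neg_mul, neg_neg]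
  simp only [e]
  refine ⟨h1.comp_neg.neg, ?_⟩
  rw [integral_neg, integral_neg_eq_self
    (fun v : ℝ => gw (((3 / 5 : ℝ) : ℂ) + v * I) * pw y (-(((3 / 5 : ℝ) : ℂ) + v * I))), h2,
    mul_inv_cancel_left₀ (by exact_mod_cast Real.two_pi_pos.ne')]

theorem ae_phase {t τ : ℝ} (ht : 0 < t) (hτ : 0 < τ) :
    ‖ei (-(2 * tht τ)) - ei (-(2 * tht t)) * pw (t / (2 * Real.pi)) (-(((τ - t : ℝ) : ℂ) * I))‖ ≤
      (τ - t) ^ 2 / t := by
  have hp := Real.two_pi_pos
  rw [← neg_mul ((τ - t : ℝ) : ℂ) I, ← Complex.ofReal_neg, pw_I, ← ei_add]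
  refine (norm_ei_sub _ _).trans ?_
  have e : -(2 * tht τ) - (-(2 * tht t) + -(τ - t) * Real.log (t / (2 * Real.pi))) =
      -(τ * Real.log (τ / t) - (τ - t)) := by
    unfold tht
    rw [Real.log_div hτ.ne' hp.ne', Real.log_div ht.ne' hp.ne', Real.log_div hτ.ne' ht.ne']
    ring
  have h1 := mul_le_mul_of_nonneg_left (Real.log_le_sub_one_of_pos (div_pos hτ ht)) hτ.le
  have h2 := mul_le_mul_of_nonneg_left (Real.one_sub_inv_le_log_of_pos (div_pos hτ ht)) hτ.le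
  have e1 : τ * (τ / t - 1) - (τ - t) = (τ - t) ^ 2 / t := by field_simp
  have e2 : τ * (1 - (τ / t)⁻¹) = τ - t := by field_simp
  rw [e, abs_neg, abs_of_nonneg (by linarith)]
  linarith

theorem ae_ratio {r L : ℝ} (hr : 0 < r) (hL : |Real.log r| ≤ L) (hL1 : L ≤ 1) (v : ℝ) :
    ‖pw r (-(-(3 / 5) + v * I)) - 1‖ ≤ 2 * (1 + |v|) * L := by
  have e : pw r (-(-(3 / 5) + v * I)) - 1 =
      ((Real.exp (3 / 5 * Real.log r) - 1 : ℝ) : ℂ) * ei (-v * Real.log r) +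
        (ei (-v * Real.log r) - ei 0) := by
    have e1 : -(-(3 / 5) + v * I : ℂ) = ((3 / 5 : ℝ) : ℂ) + ((-v : ℝ) : ℂ) * I := by
      push_cast; ring
    rw [e1, pw_add, pw_I, pw_real hr, Real.rpow_def_of_pos hr, mul_comm (Real.log r), ei_zero]
    push_cast
    ring
  have a0 := abs_nonneg (Real.log r)
  have a1 : |3 / 5 * Real.log r| ≤ L := by
    rw [abs_mul, abs_of_pos (by norm_num : (0 : ℝ) < 3 / 5)]; linarith
  have a2 := Real.abs_exp_sub_one_le (a1.trans hL1)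
  have a3 := norm_ei_sub (-v * Real.log r) 0
  rw [sub_zero, abs_mul, abs_neg] at a3
  have a4 := mul_le_mul_of_nonneg_left hL (abs_nonneg v)
  have a5 := mul_nonneg (abs_nonneg v) (a0.trans hL)
  rw [e]
  refine (norm_add_le _ _).trans ?_
  rw [norm_mul, norm_ei, mul_one, Complex.norm_real, Real.norm_eq_abs]
  linarith

theorem ae_key (hC : StChi1) (α : ℝ) : ∃ C : ℝ, 0 < C ∧ ∀ t v : ℝ, 1 + 2 * |α| ≤ t →
    ‖(1 + (-(3 / 5) + v * I) / (1 / 2 + (α + t) * I - 1)) *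
        chi (1 / 2 + (α + t) * I + (-(3 / 5) + v * I)) -
      ei (-(2 * tht t)) * pw (t / (2 * Real.pi)) (-(α * I)) *
        pw (t / (2 * Real.pi)) (-(-(3 / 5) + v * I))‖ ≤
      C * (1 + |v|) ^ 5 * t ^ (-(2 : ℝ) / 5) := by
  obtain ⟨C, C0, hC⟩ := hC
  have α0 := abs_nonneg α
  refine ⟨6 * C + α ^ 2 + 4 * |α| + 2, by positivity, fun t v ht => ?_⟩
  have α1 := le_abs_self α
  have α2 := neg_abs_le α
  have t1 : 1 ≤ t := by linarith
  have t0 : 0 < t := by linarith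
  have hp := Real.two_pi_pos
  have hp3 := Real.pi_gt_three
  have τ0 : 0 < α + t := by linarith
  have e1 := hC (α + t) v (by linarith)
  have e3 := ae_phase t0 τ0
  rw [add_sub_cancel_right] at e3
  push_cast at e1
  set w : ℂ := -(3 / 5) + v * I with hw
  set u : ℝ := t ^ (-(2 : ℝ) / 5) with hu
  set p : ℝ := 1 + |v| with hp'
  have u0 : 0 < u := Real.rpow_pos_of_pos t0 _
  have v0 := abs_nonneg v
  have p1 : 1 ≤ p := by linarith
  have wre : (-w).re = 3 / 5 := by simp [hw]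
  have tu : t ^ ((3 : ℝ) / 5) = t * u := by
    rw [hu, mul_comm, ← Real.rpow_add_one t0.ne']; congr 1; ring
  have e2 : ∀ y : ℝ, 0 < y → y ≤ 2 * t → ‖pw (y / (2 * Real.pi)) (-w)‖ ≤ t * u := fun y y0 hy => by
    rw [norm_pw (div_pos y0 hp), wre, ← tu]
    refine Real.rpow_le_rpow (div_pos y0 hp).le ?_ (by norm_num)
    rw [div_le_iff₀ hp]
    nlinarith
  have e1' : (1 + v ^ 2) ^ 2 * (α + t) ^ (-(2 : ℝ) / 5) ≤ p ^ 4 * (2 * u) := by
    refine mul_le_mul ?_ ?_ (by positivity) (by positivity)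
    · rw [show p ^ 4 = (p ^ 2) ^ 2 by ring]
      refine pow_le_pow_left₀ (by positivity) ?_ 2
      rw [hp', ← sq_abs v]
      nlinarith
    · have b1 : (α + t) ^ (-(2 : ℝ) / 5) ≤ (t / 2) ^ (-(2 : ℝ) / 5) :=
        Real.rpow_le_rpow_of_nonpos (by positivity) (by linarith) (by norm_num)
      have b2 : (2 : ℝ) ^ (-(1 : ℝ)) ≤ (2 : ℝ) ^ (-(2 : ℝ) / 5) :=
        Real.rpow_le_rpow_of_exponent_le (by norm_num) (by norm_num)
      rw [Real.div_rpow t0.le (by norm_num)] at b1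
      rw [Real.rpow_neg_one] at b2
      refine b1.trans ?_
      rw [div_le_iff₀ (by positivity)]
      nlinarith
  rw [mul_assoc C] at e1
  replace e1 := e1.trans (mul_le_mul_of_nonneg_left e1' C0.le)
  have hL : |Real.log ((α + t) / t)| ≤ 2 * |α| / t := by
    have b1 := Real.log_le_sub_one_of_pos (div_pos τ0 t0)
    have b2 := Real.one_sub_inv_le_log_of_pos (div_pos τ0 t0)
    have b3 : (α + t) / t - 1 ≤ 2 * |α| / t := by
      rw [div_sub_one t0.ne']
      exact div_le_div_of_nonneg_right (by linarith) t0.le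
    have b4 : -(2 * |α| / t) ≤ 1 - ((α + t) / t)⁻¹ := by
      rw [inv_div, one_sub_div τ0.ne', ← neg_div, div_le_div_iff₀ t0 τ0]
      nlinarith
    exact abs_le.2 ⟨by linarith, by linarith⟩
  have e4 : ‖pw ((α + t) / (2 * Real.pi)) (-w) - pw (t / (2 * Real.pi)) (-w)‖ ≤
      4 * |α| * p * u := by
    have b1 : (α + t) / (2 * Real.pi) = t / (2 * Real.pi) * ((α + t) / t) := by field_simp
    have b2 := ae_ratio (div_pos τ0 t0) hL (by rw [div_le_one t0]; linarith) v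
    rw [b1, pw_mul (div_pos t0 hp) (div_pos τ0 t0), ← mul_sub_one, norm_mul]
    refine (mul_le_mul (e2 t t0 (by linarith)) b2 (norm_nonneg _) (by positivity)).trans
      (le_of_eq ?_)
    field_simp
    ring
  have e5 : ‖w / (1 / 2 + (α + t) * I - 1)‖ ≤ 2 * p / t := by
    have b1 : ‖w‖ ≤ p := by
      refine (norm_add_le _ _).trans ?_
      rw [norm_neg, norm_mul, Complex.norm_I, Complex.norm_real, Real.norm_eq_abs, mul_one, hp']
      have : ‖(3 / 5 : ℂ)‖ = 3 / 5 := by simp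
      linarith
    have b2 : α + t ≤ ‖(1 / 2 + (α + t) * I - 1 : ℂ)‖ := by
      simpa using (le_abs_self _).trans (Complex.abs_im_le_norm (1 / 2 + (α + t) * I - 1 : ℂ))
    rw [norm_div, div_le_div_iff₀ (by linarith) t0]
    nlinarith
  have e2' := e2 (α + t) τ0 (by linarith)
  have nK : ‖ei (-(2 * tht t)) * pw (t / (2 * Real.pi)) (-(α * I))‖ = 1 := by
    rw [norm_mul, norm_ei, norm_pw (div_pos t0 hp)]; simp
  generalize chi (1 / 2 + (α + t) * I + w) = X at e1 ⊢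
  generalize w / (1 / 2 + (α + t) * I - 1) = q at e5 ⊢
  generalize ei (-(2 * tht t)) * pw (t / (2 * Real.pi)) (-(α * I)) = K at e3 nK ⊢
  generalize pw (t / (2 * Real.pi)) (-w) = P at e4 ⊢
  generalize pw ((α + t) / (2 * Real.pi)) (-w) = P' at e1 e4 e2'
  have nE := norm_ei (-(2 * tht (α + t)))
  generalize ei (-(2 * tht (α + t))) = E at e1 e3 nE
  have e : (1 + q) * X - K * P = (X - E * P') + (E - K) * P' + K * (P' - P) +
      q * ((X - E * P') + E * P') := by ring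
  have f1 : ‖(E - K) * P'‖ ≤ α ^ 2 * u := by
    rw [norm_mul]
    refine (mul_le_mul e3 e2' (norm_nonneg _) (by positivity)).trans (le_of_eq ?_)
    field_simp
  have f2 : ‖K * (P' - P)‖ ≤ 4 * |α| * p * u := by rwa [norm_mul, nK, one_mul]
  have f3 : ‖q * ((X - E * P') + E * P')‖ ≤ 4 * C * p ^ 5 * u + 2 * p * u := by
    have b1 : ‖(X - E * P') + E * P'‖ ≤ t * (C * (p ^ 4 * (2 * u)) + u) := by
      refine (norm_add_le _ _).trans ?_
      rw [norm_mul, nE, one_mul, mul_add]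
      exact add_le_add (e1.trans (le_mul_of_one_le_left (by positivity) t1)) e2'
    rw [norm_mul]
    refine (mul_le_mul e5 b1 (norm_nonneg _) (by positivity)).trans (le_of_eq ?_)
    field_simp
    ring
  have g1 : p ^ 4 ≤ p ^ 5 := pow_le_pow_right₀ p1 (by norm_num)
  have g2 : p ≤ p ^ 5 := le_self_pow₀ p1 (by norm_num)
  have g3 : 1 ≤ p ^ 5 := p1.trans g2
  rw [e]
  refine (norm_add_le _ _).trans ((add_le_add (norm_add₃_le.trans
    (add_le_add (add_le_add e1 f1) f2)) f3).trans ?_)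
  have k1 := mul_le_mul_of_nonneg_left g1 (mul_pos C0 u0).le
  have k2 := mul_le_mul_of_nonneg_left g2 (mul_nonneg α0 u0.le)
  have k3 := mul_le_mul_of_nonneg_left g3 (mul_nonneg (sq_nonneg α) u0.le)
  have k4 := mul_le_mul_of_nonneg_left g2 u0.le
  linarith

theorem ae_main (hV2 : StV2) (α : ℝ) {t x : ℝ} (ht : 0 < t) (hx : 0 < x) :
    HasSum (fun n : ℕ => pw ((n + 1 : ℕ) : ℝ) (-(1 / 2) + (α + t) * I) *
        VV ((2 * Real.pi * x * ((n + 1 : ℕ) : ℝ) / t : ℝ) : ℂ))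
      (-(((2 * Real.pi : ℝ) : ℂ)⁻¹ * ∫ v : ℝ,
        riemannZeta (1 - (1 / 2 + (α + t) * I + (-(3 / 5) + v * I))) *
          (gw (-(3 / 5) + v * I) * pw (x / (t / (2 * Real.pi))) (-(3 / 5) + v * I)))) := by
  have hp := Real.two_pi_pos
  have hy : 0 < x / (t / (2 * Real.pi)) := by positivity
  have hre : ∀ v : ℝ, (1 - (1 / 2 + (α + t) * I + (-(3 / 5) + v * I)) : ℂ).re = 11 / 10 :=
    fun v => by simp; norm_num
  have e : ∀ (n : ℕ) (v : ℝ),
      pw ((n + 1 : ℕ) : ℝ) (-(1 - (1 / 2 + (α + t) * I + (-(3 / 5) + v * I)))) *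
        (gw (-(3 / 5) + v * I) * pw (x / (t / (2 * Real.pi))) (-(3 / 5) + v * I)) =
      pw ((n + 1 : ℕ) : ℝ) (-(1 / 2) + (α + t) * I) * (gw (-(3 / 5) + v * I) *
        pw (2 * Real.pi * x * ((n + 1 : ℕ) : ℝ) / t) (-(3 / 5) + v * I)) := fun n v => by
    have e1 : (-(1 - (1 / 2 + (α + t) * I + (-(3 / 5) + v * I))) : ℂ) =
        (-(1 / 2) + (α + t) * I) + (-(3 / 5) + v * I) := by ring
    have e2 : 2 * Real.pi * x * ((n + 1 : ℕ) : ℝ) / t =
        x / (t / (2 * Real.pi)) * ((n + 1 : ℕ) : ℝ) := by field_simp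
    rw [e1, e2, pw_add _ (-(1 / 2) + (α + t) * I), pw_mul hy (ae_pos n)]
    ring
  have hn : ∀ n : ℕ, 0 < 2 * Real.pi * x * ((n + 1 : ℕ) : ℝ) / t := fun n => by positivity
  have h1 := hasSum_integral_of_summable_integral_norm (μ := volume)
    (F := fun (n : ℕ) (v : ℝ) =>
      pw ((n + 1 : ℕ) : ℝ) (-(1 - (1 / 2 + (α + t) * I + (-(3 / 5) + v * I)))) *
        (gw (-(3 / 5) + v * I) * pw (x / (t / (2 * Real.pi))) (-(3 / 5) + v * I)))
    (fun n => by
      simp only [e]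
      exact (ae_line hV2 (hn n)).1.const_mul _)
    (((ae_summ (r := 11 / 10) (by norm_num)).mul_right (∫ v : ℝ,
      ‖gw (-(3 / 5) + v * I) * pw (x / (t / (2 * Real.pi))) (-(3 / 5) + v * I)‖)).congr fun n => by
        rw [← integral_const_mul]
        refine integral_congr_ae (Filter.Eventually.of_forall fun v => ?_)
        dsimp only
        rw [norm_mul (pw _ _), norm_pw (ae_pos n), Complex.neg_re, hre])
  have h2 := (h1.mul_left ((2 * Real.pi : ℝ) : ℂ)⁻¹).neg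
  convert h2 using 1
  · rfl
  · funext n
    simp only [e]
    rw [integral_const_mul, (ae_line hV2 (hn n)).2]
    have : ((2 * Real.pi : ℝ) : ℂ) ≠ 0 := by exact_mod_cast hp.ne'
    field_simp
  · congr 3
    funext v
    exact ((ae_zeta (by rw [hre]; norm_num)).mul_right _).tsum_eq.symm

theorem stAe (hV1 : StV1) (hV2 : StV2) (hC : StChi1) (hXi : StXi) : StAe := by
  intro σ α hσ
  obtain ⟨C1, C10, h1⟩ := ae_key hC α
  obtain ⟨C2, C20, h2⟩ := hV1.1 σ (by linarith)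
  obtain ⟨C3, C31, h3⟩ := poly_le_exp 5
  obtain ⟨Z, hZ⟩ := ae_summ (r := 11 / 10) (by norm_num)
  have Z0 : 0 ≤ Z := hZ.nonneg fun n => (Real.rpow_pos_of_pos (ae_pos n) _).le
  have hG := integrable_gauss 1
  have G0 : 0 ≤ ∫ v : ℝ, Real.exp (-v ^ 2 + 1 * |v|) :=
    integral_nonneg fun v => (Real.exp_pos _).le
  obtain ⟨D, hD⟩ : ∃ D : ℝ, D = C1 * C3 * Z * (Real.exp (9 / 25) / (3 / 5)) := ⟨_, rfl⟩
  have D0 : 0 ≤ D := by rw [hD]; positivity
  refine ⟨D * (∫ v : ℝ, Real.exp (-v ^ 2 + 1 * |v|)) + C2, by positivity, fun t x Y ht hx hY => ?_⟩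
  have α0 := abs_nonneg α
  have t0 : 0 < t := by linarith
  have hp := Real.two_pi_pos
  have hp3 := Real.pi_gt_three
  have hy : 0 < x / (t / (2 * Real.pi)) := by positivity
  have hre : ∀ v : ℝ, (1 / 2 + (α + t) * I + (-(3 / 5) + v * I) : ℂ).re = -(1 / 10) :=
    fun v => by simp; norm_num
  have hre' : ∀ v : ℝ, (1 - (1 / 2 + (α + t) * I + (-(3 / 5) + v * I)) : ℂ).re = 11 / 10 :=
    fun v => by rw [Complex.sub_re, hre, Complex.one_re]; norm_num
  have hz : ∀ v : ℝ, ‖riemannZeta (1 - (1 / 2 + (α + t) * I + (-(3 / 5) + v * I)))‖ ≤ Z :=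
    fun v => (ae_zeta (by rw [hre']; norm_num)).norm_le_of_bounded hZ fun n => by
      rw [norm_pw (ae_pos n), Complex.neg_re, hre']
  have cz : ∀ f : ℝ → ℂ, Continuous f → (∀ v, (f v).re ≠ 1) →
      Continuous fun v => riemannZeta (f v) := fun f hf h => continuous_iff_continuousAt.2 fun v =>
    ContinuousAt.comp (g := riemannZeta)
      (differentiableAt_riemannZeta fun e => h v (by rw [e, Complex.one_re])).continuousAt
      hf.continuousAt
  have cg : Continuous fun v : ℝ => gw (-(3 / 5) + v * I) := by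
    simpa using continuous_gw (σ := -(3 / 5)) (by norm_num)
  have cp : ∀ y : ℝ, Continuous fun v : ℝ => pw y (-(3 / 5) + v * I) := fun y =>
    (continuous_pw y).comp (by fun_prop)
  have ng : ∀ v : ℝ, ‖gw (-(3 / 5) + v * I)‖ ≤ Real.exp (9 / 25) / (3 / 5) * Real.exp (-v ^ 2) :=
    fun v => by
      have := norm_gw_le (σ := -(3 / 5)) (by norm_num) v
      rw [abs_neg, abs_of_pos (by norm_num : (0 : ℝ) < 3 / 5), sub_eq_add_neg, Real.exp_add,
        show (-(3 / 5) : ℝ) ^ 2 = 9 / 25 by norm_num, mul_div_right_comm] at this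
      simpa using this
  have hm := ae_main hV2 α t0 hx
  obtain ⟨M, hM⟩ : ∃ M : ℝ → ℂ, M = fun v : ℝ =>
    riemannZeta (1 - (1 / 2 + (α + t) * I + (-(3 / 5) + v * I))) *
      (gw (-(3 / 5) + v * I) * pw (x / (t / (2 * Real.pi))) (-(3 / 5) + v * I)) := ⟨_, rfl⟩
  rw [← hM] at hm
  have cM : Continuous M := by
    rw [hM]
    exact (cz _ (by fun_prop) fun v => by rw [hre']; norm_num).mul (cg.mul (cp _))
  have iM : Integrable M := by
    refine ((ae_line hV2 hy).1.norm.const_mul Z).mono' cM.aestronglyMeasurable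
      (Filter.Eventually.of_forall fun v => ?_)
    rw [hM]
    dsimp only
    rw [norm_mul]
    exact mul_le_mul_of_nonneg_right (hz v) (norm_nonneg _)
  obtain ⟨K, hK⟩ : ∃ K : ℂ, K = ei (-(2 * tht t)) * pw (t / (2 * Real.pi)) (-(α * I)) := ⟨_, rfl⟩
  have nK : ‖K‖ = 1 := by
    rw [hK, norm_mul, norm_ei, norm_pw (div_pos t0 hp)]; simp
  have cF : Continuous fun v : ℝ => FA (1 / 2 + (α + t) * I) x (-(3 / 5) + v * I) := by
    unfold FA
    exact ((Continuous.mul (by fun_prop)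
      (cz _ (by fun_prop) fun v => by rw [hre]; norm_num)).mul (cp _)).mul cg
  have hu : x ^ (-(3 : ℝ) / 5) * t ^ (-(2 : ℝ) / 5) = (t / x) ^ ((3 : ℝ) / 5) / t := by
    rw [Real.div_rpow t0.le hx.le, show -(2 : ℝ) / 5 = 3 / 5 - 1 by norm_num,
      Real.rpow_sub_one t0.ne', neg_div, Real.rpow_neg hx.le]
    ring
  have u0 : 0 ≤ (t / x) ^ ((3 : ℝ) / 5) / t := by positivity
  have hb : ∀ v : ℝ, ‖FA (1 / 2 + (α + t) * I) x (-(3 / 5) + v * I) - K * M v‖ ≤
      D * ((t / x) ^ ((3 : ℝ) / 5) / t) * Real.exp (-v ^ 2 + 1 * |v|) := fun v => by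
    have k1 := h1 t v ht
    rw [← hK] at k1
    have e : FA (1 / 2 + (α + t) * I) x (-(3 / 5) + v * I) - K * M v =
        ((1 + (-(3 / 5) + v * I) / (1 / 2 + (α + t) * I - 1)) *
          chi (1 / 2 + (α + t) * I + (-(3 / 5) + v * I)) -
          K * pw (t / (2 * Real.pi)) (-(-(3 / 5) + v * I))) *
        riemannZeta (1 - (1 / 2 + (α + t) * I + (-(3 / 5) + v * I))) *
        pw x (-(3 / 5) + v * I) * gw (-(3 / 5) + v * I) := by
      rw [hM, FA, hXi.2.1 _ (by rw [hre]; norm_num) (by rw [hre]; norm_num)]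
      dsimp only
      rw [pw_div hx (div_pos t0 hp)]
      ring
    have k2 : ‖pw x (-(3 / 5) + v * I)‖ = x ^ (-(3 : ℝ) / 5) := by
      rw [norm_pw hx]; congr 1; simp; norm_num
    have k3 := k1.trans (mul_le_mul_of_nonneg_right
      (mul_le_mul_of_nonneg_left (h3 _ (abs_nonneg v)) C10.le) (Real.rpow_nonneg t0.le _))
    rw [e, norm_mul, norm_mul, norm_mul, k2]
    refine (mul_le_mul (mul_le_mul_of_nonneg_right (mul_le_mul k3 (hz v) (norm_nonneg _)
      (by positivity)) (Real.rpow_nonneg hx.le _)) (ng v) (norm_nonneg _) (by positivity)).trans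
      (le_of_eq ?_)
    rw [← hu, hD, Real.exp_add, one_mul]
    ring
  have iD : Integrable fun v : ℝ => FA (1 / 2 + (α + t) * I) x (-(3 / 5) + v * I) - K * M v :=
    (hG.const_mul _).mono' (cF.sub (continuous_const.mul cM)).aestronglyMeasurable
      (Filter.Eventually.of_forall hb)
  have r1 := norm_integral_le_of_norm_le (hG.const_mul _) (Filter.Eventually.of_forall hb)
  rw [integral_const_mul] at r1
  have r2 : ∫ v : ℝ, FA (1 / 2 + (α + t) * I) x (-(3 / 5) + v * I) =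
      (∫ v : ℝ, FA (1 / 2 + (α + t) * I) x (-(3 / 5) + v * I) - K * M v) + K * ∫ v, M v := by
    rw [← integral_const_mul, ← integral_add iD (iM.const_mul K)]
    simp only [sub_add_cancel]
  have r3 := ae_tail (B := C2 * (t / x) ^ σ) hσ (by positivity) hY hm fun n => by
    have hn : 0 < 2 * Real.pi * x * ((n + 1 : ℕ) : ℝ) / t := by positivity
    have n1 : (1 : ℝ) ≤ ((n + 1 : ℕ) : ℝ) := by exact_mod_cast Nat.le_add_left 1 n
    have k1 := h2 ((2 * Real.pi * x * ((n + 1 : ℕ) : ℝ) / t : ℝ) : ℂ) (by rwa [Complex.ofReal_re])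
    rw [Complex.norm_real, Real.norm_of_nonneg hn.le] at k1
    have k2 : ‖pw ((n + 1 : ℕ) : ℝ) (-(1 / 2) + (α + t) * I)‖ ≤ 1 := by
      rw [norm_pw (ae_pos n)]
      exact Real.rpow_le_one_of_one_le_of_nonpos n1 (by simp)
    have k3 : (2 * Real.pi * x * ((n + 1 : ℕ) : ℝ) / t) ^ (-σ) ≤
        (t / x) ^ σ * ((n + 1 : ℕ) : ℝ) ^ (-σ) := by
      rw [← neg_neg σ, Real.rpow_neg (by positivity : 0 ≤ t / x), neg_neg σ,
        ← Real.inv_rpow (by positivity), ← Real.mul_rpow (by positivity) (by positivity), inv_div]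
      refine Real.rpow_le_rpow_of_nonpos (by positivity) ?_ (by linarith)
      rw [div_mul_eq_mul_div, mul_assoc (2 * Real.pi)]
      exact div_le_div_of_nonneg_right (le_mul_of_one_le_left (by positivity) (by linarith)) t0.le
    rw [norm_mul, mul_assoc C2]
    exact (mul_le_of_le_one_left (norm_nonneg _) k2).trans
      (k1.trans (mul_le_mul_of_nonneg_left k3 C20.le))
  have r4 : ‖((2 * Real.pi : ℝ) : ℂ)⁻¹‖ ≤ 1 := by
    rw [norm_inv, Complex.norm_real, Real.norm_of_nonneg hp.le]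
    exact inv_le_one_of_one_le₀ (by linarith)
  rw [r2, ← hK, EH, ae_Icc]
  generalize (∫ v : ℝ, FA (1 / 2 + (α + t) * I) x (-(3 / 5) + v * I) - K * M v) = A at r1
  generalize (∑ n ∈ range Y, pw ((n + 1 : ℕ) : ℝ) (-(1 / 2) + (α + t) * I) *
    VV ((2 * Real.pi * x * ((n + 1 : ℕ) : ℝ) / t : ℝ) : ℂ)) = S at r3
  generalize ((2 * Real.pi : ℝ) : ℂ)⁻¹ = c at r3 r4
  have e : -(c * (A + K * ∫ v, M v)) - K * S = K * (-(c * ∫ v, M v) - S) - c * A := by ring
  have w0 : 0 ≤ (t / x) ^ σ * (Y : ℝ) ^ (1 - σ) := by positivity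
  rw [e]
  refine (norm_sub_le _ _).trans ?_
  rw [norm_mul, norm_mul, nK, one_mul]
  have r5 := mul_le_of_le_one_left (norm_nonneg A) r4
  have r6 := mul_nonneg (mul_nonneg D0 G0) w0
  have r7 := mul_nonneg C20.le u0
  linarith

end Pool.Agent.CubZ
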