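import Pool.Agent.Lib.MP_d79f69_nt.Z3.Basic

open Matrix MeasureTheory Complex Finset

namespace Pool.Agent.CubZ

open Pool.Agent.CubH

theorem afe_bdd (hZ : Continuous Zf) (α T : ℝ) :
    ∃ M : ℝ, 0 < M ∧ ∀ t : ℝ, 0 ≤ t → t ≤ T → ‖Zf (t + α)‖ ≤ M := by
  obtain ⟨M, hM⟩ := (isCompact_Icc (a := (0 : ℝ)) (b := T)).exists_bound_of_continuousOn
    (f := fun t => Zf (t + α)) (hZ.comp (continuous_id.add continuous_const)).continuousOn
  exact ⟨max M 1, lt_max_of_lt_right one_pos, fun t h0 h1 =>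
    (hM t ⟨h0, h1⟩).trans (le_max_left _ _)⟩

theorem afe_one_le_mm {x t : ℝ} (hx : 1 ≤ x) (ht : 0 < t) : 1 ≤ mm x t := by
  have h1 : 1 ≤ x ^ ((3 : ℝ) / 5) := Real.one_le_rpow hx (by norm_num)
  have h2 : 0 ≤ (t / x) ^ ((3 : ℝ) / 5) := by positivity
  unfold mm
  linarith

theorem afe_unit (a : ℂ) : ‖a / (‖a‖ : ℝ)‖ ≤ 1 := by
  rw [norm_div, Complex.norm_real, norm_norm]
  exact div_self_le_one _

theorem afe_alg {A B D E g g0 c : ℂ} {e1 e2 d e w : ℝ} (h1 : ‖A - D‖ ≤ e1) (h2 : ‖-B - c * E‖ ≤ e2)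
    (hg : ‖g‖ ≤ 1) (hc : ‖c‖ = 1) (hD : ‖D‖ ≤ d) (hE : ‖E‖ ≤ e) (hw : ‖g - g0‖ ≤ w) :
    ‖(A - B) * g - g0 * D - g0 * c * E‖ ≤ e1 + e2 + (d + e) * w := by
  have e0 : (A - B) * g - g0 * D - g0 * c * E =
      ((A - D) + (-B - c * E)) * g + (D + c * E) * (g - g0) := by ring
  have a1 : ‖((A - D) + (-B - c * E)) * g‖ ≤ e1 + e2 := by
    rw [norm_mul]
    have := norm_add_le (A - D) (-B - c * E)
    nlinarith [norm_nonneg ((A - D) + (-B - c * E)), norm_nonneg g]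
  have a2 : ‖(D + c * E) * (g - g0)‖ ≤ (d + e) * w := by
    rw [norm_mul]
    have := norm_add_le D (c * E)
    rw [norm_mul, hc, one_mul] at this
    exact mul_le_mul (by linarith) hw (norm_nonneg _) (by linarith [norm_nonneg D, norm_nonneg E])
  rw [e0]
  exact (norm_add_le _ _).trans (add_le_add a1 a2)

theorem afe_one (hx : StAx) (hd : StAd) (he : StAe) (hS : StSz) (hC : StChi2) (hXi : StXi)
    (α σ : ℝ) (hσ : 2 ≤ σ) :
    ∃ C : ℝ, 0 < C ∧ ∀ (t x : ℝ) (X Y : ℕ), 0 < t → 1 ≤ x → 1 ≤ X → 1 ≤ Y →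
    ‖Zf (t + α) - PP α x X t - QQ α x Y t‖ ≤
      C * (mm x t / t + x ^ σ * (X : ℝ) ^ (1 - σ) + (t / x) ^ σ * (Y : ℝ) ^ (1 - σ)) := by
  obtain ⟨Cd, hCd, hd⟩ := hd σ hσ
  obtain ⟨Ce, hCe, he⟩ := he σ α hσ
  obtain ⟨Cs, hCs, hS⟩ := hS.1
  obtain ⟨Cc, hCc, hC⟩ := hC α
  obtain ⟨M, hM, hb⟩ := afe_bdd hXi.2.2 α (1 + 2 * |α|)
  have hT : 0 < 1 + 2 * |α| := by positivity
  refine ⟨2 * Cd + Ce + Cs * Cc + (M + 2 * Cs) * (1 + 2 * |α|), by positivity,
    fun t x X Y ht hx1 hX hY => ?_⟩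
  have hx0 : 0 < x := by linarith
  have hm := afe_one_le_mm hx1 ht
  have p0 : 0 ≤ mm x t / t := by positivity
  have p1 : 0 ≤ x ^ σ * (X : ℝ) ^ (1 - σ) := by positivity
  have p2 : 0 ≤ (t / x) ^ σ * (Y : ℝ) ^ (1 - σ) := by positivity
  obtain ⟨-, hSX⟩ := hS x X hx0
  obtain ⟨-, hSY⟩ := hS x Y hx0
  rcases le_total (1 + 2 * |α|) t with hT1 | hT1
  · have ha := neg_abs_le α
    have ha0 := abs_nonneg α
    have h1 := hd α t x X (by linarith) hx0 hX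
    have h2 := he t x Y hT1 hx0 hY
    have h3 := (hx (1 / 2 + (α + t) * I) x (by simp) hx0).2.2
    have h4 := hC t (by linarith)
    have hp : 0 < t / (2 * Real.pi) := by have := Real.pi_pos; positivity
    have hc : ‖ei (-(2 * tht t)) * pw (t / (2 * Real.pi)) (-(α * I))‖ = 1 := by
      rw [norm_mul, norm_ei, norm_pw hp]; simp
    have key := afe_alg h1 h2 (afe_unit _) hc (hSX α t ht).1 (hSY α t ht).2.1 h4
    have e1 : ei (tht t) * pw (t / (2 * Real.pi)) (α / 2 * I) *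
        (ei (-(2 * tht t)) * pw (t / (2 * Real.pi)) (-(α * I))) =
        ei (-tht t) * pw (t / (2 * Real.pi)) (-(α / 2 * I)) := by
      rw [mul_mul_mul_comm, ← ei_add, ← pw_add]
      congr 2 <;> ring
    have e2 : (1 / 2 + (α + t) * I : ℂ) = 1 / 2 + ((t + α : ℝ) : ℂ) * I := by push_cast; ring
    rw [e1, ← h3, e2] at key
    refine (show ‖Zf (t + α) - PP α x X t - QQ α x Y t‖ ≤ _ from key).trans ?_
    have q1 : 0 ≤ x ^ ((3 : ℝ) / 5) := by positivity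
    have q2 : 0 ≤ (t / x) ^ ((3 : ℝ) / 5) := by positivity
    have b1 : x ^ ((3 : ℝ) / 5) / (α + t) ≤ 2 * (mm x t / t) := by
      rw [← mul_div_assoc, div_le_div_iff₀ (by linarith) ht]
      unfold mm
      nlinarith
    have b2 : (t / x) ^ ((3 : ℝ) / 5) / t ≤ mm x t / t := by
      unfold mm
      gcongr
      linarith
    have b3 : (Cs * x ^ ((3 : ℝ) / 5) + Cs * (t / x) ^ ((3 : ℝ) / 5)) * (Cc / t) =
        Cs * Cc * (mm x t / t) := by unfold mm; ring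
    rw [b3]
    have c0 : 0 ≤ Cs * Cc := by positivity
    have c1 : 0 ≤ (M + 2 * Cs) * (1 + 2 * |α|) := by positivity
    generalize Cs * Cc = K1 at *
    generalize (M + 2 * Cs) * (1 + 2 * |α|) = K2 at *
    generalize mm x t / t = m at *
    generalize x ^ σ * (X : ℝ) ^ (1 - σ) = u at *
    generalize (t / x) ^ σ * (Y : ℝ) ^ (1 - σ) = v at *
    have d1 := mul_le_mul_of_nonneg_left b1 hCd.le
    have d2 := mul_le_mul_of_nonneg_left b2 hCe.le
    nlinarith [mul_nonneg hCd.le p1, mul_nonneg hCd.le p2, mul_nonneg hCe.le p1,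
      mul_nonneg c0 p1, mul_nonneg c0 p2, mul_nonneg c1 p0, mul_nonneg c1 p1, mul_nonneg c1 p2]
  · have h1 := hb t ht.le hT1
    have h2 := (hSX α t ht).2.2.1
    have h3 := (hSY α t ht).2.2.2
    have h4 : ‖Zf (t + α) - PP α x X t - QQ α x Y t‖ ≤ (M + 2 * Cs) * mm x t := by
      have a1 := norm_sub_le (Zf (t + α) - PP α x X t) (QQ α x Y t)
      have a2 := norm_sub_le (Zf (t + α)) (PP α x X t)
      nlinarith
    have h5 : mm x t ≤ (1 + 2 * |α|) * (mm x t / t) := by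
      rw [← mul_div_assoc, le_div_iff₀ ht]
      nlinarith
    calc _ ≤ (M + 2 * Cs) * ((1 + 2 * |α|) * (mm x t / t)) := h4.trans (by gcongr)
      _ = (M + 2 * Cs) * (1 + 2 * |α|) * (mm x t / t) := by ring
      _ ≤ _ := by
        refine mul_le_mul ?_ (by linarith) p0 (by positivity)
        have : 0 ≤ 2 * Cd + Ce + Cs * Cc := by positivity
        linarith

theorem afe_tail (y : ℝ) (hy : 0 ≤ y) :
    ∃ X : ℕ, 1 ≤ X ∧ y ^ (2 : ℝ) * (X : ℝ) ^ (1 - (2 : ℝ)) ≤ 1 := by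
  refine ⟨⌈y ^ (2 : ℝ)⌉₊ + 1, by omega, ?_⟩
  have h0 : 0 ≤ y ^ (2 : ℝ) := by positivity
  have h1 : y ^ (2 : ℝ) ≤ ((⌈y ^ (2 : ℝ)⌉₊ + 1 : ℕ) : ℝ) := by
    push_cast; linarith [Nat.le_ceil (y ^ (2 : ℝ))]
  rw [show (1 : ℝ) - 2 = -1 by norm_num, Real.rpow_neg_one, ← div_eq_mul_inv]
  exact div_le_one_of_le₀ h1 (by positivity)

theorem stAfe (hx : StAx) (hd : StAd) (he : StAe) (hS : StSz) (hC : StChi2) (hXi : StXi) : StAfe := by
  intro α
  obtain ⟨M, hM, hb⟩ := afe_bdd hXi.2.2 α 1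
  have two : ∃ C : ℝ, 0 < C ∧ ∀ t x : ℝ, 0 < t → 1 ≤ x → ‖Zf (t + α)‖ ≤ C * mm x t := by
    obtain ⟨C, hC0, h1⟩ := afe_one hx hd he hS hC hXi α 2 le_rfl
    obtain ⟨Cs, hCs, hS⟩ := hS.1
    refine ⟨M + 3 * C + 2 * Cs, by positivity, fun t x ht hx1 => ?_⟩
    have hx0 : 0 < x := by linarith
    have hm := afe_one_le_mm hx1 ht
    rcases le_total t 1 with h | h
    · have := hb t ht.le h
      nlinarith
    · obtain ⟨X, hX, a1⟩ := afe_tail x hx0.le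
      obtain ⟨Y, hY, a2⟩ := afe_tail (t / x) (by positivity)
      have a3 : mm x t / t ≤ mm x t := div_le_self (by linarith) h
      have a4 : ‖Zf (t + α) - PP α x X t - QQ α x Y t‖ ≤ C * (3 * mm x t) :=
        (h1 t x X Y ht hx1 hX hY).trans (mul_le_mul_of_nonneg_left
          ((add_le_add (add_le_add a3 (a1.trans hm)) (a2.trans hm)).trans (le_of_eq (by ring)))
          hC0.le)
      have a5 := ((hS x X hx0).2 α t ht).2.2.1
      have a6 := ((hS x Y hx0).2 α t ht).2.2.2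
      have a7 := norm_le_norm_sub_add (Zf (t + α) - PP α x X t) (QQ α x Y t)
      have a8 := norm_le_norm_sub_add (Zf (t + α)) (PP α x X t)
      nlinarith
  refine ⟨afe_one hx hd he hS hC hXi α, two, ?_⟩
  obtain ⟨C, hC0, h2⟩ := two
  refine ⟨M + 2 * C, by positivity, fun t ht => ?_⟩
  have h3 : 1 ≤ (1 + t) ^ ((3 : ℝ) / 10) := Real.one_le_rpow (by linarith) (by norm_num)
  rcases le_total t 1 with h | h
  · have := hb t ht h
    nlinarith
  · have a1 := h2 t (√t) (by linarith) (Real.one_le_sqrt.2 h)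
    have a2 : mm (√t) t = 2 * t ^ ((3 : ℝ) / 10) := by
      unfold mm
      rw [Real.div_sqrt, Real.sqrt_eq_rpow, ← Real.rpow_mul ht]
      norm_num
      ring
    have a3 : t ^ ((3 : ℝ) / 10) ≤ (1 + t) ^ ((3 : ℝ) / 10) :=
      Real.rpow_le_rpow ht (by linarith) (by norm_num)
    rw [a2] at a1
    nlinarith

end Pool.Agent.CubZ
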