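import Pool.Agent.Lib.MP_d79f69_nt.Z3.Basic
import Pool.Agent.Lib.MP_d79f69_nt.CM

open Matrix MeasureTheory Complex Finset

namespace Pool.Agent.CubZ

open Pool.Agent.CubH

theorem ax_bound {H : ℂ → ℂ} (hH : Differentiable ℂ H) (h0 : H 0 = 0) {C : ℝ}
    (hb : ∀ σ t : ℝ, |σ| ≤ 1 → ‖H (σ + t * I)‖ ≤ C * Real.exp (3 * |t|)) :
    ∃ C' : ℝ, ∀ σ t : ℝ, |σ| ≤ 1 →
      ‖dslope H 0 (σ + t * I) * cexp ((σ + t * I) ^ 2)‖ ≤ C' * Real.exp (-1 * |t|) := by
  have hd : Differentiable ℂ (dslope H 0) := by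
    rw [← differentiableOn_univ] at hH ⊢
    exact (Complex.differentiableOn_dslope Filter.univ_mem).2 hH
  obtain ⟨M, hM⟩ := (isCompact_closedBall (0 : ℂ) 2).exists_bound_of_continuousOn
    hd.continuous.continuousOn
  refine ⟨max (max M C) 0 * Real.exp 5, fun σ t hσ => ?_⟩
  have h1 : ‖dslope H 0 (σ + t * I)‖ ≤ max (max M C) 0 * Real.exp (3 * |t|) := by
    by_cases ht : |t| ≤ 1
    · have h2 : ‖(σ : ℂ) + t * I‖ ≤ 2 := by
        refine (norm_add_le _ _).trans ?_
        simp only [Complex.norm_real, Real.norm_eq_abs, norm_mul, Complex.norm_I, mul_one]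
        linarith
      refine (hM _ (mem_closedBall_zero_iff.2 h2)).trans ?_
      exact ((le_max_left M C).trans (le_max_left _ 0)).trans
        (le_mul_of_one_le_right (le_max_right _ _) (Real.one_le_exp (by positivity)))
    · have h2 : 1 ≤ ‖(σ : ℂ) + t * I‖ := by
        have := Complex.abs_im_le_norm ((σ : ℂ) + t * I)
        simp only [add_im, ofReal_im, mul_im, ofReal_re, I_im, mul_one, I_re, mul_zero, add_zero,
          zero_add] at this
        linarith
      have h3 : (σ : ℂ) + t * I ≠ 0 := fun h => by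
        rw [h, norm_zero] at h2
        linarith
      rw [dslope_of_ne _ h3, slope_def_field, h0, sub_zero, sub_zero, norm_div]
      refine (div_le_self (norm_nonneg _) h2).trans ((hb σ t hσ).trans ?_)
      exact mul_le_mul_of_nonneg_right ((le_max_right M C).trans (le_max_left _ 0))
        (Real.exp_pos _).le
  have h2 : ‖cexp (((σ : ℂ) + t * I) ^ 2)‖ = Real.exp (σ ^ 2 - t ^ 2) := by
    rw [Complex.norm_exp]
    congr 1
    simp [sq]
  rw [norm_mul, h2]
  refine (mul_le_mul_of_nonneg_right h1 (Real.exp_pos _).le).trans ?_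
  rw [mul_assoc, mul_assoc, ← Real.exp_add, ← Real.exp_add]
  refine mul_le_mul_of_nonneg_left (Real.exp_le_exp.2 ?_) (le_max_right _ _)
  have h3 : σ ^ 2 ≤ 1 := (sq_le_one_iff_abs_le_one σ).2 hσ
  nlinarith [sq_abs t, sq_nonneg (|t| - 2)]

theorem stAx (hXi : StXi) (hV2 : StV2) : StAx := by
  intro s x hs hx
  obtain ⟨⟨G, hG, hG1, C, hC, hGb⟩, -⟩ := hXi
  have hs1 : s - 1 ≠ 0 := fun h => by
    have := congrArg Complex.re h
    simp [hs] at this
    norm_num at this
  set H : ℂ → ℂ := fun w => G (s + w) / (s - 1) * pw x w - riemannZeta s with hH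
  have hHd : Differentiable ℂ H :=
    (((hG.comp ((differentiable_const s).add differentiable_id)).div_const _).mul
      (differentiable_pw x)).sub_const _
  have h0 : H 0 = 0 := by
    simp only [hH, add_zero, pw_zero, mul_one]
    rw [hG1 s (sub_ne_zero.1 hs1), mul_div_cancel_left₀ _ hs1, sub_self]
  obtain ⟨C', hC'⟩ := ax_bound hHd h0
    (C := C * Real.exp (3 * |s.im|) / ‖s - 1‖ * Real.exp |Real.log x| + ‖riemannZeta s‖)
    (fun σ t hσ => by
      obtain ⟨h1, h2⟩ := abs_le.1 hσ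
      have h3 := hGb (s + (σ + t * I)) (by simp [hs]; linarith) (by simp [hs]; linarith)
      have h4 : Real.exp (3 * |(s + (σ + t * I)).im|) ≤
          Real.exp (3 * |s.im|) * Real.exp (3 * |t|) := by
        rw [← Real.exp_add]
        have := abs_add_le s.im t
        simp only [add_im, ofReal_im, mul_im, ofReal_re, I_im, mul_one, I_re, mul_zero, add_zero,
          zero_add]
        exact Real.exp_le_exp.2 (by linarith)
      have h5 : ‖pw x (σ + t * I)‖ ≤ Real.exp |Real.log x| := by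
        rw [norm_pw hx, Real.rpow_def_of_pos hx]
        refine Real.exp_le_exp.2 ((le_abs_self _).trans ?_)
        rw [abs_mul]
        refine mul_le_of_le_one_right (abs_nonneg _) ?_
        simpa using hσ
      have h6 : 1 ≤ Real.exp (3 * |t|) := Real.one_le_exp (by positivity)
      refine (norm_sub_le _ _).trans ?_
      rw [add_mul, norm_mul, norm_div]
      refine add_le_add ?_ (le_mul_of_one_le_right (norm_nonneg _) h6)
      calc ‖G (s + (σ + t * I))‖ / ‖s - 1‖ * ‖pw x (σ + t * I)‖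
          ≤ C * (Real.exp (3 * |s.im|) * Real.exp (3 * |t|)) / ‖s - 1‖ *
            Real.exp |Real.log x| := by
            gcongr
            exact h3.trans (by gcongr)
        _ = _ := by ring)
  set D : ℂ → ℂ := fun w => dslope H 0 w * cexp (w ^ 2) with hD
  have hDd : Differentiable ℂ D := by
    have hd : Differentiable ℂ (dslope H 0) := by
      rw [← differentiableOn_univ] at hHd ⊢
      exact (Complex.differentiableOn_dslope Filter.univ_mem).2 hHd
    exact hd.mul (by fun_prop)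
  have hb : ∀ σ ∈ Set.uIcc (-(3 / 5) : ℝ) (3 / 5), ∀ t : ℝ,
      ‖D (σ + t * I)‖ ≤ C' * Real.exp (-1 * |t|) := by
    intro σ hσ t
    rw [Set.uIcc_of_le (by norm_num)] at hσ
    exact hC' σ t (abs_le.2 ⟨by linarith [hσ.1], by linarith [hσ.2]⟩)
  have hsh := cmShift D (-(3 / 5)) (3 / 5) C' 1 one_pos hDd.differentiableOn hb
  have i1 := cmInt (cmCont (hDd.differentiableOn (s := {s | s.re ∈ Set.uIcc (-(3 / 5) : ℝ) (3 / 5)}))
    Set.left_mem_uIcc) one_pos (hb _ Set.left_mem_uIcc)
  have i2 := cmInt (cmCont (hDd.differentiableOn (s := {s | s.re ∈ Set.uIcc (-(3 / 5) : ℝ) (3 / 5)}))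
    Set.right_mem_uIcc) one_pos (hb _ Set.right_mem_uIcc)
  have hFA : ∀ w : ℂ, w.re ≠ 0 → w.re ≠ 1 / 2 → FA s x w = D w + riemannZeta s * gw w := by
    intro w h1 h2
    have h3 : w ≠ 0 := fun h => h1 (by simp [h])
    have h4 : s + w ≠ 1 := fun h => h2 (by
      have := congrArg Complex.re h
      simp only [add_re, hs, one_re] at this
      linarith)
    simp only [hD, FA, gw]
    rw [dslope_of_ne _ h3, slope_def_field, h0]
    simp only [hH]
    rw [hG1 _ h4]
    field_simp
    ring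
  obtain ⟨g1, g2⟩ := hV2.2 (3 / 5) 1 (by norm_num) one_pos
  simp only [pw_one_left, mul_one, ofReal_one, hV2.1] at g1 g2
  have hπ : ((2 * Real.pi : ℝ) : ℂ) ≠ 0 := by
    exact_mod_cast (by positivity : (2 * Real.pi : ℝ) ≠ 0)
  have hodd : ∀ v : ℝ, gw (-(3 / 5) + v * I) = -gw (((3 / 5 : ℝ) : ℂ) + ((-v : ℝ) : ℂ) * I) := by
    intro v
    have : -(3 / 5) + (v : ℂ) * I = -(((3 / 5 : ℝ) : ℂ) + ((-v : ℝ) : ℂ) * I) := by
      push_cast
      ring
    rw [this, gw, gw, neg_sq, div_neg]
  have g3 : Integrable fun v : ℝ => gw (-(3 / 5) + v * I) := by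
    simp only [hodd]
    exact g1.comp_neg.neg
  have g4 : ∫ v : ℝ, gw (-(3 / 5) + v * I) = -∫ v : ℝ, gw (((3 / 5 : ℝ) : ℂ) + v * I) := by
    simp only [hodd]
    rw [integral_neg, integral_neg_eq_self (fun v : ℝ => gw (((3 / 5 : ℝ) : ℂ) + v * I))]
  push_cast at hsh i1 i2 g1 g4
  have e1 : (fun v : ℝ => FA s x (3 / 5 + v * I)) =
      fun v : ℝ => D (3 / 5 + v * I) + riemannZeta s * gw (3 / 5 + v * I) :=
    funext fun v => hFA _ (by simp) (by simp; norm_num)
  have e2 : (fun v : ℝ => FA s x (-(3 / 5) + v * I)) =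
      fun v : ℝ => D (-(3 / 5) + v * I) + riemannZeta s * gw (-(3 / 5) + v * I) :=
    funext fun v => hFA _ (by simp) (by simp; norm_num)
  rw [e1, e2]
  refine ⟨i2.add (g1.const_mul _), i1.add (g3.const_mul _), ?_⟩
  rw [integral_add i2 (g1.const_mul _), integral_add i1 (g3.const_mul _), integral_const_mul,
    integral_const_mul, g4, hsh]
  rw [show (((3 / 5 : ℝ) : ℂ)) = 3 / 5 by push_cast; ring] at g2
  linear_combination (2 * riemannZeta s) * g2

end Pool.Agent.CubZ
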