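import Pool.Agent.Lib.MP_d79f69_nt.Z3.Basic
import Pool.Agent.Lib.MP_d79f69_nt.CoreA

open Matrix MeasureTheory Finset

namespace Pool.Agent.CubZ

open Pool.Agent.CubH

lemma bx_bij (q : Fin 3 → ℕ) (hq : ∀ i, 1 ≤ q i) : Function.Bijective
    (fun x : ((i : Fin 3) → Fin (q i)) × Z3 => (fun i => ((x.1 i : ℕ) : ℤ) + q i * x.2 i : Z3)) := by
  have q0 : ∀ i, (0 : ℤ) < q i := fun i => by exact_mod_cast hq i
  constructor
  · rintro ⟨r, m⟩ ⟨r', m'⟩ h
    have h1 : ∀ i, ((r i : ℕ) : ℤ) = (r' i : ℕ) := by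
      intro i
      have := congrArg (fun z : ℤ => z % q i) (congrFun h i)
      simp only [Int.add_mul_emod_self_left] at this
      rwa [Int.emod_eq_of_lt (by positivity) (by exact_mod_cast (r i).2),
        Int.emod_eq_of_lt (by positivity) (by exact_mod_cast (r' i).2)] at this
    refine Prod.ext (funext fun i => Fin.ext (by exact_mod_cast h1 i)) (funext fun i => ?_)
    have := congrFun h i
    simp only [h1 i, add_right_inj] at this
    exact mul_left_cancel₀ (q0 i).ne' this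
  · intro n
    refine ⟨(fun i => ⟨(n i % q i).toNat, ?_⟩, fun i => n i / q i), funext fun i => ?_⟩
    · have := Int.emod_lt_of_pos (n i) (q0 i)
      have := Int.emod_nonneg (n i) (q0 i).ne'
      omega
    · simp only [Int.toNat_of_nonneg (Int.emod_nonneg (n i) (q0 i).ne')]
      exact Int.emod_add_mul_ediv _ _

lemma bx_fwd (W : V3 → ℂ) (T : ℝ) (v : V3) (k : ℕ) (x : V3) :
    (fwdDiff v)^[k] (fun y => W (T • y)) x = (fwdDiff (T • v))^[k] W (T • x) := by
  induction k generalizing x with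
  | zero => rfl
  | succ k ih =>
    rw [Function.iterate_succ_apply', Function.iterate_succ_apply']
    simp only [fwdDiff, ih, smul_add]

lemma bx_wt {N : ℕ} {R X A : ℝ} {W : V3 → ℂ} (hX : 0 < X) (h : Wt N R 1 A W) :
    Wt N R X A (fun y => W (X⁻¹ • y)) := by
  refine ⟨fun x hx i => ?_, fun k hk x v hv => ?_⟩
  · obtain ⟨h1, h2⟩ := h.1 _ hx i
    simp only [Pi.smul_apply, smul_eq_mul] at h1 h2
    rw [le_inv_mul_iff₀ hX] at h1
    rw [inv_mul_le_iff₀ hX] at h2
    exact ⟨by rwa [mul_one_div] at h1, by linarith⟩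
  · have hn : ‖X⁻¹ • v‖ = ‖v‖ / X := by
      rw [norm_smul, Real.norm_of_nonneg (inv_pos.2 hX).le, inv_mul_eq_div]
    have h1 : (N : ℝ) * ‖X⁻¹ • v‖ ≤ 1 / (16 * R) := by
      rw [hn, ← mul_div_assoc, div_le_iff₀ hX, one_div_mul_eq_div]; exact hv
    rw [bx_fwd]
    have := h.2 k hk (X⁻¹ • x) (X⁻¹ • v) h1
    rwa [hn, div_one] at this

theorem stBox (hE : StE0) : StBox := by
  classical
  obtain ⟨N, hE⟩ := hE
  refine ⟨N, fun R c0 c1 hR hc0 => ?_⟩
  obtain ⟨Cp, hCp, Hp⟩ := hE R c0 hR hc0.ne'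
  obtain ⟨Cm, hCm, Hm⟩ := hE R (-c0) hR (neg_ne_zero.2 hc0.ne')
  have hQ : (1 : ℝ) ≤ 4 * R ^ 2 := by nlinarith
  obtain ⟨T0, hT0⟩ : ∃ T0 : ℝ, T0 = 64 * (4 * R ^ 2) ^ 2 := ⟨_, rfl⟩
  have hT1 : 1 ≤ T0 := by rw [hT0]; nlinarith
  have T0p : 0 < T0 := by linarith
  have hc1 : 1 ≤ 1 + |c1| / c0 := le_add_of_nonneg_right (by positivity)
  obtain ⟨D, hD1, hD⟩ : ∃ D : ℝ, T0 ≤ D ∧
      ∀ m z : ℝ, 0 ≤ m → 0 ≤ z → m ≤ (1 + |c1| / c0) * T0 * z → m ^ 280 * T0 ≤ z ^ 280 * D := by
    have hE1 := one_le_mul_of_one_le_of_one_le hc1 hT1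
    generalize (1 + |c1| / c0) * T0 = E at hE1 ⊢
    refine ⟨E ^ 280 * T0, le_mul_of_one_le_left T0p.le (one_le_pow₀ hE1), fun m z hm hz h => ?_⟩
    rw [← mul_assoc, ← mul_pow, mul_comm z]
    exact mul_le_mul_of_nonneg_right (pow_le_pow_left₀ hm h _) T0p.le
  have R0 : 0 < R := by linarith
  have D1 : 1 ≤ D := hT1.trans hD1
  refine ⟨8 * T0 * (Cp + Cm) + 125 * (R * D ^ 8) ^ 3, by positivity, ?_⟩
  intro c Xm A P W h0 h1 hXm hP hW
  have hWA : ∀ x, ‖W x‖ ≤ A := by
    intro x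
    have := hW.2 0 (Nat.zero_le _) x 0 (by simp only [norm_zero, mul_zero]; positivity)
    simpa using this
  have hA : 0 ≤ A := (norm_nonneg _).trans (hWA 0)
  have Xm0 : 0 < Xm := by linarith
  have P1 : ∀ i, 1 ≤ P i := fun i => hXm.trans (hP i).1
  have P0 : ∀ i, 0 < P i := fun i => lt_of_lt_of_le one_pos (P1 i)
  obtain ⟨Pr, hPr⟩ : ∃ Pr : ℝ, Pr = P 0 * P 1 * P 2 := ⟨_, rfl⟩
  rw [← hPr]
  have Pr1 : 1 ≤ Pr := by
    rw [hPr]; exact one_le_mul_of_one_le_of_one_le (one_le_mul_of_one_le_of_one_le (P1 0) (P1 1)) (P1 2)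
  have Pr0 : 0 < Pr := by linarith
  have hpw : 1 ≤ Pr ^ ((5 : ℝ) / 6 - 1 / 300) := Real.one_le_rpow Pr1 (by norm_num)
  have nee : ∀ x, ‖ee x‖ = 1 := fun x => by rw [ee_eq_ei, norm_ei]
  rcases le_total Xm (D ^ 4) with hs | hs
  · have hT : 1 ≤ R * D ^ 8 := one_le_mul_of_one_le_of_one_le hR (one_le_pow₀ D1)
    refine (core_trivial (x := 0) (A := A) hT (fun n => ?_) (fun n hn i => ?_)).trans ?_
    · rw [norm_mul, nee, mul_one]; exact hWA _
    · obtain ⟨a1, a2⟩ := hW.1 _ (left_ne_zero_of_mul hn) i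
      simp only [Pi.div_apply, zr, mul_one] at a1 a2
      have a3 : 0 < (n i : ℝ) := by
        have : 0 < (n i : ℝ) / P i := lt_of_lt_of_le (by positivity) a1
        exact (div_pos_iff_of_pos_right (P0 i)).1 this
      rw [div_le_iff₀ (P0 i)] at a2
      rw [Pi.zero_apply, sub_zero, abs_of_pos a3]
      refine a2.trans (mul_le_mul_of_nonneg_left ((hP i).2.trans ?_) R0.le)
      calc _ ≤ Xm ^ ((2 : ℕ) : ℝ) := Real.rpow_le_rpow_of_exponent_le hXm (by norm_num)
        _ = Xm ^ 2 := Real.rpow_natCast _ _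
        _ ≤ (D ^ 4) ^ 2 := by gcongr
        _ = D ^ 8 := by ring
    · calc _ = 125 * (R * D ^ 8) ^ 3 * A * 1 := by ring
        _ ≤ _ := by
          gcongr
          exact le_add_of_nonneg_left (by positivity)
  · obtain ⟨X, hX⟩ : ∃ X : ℝ, X = Xm / T0 := ⟨_, rfl⟩
    have hDX : D ≤ Xm := (le_self_pow₀ D1 (by norm_num)).trans hs
    have X1 : 1 ≤ X := by rw [hX, one_le_div T0p]; linarith
    have X0 : 0 < X := by linarith
    have hPX : ∀ i, T0 ≤ P i / X := fun i => by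
      rw [le_div_iff₀ X0, hX, mul_div_cancel₀ _ T0p.ne']; exact (hP i).1
    have hPX' : ∀ i, P i / X ≤ T0 * Xm ^ ((1 : ℝ) / 400) := fun i => by
      rw [div_le_iff₀ X0, hX]
      refine (hP i).2.trans (le_of_eq ?_)
      rw [show (401 : ℝ) / 400 = 1 / 400 + 1 by norm_num, Real.rpow_add_one Xm0.ne']
      field_simp
    set q : Fin 3 → ℕ := fun i => ⌈P i / X⌉₊ with hq
    have q1 : ∀ i, P i / X ≤ q i := fun i => Nat.le_ceil _
    have q2 : ∀ i, (q i : ℝ) ≤ P i / X + 1 := fun i =>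
      (Nat.ceil_lt_add_one (by have := P0 i; positivity)).le
    have q3 : ∀ i, 1 ≤ q i := fun i => by
      have : (1 : ℝ) ≤ q i := hT1.trans ((hPX i).trans (q1 i))
      exact_mod_cast this
    have q0 : ∀ i, (0 : ℝ) < q i := fun i => by exact_mod_cast q3 i
    set B : M3 := Matrix.diagonal fun i => q i * X / P i with hB
    have hnear : NearI (4 * R ^ 2) B := by
      intro i j
      rw [hB, Matrix.diagonal_apply, ← hT0]
      split_ifs with hij
      · have a1 := q1 i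
        have a2 := q2 i
        have a3 := hPX i
        have p0 := P0 i
        rw [div_le_iff₀ X0] at a1
        have e : q i * X / P i - 1 = (q i - P i / X) / (P i / X) := by field_simp
        rw [e, abs_of_nonneg (div_nonneg (by linarith [q1 i]) (by positivity))]
        exact div_le_div₀ zero_le_one (by linarith) T0p a3
      · simp only [sub_zero, abs_zero]; positivity
    obtain ⟨lam, hlam⟩ : ∃ lam : ℝ, lam = (Pr / X ^ 3) ^ ((2 : ℝ) / 3) := ⟨_, rfl⟩
    have ePr : Pr / X ^ 3 = P 0 / X * (P 1 / X) * (P 2 / X) := by rw [hPr]; field_simp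
    have lam1 : 1 ≤ lam := by
      rw [hlam, ePr]
      exact Real.one_le_rpow (one_le_mul_of_one_le_of_one_le (one_le_mul_of_one_le_of_one_le
        (hT1.trans (hPX 0)) (hT1.trans (hPX 1))) (hT1.trans (hPX 2))) (by norm_num)
    have lam2 : lam ≤ (T0 * Xm ^ ((1 : ℝ) / 400)) ^ 2 := by
      have z0 : 0 < T0 * Xm ^ ((1 : ℝ) / 400) := by positivity
      calc lam ≤ ((T0 * Xm ^ ((1 : ℝ) / 400)) ^ 3) ^ ((2 : ℝ) / 3) := by
            rw [hlam]
            refine Real.rpow_le_rpow (by positivity) ?_ (by norm_num)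
            rw [ePr, pow_succ, sq]
            have := hPX' 0; have := hPX' 1; have := hPX' 2
            have := P0 1; have := P0 2
            gcongr
        _ = _ := by
            rw [← Real.rpow_natCast _ 3, ← Real.rpow_mul z0.le, ← Real.rpow_natCast _ 2]; norm_num
    obtain ⟨μ, hμ⟩ : ∃ μ : ℝ, μ = √(|c| / c0 * lam) := ⟨_, rfl⟩
    have cc1 : 1 ≤ |c| / c0 := (one_le_div hc0).2 h0
    have μ1 : 1 ≤ μ := by
      rw [hμ]; exact Real.one_le_sqrt.2 (one_le_mul_of_one_le_of_one_le cc1 lam1)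
    have μ2 : μ ^ 2 = |c| / c0 * lam := by rw [hμ, Real.sq_sqrt (by positivity)]
    have μ3 : μ ^ 280 ≤ X := by
      have a1 : |c| / c0 ≤ (1 + |c1| / c0) ^ 2 := by
        refine le_trans ?_ (le_self_pow₀ hc1 two_ne_zero)
        have : |c| / c0 ≤ |c1| / c0 :=
          div_le_div_of_nonneg_right (h1.trans (le_abs_self _)) hc0.le
        linarith
      have a2 : μ ≤ (1 + |c1| / c0) * T0 * Xm ^ ((1 : ℝ) / 400) := by
        refine le_of_sq_le_sq ?_ (by positivity)
        rw [μ2, mul_assoc, mul_pow]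
        exact mul_le_mul a1 lam2 (by linarith) (by positivity)
      have a3 : (Xm ^ ((1 : ℝ) / 400)) ^ 280 * D ≤ Xm := by
        have b1 : D ≤ Xm ^ ((1 : ℝ) / 4) := by
          calc D = (D ^ 4) ^ ((1 : ℝ) / 4) := by
                rw [← Real.rpow_natCast, ← Real.rpow_mul (by linarith)]; norm_num
            _ ≤ _ := Real.rpow_le_rpow (by positivity) hs (by norm_num)
        calc _ ≤ (Xm ^ ((1 : ℝ) / 400)) ^ 280 * Xm ^ ((1 : ℝ) / 4) := by gcongr
          _ = Xm ^ ((1 : ℝ) / 400 * 280 + 1 / 4) := by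
              rw [← Real.rpow_natCast, ← Real.rpow_mul Xm0.le, ← Real.rpow_add Xm0]; norm_num
          _ ≤ Xm ^ (1 : ℝ) := Real.rpow_le_rpow_of_exponent_le hXm (by norm_num)
          _ = Xm := Real.rpow_one _
      rw [hX, le_div_iff₀ T0p]
      exact (hD _ _ (by linarith) (by positivity) a2).trans a3
    have hW' := bx_wt X0 hW
    have key : ∀ a : V3, ‖∑' m, FF B (c * lam) (fun y => W (X⁻¹ • y)) a m‖ ≤
        (Cp + Cm) * A * X ^ ((5 : ℝ) / 2 - 1 / 70) := by
      intro a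
      rcases le_total 0 c with hc | hc
      · have e : c * lam = μ ^ 2 * c0 := by rw [μ2, abs_of_nonneg hc]; field_simp
        rw [e]
        refine (Hp μ μ1 B hnear X A _ a μ3 hW').trans ?_
        gcongr; linarith
      · have e : c * lam = μ ^ 2 * -c0 := by rw [μ2, abs_of_nonpos hc]; field_simp
        rw [e]
        refine (Hm μ μ1 B hnear X A _ a μ3 hW').trans ?_
        gcongr; linarith
    have fin : Pr / X ^ 3 * X ^ ((5 : ℝ) / 2 - 1 / 70) ≤ T0 * Pr ^ ((5 : ℝ) / 6 - 1 / 300) := by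
      have a1 : Pr ^ ((1 : ℝ) / 6 + 1 / 300) ≤ Xm ^ ((1 : ℝ) / 2 + 1 / 70) := by
        calc _ ≤ ((Xm ^ ((401 : ℝ) / 400)) ^ 3) ^ ((1 : ℝ) / 6 + 1 / 300) := by
              refine Real.rpow_le_rpow Pr0.le ?_ (by norm_num)
              rw [hPr, pow_succ, sq]
              have := (hP 0).2; have := (hP 1).2; have := (hP 2).2
              have := P0 1; have := P0 2
              gcongr
          _ = Xm ^ ((401 : ℝ) / 400 * 3 * (1 / 6 + 1 / 300)) := by
              rw [← Real.rpow_natCast, ← Real.rpow_mul Xm0.le, ← Real.rpow_mul Xm0.le]; norm_num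
          _ ≤ _ := Real.rpow_le_rpow_of_exponent_le hXm (by norm_num)
      have a2 : Xm ^ ((1 : ℝ) / 2 + 1 / 70) ≤ T0 * X ^ ((1 : ℝ) / 2 + 1 / 70) := by
        rw [show Xm = T0 * X by rw [hX]; field_simp, Real.mul_rpow T0p.le X0.le]
        refine mul_le_mul_of_nonneg_right ?_ (by positivity)
        calc _ ≤ T0 ^ (1 : ℝ) := Real.rpow_le_rpow_of_exponent_le hT1 (by norm_num)
          _ = T0 := Real.rpow_one _
      have a3 : X ^ ((5 : ℝ) / 2 - 1 / 70) * X ^ ((1 : ℝ) / 2 + 1 / 70) = X ^ 3 := by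
        rw [← Real.rpow_add X0, ← Real.rpow_natCast]; norm_num
      have a4 : Pr = Pr ^ ((5 : ℝ) / 6 - 1 / 300) * Pr ^ ((1 : ℝ) / 6 + 1 / 300) := by
        rw [← Real.rpow_add Pr0]; norm_num
      rw [div_mul_eq_mul_div, div_le_iff₀ (by positivity), ← a3]
      calc _ = Pr ^ ((5 : ℝ) / 6 - 1 / 300) * Pr ^ ((1 : ℝ) / 6 + 1 / 300) *
            X ^ ((5 : ℝ) / 2 - 1 / 70) := by rw [← a4]
        _ ≤ Pr ^ ((5 : ℝ) / 6 - 1 / 300) * (T0 * X ^ ((1 : ℝ) / 2 + 1 / 70)) *
            X ^ ((5 : ℝ) / 2 - 1 / 70) := by have := a1.trans a2; gcongr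
        _ = _ := by ring
    set F : Z3 → ℂ := fun n => W (zr n / P) * ee (c * ph (zr n)) with hF
    by_cases hsum : Summable F
    swap
    · rw [tsum_eq_zero_of_not_summable hsum, norm_zero]; positivity
    let e := Equiv.ofBijective _ (bx_bij q q3)
    have hs' : Summable (fun x => F (e x)) := (e.summable_iff (f := F)).2 hsum
    rw [← e.tsum_eq, hs'.tsum_prod, tsum_fintype]
    have hk : ∀ r m, F (e (r, m)) =
        FF B (c * lam) (fun y => W (X⁻¹ • y)) (fun i => ((r i : ℕ) : ℝ) / q i) m := by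
      intro r m
      have e1 : ∀ i, (B *ᵥ (zr m + fun i => ((r i : ℕ) : ℝ) / q i)) i =
          X * (zr (e (r, m)) i / P i) := by
        intro i
        have := q0 i; have := P0 i
        simp only [hB, Matrix.mulVec_diagonal, e, zr, Equiv.ofBijective_apply, Pi.add_apply]
        push_cast
        field_simp
        ring
      have e2 : X⁻¹ • (B *ᵥ (zr m + fun i => ((r i : ℕ) : ℝ) / q i)) = zr (e (r, m)) / P := by
        funext i
        rw [Pi.smul_apply, e1, smul_eq_mul, Pi.div_apply, inv_mul_cancel_left₀ X0.ne']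
      simp only [hF, FF, e2]
      by_cases h0 : W (zr (e (r, m)) / P) = 0
      · simp only [h0, zero_mul]
      · have hpos : ∀ i, 0 ≤ zr (e (r, m)) i / P i := fun i =>
          le_trans (by positivity) (hW.1 _ h0 i).1
        congr 2
        rw [mul_assoc c]
        congr 1
        unfold ph
        rw [e1, e1, e1, hlam, ← Real.mul_rpow (by positivity)
          (by have := hpos 0; have := hpos 1; have := hpos 2; positivity), hPr]
        congr 1
        have := P0 0; have := P0 1; have := P0 2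
        field_simp
    simp only [hk]
    refine (norm_sum_le _ _).trans ((Finset.sum_le_sum fun r _ => key _).trans ?_)
    rw [Finset.sum_const, Finset.card_univ, Fintype.card_pi, nsmul_eq_mul]
    simp only [Fintype.card_fin, Fin.prod_univ_three]
    have q4 : ∀ i, (q i : ℝ) ≤ 2 * (P i / X) := fun i => by linarith [q2 i, hPX i]
    have q5 : ((q 0 * q 1 * q 2 : ℕ) : ℝ) ≤ 8 * (Pr / X ^ 3) := by
      push_cast
      calc _ ≤ 2 * (P 0 / X) * (2 * (P 1 / X)) * (2 * (P 2 / X)) := by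
            have := q4 0; have := q4 1; have := q4 2
            have := P0 0; have := P0 1
            gcongr
        _ = _ := by rw [ePr]; ring
    calc _ ≤ 8 * (Pr / X ^ 3) * ((Cp + Cm) * A * X ^ ((5 : ℝ) / 2 - 1 / 70)) := by gcongr
      _ = 8 * (Cp + Cm) * A * (Pr / X ^ 3 * X ^ ((5 : ℝ) / 2 - 1 / 70)) := by ring
      _ ≤ 8 * (Cp + Cm) * A * (T0 * Pr ^ ((5 : ℝ) / 6 - 1 / 300)) := by gcongr
      _ = 8 * T0 * (Cp + Cm) * A * Pr ^ ((5 : ℝ) / 6 - 1 / 300) := by ring
      _ ≤ _ := by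
          gcongr
          exact le_add_of_nonneg_right (by positivity)

end Pool.Agent.CubZ
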