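import Pool.Agent.Lib.MP_d79f69_nt.Z3.Basic
import Pool.Agent.Lib.MP_d79f69_nt.PL

open Matrix MeasureTheory Complex Finset

namespace Pool.Agent.CubZ

open Pool.Agent.CubH

theorem chi1_exp (hS : SSt) : ∃ C : ℝ, 1 ≤ C ∧ ∀ τ : ℝ, 2 * C ≤ τ → ∃ R : ℂ, ‖R‖ ≤ 4 * C / τ ∧
    chi (-(1 / 10) + τ * I) = cexp (((3 / 5 * Real.log (τ / (2 * Real.pi)) : ℝ) : ℂ) -
      ((2 * tht τ : ℝ) : ℂ) * I + R) := by
  obtain ⟨C, hC, H⟩ := plStir hS (-1) 1
  refine ⟨C, hC, fun τ hτ => ?_⟩
  have h0 : 0 < τ := by linarith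
  obtain ⟨R1, b1, e1⟩ := H (11 / 20) (τ / 2) (by norm_num) (by norm_num) (by linarith)
  obtain ⟨R2, b2, e2⟩ := H (-(1 / 20)) (τ / 2) (by norm_num) (by norm_num) (by linarith)
  refine ⟨(starRingEnd ℂ) R1 - R2, ?_, ?_⟩
  · refine (norm_sub_le _ _).trans ?_
    rw [Complex.norm_conj]
    have : 4 * C / τ = C / (τ / 2) + C / (τ / 2) := by field_simp; ring
    linarith
  · have hp : (Real.pi : ℂ) ≠ 0 := Complex.ofReal_ne_zero.mpr Real.pi_ne_zero
    have a1 : (1 - (-(1 / 10) + τ * I) : ℂ) / 2 =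
        (starRingEnd ℂ) (((11 / 20 : ℝ) : ℂ) + ((τ / 2 : ℝ) : ℂ) * I) := by
      rw [map_add, map_mul, Complex.conj_ofReal, Complex.conj_ofReal, Complex.conj_I]
      push_cast; ring
    have a2 : (-(1 / 10) + τ * I : ℂ) / 2 = ((-(1 / 20) : ℝ) : ℂ) + ((τ / 2 : ℝ) : ℂ) * I := by
      push_cast; ring
    have a3 : Real.log (τ / (2 * Real.pi)) = Real.log (τ / 2) - Real.log Real.pi := by
      rw [← Real.log_div (by positivity) Real.pi_ne_zero, div_div]
    unfold chi tht
    rw [Complex.Gammaℝ_def, Complex.Gammaℝ_def, a1, a2, Complex.Gamma_conj, e1, e2,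
      ← Complex.exp_conj, Complex.cpow_def_of_ne_zero hp, Complex.cpow_def_of_ne_zero hp,
      ← Complex.ofReal_log Real.pi_pos.le, ← Complex.exp_add, ← Complex.exp_add,
      ← Complex.exp_neg, ← Complex.exp_add, a3, map_add, map_add, map_mul, Complex.conj_ofReal,
      Complex.conj_ofReal, Complex.conj_I]
    congr 1
    generalize Real.log (τ / 2) = l
    generalize Real.log √(2 * Real.pi) = m
    generalize Real.log Real.pi = k
    push_cast
    ring

theorem chi1_norm_conj (s : ℂ) : ‖Gammaℝ ((starRingEnd ℂ) s)‖ = ‖Gammaℝ s‖ := by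
  have a : (starRingEnd ℂ) s / 2 = (starRingEnd ℂ) (s / 2) := by
    rw [map_div₀, map_ofNat]
  rw [Complex.Gammaℝ_def, Complex.Gammaℝ_def, norm_mul, norm_mul, a, Complex.Gamma_conj,
    Complex.norm_conj, Complex.norm_cpow_eq_rpow_re_of_pos Real.pi_pos,
    Complex.norm_cpow_eq_rpow_re_of_pos Real.pi_pos]
  simp

theorem chi1_neg (τ : ℝ) : ‖chi (-(1 / 10) + ((-τ : ℝ) : ℂ) * I)‖ = ‖chi (-(1 / 10) + τ * I)‖ := by
  have a : (-(1 / 10) + ((-τ : ℝ) : ℂ) * I) = (starRingEnd ℂ) (-(1 / 10) + τ * I) := by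
    simp [map_ofNat]
  have b : (1 - (starRingEnd ℂ) (-(1 / 10) + τ * I) : ℂ) =
      (starRingEnd ℂ) (1 - (-(1 / 10) + τ * I)) := by rw [map_sub, map_one]
  unfold chi
  rw [a, b, norm_mul, norm_mul, norm_inv, norm_inv, chi1_norm_conj, chi1_norm_conj]

theorem chi1_cont : Continuous fun τ : ℝ => chi (-(1 / 10) + τ * I) := by
  have hp : (Real.pi : ℂ) ≠ 0 := Complex.ofReal_ne_zero.mpr Real.pi_ne_zero
  unfold chi
  refine Continuous.mul ?_ (Complex.differentiable_Gammaℝ_inv.continuous.comp (by fun_prop))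
  simp only [Complex.Gammaℝ_def]
  refine Continuous.mul (Continuous.const_cpow (by fun_prop) (Or.inl hp)) ?_
  refine continuous_iff_continuousAt.2 fun τ => ?_
  refine ContinuousAt.comp (g := Complex.Gamma)
    (f := fun τ : ℝ => (1 - (-(1 / 10) + τ * I) : ℂ) / 2)
    (Complex.differentiableAt_Gamma _ fun m hm => ?_).continuousAt (by fun_prop)
  have := congrArg Complex.re hm
  simp at this
  have : (0 : ℝ) ≤ m := Nat.cast_nonneg m
  linarith

theorem chi1_lin (hS : SSt) : ∃ C : ℝ, 0 < C ∧ ∀ τ : ℝ,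
    ‖chi (-(1 / 10) + τ * I)‖ ≤ C * (1 + |τ|) := by
  obtain ⟨C, hC, H⟩ := chi1_exp hS
  obtain ⟨M, hM⟩ := (isCompact_Icc (a := (0 : ℝ)) (b := 2 * C)).exists_bound_of_continuousOn
    chi1_cont.continuousOn
  have he := Real.exp_pos 2
  have key : ∀ τ : ℝ, 0 ≤ τ → ‖chi (-(1 / 10) + τ * I)‖ ≤ (|M| + Real.exp 2) * (1 + τ) := by
    intro τ h0
    rcases le_total τ (2 * C) with h | h
    · have := hM τ ⟨h0, h⟩
      have := le_abs_self M
      have := abs_nonneg M
      nlinarith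
    · obtain ⟨R, hR, e⟩ := H τ h
      have hτ : 0 < τ := by linarith
      have r1 : R.re ≤ 2 := by
        refine (Complex.re_le_norm R).trans (hR.trans ?_)
        rw [div_le_iff₀ hτ]; linarith
      have l1 : 3 / 5 * Real.log (τ / (2 * Real.pi)) ≤ Real.log τ := by
        have p3 := Real.pi_gt_three
        have : Real.log (τ / (2 * Real.pi)) ≤ Real.log τ :=
          Real.log_le_log (by positivity) (div_le_self h0 (by linarith))
        have : 0 ≤ Real.log τ := Real.log_nonneg (by linarith)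
        linarith
      rw [e, Complex.norm_exp]
      have : (((3 / 5 * Real.log (τ / (2 * Real.pi)) : ℝ) : ℂ) -
          ((2 * tht τ : ℝ) : ℂ) * I + R).re ≤ Real.log τ + 2 := by
        rw [Complex.add_re, Complex.sub_re, Complex.ofReal_re, Complex.re_ofReal_mul, Complex.I_re]
        linarith
      refine (Real.exp_le_exp.2 this).trans ?_
      rw [Real.exp_add, Real.exp_log hτ]
      have := abs_nonneg M
      nlinarith
  refine ⟨|M| + Real.exp 2, by positivity, fun τ => ?_⟩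
  rcases le_total 0 τ with h | h
  · rw [abs_of_nonneg h]; exact key τ h
  · rw [abs_of_nonpos h, ← chi1_neg]; exact key (-τ) (by linarith)

theorem chi1_log {t v : ℝ} (ht : 0 < t) (hv : |v| ≤ t / 2) :
    |Real.log (t + v) - Real.log t| ≤ 2 * |v| / t := by
  have h1 := abs_le.1 hv
  have hτ : 0 < t + v := by linarith
  have a1 := Real.log_le_sub_one_of_pos (div_pos hτ ht)
  have a2 := Real.log_le_sub_one_of_pos (div_pos ht hτ)
  rw [Real.log_div hτ.ne' ht.ne'] at a1
  rw [Real.log_div ht.ne' hτ.ne'] at a2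
  have b1 : (t + v) / t - 1 ≤ 2 * |v| / t := by
    rw [div_sub_one ht.ne']
    exact div_le_div_of_nonneg_right (by linarith [le_abs_self v, abs_nonneg v]) ht.le
  have b2 : t / (t + v) - 1 ≤ 2 * |v| / t := by
    rw [div_sub_one hτ.ne', div_le_div_iff₀ hτ ht]
    nlinarith [neg_abs_le v, abs_nonneg v]
  rw [abs_le]
  constructor <;> linarith

theorem chi1_phase {t v : ℝ} (ht : 0 < t) (hτ : 0 < t + v) :
    |2 * tht (t + v) - 2 * tht t - v * Real.log (t / (2 * Real.pi))| ≤ v ^ 2 / t := by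
  have hp := Real.pi_pos
  obtain ⟨a, b⟩ := plLog (t + v) t hτ ht
  rw [add_sub_cancel_left] at a b
  unfold tht
  rw [Real.log_div hτ.ne' (by positivity), Real.log_div ht.ne' (by positivity), abs_le]
  have : 0 ≤ v ^ 2 / t := by positivity
  constructor <;> nlinarith

theorem stChi1 (hS : SSt) : StChi1 := by
  obtain ⟨C, hC, H⟩ := chi1_exp hS
  obtain ⟨D, hD, G⟩ := chi1_lin hS
  obtain ⟨K, hK⟩ : ∃ K : ℝ, K = 8 * C + 2 := ⟨_, rfl⟩
  have K1 : 10 ≤ K := by linarith
  refine ⟨2 * K + (D * (K + 2) + K) * K, by positivity, fun t v ht => ?_⟩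
  have h0 : 0 < t := by linarith
  have p3 := Real.pi_gt_three
  have ez : (1 / 2 + t * I + (-(3 / 5) + v * I) : ℂ) = -(1 / 10) + ((t + v : ℝ) : ℂ) * I := by
    push_cast; ring
  have hw : 1 ≤ 1 + v ^ 2 := by nlinarith
  have hv : 2 * |v| ≤ 1 + v ^ 2 := by nlinarith [sq_nonneg (|v| - 1), sq_abs v]
  have nt : ‖ei (-(2 * tht t)) * pw (t / (2 * Real.pi)) (-(-(3 / 5) + v * I))‖ ≤
      t ^ ((3 : ℝ) / 5) := by
    rw [norm_mul, norm_ei, one_mul, norm_pw (by positivity),
      show (-(-(3 / 5) + v * I) : ℂ).re = 3 / 5 by simp]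
    exact Real.rpow_le_rpow (by positivity) (div_le_self h0.le (by linarith)) (by norm_num)
  have hq : 0 < t ^ (-(2 : ℝ) / 5) := Real.rpow_pos_of_pos h0 _
  have sp : t ^ ((3 : ℝ) / 5) = t * t ^ (-(2 : ℝ) / 5) := by
    rw [mul_comm, ← Real.rpow_add_one h0.ne']; norm_num
  rw [ez]
  rcases le_total (K * (1 + v ^ 2)) t with h | h
  · have hv2 : |v| ≤ t / 2 := by nlinarith
    have h1 := abs_le.1 hv2
    have hτ : 0 < t + v := by linarith
    obtain ⟨R, hR, e⟩ := H (t + v) (by nlinarith)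
    have l1 := chi1_log h0 hv2
    have l2 := chi1_phase h0 hτ
    obtain ⟨E, hE⟩ : ∃ E : ℂ, E = ((3 / 5 * (Real.log (t + v) - Real.log t) : ℝ) : ℂ) -
      ((2 * tht (t + v) - 2 * tht t - v * Real.log (t / (2 * Real.pi)) : ℝ) : ℂ) * I + R := ⟨_, rfl⟩
    have e2 : chi (-(1 / 10) + ((t + v : ℝ) : ℂ) * I) =
        ei (-(2 * tht t)) * pw (t / (2 * Real.pi)) (-(-(3 / 5) + v * I)) * cexp E := by
      rw [e, hE]
      unfold ei pw
      rw [← Complex.exp_add, ← Complex.exp_add, Real.log_div hτ.ne' (by positivity),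
        Real.log_div h0.ne' (by positivity)]
      congr 1
      generalize Real.log (t + v) = l
      generalize tht (t + v) = m
      push_cast
      ring
    have nE : ‖E‖ ≤ K * (1 + v ^ 2) / t := by
      rw [hE]
      refine (norm_add_le _ _).trans ((add_le_add (norm_sub_le _ _) hR).trans ?_)
      rw [norm_mul, Complex.norm_I, mul_one, Complex.norm_real, Complex.norm_real,
        Real.norm_eq_abs, Real.norm_eq_abs, abs_mul, abs_of_pos (by norm_num : (0 : ℝ) < 3 / 5)]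
      have c1 : 4 * C / (t + v) ≤ 8 * C * (1 + v ^ 2) / t := by
        rw [div_le_div_iff₀ hτ h0]
        have : t ≤ 2 * (t + v) := by linarith
        have : 2 * (t + v) ≤ 2 * (t + v) * (1 + v ^ 2) := le_mul_of_one_le_right (by linarith) hw
        nlinarith
      have c2 : 2 * |v| / t ≤ (1 + v ^ 2) / t := div_le_div_of_nonneg_right hv h0.le
      have c3 : v ^ 2 / t ≤ (1 + v ^ 2) / t := div_le_div_of_nonneg_right (by linarith) h0.le
      have c4 : K * (1 + v ^ 2) / t = 8 * C * (1 + v ^ 2) / t + 2 * ((1 + v ^ 2) / t) := by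
        rw [hK]; ring
      have := abs_nonneg (Real.log (t + v) - Real.log t)
      linarith
    have nE1 : ‖E‖ ≤ 1 := nE.trans (by rw [div_le_one h0]; exact h)
    rw [e2, ← mul_sub_one, norm_mul]
    calc _ ≤ t ^ ((3 : ℝ) / 5) * (2 * (K * (1 + v ^ 2) / t)) :=
          mul_le_mul nt ((Complex.norm_exp_sub_one_le nE1).trans (by linarith)) (norm_nonneg _)
            (by positivity)
      _ = 2 * K * (1 + v ^ 2) * t ^ (-(2 : ℝ) / 5) := by rw [sp]; field_simp
      _ ≤ _ := by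
          refine mul_le_mul_of_nonneg_right ?_ hq.le
          refine mul_le_mul (le_add_of_nonneg_right (by positivity)) (by nlinarith) (by positivity)
            (by positivity)
  · have t1 : t ^ ((3 : ℝ) / 5) ≤ t := by
      conv_rhs => rw [← Real.rpow_one t]
      exact Real.rpow_le_rpow_of_exponent_le ht (by norm_num)
    have t2 : 1 ≤ t * t ^ (-(2 : ℝ) / 5) := sp ▸ Real.one_le_rpow ht (by norm_num)
    have t3 : 1 ≤ K * (1 + v ^ 2) * t ^ (-(2 : ℝ) / 5) :=
      t2.trans (mul_le_mul_of_nonneg_right h hq.le)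
    have c1 : 1 + |t + v| ≤ (K + 2) * (1 + v ^ 2) := by
      have := abs_add_le t v
      rw [abs_of_pos h0] at this
      have := abs_nonneg v
      nlinarith
    have c2 := (G (t + v)).trans (mul_le_mul_of_nonneg_left c1 hD.le)
    calc _ ≤ D * ((K + 2) * (1 + v ^ 2)) + K * (1 + v ^ 2) :=
          (norm_sub_le _ _).trans (add_le_add c2 (nt.trans (t1.trans h)))
      _ = (D * (K + 2) + K) * (1 + v ^ 2) * 1 := by ring
      _ ≤ (D * (K + 2) + K) * (1 + v ^ 2) * (K * (1 + v ^ 2) * t ^ (-(2 : ℝ) / 5)) :=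
          mul_le_mul_of_nonneg_left t3 (by positivity)
      _ = (D * (K + 2) + K) * K * (1 + v ^ 2) ^ 2 * t ^ (-(2 : ℝ) / 5) := by ring
      _ ≤ _ := by
          refine mul_le_mul_of_nonneg_right (mul_le_mul_of_nonneg_right ?_ (by positivity)) hq.le
          exact le_add_of_nonneg_left (by positivity)

end Pool.Agent.CubZ
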