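import Pool.Agent.Lib.MP_d79f69_nt.Z3.Basic
import Pool.Agent.Lib.MP_d79f69_nt.PL

open Matrix MeasureTheory Complex Finset

namespace Pool.Agent.CubZ

open Pool.Agent.CubH

theorem chi2_exp (E : ℂ) : cexp E / (‖cexp E‖ : ℝ) = ei E.im := by
  rw [Complex.norm_exp, Complex.ofReal_exp, ← Complex.exp_sub]
  unfold ei
  congr 1
  apply Complex.ext <;> simp

theorem stChi2 (hS : SSt) : StChi2 := by
  intro α
  obtain ⟨C, hC, H⟩ := plStir hS (1 / 4) (1 / 4)
  have hp := Real.pi_pos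
  have ha := abs_nonneg α
  refine ⟨2 * (2 * |α| + 4 * C) + α ^ 2, by positivity, fun t ht => ?_⟩
  have ht0 : 0 < t := by linarith
  have e0 : (α / 2 * I : ℂ) = ((α / 2 : ℝ) : ℂ) * I := by push_cast; ring
  rw [e0, pw_I, ← ei_add]
  rcases le_total t (2 * |α| + 4 * C) with h | h
  · refine (norm_sub_le _ _).trans ?_
    rw [norm_ei, norm_div, Complex.norm_real, norm_norm, le_div_iff₀ ht0]
    have := div_self_le_one ‖Gammaℝ (1 / 2 + ((t + α : ℝ) : ℂ) * I)‖
    nlinarith [sq_nonneg α]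
  have hu : t / 4 ≤ (t + α) / 2 := by linarith [neg_abs_le α]
  obtain ⟨R, hR, e⟩ := H (1 / 4) ((t + α) / 2) le_rfl le_rfl (by linarith)
  have e1 : (1 / 2 + ((t + α : ℝ) : ℂ) * I) / 2 =
      ((1 / 4 : ℝ) : ℂ) + (((t + α) / 2 : ℝ) : ℂ) * I := by push_cast; ring
  rw [Gammaℝ_def, neg_div, e1, e, ← pw_eq_cpow hp, pw, ← Complex.exp_add, chi2_exp]
  refine (norm_ei_sub _ _).trans ?_
  obtain ⟨h1, h2⟩ := plLog ((t + α) / 2) (t / 2) (by linarith) (by linarith)
  have e2 : Real.log (t / (2 * Real.pi)) = Real.log (t / 2) - Real.log Real.pi := by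
    rw [← Real.log_div (by positivity) hp.ne', div_div]
  have h3 : |R.im| ≤ 4 * C / t := (Complex.abs_im_le_norm R).trans (hR.trans (by
    rw [div_le_div_iff₀ (by linarith) ht0]
    nlinarith))
  have e3 : ((t + α) / 2 - t / 2) ^ 2 / (t / 2) = α ^ 2 / 2 / t := by field_simp; ring
  have h4 : α ^ 2 / 2 / t + 4 * C / t ≤ (2 * (2 * |α| + 4 * C) + α ^ 2) / t := by
    rw [← add_div]
    exact div_le_div_of_nonneg_right (by nlinarith [sq_nonneg α]) ht0.le
  have h5 : 0 ≤ α ^ 2 / 2 / t := by positivity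
  rw [e3] at h2
  simp only [tht, e2, Complex.add_im, Complex.mul_im, Complex.neg_im, Complex.neg_re,
    Complex.ofReal_re, Complex.ofReal_im, Complex.I_re, Complex.I_im, Complex.add_re,
    Complex.mul_re]
  rw [abs_le] at h3 ⊢
  constructor <;> nlinarith [h3.1, h3.2]

end Pool.Agent.CubZ
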