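import Pool.Agent.Lib.MP_d79f69_nt.Z3.Basic

open Matrix MeasureTheory Complex Finset

namespace Pool.Agent.CubZ

open Pool.Agent.CubH

lemma cnt_round {θ Δ : ℝ} (hΔ : Δ ≤ 1 / 2) (h1 : |θ - round θ| ≤ Δ) (h2 : round θ ≠ 0) :
    1 ≤ (round θ).natAbs ∧ ((round θ).natAbs : ℝ) ≤ 2 * |θ| ∧
      |((round θ).natAbs : ℝ) - (|θ|)| ≤ Δ := by
  have e : ((round θ).natAbs : ℝ) = |(round θ : ℝ)| := by
    rw [← Int.cast_abs, ← Int.natCast_natAbs, Int.cast_natCast]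
  have k1 : 1 ≤ (round θ).natAbs := Int.natAbs_pos.2 h2
  have k2 : (1 : ℝ) ≤ (round θ).natAbs := by exact_mod_cast k1
  have k3 : |((round θ).natAbs : ℝ) - (|θ|)| ≤ Δ := by
    rw [e]
    refine (abs_abs_sub_abs_le_abs_sub _ _).trans ?_
    rwa [abs_sub_comm]
  refine ⟨k1, ?_, k3⟩
  have := (abs_le.1 k3).2
  linarith

lemma cnt_A {K H : ℕ} {Δ : ℝ} (hH : 1 ≤ H) (hΔ : 0 < Δ) :
    #{q ∈ (Icc 1 K ×ˢ Ico H (2 * H)) ×ˢ (Icc 1 K ×ˢ Ico H (2 * H)) |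
      |(q.1.1 : ℝ) / q.1.2 - (q.2.1 : ℝ) / q.2.2| ≤ Δ / H} ≤
    #{q ∈ (Icc 1 K ×ˢ Icc 1 (2 * H)) ×ˢ (Icc 1 K ×ˢ Icc 1 (2 * H)) |
      |(q.1.1 : ℝ) * q.2.2 - q.2.1 * q.1.2| ≤ 4 * (H * Δ)} := by
  refine card_le_card fun q hq => ?_
  simp only [mem_filter, mem_product, mem_Icc, mem_Ico] at hq ⊢
  obtain ⟨⟨⟨a1, a2, a3⟩, b1, b2, b3⟩, h⟩ := hq
  refine ⟨⟨⟨a1, by omega, by omega⟩, b1, by omega, by omega⟩, ?_⟩
  have H0 : (0 : ℝ) < H := by exact_mod_cast hH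
  have p1 : (H : ℝ) ≤ q.1.2 := by exact_mod_cast a2
  have p2 : (q.1.2 : ℝ) ≤ 2 * H := by exact_mod_cast a3.le
  have p3 : (H : ℝ) ≤ q.2.2 := by exact_mod_cast b2
  have p4 : (q.2.2 : ℝ) ≤ 2 * H := by exact_mod_cast b3.le
  have z1 : (0 : ℝ) < q.1.2 := by linarith
  have z2 : (0 : ℝ) < q.2.2 := by linarith
  have e : (q.1.1 : ℝ) * q.2.2 - q.2.1 * q.1.2 =
      ((q.1.1 : ℝ) / q.1.2 - (q.2.1 : ℝ) / q.2.2) * (q.1.2 * q.2.2) := by field_simp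
  rw [e, abs_mul, abs_of_pos (mul_pos z1 z2)]
  calc _ ≤ Δ / H * (2 * H * (2 * H)) := by gcongr
    _ = _ := by field_simp; ring

lemma cnt_B {H X Y : ℕ} {Δ b β0 : ℝ} (hH : 1 ≤ H) (hX : 1 ≤ X) (hY : 1 ≤ Y) (hΔ : 0 < Δ)
    (h0 : 0 < β0) (hb : β0 ≤ b) :
    #{q ∈ (Ico X (2 * X) ×ˢ Ico Y (2 * Y)) ×ˢ (Ico X (2 * X) ×ˢ Ico Y (2 * Y)) |
      |b * ((q.1.1 : ℝ) / q.1.2) ^ 2 - b * ((q.2.1 : ℝ) / q.2.2) ^ 2| ≤ Δ / H} ≤
    #{q ∈ (Icc 1 (2 * X) ×ˢ Icc 1 (2 * Y)) ×ˢ (Icc 1 (2 * X) ×ˢ Icc 1 (2 * Y)) |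
      |(q.1.1 : ℝ) * q.2.2 - q.2.1 * q.1.2| ≤ 4 * Δ * (Y : ℝ) ^ 3 / (β0 * H * X)} := by
  refine card_le_card fun q hq => ?_
  simp only [mem_filter, mem_product, mem_Icc, mem_Ico] at hq ⊢
  obtain ⟨⟨⟨⟨a1, a2⟩, a3, a4⟩, ⟨b1, b2⟩, b3, b4⟩, h⟩ := hq
  refine ⟨⟨⟨⟨by omega, by omega⟩, by omega, by omega⟩, ⟨by omega, by omega⟩, by omega,
    by omega⟩, ?_⟩
  have H0 : (0 : ℝ) < H := by exact_mod_cast hH
  have X0 : (0 : ℝ) < X := by exact_mod_cast hX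
  have Y0 : (0 : ℝ) < Y := by exact_mod_cast hY
  have p1 : (X : ℝ) ≤ q.1.1 := by exact_mod_cast a1
  have p2 : (X : ℝ) ≤ q.2.1 := by exact_mod_cast b1
  have p3 : (Y : ℝ) ≤ q.1.2 := by exact_mod_cast a3
  have p4 : (q.1.2 : ℝ) ≤ 2 * Y := by exact_mod_cast a4.le
  have p5 : (Y : ℝ) ≤ q.2.2 := by exact_mod_cast b3
  have p6 : (q.2.2 : ℝ) ≤ 2 * Y := by exact_mod_cast b4.le
  have z1 : (0 : ℝ) < q.1.2 := by linarith
  have z2 : (0 : ℝ) < q.2.2 := by linarith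
  have z3 : (0 : ℝ) < q.1.1 := by linarith
  have z4 : (0 : ℝ) < q.2.1 := by linarith
  set r : ℝ := (q.1.1 : ℝ) / q.1.2 with hr
  set s : ℝ := (q.2.1 : ℝ) / q.2.2 with hs
  have r1 : (X : ℝ) / (2 * Y) ≤ r := by rw [hr]; gcongr
  have s1 : (X : ℝ) / (2 * Y) ≤ s := by rw [hs]; gcongr
  have e0 : (X : ℝ) / Y = X / (2 * Y) + X / (2 * Y) := by field_simp; ring
  have u0 : 0 < (X : ℝ) / Y := by positivity
  have u1 : (X : ℝ) / Y ≤ r + s := by linarith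
  have e1 : b * r ^ 2 - b * s ^ 2 = (r - s) * (b * (r + s)) := by ring
  have b0 : 0 < b := by linarith
  rw [e1, abs_mul, abs_of_pos (mul_pos b0 (by linarith))] at h
  have u2 : |r - s| * (β0 * (X / Y)) ≤ Δ / H := le_trans (by gcongr) h
  have u3 : |r - s| ≤ Δ / H / (β0 * (X / Y)) := by rwa [le_div_iff₀ (by positivity)]
  have e : (q.1.1 : ℝ) * q.2.2 - q.2.1 * q.1.2 = (r - s) * (q.1.2 * q.2.2) := by
    rw [hr, hs]; field_simp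
  rw [e, abs_mul, abs_of_pos (mul_pos z1 z2)]
  calc _ ≤ Δ / H / (β0 * (X / Y)) * (2 * Y * (2 * Y)) := by gcongr
    _ = _ := by field_simp; ring

lemma cnt_inj {H X Y : ℕ} {β Δ b1 : ℝ} (hH : 1 ≤ H) (hY : 1 ≤ Y) (hΔ0 : 0 < Δ)
    (hΔ : Δ ≤ 1 / 2) (hb : |β| ≤ b1) :
    #{q ∈ Ico H (2 * H) ×ˢ Ico X (2 * X) ×ˢ Ico Y (2 * Y) |
        |β * q.1 * (q.2.1 : ℝ) ^ 2 / (q.2.2 : ℝ) ^ 2 -
          round (β * q.1 * (q.2.1 : ℝ) ^ 2 / (q.2.2 : ℝ) ^ 2)| ≤ Δ ∧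
        round (β * q.1 * (q.2.1 : ℝ) ^ 2 / (q.2.2 : ℝ) ^ 2) ≠ 0} ≤
    #{q ∈ (Icc 1 ⌊16 * b1 * H * (X : ℝ) ^ 2 / (Y : ℝ) ^ 2⌋₊ ×ˢ Ico H (2 * H)) ×ˢ
        (Ico X (2 * X) ×ˢ Ico Y (2 * Y)) |
      |(q.1.1 : ℝ) / q.1.2 - |β| * ((q.2.1 : ℝ) / q.2.2) ^ 2| ≤ Δ / H} := by
  refine card_le_card_of_injOn (fun q => (((round (β * q.1 * (q.2.1 : ℝ) ^ 2 /
    (q.2.2 : ℝ) ^ 2)).natAbs, q.1), q.2)) (fun q hq => ?_) (fun q _ q' _ h => ?_)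
  · simp only [coe_filter, mem_product, mem_Icc, mem_Ico, Set.mem_ofPred_eq] at hq ⊢
    obtain ⟨⟨⟨a1, a2⟩, ⟨b1', b2⟩, c1, c2⟩, h1, h2⟩ := hq
    obtain ⟨k1, k2, k3⟩ := cnt_round hΔ h1 h2
    have H0 : (0 : ℝ) < H := by exact_mod_cast hH
    have Y0 : (0 : ℝ) < Y := by exact_mod_cast hY
    have p1 : (H : ℝ) ≤ q.1 := by exact_mod_cast a1
    have p2 : (q.1 : ℝ) ≤ 2 * H := by exact_mod_cast a2.le
    have p3 : (q.2.1 : ℝ) ≤ 2 * X := by exact_mod_cast b2.le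
    have p4 : (Y : ℝ) ≤ q.2.2 := by exact_mod_cast c1
    have z1 : (0 : ℝ) < q.1 := by linarith
    have z2 : (0 : ℝ) < q.2.2 := by linarith
    have hb0 : 0 ≤ b1 := (abs_nonneg β).trans hb
    have e : |β * q.1 * (q.2.1 : ℝ) ^ 2 / (q.2.2 : ℝ) ^ 2| =
        |β| * q.1 * (q.2.1 : ℝ) ^ 2 / (q.2.2 : ℝ) ^ 2 := by
      rw [abs_div, abs_mul, abs_mul, abs_of_pos z1, abs_of_nonneg (sq_nonneg (q.2.1 : ℝ)),
        abs_of_nonneg (sq_nonneg (q.2.2 : ℝ))]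
    rw [e] at k2 k3
    refine ⟨⟨⟨⟨k1, Nat.le_floor (k2.trans ?_)⟩, a1, a2⟩, ⟨b1', b2⟩, c1, c2⟩, ?_⟩
    · calc _ ≤ 2 * (b1 * (2 * H) * (2 * X : ℝ) ^ 2 / (Y : ℝ) ^ 2) := by gcongr
        _ = _ := by ring
    · generalize ((round (β * q.1 * (q.2.1 : ℝ) ^ 2 / (q.2.2 : ℝ) ^ 2)).natAbs : ℝ) = k at k3 ⊢
      have e2 : k / q.1 - |β| * ((q.2.1 : ℝ) / q.2.2) ^ 2 =
          (k - |β| * q.1 * (q.2.1 : ℝ) ^ 2 / (q.2.2 : ℝ) ^ 2) / q.1 := by field_simp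
      rw [e2, abs_div, abs_of_pos z1]
      gcongr
  · simp only [Prod.mk.injEq] at h
    exact Prod.ext h.1.2 h.2

lemma cnt_num {C e η b1 β0 Δ K H X Y EA EB : ℝ} (hC : 0 < C) (he : 0 < e) (hη : 3 * e ≤ 2 * η)
    (hb1 : 1 ≤ b1) (h0 : 0 < β0) (hΔ : 0 < Δ) (hK0 : 0 < K) (hH : 1 ≤ H) (hX : 1 ≤ X) (hY : 1 ≤ Y)
    (hK : K ≤ 16 * b1 * H * X ^ 2 / Y ^ 2) (hA0 : 0 ≤ EA) (hB0 : 0 ≤ EB)
    (hA : EA ≤ C * (K * (2 * H)) ^ (1 + e) * (1 + 4 * (H * Δ)))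
    (hB : EB ≤ C * (2 * X * (2 * Y)) ^ (1 + e) * (1 + 4 * Δ * Y ^ 3 / (β0 * H * X))) :
    √EA * √EB ≤ √(C ^ 2 * (32 * b1 * (32 * b1) ^ e) * (4 * 4 ^ e) * 4 * (1 + 4 / β0)) *
      (H * X * Y) ^ η * ((H + H * √(H * Δ)) * (X * √X / √Y) + (√(H * Δ) + H * Δ) * (X * Y)) := by
  have H0 : 0 < H := by linarith
  have X0 : 0 < X := by linarith
  have Y0 : 0 < Y := by linarith
  set P := H * X * Y with hP
  have HX : 1 ≤ H * X := one_le_mul_of_one_le_of_one_le hH hX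
  have P1 : 1 ≤ P := one_le_mul_of_one_le_of_one_le HX hY
  have P0 : 0 < P := by linarith
  set s := √(H * Δ) with hs
  have s0 : 0 ≤ s := Real.sqrt_nonneg _
  have ss : H * Δ = s ^ 2 := (Real.sq_sqrt (by positivity)).symm
  set a := H * (X * √X / √Y) with ha
  have a0 : 0 ≤ a := by positivity
  have aa : a ^ 2 = H ^ 2 * X ^ 3 / Y := by
    rw [ha, mul_pow, div_pow, mul_pow, Real.sq_sqrt X0.le, Real.sq_sqrt Y0.le]; ring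
  have k1 : K * (2 * H) ≤ 32 * b1 * (H ^ 2 * X ^ 2 / Y ^ 2) := by
    calc _ ≤ 16 * b1 * H * X ^ 2 / Y ^ 2 * (2 * H) := by gcongr
      _ = _ := by ring
  have k2 : K * (2 * H) ≤ 32 * b1 * (P * P) := by
    refine k1.trans ?_
    gcongr
    calc H ^ 2 * X ^ 2 / Y ^ 2 ≤ H ^ 2 * X ^ 2 := div_le_self (by positivity) (one_le_pow₀ hY)
      _ = (H * X) * (H * X) := by ring
      _ ≤ P * P := by
          have : H * X ≤ P := le_mul_of_one_le_right (by positivity) hY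
          gcongr
  have k3 : (K * (2 * H)) ^ (1 + e) ≤
      32 * b1 * (H ^ 2 * X ^ 2 / Y ^ 2) * ((32 * b1) ^ e * (P ^ e * P ^ e)) := by
    rw [Real.rpow_add (by positivity), Real.rpow_one, ← Real.mul_rpow P0.le P0.le,
      ← Real.mul_rpow (by positivity) (by positivity)]
    gcongr
  have k4 : (2 * X * (2 * Y)) ^ (1 + e) ≤ 4 * (X * Y) * (4 ^ e * P ^ e) := by
    rw [Real.rpow_add (by positivity), Real.rpow_one,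
      ← Real.mul_rpow (by positivity) (by positivity)]
    have : 2 * X * (2 * Y) ≤ 4 * P := by
      have : X * Y ≤ H * (X * Y) := le_mul_of_one_le_left (by positivity) hH
      rw [hP]; linarith
    refine mul_le_mul (le_of_eq (by ring)) (by gcongr) (by positivity) (by positivity)
  have k5 : P ^ e * P ^ e * P ^ e ≤ (P ^ η) ^ 2 := by
    rw [← Real.rpow_add P0, ← Real.rpow_add P0, sq, ← Real.rpow_add P0]
    exact Real.rpow_le_rpow_of_exponent_le P1 (by linarith)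
  have k6 : 1 + 4 * (H * Δ) ≤ 4 * (1 + s) ^ 2 := by rw [ss]; nlinarith
  have k7 : H ^ 2 * X ^ 2 / Y ^ 2 * (X * Y) * (1 + 4 * Δ * Y ^ 3 / (β0 * H * X)) ≤
      (1 + 4 / β0) * (a + s * (X * Y)) ^ 2 := by
    have e1 : H ^ 2 * X ^ 2 / Y ^ 2 * (X * Y) * (1 + 4 * Δ * Y ^ 3 / (β0 * H * X)) =
        a ^ 2 + 4 / β0 * (s * (X * Y)) ^ 2 := by
      rw [aa, mul_pow s, ← ss]; field_simp
    rw [e1]
    have t0 : 0 ≤ s * (X * Y) := by positivity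
    have t1 : 0 ≤ 4 / β0 := by positivity
    generalize s * (X * Y) = t at t0 ⊢
    generalize 4 / β0 = w at t1 ⊢
    have : 0 ≤ a * t := mul_nonneg a0 t0
    have : 0 ≤ w * (a * t) := mul_nonneg t1 this
    have : 0 ≤ w * a ^ 2 := by positivity
    nlinarith [sq_nonneg t]
  have e2 : (H + H * s) * (X * √X / √Y) + (s + H * Δ) * (X * Y) =
      (1 + s) * (a + s * (X * Y)) := by rw [ss, ha]; ring
  rw [e2, ← Real.sqrt_mul hA0]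
  set D := C ^ 2 * (32 * b1 * (32 * b1) ^ e) * (4 * 4 ^ e) * 4 * (1 + 4 / β0) with hD
  have D0 : 0 ≤ D := by positivity
  refine Real.sqrt_le_iff.2 ⟨by positivity, ?_⟩
  rw [mul_pow, mul_pow, Real.sq_sqrt D0, mul_pow]
  calc EA * EB ≤ (C * (32 * b1 * (H ^ 2 * X ^ 2 / Y ^ 2) * ((32 * b1) ^ e * (P ^ e * P ^ e))) *
        (4 * (1 + s) ^ 2)) * (C * (4 * (X * Y) * (4 ^ e * P ^ e)) *
        (1 + 4 * Δ * Y ^ 3 / (β0 * H * X))) := by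
        refine mul_le_mul (hA.trans ?_) (hB.trans ?_) hB0 (by positivity)
        · gcongr
        · gcongr
    _ = C ^ 2 * (32 * b1 * (32 * b1) ^ e) * (4 * 4 ^ e) * 4 * (P ^ e * P ^ e * P ^ e) *
        ((1 + s) ^ 2 * (H ^ 2 * X ^ 2 / Y ^ 2 * (X * Y) *
          (1 + 4 * Δ * Y ^ 3 / (β0 * H * X)))) := by ring
    _ ≤ C ^ 2 * (32 * b1 * (32 * b1) ^ e) * (4 * 4 ^ e) * 4 * (P ^ η) ^ 2 *
        ((1 + s) ^ 2 * ((1 + 4 / β0) * (a + s * (X * Y)) ^ 2)) := by gcongr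
    _ = _ := by rw [hD]; ring

theorem stCnt (hD : StDv) (hC : StCp) : StCnt := by
  intro η β0 β1 hη h0
  obtain ⟨C, hC0, HD⟩ := hD (η / 2) (by linarith)
  have hb1 : 1 ≤ |β1| + 1 := by linarith [abs_nonneg β1]
  refine ⟨3 * √(C ^ 2 * (32 * (|β1| + 1) * (32 * (|β1| + 1)) ^ (η / 2)) * (4 * 4 ^ (η / 2)) * 4 *
    (1 + 4 / β0)), by positivity, ?_⟩
  intro β Δ H X Y l0 l1 hΔ0 hΔ hH hX hY
  have l2 : |β| ≤ |β1| + 1 := by linarith [le_abs_self β1]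
  have i1 := cnt_inj (X := X) hH hY hΔ0 hΔ l2
  set K := ⌊16 * (|β1| + 1) * H * (X : ℝ) ^ 2 / (Y : ℝ) ^ 2⌋₊ with hK
  have H1 : (1 : ℝ) ≤ H := by exact_mod_cast hH
  have X1 : (1 : ℝ) ≤ X := by exact_mod_cast hX
  have Y1 : (1 : ℝ) ≤ Y := by exact_mod_cast hY
  refine le_trans (Nat.cast_le.2 i1) ?_
  rcases Nat.eq_zero_or_pos K with k0 | k0
  · rw [k0]
    simp only [show Icc 1 0 = (∅ : Finset ℕ) from rfl, empty_product, filter_empty, card_empty,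
      Nat.cast_zero]
    positivity
  · have i2 := hC (ℕ × ℕ) (ℕ × ℕ) (Icc 1 K ×ˢ Ico H (2 * H)) (Ico X (2 * X) ×ˢ Ico Y (2 * Y))
      (fun p => (p.1 : ℝ) / p.2) (fun p => |β| * ((p.1 : ℝ) / p.2) ^ 2) (Δ / H) (by positivity)
    have i3 := le_trans (Nat.cast_le.2 (cnt_A (K := K) hH hΔ0))
      (HD K (2 * H) (4 * (H * Δ)) k0 (by omega) (by positivity))
    have i4 := le_trans (Nat.cast_le.2 (cnt_B hH hX hY hΔ0 h0 l0))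
      (HD (2 * X) (2 * Y) (4 * Δ * (Y : ℝ) ^ 3 / (β0 * H * X)) (by omega) (by omega)
        (by positivity))
    push_cast at i3 i4
    have i5 := cnt_num (η := η) hC0 (by linarith) (by linarith) hb1 h0 hΔ0
      (Nat.cast_pos.2 k0) H1 X1 Y1 (Nat.floor_le (by positivity)) (Nat.cast_nonneg _)
      (Nat.cast_nonneg _) i3 i4
    refine i2.trans ?_
    rw [mul_assoc, mul_assoc, mul_assoc]
    refine mul_le_mul_of_nonneg_left (i5.trans (le_of_eq ?_)) (by norm_num)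
    ring

end Pool.Agent.CubZ
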