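import Pool.Agent.Lib.MP_d79f69_nt.Z3.Basic

open Matrix MeasureTheory Complex Finset

namespace Pool.Agent.CubZ

open Pool.Agent.CubH

theorem cp_count {ι κ : Type} (S : Finset ι) (T : Finset κ) (a : ι → ℤ) (b : κ → ℤ)
    (Z : Finset ℤ) (hZ : ∀ i ∈ S, a i ∈ Z) :
    #{q ∈ S ×ˢ T | a q.1 = b q.2} = ∑ z ∈ Z, #{i ∈ S | a i = z} * #{j ∈ T | b j = z} := by
  rw [Finset.card_eq_sum_card_fiberwise (f := fun q : ι × κ => a q.1) (t := Z)]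
  · refine Finset.sum_congr rfl fun z _ => ?_
    rw [← Finset.card_product]
    congr 1
    ext q
    simp only [Finset.mem_filter, Finset.mem_product]
    constructor
    · rintro ⟨⟨⟨h1, h2⟩, h3⟩, h4⟩
      exact ⟨⟨h1, h4⟩, h2, h3 ▸ h4⟩
    · rintro ⟨⟨h1, h4⟩, h2, h3⟩
      exact ⟨⟨⟨h1, h2⟩, h4.trans h3.symm⟩, h4⟩
  · intro q hq
    exact hZ _ (Finset.mem_product.1 (Finset.mem_filter.1 (Finset.mem_coe.1 hq)).1).1

theorem cp_cs {ι κ : Type} (S : Finset ι) (T : Finset κ) (a : ι → ℤ) (b : κ → ℤ) :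
    (#{q ∈ S ×ˢ T | a q.1 = b q.2} : ℝ) ≤
      √(#{q ∈ S ×ˢ S | a q.1 = a q.2}) * √(#{q ∈ T ×ˢ T | b q.1 = b q.2}) := by
  have h1 : ∀ i ∈ S, a i ∈ S.image a ∪ T.image b := fun i hi =>
    Finset.mem_union_left _ (Finset.mem_image_of_mem a hi)
  have h2 : ∀ j ∈ T, b j ∈ S.image a ∪ T.image b := fun j hj =>
    Finset.mem_union_right _ (Finset.mem_image_of_mem b hj)
  rw [cp_count S T a b _ h1, cp_count S S a a _ h1, cp_count T T b b _ h2]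
  push_cast
  simp only [← sq]
  exact Real.sum_mul_le_sqrt_mul_sqrt _ _ _

theorem cp_same {ι : Type} (S : Finset ι) (f : ι → ℝ) {ρ : ℝ} (hρ : 0 < ρ) (s : ℤ) :
    √(#{q ∈ S ×ˢ S | ⌊f q.1 / ρ⌋ + s = ⌊f q.2 / ρ⌋ + s}) ≤
      √(#{q ∈ S ×ˢ S | |f q.1 - f q.2| ≤ ρ}) := by
  refine Real.sqrt_le_sqrt (Nat.cast_le.2 (Finset.card_le_card fun q hq => ?_))
  rw [Finset.mem_filter] at hq ⊢
  refine ⟨hq.1, ?_⟩
  have h := Int.abs_sub_lt_one_of_floor_eq_floor (add_right_cancel hq.2)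
  rw [← sub_div, abs_div, abs_of_pos hρ, div_lt_one hρ] at h
  exact h.le

theorem stCp : StCp := by
  intro ι κ S T f g ρ hρ
  classical
  have key : ∀ s : ℤ, (#{q ∈ S ×ˢ T | ⌊f q.1 / ρ⌋ + 0 = ⌊g q.2 / ρ⌋ + s} : ℝ) ≤
      √(#{q ∈ S ×ˢ S | |f q.1 - f q.2| ≤ ρ}) * √(#{q ∈ T ×ˢ T | |g q.1 - g q.2| ≤ ρ}) := fun s =>
    (cp_cs S T (fun i => ⌊f i / ρ⌋ + 0) fun j => ⌊g j / ρ⌋ + s).trans
      (mul_le_mul (cp_same S f hρ 0) (cp_same T g hρ s) (Real.sqrt_nonneg _) (Real.sqrt_nonneg _))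
  have hsub : {q ∈ S ×ˢ T | |f q.1 - g q.2| ≤ ρ} ⊆
      ({q ∈ S ×ˢ T | ⌊f q.1 / ρ⌋ + 0 = ⌊g q.2 / ρ⌋ + (-1)} ∪
        {q ∈ S ×ˢ T | ⌊f q.1 / ρ⌋ + 0 = ⌊g q.2 / ρ⌋ + 0}) ∪
        {q ∈ S ×ˢ T | ⌊f q.1 / ρ⌋ + 0 = ⌊g q.2 / ρ⌋ + 1} := by
    intro q hq
    rw [Finset.mem_filter] at hq
    have h : |f q.1 / ρ - g q.2 / ρ| ≤ 1 := by
      rw [← sub_div, abs_div, abs_of_pos hρ, div_le_one hρ]
      exact hq.2
    obtain ⟨h1, h2⟩ := abs_le.1 h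
    have a1 : ⌊f q.1 / ρ⌋ ≤ ⌊g q.2 / ρ⌋ + 1 := by
      rw [← Int.floor_add_one]; exact Int.floor_le_floor (by linarith)
    have a2 : ⌊g q.2 / ρ⌋ ≤ ⌊f q.1 / ρ⌋ + 1 := by
      rw [← Int.floor_add_one]; exact Int.floor_le_floor (by linarith)
    simp only [Finset.mem_union, Finset.mem_filter, hq.1, true_and]
    omega
  have h3 := (Finset.card_le_card hsub).trans ((Finset.card_union_le _ _).trans
    (Nat.add_le_add_right (Finset.card_union_le _ _) _))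
  have h4 := (Nat.cast_le (α := ℝ)).2 h3
  push_cast at h4
  have k1 := key (-1)
  have k2 := key 0
  have k3 := key 1
  rw [mul_assoc]
  linarith

end Pool.Agent.CubZ
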