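import Pool.Agent.Lib.MP_d79f69_nt.Z3.Basic

open Matrix MeasureTheory Complex Finset

namespace Pool.Agent.CubZ

open Pool.Agent.CubH

/-- the integrand with a natural exponent -/
noncomputable def descK (f : ℝ → ℂ) (k : ℕ) (u s t : ℝ) : ℂ :=
  (t : ℂ) ^ k * cexp (-(s * t) + u * t * I) * f t

theorem desc_eq (f : ℝ → ℂ) (k : ℕ) (u s : ℝ) :
    ∫ t in Set.Ioi (0 : ℝ), KC k s u t * f t = ∫ t in Set.Ioi (0 : ℝ), descK f k u s t :=
  setIntegral_congr_fun measurableSet_Ioi fun t ht => by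
    simp only [KC, descK, pw_nat (show 0 < t from ht)]

theorem desc_norm (f : ℝ → ℂ) (k : ℕ) (u s t : ℝ) :
    ‖descK f k u s t‖ = |t| ^ k * Real.exp (-(s * t)) * ‖f t‖ := by
  simp [descK, Complex.norm_exp]

theorem desc_int {f : ℝ → ℂ} (hf : Continuous f) {C : ℝ} (hC : ∀ t : ℝ, 0 ≤ t → ‖f t‖ ≤ C * (1 + t))
    (k : ℕ) (u : ℝ) {s : ℝ} (hs : 0 < s) : IntegrableOn (descK f k u s) (Set.Ioi 0) := by
  have h := (KC_triv_sum (range 2) (a := k) (fun _ => C) (fun i => (i : ℝ)) u hs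
    (fun i _ => by
      have : (0 : ℝ) ≤ (k : ℝ) + i := by positivity
      simp only [natCast_re]
      linarith) hf.continuousOn (fun t ht => by
      simpa [sum_range_succ, mul_add] using hC t ht.le)).1
  refine h.congr_fun (fun t ht => ?_) measurableSet_Ioi
  simp only [KC, descK, pw_nat (show 0 < t from ht)]

theorem desc_ftc (f : ℝ → ℂ) (k : ℕ) (u a b t : ℝ) :
    ∫ s in a..b, descK f (k + 1) u s t = descK f k u a t - descK f k u b t := by
  have h : ∀ s ∈ Set.uIcc a b, HasDerivAt (fun s : ℝ => -descK f k u s t)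
      (descK f (k + 1) u s t) s := fun s _ => by
    have h1 : HasDerivAt (fun s : ℝ => -((s : ℂ) * t) + u * t * I) (-(1 * t)) s :=
      ((Complex.ofRealCLM.hasDerivAt.mul_const (t : ℂ)).neg.add_const _).congr_deriv (by simp)
    refine (((h1.cexp.const_mul ((t : ℂ) ^ k)).mul_const (f t)).neg).congr_deriv ?_
    unfold descK
    ring
  rw [intervalIntegral.integral_eq_sub_of_hasDerivAt h
    (Continuous.intervalIntegrable (by unfold descK; fun_prop) _ _)]
  ring

theorem desc_swap {f : ℝ → ℂ} (hf : Continuous f) {C : ℝ}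
    (hC : ∀ t : ℝ, 0 ≤ t → ‖f t‖ ≤ C * (1 + t)) (k : ℕ) (u : ℝ) {a b : ℝ} (ha : 0 < a)
    (hab : a ≤ b) : (∫ t in Set.Ioi (0 : ℝ), descK f k u a t) =
      (∫ t in Set.Ioi (0 : ℝ), descK f k u b t) +
        ∫ s in Set.Ioc a b, ∫ t in Set.Ioi (0 : ℝ), descK f (k + 1) u s t := by
  have hi : Integrable (Function.uncurry fun t s => descK f (k + 1) u s t)
      ((volume.restrict (Set.Ioi (0 : ℝ))).prod (volume.restrict (Set.Ioc a b))) := by
    refine ((desc_int hf hC (k + 1) u ha).norm.comp_fst (volume.restrict (Set.Ioc a b))).mono'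
      (Continuous.aestronglyMeasurable (by unfold Function.uncurry descK; fun_prop)) ?_
    rw [Measure.prod_restrict]
    filter_upwards [ae_restrict_mem (measurableSet_Ioi.prod measurableSet_Ioc)] with p hp
    simp only [Function.uncurry, desc_norm]
    have h1 : (0 : ℝ) < p.1 := hp.1
    have h2 : a * p.1 ≤ p.2 * p.1 := mul_le_mul_of_nonneg_right hp.2.1.le h1.le
    gcongr
  rw [← integral_integral_swap hi, ← sub_eq_iff_eq_add',
    ← integral_sub (desc_int hf hC k u ha) (desc_int hf hC k u (ha.trans_le hab))]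
  refine setIntegral_congr_fun measurableSet_Ioi fun t _ => ?_
  simp only [← intervalIntegral.integral_of_le hab, desc_ftc]

theorem desc_step {f : ℝ → ℂ} (hf : Continuous f) {C : ℝ}
    (hC : ∀ t : ℝ, 0 ≤ t → ‖f t‖ ≤ C * (1 + t)) (k : ℕ) (h : Tgt (k + 1) fun _ => f) :
    Tgt k fun _ => f := by
  obtain ⟨B, hB, h⟩ := h
  have hC0 : 0 ≤ ∫ t in Set.Ioi (0 : ℝ), ‖descK f k 0 (1 / 2) t‖ :=
    integral_nonneg fun _ => norm_nonneg _
  refine ⟨(∫ t in Set.Ioi (0 : ℝ), ‖descK f k 0 (1 / 2) t‖) + 2 * B, by positivity,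
    fun ε u h0 h1 hu => ?_⟩
  have hk : (0 : ℝ) ≤ k := Nat.cast_nonneg k
  set r : ℝ := -((k : ℝ) + 1) + 1 / 60000 with hr
  have r0 : r ≤ -(1 / 2) := by rw [hr]; linarith
  have e1 : 1 ≤ ε ^ r := Real.one_le_rpow_of_pos_of_le_one_of_nonpos h0 (by linarith) (by linarith)
  have b1 : ‖∫ t in Set.Ioi (0 : ℝ), descK f k u (1 / 2) t‖ ≤
      ∫ t in Set.Ioi (0 : ℝ), ‖descK f k 0 (1 / 2) t‖ := by
    refine (norm_integral_le_integral_norm _).trans (le_of_eq ?_)
    simp only [desc_norm]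
  have nz : (0 : ℝ) ∉ Set.uIcc ε (1 / 2) := by
    rw [Set.uIcc_of_le h1]
    exact fun k => absurd k.1 (not_le.2 h0)
  have b2 : ‖∫ s in Set.Ioc ε (1 / 2), ∫ t in Set.Ioi (0 : ℝ), descK f (k + 1) u s t‖ ≤
      ∫ s in Set.Ioc ε (1 / 2), B * s ^ (r - 1) := by
    refine norm_integral_le_of_norm_le ?_ ?_
    · exact ((intervalIntegral.intervalIntegrable_rpow (Or.inr nz)).const_mul B).1
    · filter_upwards [ae_restrict_mem measurableSet_Ioc] with s hs
      have := h s u (h0.trans hs.1) hs.2 hu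
      rw [desc_eq] at this
      convert this using 3
      rw [hr]
      push_cast
      ring
  have b3 : ∫ s in Set.Ioc ε (1 / 2), B * s ^ (r - 1) ≤ 2 * B * ε ^ r := by
    rw [← intervalIntegral.integral_of_le h1, intervalIntegral.integral_const_mul,
      integral_rpow (Or.inr ⟨by linarith, nz⟩), sub_add_cancel]
    have p : (0 : ℝ) < (1 / 2) ^ r := by positivity
    have : ((1 / 2 : ℝ) ^ r - ε ^ r) / r ≤ 2 * ε ^ r := by
      rw [div_le_iff_of_neg (by linarith)]
      nlinarith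
    nlinarith
  rw [desc_eq, desc_swap hf hC k u h0 h1]
  refine (norm_add_le _ _).trans ?_
  nlinarith

theorem stDesc : StDesc := by
  rintro f A hf ⟨C, hC⟩ h
  induction A with
  | zero => exact h
  | succ k ih => exact ih (desc_step hf hC k h)

end Pool.Agent.CubZ
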