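import Pool.Agent.Lib.MP_d79f69_nt.Z3.Basic
import Pool.Agent.Lib.MP_af4c59_nt.H32Div

open Matrix MeasureTheory Complex Finset

namespace Pool.Agent.CubZ

open Pool.Agent.CubH

theorem dv_near (a N : ℕ) {R : ℝ} (hR : 0 ≤ R) :
    (#((Icc 1 N).filter fun m : ℕ => |(a : ℝ) - m| ≤ R) : ℝ) ≤ 2 * (1 + R) := by
  have h1 : #((Icc 1 N).filter fun m : ℕ => |(a : ℝ) - m| ≤ R) ≤ #(Icc (a - ⌊R⌋₊) (a + ⌊R⌋₊)) :=
    card_le_card fun m hm => by
      obtain ⟨h2, h3⟩ := abs_le.1 (mem_filter.1 hm).2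
      have h4 : a - m ≤ ⌊R⌋₊ := by
        rcases le_total m a with h | h
        · exact Nat.le_floor (by rw [Nat.cast_sub h]; exact h3)
        · omega
      have h5 : m - a ≤ ⌊R⌋₊ := by
        rcases le_total a m with h | h
        · exact Nat.le_floor (by rw [Nat.cast_sub h]; linarith)
        · omega
      rw [mem_Icc]
      omega
  have h2 : #((Icc 1 N).filter fun m : ℕ => |(a : ℝ) - m| ≤ R) ≤ 2 * ⌊R⌋₊ + 1 := by
    rw [Nat.card_Icc] at h1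
    omega
  have h3 : (#((Icc 1 N).filter fun m : ℕ => |(a : ℝ) - m| ≤ R) : ℝ) ≤ 2 * ⌊R⌋₊ + 1 := by exact_mod_cast h2
  have h4 := Nat.floor_le hR
  linarith

theorem stDv : StDv := by
  intro η hη
  obtain ⟨C, hC, hd⟩ := Pool.Agent.Lib.MP_af4c59_nt.H32.divisor_bound hη
  refine ⟨2 * C, by linarith, fun U V R hU hV hR => ?_⟩
  have hUV : (0 : ℝ) < (U : ℝ) * V := by exact_mod_cast Nat.mul_pos hU hV
  have h1 : #{q ∈ (Icc 1 U ×ˢ Icc 1 V) ×ˢ (Icc 1 U ×ˢ Icc 1 V) |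
      |(q.1.1 : ℝ) * q.2.2 - q.2.1 * q.1.2| ≤ R} ≤
      #((Icc 1 U ×ˢ Icc 1 V).sigma fun p =>
        ((Icc 1 (U * V)).filter fun m : ℕ => |((p.1 * p.2 : ℕ) : ℝ) - m| ≤ R).sigma
          fun m => m.divisors) := by
    refine card_le_card_of_injOn
      (fun q => ⟨(q.1.1, q.2.2), ⟨q.2.1 * q.1.2, q.2.1⟩⟩) (fun q hq => ?_) fun q hq q' hq' e => ?_
    · obtain ⟨a, b⟩ := mem_filter.1 (mem_coe.1 hq)
      simp only [mem_product, mem_Icc] at a
      obtain ⟨⟨a1, a2⟩, a3, a4⟩ := a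
      have a5 := Nat.mul_pos a3.1 a2.1
      refine mem_coe.2 (mem_sigma.2 ⟨mem_product.2 ⟨mem_Icc.2 a1, mem_Icc.2 a4⟩, mem_sigma.2
        ⟨mem_filter.2 ⟨mem_Icc.2 ⟨a5, Nat.mul_le_mul a3.2 a2.2⟩, ?_⟩,
          Nat.mem_divisors.2 ⟨dvd_mul_right _ _, a5.ne'⟩⟩⟩)
      push_cast
      exact b
    · obtain ⟨a, -⟩ := mem_filter.1 (mem_coe.1 hq)
      simp only [mem_product, mem_Icc] at a
      simp only [Sigma.mk.injEq, Prod.mk.injEq, heq_eq_eq] at e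
      obtain ⟨⟨e1, e2⟩, e3, e4⟩ := e
      rw [← e4] at e3
      exact Prod.ext (Prod.ext e1 (Nat.eq_of_mul_eq_mul_left a.2.1.1 e3)) (Prod.ext e4 e2)
  refine (Nat.cast_le.2 h1).trans ?_
  rw [card_sigma, Nat.cast_sum]
  calc _ ≤ ∑ _p ∈ Icc 1 U ×ˢ Icc 1 V, 2 * (1 + R) * (C * ((U : ℝ) * V) ^ η) :=
        sum_le_sum fun p _ => by
          rw [card_sigma, Nat.cast_sum]
          refine (sum_le_card_nsmul _ _ (C * ((U : ℝ) * V) ^ η) fun m hm => (hd m).trans ?_).trans ?_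
          · refine mul_le_mul_of_nonneg_left (Real.rpow_le_rpow (Nat.cast_nonneg _) ?_ hη.le)
              (by linarith)
            exact_mod_cast (mem_Icc.1 (mem_filter.1 hm).1).2
          · rw [nsmul_eq_mul]
            exact mul_le_mul_of_nonneg_right (dv_near _ _ hR) (by positivity)
    _ = _ := by
        rw [sum_const, card_product, Nat.card_Icc, Nat.card_Icc, nsmul_eq_mul, Real.rpow_add hUV,
          Real.rpow_one, Nat.add_sub_cancel, Nat.add_sub_cancel]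
        push_cast
        ring

end Pool.Agent.CubZ
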