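import Pool.Agent.Lib.MP_d79f69_nt.Z3.Basic
import Pool.Agent.Lib.MP_d79f69_nt.Core

open Matrix MeasureTheory

namespace Pool.Agent.CubZ

open Pool.Agent.CubH

theorem e0_num {u s μ : ℝ} (hu : 2 ≤ u) (hs1 : 1 ≤ s) (hs : s ≤ u ^ 80) (hs2 : s ^ 2 ≤ u ^ 159)
    (hμ : 1 ≤ μ) (hμu : μ ≤ u) :
    (u ^ 2 ≤ u ^ 139 / s / μ ∧ u ^ 2 ≤ u ^ 419 / (u ^ 140 + s ^ 3) / μ ∧
    μ ^ 2 * s ^ 2 * u ^ 2 * (u ^ 139 / s / μ) ^ 2 ≤ u ^ 280 ∧
    μ ^ 2 * (s ^ 2) ^ 3 * u ^ 2 * (u ^ 419 / (u ^ 140 + s ^ 3) / μ) ^ 2 ≤ (u ^ 280) ^ 3 ∧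
    μ ^ 2 * (s ^ 2) ^ 5 ≤ (u ^ 280) ^ 3 ∧
    μ ^ 2 * (s ^ 2) ^ 3 * u * (u ^ 139 / s / μ) ≤ (u ^ 280) ^ 2 ∧
    u ^ 2 * (u ^ 139 / s / μ) ≤ u ^ 280 ∧ u * s ^ 2 ≤ u ^ 280 ∧
    u * (u ^ 419 / (u ^ 140 + s ^ 3) / μ) ≤ u ^ 280) ∧
    (u * μ ^ 2 * (s ^ 2) ^ 3 ≤ (u ^ 280) ^ 2 ∧ μ ^ 3 * (s ^ 2) ^ 3 * s ≤ (u ^ 280) ^ 2 ∧
    μ ^ 2 * s ≤ u ^ 419 / (u ^ 140 + s ^ 3) / u ∧ u * μ ≤ u ^ 419 / (u ^ 140 + s ^ 3) / u ∧
    u * μ ≤ u ^ 139 / s / u) := by
  obtain ⟨⟨-, -, n3, n4, -, -, n7, n8, n9⟩, -⟩ := core_num hu hs1 hs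
  have h1 : 1 ≤ u := by linarith
  have u0 : 0 < u := by linarith
  have s0 : 0 < s := by linarith
  have μ0 : 0 < μ := by linarith
  have pw : ∀ {a b : ℕ}, a ≤ b → u ^ a ≤ u ^ b := fun h => pow_le_pow_right₀ h1 h
  have sp : ∀ k : ℕ, s ^ k ≤ u ^ (80 * k) := fun k => by
    rw [pow_mul]; exact pow_le_pow_left₀ s0.le hs k
  have d0 : 0 < u ^ 140 + s ^ 3 := by positivity
  have d1 : u ^ 140 + s ^ 3 ≤ u ^ 241 := by
    calc u ^ 140 + s ^ 3 ≤ u ^ 240 + u ^ 240 := add_le_add (pw (by norm_num)) (sp 3)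
      _ = 2 * u ^ 240 := by ring
      _ ≤ u * u ^ 240 := mul_le_mul_of_nonneg_right hu (by positivity)
      _ = u ^ 241 := by ring
  have hM : u ^ 178 ≤ u ^ 419 / (u ^ 140 + s ^ 3) := by
    rw [le_div_iff₀ d0]
    calc u ^ 178 * (u ^ 140 + s ^ 3) ≤ u ^ 178 * u ^ 241 :=
          mul_le_mul_of_nonneg_left d1 (by positivity)
      _ = u ^ 419 := by ring
  have hL : u ^ 59 ≤ u ^ 139 / s := by
    rw [le_div_iff₀ s0]
    calc u ^ 59 * s ≤ u ^ 59 * u ^ 80 := mul_le_mul_of_nonneg_left hs (by positivity)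
      _ = u ^ 139 := by ring
  have dv : ∀ {p q v : ℝ} {k : ℕ}, 0 < v → v ≤ u → u ^ (k + 1) ≤ q → p ≤ u ^ k → p ≤ q / v := by
    intro p q v k v0 hv hq hp
    rw [le_div_iff₀ v0]
    calc p * v ≤ u ^ k * u := by gcongr
      _ = u ^ (k + 1) := by ring
      _ ≤ q := hq
  have uu : u * μ ≤ u ^ 2 := by rw [sq]; gcongr
  refine ⟨⟨dv (k := 58) μ0 hμu hL (pw (by norm_num)), dv (k := 177) μ0 hμu hM (pw (by norm_num)),
    ?_, ?_, ?_, ?_, ?_, n8, ?_⟩, ?_, ?_, dv (k := 177) u0 le_rfl hM ?_,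
    dv (k := 177) u0 le_rfl hM (uu.trans (pw (by norm_num))),
    dv (k := 58) u0 le_rfl hL (uu.trans (pw (by norm_num)))⟩
  · refine le_trans (le_of_eq ?_) n3
    field_simp
  · refine le_trans (le_of_eq ?_) n4
    generalize u ^ 419 / (u ^ 140 + s ^ 3) = w
    field_simp
  · calc μ ^ 2 * (s ^ 2) ^ 5 ≤ u ^ 2 * (u ^ 159) ^ 5 := by gcongr
      _ = u ^ 797 := by ring
      _ ≤ u ^ 840 := pw (by norm_num)
      _ = (u ^ 280) ^ 3 := by ring
  · calc μ ^ 2 * (s ^ 2) ^ 3 * u * (u ^ 139 / s / μ) = μ * s ^ 5 * u ^ 140 := by field_simp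
      _ ≤ u * u ^ (80 * 5) * u ^ 140 := by have := sp 5; gcongr
      _ = u ^ 541 := by ring
      _ ≤ u ^ 560 := pw (by norm_num)
      _ = (u ^ 280) ^ 2 := by ring
  · exact (mul_le_mul_of_nonneg_left (div_le_self (by positivity) hμ) (by positivity)).trans n7
  · exact (mul_le_mul_of_nonneg_left (div_le_self (by positivity) hμ) (by positivity)).trans n9
  · calc u * μ ^ 2 * (s ^ 2) ^ 3 ≤ u * u ^ 2 * (u ^ 159) ^ 3 := by gcongr
      _ = u ^ 480 := by ring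
      _ ≤ u ^ 560 := pw (by norm_num)
      _ = (u ^ 280) ^ 2 := by ring
  · calc μ ^ 3 * (s ^ 2) ^ 3 * s ≤ u ^ 3 * (u ^ 159) ^ 3 * u ^ 80 := by gcongr
      _ = (u ^ 280) ^ 2 := by ring
  · calc μ ^ 2 * s ≤ u ^ 2 * u ^ 80 := by gcongr
      _ = u ^ 82 := by ring
      _ ≤ u ^ 177 := pw (by norm_num)

theorem e0_vol {u s C D P b l : ℝ} (l0 : 0 ≤ l) (l1 : l ≤ 162 * u)
    (hu : 2 ≤ u) (hs1 : 1 ≤ s) (_hs : s ≤ u ^ 80) (hC : 0 ≤ C)
    (hD : 1 ≤ D) (hP : 0 < P) (h1 : P ≤ (s ^ 2) ^ 2) (h2 : P ≤ s ^ 2 * u ^ 140)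
    (hb : b = 0 ∨ (b = s * u ^ 280 ∧ P ≤ D * u ^ 280)) :
    (u ^ 280) ^ 2 * (C * l ^ 3 * s / ((s ^ 2) ^ 2 * (u ^ 139 / s / u) ^ 2) *
      (b + (u ^ 280) ^ 3 / (u ^ 419 / (u ^ 140 + s ^ 3) / u * (s ^ 2) ^ 2))) ≤
      C * 162 ^ 3 * (D + 2) * u ^ 849 / P := by
  have hu1 : 1 ≤ u := by linarith
  have u0 : 0 < u := by linarith
  have s0 : 0 < s := by linarith
  have pw : ∀ {a b : ℕ}, a ≤ b → u ^ a ≤ u ^ b := fun h => pow_le_pow_right₀ hu1 h
  have l3 : l ^ 3 ≤ (162 * u) ^ 3 := pow_le_pow_left₀ l0 l1 3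
  have e : (u ^ 280) ^ 2 *
      (C * l ^ 3 * s / ((s ^ 2) ^ 2 * (u ^ 139 / s / u) ^ 2) *
      (b + (u ^ 280) ^ 3 / (u ^ 419 / (u ^ 140 + s ^ 3) / u * (s ^ 2) ^ 2))) =
      C * l ^ 3 * (u ^ 284 * b / s + u ^ 846 / s ^ 5 + u ^ 706 / s ^ 2) := by
    field_simp
    ring
  have t1 : u ^ 284 * b / s ≤ D * u ^ 846 / P := by
    rcases hb with rfl | ⟨rfl, hb⟩
    · simp only [mul_zero, zero_div]; positivity
    · rw [le_div_iff₀ hP]
      calc u ^ 284 * (s * u ^ 280) / s * P = u ^ 564 * P := by field_simp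
        _ ≤ u ^ 564 * (D * u ^ 280) := mul_le_mul_of_nonneg_left hb (by positivity)
        _ = D * u ^ 844 := by ring
        _ ≤ D * u ^ 846 := mul_le_mul_of_nonneg_left (pw (by norm_num)) (by linarith)
  have t2 : u ^ 846 / s ^ 5 ≤ u ^ 846 / P := by
    apply div_le_div_of_nonneg_left (by positivity) hP
    calc P ≤ (s ^ 2) ^ 2 := h1
      _ = s ^ 4 := by ring
      _ ≤ s ^ 5 := pow_le_pow_right₀ hs1 (by norm_num)
  have t3 : u ^ 706 / s ^ 2 ≤ u ^ 846 / P := by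
    rw [div_le_div_iff₀ (by positivity) hP]
    calc u ^ 706 * P ≤ u ^ 706 * (s ^ 2 * u ^ 140) := mul_le_mul_of_nonneg_left h2 (by positivity)
      _ = u ^ 846 * s ^ 2 := by ring
  have t0 : 0 ≤ u ^ 284 * b / s := by
    rcases hb with rfl | ⟨rfl, -⟩
    · simp
    · positivity
  rw [e]
  calc C * l ^ 3 * (u ^ 284 * b / s + u ^ 846 / s ^ 5 + u ^ 706 / s ^ 2)
      ≤ C * (162 * u) ^ 3 * (D * u ^ 846 / P + u ^ 846 / P + u ^ 846 / P) := by
        exact mul_le_mul (mul_le_mul_of_nonneg_left l3 hC) (add_le_add (add_le_add t1 t2) t3)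
          (add_nonneg (add_nonneg t0 (by positivity)) (by positivity)) (by positivity)
    _ = C * 162 ^ 3 * (D + 2) * u ^ 849 / P := by
        have hw : u ^ 849 = u ^ 3 * u ^ 846 := by ring
        rw [hw]
        generalize u ^ 846 = w
        field_simp
        ring

theorem e0_one (h2 : StHU) (h3 : StRU) (R c0 : ℝ) (hR : 1 ≤ R) (hc : c0 ≠ 0) : ∃ C : ℝ, 2 ≤ C ∧
    ∀ μ c : ℝ, 1 ≤ μ → c = μ ^ 2 * c0 → ∀ B : M3, NearI (4 * R ^ 2) B → ∀ (u A : ℝ) (W : V3 → ℂ) (a : V3) (h : ℤ × ℤ), C ≤ u → μ ≤ u →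
      Wt 1680 R (u ^ 280) A W → |(h.1 : ℝ)| ≤ u ^ 159 → |(h.2 : ℝ)| ≤ u ^ 140 →
      ‖∑' n : Z3, FF B c W a (n + ![h.1, h.2, 0]) * (starRingEnd ℂ) (FF B c W a n)‖ ≤
        C * A ^ 2 * u ^ 849 * (1 / max 1 |(h.1 : ℝ)| * (1 / max 1 |(h.2 : ℝ)|)) := by
  classical
  have hQ : 1 ≤ 4 * R ^ 2 := by nlinarith
  obtain ⟨C2, hC2, H2⟩ := h2 1680 R c0 hR
  obtain ⟨C3, hC3, H3⟩ := h3 (4 * R ^ 2) c0 hQ hc
  set D : ℝ := 1 + 128 * (4 * R ^ 2) ^ 2 with hD
  have hD1 : 1 ≤ D := by rw [hD]; linarith [sq_nonneg (4 * R ^ 2)]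
  set K : ℝ := C2 * (1 + C3 * 162 ^ 3 * (D + 2)) with hK
  have hK0 : 0 ≤ K := by positivity
  have hR3 : 0 ≤ 1000 * R ^ 3 := by positivity
  refine ⟨2 + C2 + C3 + K + 1000 * R ^ 3, by linarith, fun μ c hμ hcc B hB u A W a h hu hμu hW a1 a2 => ?_⟩
  have hu2 : 2 ≤ u := by linarith
  have hu1 : 1 ≤ u := by linarith
  have u0 : 0 < u := by linarith
  have pw : ∀ {a b : ℕ}, a ≤ b → u ^ a ≤ u ^ b := fun h => pow_le_pow_right₀ hu1 h
  have hX : 1 ≤ u ^ 280 := one_le_pow₀ hu1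
  obtain ⟨hA, hs⟩ := core_supp (c := c) (a := a) hR hX hB hW
  have hA0 : 0 ≤ A := (norm_nonneg _).trans (hA 0)
  by_cases h0 : h = 0
  · subst h0
    have hT : 1 ≤ 2 * (R * u ^ 280) := by nlinarith
    have e0 : (![(0 : ℤ × ℤ).1, (0 : ℤ × ℤ).2, 0] : Z3) = 0 := by
      funext i; fin_cases i <;> rfl
    rw [e0]
    have := core_trivial (F := fun n => FF B c W a (n + 0) * (starRingEnd ℂ) (FF B c W a n))
      (x := -a) (A := A ^ 2) hT (fun n => by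
        rw [norm_mul, Complex.norm_conj, sq]
        exact mul_le_mul (hA _) (hA _) (norm_nonneg _) hA0)
      (fun n hn => hs n fun e => hn (by simp only [e, map_zero, mul_zero]))
    refine this.trans ?_
    simp only [Prod.fst_zero, Prod.snd_zero, Int.cast_zero, abs_zero, zero_le_one, max_eq_left,
      div_one, mul_one]
    calc 125 * (2 * (R * u ^ 280)) ^ 3 * A ^ 2 = 1000 * R ^ 3 * A ^ 2 * u ^ 840 := by ring
      _ ≤ (2 + C2 + C3 + K + 1000 * R ^ 3) * A ^ 2 * u ^ 849 :=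
          mul_le_mul (mul_le_mul_of_nonneg_right (by linarith) (sq_nonneg A)) (pw (by norm_num))
            (by positivity) (by positivity)
  · set H : ℝ := ‖((h.1 : ℝ), (h.2 : ℝ))‖ with hH
    have hHm : H = max |(h.1 : ℝ)| |(h.2 : ℝ)| := by rw [hH, Prod.norm_def]; rfl
    have hH1 : 1 ≤ H := by
      rw [hHm, le_max_iff]
      by_contra hn
      push Not at hn
      have b1 : |h.1| < 1 := by exact_mod_cast hn.1
      have b2 : |h.2| < 1 := by exact_mod_cast hn.2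
      exact h0 (Prod.ext (Int.abs_lt_one_iff.mp b1) (Int.abs_lt_one_iff.mp b2))
    have hHu : H ≤ u ^ 159 := by rw [hHm]; exact max_le a1 (a2.trans (pw (by norm_num)))
    set s : ℝ := √H with hs'
    have hss : H = s ^ 2 := (Real.sq_sqrt (by linarith)).symm
    have hs1 : 1 ≤ s := Real.one_le_sqrt.mpr hH1
    have hsu : s ≤ u ^ 80 := by
      rw [hs', Real.sqrt_le_left (by positivity), ← pow_mul]; exact hHu.trans (pw (by norm_num))
    obtain ⟨⟨n1, n2, n3, n4, n5, n6, n7, n8, n9⟩, m1, m2, m3, m4, m5⟩ :=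
      e0_num hu2 hs1 hsu (hss ▸ hHu) hμ hμu
    rw [← hss] at n3 n4 n5 n6 n8 m1 m2
    have c3 : C3 ≤ u := by linarith
    have μ0 : 0 < μ := by linarith
    have c4 : C3 * μ ≤ u * μ := mul_le_mul_of_nonneg_right c3 μ0.le
    have r := H3 μ hμ B hB (u ^ 280) H (u ^ 139 / s / u) (u ^ 419 / (u ^ 140 + s ^ 3) / u)
      ((h.1 : ℝ), (h.2 : ℝ)) hH.symm hH1 hX
      ((mul_le_mul_of_nonneg_right (mul_le_mul_of_nonneg_right c3 (by positivity))
        (by positivity)).trans m1) m2 m3 (c4.trans m4) (c4.trans m5)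
    have l0 : 0 ≤ Real.log (μ ^ 2 * H) :=
      Real.log_nonneg (one_le_mul_of_one_le_of_one_le (one_le_pow₀ hμ) hH1)
    have l1 : 1 + Real.log (μ ^ 2 * H) ≤ 162 * u := by
      have a : Real.log (μ ^ 2 * H) ≤ Real.log (u ^ 161) := by
        refine Real.log_le_log (by positivity) ?_
        calc μ ^ 2 * H ≤ u ^ 2 * u ^ 159 := by gcongr
          _ = u ^ 161 := by ring
      rw [Real.log_pow u 161] at a
      have b := Real.log_le_sub_one_of_pos u0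
      push_cast at a
      linarith
    rw [div_right_comm _ u μ, div_right_comm _ u μ] at r
    have q := H2 μ hμ B hB (u ^ 280) H u (u ^ 139 / s / μ) (u ^ 419 / (u ^ 140 + s ^ 3) / μ) A _ W a h
      hH.symm hH1 (by linarith) n1 n2 n3 n4 n5 n6 n7 n8 n9 hW (by
        refine mul_nonneg (by positivity) (add_nonneg ?_ (by positivity))
        split_ifs
        · exact le_rfl
        · positivity) r
    rw [← hcc] at q
    refine q.trans ?_
    set p1 : ℝ := max 1 |(h.1 : ℝ)| with hp1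
    set p2 : ℝ := max 1 |(h.2 : ℝ)| with hp2
    have p10 : 0 < p1 := lt_of_lt_of_le one_pos (le_max_left _ _)
    have p20 : 0 < p2 := lt_of_lt_of_le one_pos (le_max_left _ _)
    have p1H : p1 ≤ H := max_le hH1 (by rw [hHm]; exact le_max_left _ _)
    have p2H : p2 ≤ H := max_le hH1 (by rw [hHm]; exact le_max_right _ _)
    have p2u : p2 ≤ u ^ 140 := max_le (one_le_pow₀ hu1) a2
    have hP : 0 < p1 * p2 := mul_pos p10 p20
    have v := e0_vol (C := C3) (D := D) (P := p1 * p2)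
      (b := if Good (4 * R ^ 2) ((h.1 : ℝ), (h.2 : ℝ)) then 0 else s * u ^ 280)
      (add_nonneg zero_le_one l0) l1 hu2 hs1 hsu
      (by linarith) hD1 hP
      (by rw [← hss, sq]; exact mul_le_mul p1H p2H p20.le (by linarith))
      (by rw [← hss]; exact mul_le_mul p1H p2u p20.le (by linarith))
      (by
        split_ifs with hg
        · exact Or.inl rfl
        · refine Or.inr ⟨rfl, ?_⟩
          unfold Good at hg
          push Not at hg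
          have g1 : p1 ≤ D * u ^ 140 := by
            have g2 : 128 * (4 * R ^ 2) ^ 2 * |(h.2 : ℝ)| ≤ 128 * (4 * R ^ 2) ^ 2 * u ^ 140 :=
              mul_le_mul_of_nonneg_left a2 (by positivity)
            have g3 : 1 ≤ u ^ 140 := one_le_pow₀ hu1
            have g4 : 0 ≤ 128 * (4 * R ^ 2) ^ 2 * u ^ 140 := by positivity
            rw [hD, add_mul, one_mul]
            exact max_le (by linarith) (by linarith [hg.le])
          calc p1 * p2 ≤ D * u ^ 140 * u ^ 140 := mul_le_mul g1 p2u p20.le (by positivity)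
            _ = D * u ^ 280 := by ring)
    rw [← hss] at v
    have w1 : (u ^ 280) ^ 6 / u ^ 1680 ≤ u ^ 849 / (p1 * p2) := by
      rw [← pow_mul, div_self (by positivity), le_div_iff₀ hP, one_mul]
      calc p1 * p2 ≤ u ^ 159 * u ^ 140 := mul_le_mul (p1H.trans hHu) p2u p20.le (by positivity)
        _ = u ^ 299 := by ring
        _ ≤ u ^ 849 := pw (by norm_num)
    calc _ ≤ C2 * A ^ 2 * (u ^ 849 / (p1 * p2) + C3 * 162 ^ 3 * (D + 2) * u ^ 849 / (p1 * p2)) :=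
          mul_le_mul_of_nonneg_left (add_le_add w1 v) (by positivity)
      _ = K * A ^ 2 * u ^ 849 * (1 / p1 * (1 / p2)) := by
          rw [hK]
          generalize u ^ 849 = w
          field_simp
      _ ≤ _ := by
          apply mul_le_mul_of_nonneg_right _ (by positivity)
          apply mul_le_mul_of_nonneg_right _ (by positivity)
          exact mul_le_mul_of_nonneg_right (by linarith) (sq_nonneg A)

theorem stE0 (hA : SA) (hH : StHU) (hR : StRU) : StE0 := by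
  have h1 := hA
  have h2 := hH
  have h3 := hR
  clear hA hH hR
  refine ⟨1680, fun R c0 hR hc => ?_⟩
  obtain ⟨C, hC, H⟩ := e0_one h2 h3 R c0 hR hc
  set K : ℝ := 4000 * R ^ 3 * C * 323 ^ 2 with hK
  have hK1 : 1 ≤ K := by
    have : 1 ≤ R ^ 3 := one_le_pow₀ hR
    rw [hK]; nlinarith
  have hC0 : 0 ≤ 1000 * R ^ 3 * C ^ 840 := by positivity
  refine ⟨K + 1000 * R ^ 3 * C ^ 840, by linarith, fun μ hμ B hB X A W a hXμ hW => ?_⟩
  have hX : 1 ≤ X := (one_le_pow₀ hμ).trans hXμ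
  obtain ⟨c, hcc⟩ : ∃ c, c = μ ^ 2 * c0 := ⟨_, rfl⟩
  rw [← hcc]
  obtain ⟨u, hu1, rfl⟩ : ∃ u : ℝ, 1 ≤ u ∧ X = u ^ 280 :=
    ⟨X ^ (((280 : ℕ) : ℝ)⁻¹), Real.one_le_rpow hX (by positivity),
      (Real.rpow_inv_natCast_pow (by linarith) (by norm_num)).symm⟩
  have u0 : 0 < u := by linarith
  have hμu : μ ≤ u := le_of_pow_le_pow_left₀ (by norm_num) u0.le hXμ
  have pw : ∀ {a b : ℕ}, a ≤ b → u ^ a ≤ u ^ b := fun h => pow_le_pow_right₀ hu1 h
  have eX : (u ^ 280) ^ ((5 : ℝ) / 2 - 1 / 70) = u ^ 696 := by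
    rw [← Real.rpow_natCast u 280, ← Real.rpow_mul u0.le, ← Real.rpow_natCast u 696]
    norm_num
  rw [eX]
  obtain ⟨hA, hs⟩ := core_supp (c := c) (a := a) hR hX hB hW
  have hA0 : 0 ≤ A := (norm_nonneg _).trans (hA 0)
  have hT : u ^ 280 ≤ 2 * (R * u ^ 280) := by nlinarith
  have h696 : 1 ≤ u ^ 696 := one_le_pow₀ hu1
  rcases le_total u C with hu | hu
  · refine (core_trivial (hX.trans hT) hA hs).trans ?_
    calc 125 * (2 * (R * u ^ 280)) ^ 3 * A = 1000 * R ^ 3 * u ^ 840 * A * 1 := by ring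
      _ ≤ (K + 1000 * R ^ 3 * C ^ 840) * A * u ^ 696 := by
          apply mul_le_mul (mul_le_mul_of_nonneg_right _ hA0) h696 zero_le_one (by positivity)
          have : 1000 * R ^ 3 * u ^ 840 ≤ 1000 * R ^ 3 * C ^ 840 :=
            mul_le_mul_of_nonneg_left (pow_le_pow_left₀ u0.le hu 840) (by positivity)
          linarith
  · have fl : ∀ y : ℝ, 1 ≤ y → ∃ n : ℕ, 1 ≤ n ∧ (n : ℝ) ≤ y ∧ y ≤ 2 * n := fun y hy => by
      have a1 : 1 ≤ ⌊y⌋₊ := Nat.le_floor (by simpa using hy)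
      have a2 : (1 : ℝ) ≤ ⌊y⌋₊ := by exact_mod_cast a1
      exact ⟨⌊y⌋₊, a1, Nat.floor_le (by linarith), by linarith [Nat.lt_floor_add_one y]⟩
    obtain ⟨H0, g0, f0, k0⟩ := fl (u ^ 159) (one_le_pow₀ hu1)
    obtain ⟨H1, g1, f1, k1⟩ := fl (u ^ 140) (one_le_pow₀ hu1)
    have g0' : (0 : ℝ) < H0 := by exact_mod_cast g0
    have g1' : (0 : ℝ) < H1 := by exact_mod_cast g1
    have w := h1 (FF B c W a) (-a) _ H0 H1 g0 g1 (f0.trans ((pw (by norm_num)).trans hT))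
      (f1.trans ((pw (by norm_num)).trans hT)) hs
    have s1 : ∑ h ∈ Finset.Icc (-(H0 : ℤ)) H0 ×ˢ Finset.Icc (-(H1 : ℤ)) H1,
        ‖∑' n : Z3, FF B c W a (n + ![h.1, h.2, 0]) * (starRingEnd ℂ) (FF B c W a n)‖ ≤
        C * A ^ 2 * u ^ 849 * (323 * u * (323 * u)) := by
      calc _ ≤ ∑ h ∈ Finset.Icc (-(H0 : ℤ)) H0 ×ˢ Finset.Icc (-(H1 : ℤ)) H1,
            C * A ^ 2 * u ^ 849 * (1 / max 1 |(h.1 : ℝ)| * (1 / max 1 |(h.2 : ℝ)|)) := by
            refine Finset.sum_le_sum fun h hh => ?_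
            rw [Finset.mem_product, Finset.mem_Icc, Finset.mem_Icc] at hh
            have b1 : |h.1| ≤ (H0 : ℤ) := abs_le.mpr hh.1
            have b2 : |h.2| ≤ (H1 : ℤ) := abs_le.mpr hh.2
            have b1' : |(h.1 : ℝ)| ≤ (H0 : ℝ) := by exact_mod_cast b1
            have b2' : |(h.2 : ℝ)| ≤ (H1 : ℝ) := by exact_mod_cast b2
            exact H μ c hμ hcc B hB u A W a h hu hμu hW (b1'.trans f0) (b2'.trans f1)
        _ = C * A ^ 2 * u ^ 849 * ((∑ k ∈ Finset.Icc (-(H0 : ℤ)) H0, 1 / max 1 |(k : ℝ)|) *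
            ∑ k ∈ Finset.Icc (-(H1 : ℤ)) H1, 1 / max 1 |(k : ℝ)|) := by
            rw [← Finset.mul_sum, Finset.sum_mul_sum, Finset.sum_product]
        _ ≤ _ := by
            apply mul_le_mul_of_nonneg_left _ (by positivity)
            exact mul_le_mul (core_harm_le hu1 g0 (f0.trans (pw (by norm_num))))
              (core_harm_le hu1 g1 (f1.trans (pw (by norm_num))))
              (Finset.sum_nonneg fun _ _ => by positivity) (by positivity)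
    have s2 : 125 * (2 * (R * u ^ 280)) ^ 3 / ((H0 : ℝ) * H1) ≤ 4000 * R ^ 3 * u ^ 541 := by
      rw [div_le_iff₀ (by positivity)]
      calc 125 * (2 * (R * u ^ 280)) ^ 3 = 1000 * R ^ 3 * u ^ 541 * (u ^ 159 * u ^ 140) := by ring
        _ ≤ 1000 * R ^ 3 * u ^ 541 * (2 * H0 * (2 * H1)) :=
            mul_le_mul_of_nonneg_left (mul_le_mul k0 k1 (by positivity) (by positivity))
              (by positivity)
        _ = 4000 * R ^ 3 * u ^ 541 * (H0 * H1) := by ring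
    have s3 : ‖∑' n, FF B c W a n‖ ^ 2 ≤ (K * A * u ^ 696) ^ 2 := by
      calc _ ≤ 4000 * R ^ 3 * u ^ 541 * (C * A ^ 2 * u ^ 849 * (323 * u * (323 * u))) :=
            w.trans (mul_le_mul s2 s1 (Finset.sum_nonneg fun _ _ => norm_nonneg _) (by positivity))
        _ = K * (A ^ 2 * u ^ 1392) := by rw [hK]; ring
        _ ≤ K ^ 2 * (A ^ 2 * u ^ 1392) :=
            mul_le_mul (by nlinarith) (mul_le_mul_of_nonneg_left (pw (by norm_num)) (sq_nonneg A))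
              (by positivity) (by positivity)
        _ = (K * A * u ^ 696) ^ 2 := by ring
    refine (le_of_sq_le_sq s3 (by positivity)).trans ?_
    apply mul_le_mul_of_nonneg_right _ (by positivity)
    exact mul_le_mul_of_nonneg_right (by linarith) hA0

end Pool.Agent.CubZ
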