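import Pool.Agent.Lib.MP_d79f69_nt.Z3.Basic
import Pool.Agent.Lib.MP_d79f69_nt.Box

open Matrix MeasureTheory

namespace Pool.Agent.CubZ

open Pool.Agent.CubH

lemma hu_hv (B : M3) (μ : ℝ) (h : ℝ × ℝ) : hv B (μ • h) = μ • hv B h := by
  unfold hv
  rw [← Matrix.mulVec_smul]; congr 1
  ext i; fin_cases i <;> simp

lemma hu_GG (B : M3) (c μ : ℝ) (h θ : ℝ × ℝ) : μ * GG B c (μ • h) θ = GG B (μ ^ 2 * c) h θ := by
  unfold GG G0 t0 sm
  rw [hu_hv]; simp only [Pi.div_apply, Pi.smul_apply, smul_eq_mul]; ring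

lemma hu_gA (B : M3) (c μ : ℝ) (h θ : ℝ × ℝ) : μ * gA B c (μ • h) θ = gA B (μ ^ 2 * c) h θ := by
  unfold gA G1 t1 sm d2
  rw [hu_hv]; simp only [Pi.div_apply, Pi.smul_apply, smul_eq_mul]; ring

lemma hu_gB (B : M3) (c μ : ℝ) (h θ : ℝ × ℝ) : μ * gB B c (μ • h) θ = gB B (μ ^ 2 * c) h θ := by
  unfold gB G1 t1 sm d2
  rw [hu_hv]; simp only [Pi.div_apply, Pi.smul_apply, smul_eq_mul]; ring

lemma hu_kap (B : M3) (c μ : ℝ) (h θ : ℝ × ℝ) :
    kap B c (μ • h) θ = μ * kap B (μ ^ 2 * c) h θ := by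
  unfold kap G2 t2 sm d2 d3
  rw [hu_hv]; simp only [Pi.div_apply, Pi.smul_apply, smul_eq_mul]; ring

/-- the linearisation, uniformly in the scaling of the constant -/
lemma hu_ex (hEx : SEx) (hBa : SBa) (Q c0 K : ℝ) (hQ : 1 ≤ Q) (hK : 1 ≤ K) :
    ∃ C : ℝ, 1 ≤ C ∧ ∀ μ c : ℝ, 1 ≤ μ → c = μ ^ 2 * c0 → ∀ B : M3, NearI Q B →
    ∀ (X H ρ L M r : ℝ) (h θ : ℝ × ℝ), ‖h‖ = H → 1 ≤ H → C ≤ ρ → 0 < L → 0 < M →
    μ ^ 2 * H * ρ ^ 2 * L ^ 2 ≤ X → μ ^ 2 * H ^ 3 * ρ ^ 2 * M ^ 2 ≤ X ^ 3 →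
    μ ^ 2 * H ^ 5 ≤ X ^ 3 → μ ^ 2 * H ^ 3 * ρ * L ≤ X ^ 2 → ρ ^ 2 * L ≤ X → ρ * H ≤ X →
    Dr Q (pp B θ) → X / Q ≤ r → r ≤ Q * X →
    ∀ Y : C3, X / (2 * Q) ≤ (Y 2).re → ‖Y 2‖ ≤ 2 * Q * X → ‖Y 2 - r‖ ≤ K * ρ * M →
      ‖Y 0 - Y 2 * θ.1‖ ≤ K * ρ * L → ‖Y 1 - Y 2 * θ.2‖ ≤ K * ρ * L →
      (∀ i, 0 < ((B.map (↑) *ᵥ Y + (1 / 2 : ℂ) • cv (hv B h)) i).re ∧
        0 < ((B.map (↑) *ᵥ Y - (1 / 2 : ℂ) • cv (hv B h)) i).re) ∧
      ‖c * (phc (B.map (↑) *ᵥ Y + (1 / 2 : ℂ) • cv (hv B h)) -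
          phc (B.map (↑) *ᵥ Y - (1 / 2 : ℂ) • cv (hv B h))) -
        (Y 2 * ((GG B c h θ - kap B c h θ / (24 * r ^ 2) : ℝ) : ℂ) +
          gA B c h θ * (Y 0 - Y 2 * θ.1) + gB B c h θ * (Y 1 - Y 2 * θ.2)) -
        ((kap B c h θ / (12 * r) : ℝ) : ℂ)‖ ≤ C := by
  obtain ⟨C, hC, H1⟩ := hEx Q c0 K hQ hK
  refine ⟨C, hC, ?_⟩
  intro μ c hμ hc B hB X H ρ L M r h θ hH hH1 hρ hL hM a1 a2 a3 a4 a5 a6 hθ hr1 hr2 Y y1 y2 y3 y4 y5
  have hμ0 : 0 < μ := by linarith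
  have hρ0 : 0 < ρ := by linarith
  have hX : 0 < X := lt_of_lt_of_le (by positivity) a5
  have hr0 : 0 < r := lt_of_lt_of_le (by positivity) hr1
  have sc : ∀ (k : ℕ) {p q : ℝ}, p ≤ q → μ ^ k * p ≤ μ ^ k * q := fun k _ _ hpq =>
    mul_le_mul_of_nonneg_left hpq (by positivity)
  have nm : ∀ (z : ℂ) (b : ℝ), ‖z‖ ≤ b → ‖(μ : ℂ) * z‖ ≤ μ * b := fun z b hz => by
    rw [norm_mul, Complex.norm_real, Real.norm_of_nonneg hμ0.le]
    exact mul_le_mul_of_nonneg_left hz hμ0.le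
  have key := H1 B hB (μ * X) (μ * H) ρ (μ * L) (μ * M) (μ * r) (μ • h) θ
    (by rw [norm_smul, hH, Real.norm_of_nonneg hμ0.le]) (one_le_mul_of_one_le_of_one_le hμ hH1) hρ
    (by positivity) (by positivity) (by have := sc 1 a1; linarith) (by have := sc 3 a2; linarith)
    (by have := sc 3 a3; linarith) (by have := sc 2 a4; linarith) (by have := sc 1 a5; linarith)
    (by have := sc 1 a6; linarith) hθ (by have := sc 1 hr1; rw [mul_div_assoc]; linarith)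
    (by have := sc 1 hr2; linarith) ((μ : ℂ) • Y)
    (by
      have := sc 1 y1
      rw [mul_div_assoc, Pi.smul_apply, smul_eq_mul, Complex.re_ofReal_mul]; linarith)
    (by have := nm _ _ y2; rw [Pi.smul_apply, smul_eq_mul]; linarith)
    (by
      have := nm _ _ y3
      rw [Pi.smul_apply, smul_eq_mul, Complex.ofReal_mul, ← mul_sub]; linarith)
    (by
      have := nm _ _ y4
      rw [Pi.smul_apply, Pi.smul_apply, smul_eq_mul, smul_eq_mul, mul_assoc, ← mul_sub]; linarith)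
    (by
      have := nm _ _ y5
      rw [Pi.smul_apply, Pi.smul_apply, smul_eq_mul, smul_eq_mul, mul_assoc, ← mul_sub]; linarith)
  have hcv : cv (hv B (μ • h)) = (μ : ℂ) • cv (hv B h) := by
    rw [hu_hv]; ext i; simp [cv]
  have e1 : B.map (↑) *ᵥ ((μ : ℂ) • Y) + (1 / 2 : ℂ) • cv (hv B (μ • h)) =
      (μ : ℂ) • (B.map (↑) *ᵥ Y + (1 / 2 : ℂ) • cv (hv B h)) := by
    rw [hcv, Matrix.mulVec_smul, smul_add, smul_comm (1 / 2 : ℂ)]
  have e2 : B.map (↑) *ᵥ ((μ : ℂ) • Y) - (1 / 2 : ℂ) • cv (hv B (μ • h)) =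
      (μ : ℂ) • (B.map (↑) *ᵥ Y - (1 / 2 : ℂ) • cv (hv B h)) := by
    rw [hcv, Matrix.mulVec_smul, smul_sub, smul_comm (1 / 2 : ℂ)]
  rw [e1, e2] at key
  have hp : ∀ i, 0 < ((B.map (↑) *ᵥ Y + (1 / 2 : ℂ) • cv (hv B h)) i).re ∧
      0 < ((B.map (↑) *ᵥ Y - (1 / 2 : ℂ) • cv (hv B h)) i).re := by
    intro i
    have := key.1 i
    rw [Pi.smul_apply, Pi.smul_apply, smul_eq_mul, smul_eq_mul, Complex.re_ofReal_mul,
      Complex.re_ofReal_mul] at this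
    exact ⟨(mul_pos_iff_of_pos_left hμ0).1 this.1, (mul_pos_iff_of_pos_left hμ0).1 this.2⟩
  refine ⟨hp, ?_⟩
  have k2 := key.2
  rw [hBa.2.1 _ _ (by simpa using hμ0) (fun i => (hp i).1),
    hBa.2.1 _ _ (by simpa using hμ0) (fun i => (hp i).2)] at k2
  convert k2 using 2
  have hμc : (μ : ℂ) ≠ 0 := by exact_mod_cast hμ0.ne'
  have hrc : (r : ℂ) ≠ 0 := by exact_mod_cast hr0.ne'
  rw [hu_kap, hc, ← hu_GG, ← hu_gA, ← hu_gB]
  simp only [Pi.smul_apply, smul_eq_mul]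
  push_cast
  field_simp

lemma hu_E (hEx : SEx) (hBa : SBa) (hB2 : SB2) (N : ℕ) (R c0 : ℝ) (hR : 1 ≤ R) :
    ∃ C : ℝ, 1 ≤ C ∧ ∀ μ c : ℝ, 1 ≤ μ → c = μ ^ 2 * c0 → ∀ B : M3, NearI (4 * R ^ 2) B →
    ∀ (X H ρ L M r : ℝ) (h θ : ℝ × ℝ) (y b : V3), ‖h‖ = H → 1 ≤ H → C ≤ ρ → 0 < L → 0 < M →
    μ ^ 2 * H * ρ ^ 2 * L ^ 2 ≤ X → μ ^ 2 * H ^ 3 * ρ ^ 2 * M ^ 2 ≤ X ^ 3 →
    μ ^ 2 * H ^ 5 ≤ X ^ 3 → μ ^ 2 * H ^ 3 * ρ * L ≤ X ^ 2 → ρ ^ 2 * L ≤ X → ρ * H ≤ X → ρ * M ≤ X →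
    Dr (4 * R ^ 2) (pp B θ) → X / (4 * R ^ 2) ≤ r → r ≤ 4 * R ^ 2 * X →
    X / (3 * R) ≤ y 2 → y 2 ≤ 3 * R * X →
    |b 2| ≤ M / ρ → |b 0 - θ.1 * b 2| ≤ L / ρ → |b 1 - θ.2 * b 2| ≤ L / ρ →
    |(y 0 / y 2 - θ.1) / (L / X)| ≤ ρ → |(y 1 / y 2 - θ.2) / (L / X)| ≤ ρ →
    |(y 2 - r) / M| ≤ ρ →
    ∃ s : ℕ → ℂ, Dd N C ρ s ∧ ∀ j ≤ N, s j = Ef B c h (L / X) M θ r (y + (j : ℝ) • b) := by
  have hQ : 1 ≤ 4 * R ^ 2 := by nlinarith
  obtain ⟨C1, hC1, H1⟩ := hu_ex hEx hBa (4 * R ^ 2) c0 (3 * R + 1) hQ (by linarith)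
  obtain ⟨C2, hC2, H2⟩ := hB2 N
  set A0 : ℝ := Real.exp (Real.pi * (2 * (12 * R) ^ 2 + 1)) * Real.exp (2 * Real.pi * C1) with hA0
  have hA1 : 1 ≤ A0 := by
    have := Real.pi_pos
    exact one_le_mul_of_one_le_of_one_le (Real.one_le_exp (by positivity))
      (Real.one_le_exp (by positivity))
  refine ⟨C2 * A0 + C1 + 24 * R + N, by nlinarith [Nat.cast_nonneg (α := ℝ) N], ?_⟩
  intro μ c hμ hc B hB X H ρ L M r h θ y b hH hH1 hρ hL hM a1 a2 a3 a4 a5 a6 a7 hθ hr1 hr2 hy1 hy2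
    hb2 hb0 hb1 n0 n1 n2
  have hN0 : (0 : ℝ) ≤ N := Nat.cast_nonneg N
  have hC2A : C2 ≤ C2 * A0 := le_mul_of_one_le_right (by linarith) hA1
  have hρ1 : C1 ≤ ρ := by linarith
  have hρ2 : C2 ≤ ρ := by linarith
  have hρ3 : 24 * R ≤ ρ := by linarith
  have hρ4 : (N : ℝ) < ρ := by linarith
  have hρ0 : 0 < ρ := by linarith
  have hX : 0 < X := lt_of_lt_of_le (by positivity) a7
  have hy0 : 0 < y 2 := lt_of_lt_of_le (by positivity) hy1
  set Y : ℂ → C3 := fun t => cv y + t • cv b with hY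
  have hYi : ∀ t i, Y t i = y i + t * b i := fun t i => by simp [hY, cv]
  have hM' : M ≤ X / (24 * R) := by
    rw [le_div_iff₀ (by positivity)]
    linarith [mul_le_mul_of_nonneg_right hρ3 hM.le]
  have hRR : R ≤ R ^ 2 := le_self_pow₀ hR two_ne_zero
  have hρ1' : 1 ≤ ρ := by linarith
  have q1 : M ≤ ρ * M := le_mul_of_one_le_left hM.le hρ1'
  have q2 : L ≤ ρ * L := le_mul_of_one_le_left hL.le hρ1'
  have q3 : R * X ≤ R ^ 2 * X := mul_le_mul_of_nonneg_right hRR hX.le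
  have q4 : X ≤ R * X := le_mul_of_one_le_left hX.le hR
  have q5 : ρ * M ≤ R * (ρ * M) := le_mul_of_one_le_left (by positivity) hR
  have hbox : ∀ t : ℂ, ‖t‖ ≤ ρ → X / (2 * (4 * R ^ 2)) ≤ (Y t 2).re ∧
      ‖Y t 2‖ ≤ 2 * (4 * R ^ 2) * X ∧ ‖Y t 2 - r‖ ≤ (3 * R + 1) * ρ * M ∧
      ‖Y t 0 - Y t 2 * θ.1‖ ≤ (3 * R + 1) * ρ * L ∧
      ‖Y t 1 - Y t 2 * θ.2‖ ≤ (3 * R + 1) * ρ * L := by
    intro t ht
    have h1 : ‖t * b 2‖ ≤ M := by
      rw [norm_mul, Complex.norm_real, Real.norm_eq_abs]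
      calc _ ≤ ρ * (M / ρ) := by gcongr
        _ = M := by field_simp
    have tr : ∀ y0 b0 th : ℝ, |b0 - th * b 2| ≤ L / ρ → |(y0 / y 2 - th) / (L / X)| ≤ ρ →
        ‖(y0 + t * b0 : ℂ) - (y 2 + t * b 2) * th‖ ≤ (3 * R + 1) * ρ * L := by
      intro y0 b0 th k1 k2
      have e : (y0 + t * b0 : ℂ) - (y 2 + t * b 2) * th =
          ((y0 - y 2 * th : ℝ) : ℂ) + t * ((b0 - th * b 2 : ℝ) : ℂ) := by push_cast; ring
      rw [e]
      refine (norm_add_le _ _).trans ?_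
      rw [norm_mul, Complex.norm_real, Complex.norm_real, Real.norm_eq_abs, Real.norm_eq_abs]
      have k3 : ‖t‖ * |b0 - th * b 2| ≤ L := by
        calc _ ≤ ρ * (L / ρ) := by gcongr
          _ = L := by field_simp
      have k4 : y0 - y 2 * th = (y0 / y 2 - th) / (L / X) * (y 2 * (L / X)) := by field_simp
      have k5 : |y0 - y 2 * th| ≤ ρ * (3 * R * L) := by
        rw [k4, abs_mul, abs_of_pos (by positivity : 0 < y 2 * (L / X))]
        calc _ ≤ ρ * (3 * R * X * (L / X)) := by gcongr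
          _ = _ := by field_simp
      linarith
    rw [hYi, hYi, hYi]
    refine ⟨?_, ?_, ?_, tr _ _ _ hb0 n0, tr _ _ _ hb1 n1⟩
    · have := Complex.abs_re_le_norm (t * b 2)
      have h2 := abs_le.1 (this.trans h1)
      rw [Complex.add_re, Complex.ofReal_re]
      have h3 : X / (2 * (4 * R ^ 2)) ≤ X / (8 * R) :=
        div_le_div_of_nonneg_left hX.le (by positivity) (by linarith)
      have h4 : X / (3 * R) - X / (24 * R) = 7 / 3 * (X / (8 * R)) := by field_simp; ring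
      have h5 : 0 < X / (8 * R) := by positivity
      linarith [h2.1]
    · refine (norm_add_le _ _).trans ?_
      rw [Complex.norm_real, Real.norm_eq_abs, abs_of_pos hy0]
      linarith
    · have e : (y 2 + t * b 2 : ℂ) - r = ((y 2 - r : ℝ) : ℂ) + t * b 2 := by push_cast; ring
      rw [e]
      refine (norm_add_le _ _).trans ?_
      rw [Complex.norm_real, Real.norm_eq_abs]
      have k : |y 2 - r| ≤ ρ * M := by
        rwa [abs_div, abs_of_pos hM, div_le_iff₀ hM] at n2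
      linarith
  have hex := fun t (ht : ‖t‖ ≤ ρ) => H1 μ c hμ hc B hB X H ρ L M r h θ hH hH1 hρ1 hL hM a1 a2 a3 a4 a5 a6
    hθ hr1 hr2 (Y t) (hbox t ht).1 (hbox t ht).2.1 (hbox t ht).2.2.1 (hbox t ht).2.2.2.1
    (hbox t ht).2.2.2.2
  set Φ : ℂ → ℂ := fun t => c * (phc (B.map (↑) *ᵥ Y t + (1 / 2 : ℂ) • cv (hv B h)) -
          phc (B.map (↑) *ᵥ Y t - (1 / 2 : ℂ) • cv (hv B h))) -
        (Y t 2 * ((GG B c h θ - kap B c h θ / (24 * r ^ 2) : ℝ) : ℂ) +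
          gA B c h θ * (Y t 0 - Y t 2 * θ.1) + gB B c h θ * (Y t 1 - Y t 2 * θ.2)) -
        ((kap B c h θ / (12 * r) : ℝ) : ℂ) with hΦ
  set E : ℂ → ℂ := fun t => Complex.exp (-Real.pi *
      (((Y t 0 / Y t 2 - θ.1) / ((L / X : ℝ) : ℂ)) ^ 2 +
        ((Y t 1 / Y t 2 - θ.2) / ((L / X : ℝ) : ℂ)) ^ 2 + ((Y t 2 - r) / M) ^ 2)) *
      Complex.exp (2 * Real.pi * Complex.I * Φ t) with hE
  have hBY : ∀ t, B.map (↑) *ᵥ Y t = cv (B *ᵥ y) + t • cv (B *ᵥ b) := fun t => by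
    simp only [hY, Matrix.mulVec_add, Matrix.mulVec_smul, box_cv_mulVec]
  have hdiff : DifferentiableOn ℂ E (Metric.ball 0 ρ) := by
    intro t ht
    have ht' : ‖t‖ ≤ ρ := (mem_ball_zero_iff.1 ht).le
    refine DifferentiableAt.differentiableWithinAt ?_
    have hY2 : (y 2 : ℂ) + t * b 2 ≠ 0 := by
      intro h0
      have := (hbox t ht').1
      rw [hYi, h0, Complex.zero_re] at this
      have : 0 < X / (2 * (4 * R ^ 2)) := by positivity
      linarith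
    have hp := (hex t ht').1
    have d1 : DifferentiableAt ℂ
        (fun t => phc (B.map (↑) *ᵥ Y t + (1 / 2 : ℂ) • cv (hv B h))) t := by
      have := (hBa.2.2 (cv (B *ᵥ y) + (1 / 2 : ℂ) • cv (hv B h)) (cv (B *ᵥ b)) t (fun i => by
        have := (hp i).1
        rw [hBY] at this
        convert this using 2
        simp only [Pi.add_apply, Pi.smul_apply, smul_eq_mul]; ring)).differentiableAt
      refine this.congr_of_eventuallyEq (Filter.Eventually.of_forall fun z => ?_)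
      simp only [hBY]; congr 1; abel
    have d2 : DifferentiableAt ℂ
        (fun t => phc (B.map (↑) *ᵥ Y t - (1 / 2 : ℂ) • cv (hv B h))) t := by
      have := (hBa.2.2 (cv (B *ᵥ y) - (1 / 2 : ℂ) • cv (hv B h)) (cv (B *ᵥ b)) t (fun i => by
        have := (hp i).2
        rw [hBY] at this
        convert this using 2
        simp only [Pi.add_apply, Pi.sub_apply, Pi.smul_apply, smul_eq_mul]; ring)).differentiableAt
      refine this.congr_of_eventuallyEq (Filter.Eventually.of_forall fun z => ?_)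
      simp only [hBY]; congr 1; abel
    have d3 : DifferentiableAt ℂ Φ t := by
      simp only [hΦ, hYi]
      refine (((d1.sub d2).const_mul _).sub ?_).sub_const _
      fun_prop
    simp only [hE, hYi]
    refine DifferentiableAt.mul ?_ ((d3.const_mul _).cexp)
    refine DifferentiableAt.cexp (DifferentiableAt.const_mul ?_ _)
    have e1 : ∀ i, DifferentiableAt ℂ (fun t : ℂ => ((y i : ℂ) + t * b i) / (y 2 + t * b 2)) t :=
      fun i => DifferentiableAt.div (by fun_prop) (by fun_prop) hY2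
    exact ((((e1 0).sub_const _).div_const _).pow 2 |>.add
      ((((e1 1).sub_const _).div_const _).pow 2)).add (by fun_prop)
  have hbd : ∀ t ∈ Metric.ball (0 : ℂ) ρ, ‖E t‖ ≤ A0 := by
    intro t ht
    have ht' : ‖t‖ ≤ ρ := (mem_ball_zero_iff.1 ht).le
    have k0 := box_re_sq (box_nu hR hX (by linarith) hL hM a7 hy1 ht' hb2 hb0 n0)
    have k1 := box_re_sq (box_nu hR hX (by linarith) hL hM a7 hy1 ht' hb2 hb1 n1)
    have k2 : -1 ^ 2 ≤ ((((y 2 : ℂ) + t * b 2 - r) / M) ^ 2).re := by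
      refine box_re_sq (x := (y 2 - r) / M) ?_
      have hMc : (M : ℂ) ≠ 0 := by exact_mod_cast hM.ne'
      have e : ((y 2 : ℂ) + t * b 2 - r) / M - (((y 2 - r) / M : ℝ) : ℂ) = t * b 2 / M := by
        push_cast; field_simp; ring
      rw [e, norm_div, norm_mul, Complex.norm_real, Complex.norm_real, Real.norm_eq_abs,
        Real.norm_eq_abs, abs_of_pos hM, div_le_one hM]
      calc _ ≤ ρ * (M / ρ) := by gcongr
        _ = M := by field_simp
    have hΦb : ‖Φ t‖ ≤ C1 := (hex t ht').2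
    simp only [hE, hYi, hA0]
    rw [norm_mul]
    have hpi := Real.pi_pos
    refine mul_le_mul ?_ ?_ (norm_nonneg _) (Real.exp_pos _).le
    · rw [Complex.norm_exp]
      refine Real.exp_le_exp.2 ?_
      rw [show (-(Real.pi : ℂ)) = ((-Real.pi : ℝ) : ℂ) by push_cast; rfl, Complex.re_ofReal_mul,
        Complex.add_re, Complex.add_re, neg_mul, ← mul_neg]
      exact mul_le_mul_of_nonneg_left (by linarith) hpi.le
    · refine (Complex.norm_exp_le_exp_norm _).trans (Real.exp_le_exp.2 ?_)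
      rw [norm_mul, norm_mul, norm_mul, Complex.norm_I, Complex.norm_real, Real.norm_eq_abs,
        abs_of_pos hpi, Complex.norm_ofNat, mul_one]
      gcongr
  refine ⟨fun j => E j, fun k j hk => (H2 A0 ρ E hρ2 hdiff hbd k j hk).trans ?_, ?_⟩
  · gcongr; linarith
  · intro j hj
    have hjρ : ‖(j : ℂ)‖ ≤ ρ := by
      rw [Complex.norm_natCast]; exact le_trans (by exact_mod_cast hj) hρ4.le
    have hYj : Y j = cv (y + (j : ℝ) • b) := by ext i; simp [hY, cv]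
    have hp := (hex j hjρ).1
    have c1 : B.map (↑) *ᵥ Y j + (1 / 2 : ℂ) • cv (hv B h) =
        cv (B *ᵥ (y + (j : ℝ) • b) + (1 / 2 : ℝ) • hv B h) := by
      rw [hYj, box_cv_mulVec]; ext i; simp [cv]
    have c2 : B.map (↑) *ᵥ Y j - (1 / 2 : ℂ) • cv (hv B h) =
        cv (B *ᵥ (y + (j : ℝ) • b) - (1 / 2 : ℝ) • hv B h) := by
      rw [hYj, box_cv_mulVec]; ext i; simp [cv]
    have p1 := (hBa.1 (B *ᵥ (y + (j : ℝ) • b) + (1 / 2 : ℝ) • hv B h) 0 0 0 (fun i => by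
      have := (hp i).1; rw [c1] at this; exact this)).1
    have p2 := (hBa.1 (B *ᵥ (y + (j : ℝ) • b) - (1 / 2 : ℝ) • hv B h) 0 0 0 (fun i => by
      have := (hp i).2; rw [c2] at this; exact this)).1
    simp only [hE, hΦ]
    rw [c1, c2, p1, p2]
    unfold Ef gaus ee gmf xif
    rw [hYj]
    simp only [cv, Fin.sum_univ_three, Matrix.cons_val_zero, Matrix.cons_val_one,
      Matrix.cons_val_two, Matrix.head_cons, Matrix.tail_cons]
    push_cast
    congr 2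
    ring

lemma hu_K (hEx : SEx) (hBa : SBa) (hB1 : SB1) (hB2 : SB2) (hB3 : SB3) (N : ℕ) (R c0 : ℝ)
    (hR : 1 ≤ R) :
    ∃ C : ℝ, 1 ≤ C ∧ ∀ μ c : ℝ, 1 ≤ μ → c = μ ^ 2 * c0 → ∀ B : M3, NearI (4 * R ^ 2) B →
    ∀ (X H ρ L M r A : ℝ) (W : V3 → ℂ) (h θ : ℝ × ℝ) (y b : V3), ‖h‖ = H → 1 ≤ H → C ≤ ρ →
    1 ≤ L → 0 < M →
    μ ^ 2 * H * ρ ^ 2 * L ^ 2 ≤ X → μ ^ 2 * H ^ 3 * ρ ^ 2 * M ^ 2 ≤ X ^ 3 →
    μ ^ 2 * H ^ 5 ≤ X ^ 3 → μ ^ 2 * H ^ 3 * ρ * L ≤ X ^ 2 → ρ ^ 2 * L ≤ X → ρ * H ≤ X → ρ * M ≤ X → Wt N R X A W →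
    Dr (4 * R ^ 2) (pp B θ) → X / (4 * R ^ 2) ≤ r → r ≤ 4 * R ^ 2 * X →
    |b 2| ≤ M / ρ → |b 0 - θ.1 * b 2| ≤ L / ρ → |b 1 - θ.2 * b 2| ≤ L / ρ →
    ‖(fwdDiff 1)^[N] (fun j : ℕ => wwf B W h (y + (j : ℝ) • b) *
        Ef B c h (L / X) M θ r (y + (j : ℝ) • b)) 0‖ ≤ C * A ^ 2 / ρ ^ N ∧
    ((fwdDiff 1)^[N] (fun j : ℕ => wwf B W h (y + (j : ℝ) • b) *
        Ef B c h (L / X) M θ r (y + (j : ℝ) • b)) 0 ≠ 0 → ‖y‖ ≤ 3 * R * X) := by
  have hQ : 1 ≤ 4 * R ^ 2 := by nlinarith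
  obtain ⟨C1, hC1, H1⟩ := hu_E hEx hBa hB2 N R c0 hR
  have hN0 : (0 : ℝ) ≤ N := Nat.cast_nonneg N
  have hR2 : 1 ≤ R ^ 2 := one_le_pow₀ hR
  have hR3 : 1 ≤ R ^ 3 := one_le_pow₀ hR
  have hf : (1 : ℝ) ≤ N.factorial := by exact_mod_cast N.factorial_pos
  have h2N : (1 : ℝ) ≤ 2 ^ N := one_le_pow₀ (by norm_num)
  have z1 : 0 ≤ (2 : ℝ) ^ N * N.factorial := by positivity
  have z2 : C1 ≤ 2 ^ N * 2 ^ N * C1 :=
    le_mul_of_one_le_left (by linarith) (one_le_mul_of_one_le_of_one_le h2N h2N)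
  have z3 : 300 * R ^ 3 ≤ 300 * R ^ 3 * (N + 1) := le_mul_of_one_le_right (by linarith) (by linarith)
  refine ⟨2 ^ N * 2 ^ N * C1 + 2 ^ N * N.factorial + 300 * R ^ 3 * (N + 1), by linarith, ?_⟩
  intro μ c hμ hc B hB X H ρ L M r A W h θ y b hH hH1 hρ hL hM a1 a2 a3 a4 a5 a6 a7 hW hθ hr1 hr2 hb2 hb0 hb1
  have hρ1 : 300 * R ^ 3 * (N + 1) ≤ ρ := by linarith
  have hρ2 : 300 ≤ ρ := by linarith
  have hρ0 : 0 < ρ := by linarith
  have hL0 : 0 < L := by linarith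
  have hX : 0 < X := lt_of_lt_of_le (by positivity) a7
  have hA2 : 0 ≤ A ^ 2 := sq_nonneg A
  by_cases hz : ∀ j ≤ N, wwf B W h (y + (j : ℝ) • b) = 0
  · rw [box_fd_zero (fun j hj => by rw [hz j hj, zero_mul])]
    exact ⟨by rw [norm_zero]; positivity, fun h => absurd rfl h⟩
  push Not at hz
  obtain ⟨j0, hj0, hne⟩ := hz
  obtain ⟨l1, l2, l3⟩ := box_loc hR hX hB (box_supp hW hne)
  have hθ' := box_theta hQ hB hθ
  have hbn := box_b_norm hR (by linarith) hL hM a5 a7 hθ'.1 hθ'.2 hb2 hb0 hb1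
  have hRR : R ≤ R ^ 3 := le_self_pow₀ hR three_ne_zero
  have hRR2 : R ^ 2 ≤ R ^ 3 := pow_le_pow_right₀ hR (by norm_num)
  have hb3 : (N + 1) * ‖b‖ ≤ X / (32 * R) := by
    calc _ ≤ (N + 1) * (9 * R ^ 2 * (X / ρ ^ 2)) := by gcongr
      _ = X / (32 * R) * (288 * R ^ 3 * (N + 1) / ρ ^ 2) := by field_simp; ring
      _ ≤ X / (32 * R) * 1 := by
        gcongr
        rw [div_le_one (by positivity)]
        have : ρ ≤ ρ ^ 2 := le_self_pow₀ (by linarith) two_ne_zero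
        have : 0 ≤ R ^ 3 * (N + 1) := by positivity
        linarith
      _ = _ := mul_one _
  have hb4 : ‖b‖ * ρ ≤ X / 2 := by
    calc _ ≤ 9 * R ^ 2 * (X / ρ ^ 2) * ρ := by gcongr
      _ = X / 2 * (18 * R ^ 2 / ρ) := by field_simp; ring
      _ ≤ X / 2 * 1 := by
        gcongr
        rw [div_le_one (by positivity)]; linarith
      _ = _ := mul_one _
  have hbn0 := norm_nonneg b
  have hj0' : (j0 : ℝ) ≤ N := by exact_mod_cast hj0
  have hjb : ‖(j0 : ℝ) • b‖ ≤ X / (32 * R) := by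
    rw [norm_smul, Real.norm_natCast]
    exact le_trans (mul_le_mul_of_nonneg_right (by linarith) hbn0) hb3
  have q0 : X / (32 * R) ≤ R * X := by
    rw [div_le_iff₀ (by positivity)]
    have : X ≤ R ^ 2 * X := le_mul_of_one_le_left hX.le hR2
    linarith
  have hyn : ‖y‖ ≤ 3 * R * X := by
    have := norm_sub_le (y + (j0 : ℝ) • b) ((j0 : ℝ) • b)
    rw [add_sub_cancel_right] at this
    linarith
  refine ⟨?_, fun _ => hyn⟩
  have hy2 : y 2 ≤ 3 * R * X := by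
    have : |y 2| ≤ ‖y‖ := by simpa using norm_le_pi_norm y 2
    linarith [le_abs_self (y 2)]
  have hy1 : X / (3 * R) ≤ y 2 := by
    have k : |((j0 : ℝ) • b) 2| ≤ ‖(j0 : ℝ) • b‖ := by
      simpa using norm_le_pi_norm ((j0 : ℝ) • b) 2
    have k2 := (abs_le.1 (k.trans hjb)).2
    rw [Pi.add_apply] at l2
    have e : X / (2 * R) - X / (32 * R) = 45 / 32 * (X / (3 * R)) := by field_simp; ring
    have : 0 < X / (3 * R) := by positivity
    linarith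
  by_cases hnear : |(y 0 / y 2 - θ.1) / (L / X)| ≤ ρ ∧ |(y 1 / y 2 - θ.2) / (L / X)| ≤ ρ ∧
      |(y 2 - r) / M| ≤ ρ
  · obtain ⟨s, hs, hs'⟩ := H1 μ c hμ hc B hB X H ρ L M r h θ y b hH hH1 (by linarith) hL0 hM a1 a2 a3 a4 a5
      a6 a7 hθ hr1 hr2 hy1 hy2 hb2 hb0 hb1 hnear.1 hnear.2.1 hnear.2.2
    have hBb := (box_norm_B hQ hB b).1
    have v1 : N * ‖B *ᵥ b‖ ≤ X / (16 * R) := by
      have e : X / (16 * R) = 2 * (X / (32 * R)) := by field_simp; ring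
      have : N * ‖B *ᵥ b‖ ≤ N * (2 * ‖b‖) := by gcongr
      linarith
    have v2 : ‖B *ᵥ b‖ * ρ ≤ X := by
      have : ‖B *ᵥ b‖ * ρ ≤ 2 * ‖b‖ * ρ := by gcongr
      linarith
    have w1 := box_W_Dd hB3 hW hR hX hρ0 (B *ᵥ y + (1 / 2 : ℝ) • hv B h) (B *ᵥ b) v1 v2
    have w2 := box_Dd_conj (box_W_Dd hB3 hW hR hX hρ0 (B *ᵥ y - (1 / 2 : ℝ) • hv B h) (B *ᵥ b) v1 v2)
    have w3 := hB1 N _ _ ρ _ _ hρ0 (hB1 N _ _ ρ _ _ hρ0 w1 w2) hs N 0 le_rfl
    rw [box_fd_congr (t := fun j : ℕ =>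
      W (B *ᵥ y + (1 / 2 : ℝ) • hv B h + (j : ℝ) • B *ᵥ b) *
        (starRingEnd ℂ) (W (B *ᵥ y - (1 / 2 : ℝ) • hv B h + (j : ℝ) • B *ᵥ b)) * s j)]
    · refine w3.trans ?_
      rw [show (2 : ℝ) ^ N * (2 ^ N * A * A) * C1 = (2 ^ N * 2 ^ N * C1) * A ^ 2 by ring]
      gcongr
      have : 0 ≤ 300 * R ^ 3 * (N + 1) := by positivity
      linarith
    · intro j hj
      rw [hs' j hj]
      unfold wwf
      rw [Matrix.mulVec_add, Matrix.mulVec_smul, add_right_comm, add_sub_right_comm]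
  · have hfar : ∀ j ≤ N, ‖wwf B W h (y + (j : ℝ) • b) *
        Ef B c h (L / X) M θ r (y + (j : ℝ) • b)‖ ≤ A ^ 2 * (N.factorial / ρ ^ N) := by
      intro j hj
      have hj' : (j : ℝ) ≤ N := by exact_mod_cast hj
      have hjj : (0 : ℝ) ≤ j := Nat.cast_nonneg j
      have hρ5 : 12 * R * (j + 1) ≤ ρ := by
        have : R * (j + 1) ≤ R ^ 3 * (N + 1) := by gcongr
        have : 0 ≤ R ^ 3 * (N + 1) := by positivity
        linarith
      rw [norm_mul, box_Ef_norm]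
      refine mul_le_mul (box_ww_le hW hR hX _) ?_ (gaus_pos _ _ _ _ _).le hA2
      refine (gaus_le_of (d := ρ / 2) (by linarith) Real.pi_pos.le ?_).trans
        (box_exp_le N hρ0 (box_pi_sq hρ2))
      simp only [Pi.add_apply, Pi.smul_apply, smul_eq_mul]
      simp only [not_and_or, not_le] at hnear
      rcases hnear with k | k | k
      · exact Or.inl (box_far hR hX hjj hρ5 hL0 hM a7 hy1 hb2 hb0 k)
      · exact Or.inr (Or.inl (box_far hR hX hjj hρ5 hL0 hM a7 hy1 hb2 hb1 k))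
      · refine Or.inr (Or.inr ?_)
        have e : (y 2 + j * b 2 - r) / M = (y 2 - r) / M + j * b 2 / M := by ring
        have k2 : |j * b 2 / M| ≤ 1 := by
          rw [abs_div, abs_mul, abs_of_pos hM, abs_of_nonneg hjj, div_le_one hM]
          have : (j : ℝ) ≤ ρ := by
            have : j + 1 ≤ R * (j + 1) := le_mul_of_one_le_left (by linarith) hR
            linarith
          calc _ ≤ ρ * (M / ρ) := by gcongr
            _ = M := by field_simp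
        have k3 := abs_sub_abs_le_abs_sub ((y 2 - r) / M) (-(j * b 2 / M))
        rw [sub_neg_eq_add, abs_neg] at k3
        rw [e]; linarith
    refine (box_fd_triv hfar).trans ?_
    rw [show (2 : ℝ) ^ N * (A ^ 2 * (N.factorial / ρ ^ N)) =
      (2 ^ N * N.factorial) * A ^ 2 / ρ ^ N by ring]
    gcongr
    have : 0 ≤ 300 * R ^ 3 * (N + 1) := by positivity
    linarith

theorem stHU (hEx : SEx) (hBa : SBa) (hB1 : SB1) (hB2 : SB2) (hB3 : SB3) (hB5 : SB5)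
    (hB6 : SB6) (hC : SC) : StHU := by
  classical
  intro N R c0 hR
  have hQ : 1 ≤ 4 * R ^ 2 := by nlinarith
  obtain ⟨C1, hC1, H1⟩ := hu_K hEx hBa hB1 hB2 hB3 N R c0 hR
  set K1 : ℝ := 2 ^ N * (27 * (3 * R) ^ 3) * C1 with hK1
  set K2 : ℝ := N.factorial * (27 * (2 * R) ^ 3) * 8 with hK2
  set K3 : ℝ := (16 * R ^ 2) ^ 2 * (4 * R ^ 2) with hK3
  have hK1' : 0 ≤ K1 := by positivity
  have hK2' : 0 ≤ K2 := by positivity
  have hK3' : 0 ≤ K3 := by positivity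
  have hK13 : 0 ≤ K1 * K3 := by positivity
  have hR4 : 1 ≤ R ^ 4 := one_le_pow₀ hR
  have hR2 : 1 ≤ R ^ 2 := one_le_pow₀ hR
  refine ⟨C1 + K1 * K3 + K2 + 1152 * R ^ 2 + 64 * R ^ 4, by linarith, ?_⟩
  intro mu hmu B hB X H ρ L M A V W a h hH hH1 hρ hL hM a1 a2 a3 a4 a5 a6 a7 hW hV0 hV
  obtain ⟨c, hc⟩ : ∃ c, c = mu ^ 2 * c0 := ⟨_, rfl⟩
  rw [← hc] at hV ⊢
  set hh : ℝ × ℝ := ((h.1 : ℝ), (h.2 : ℝ)) with hhh
  set sh : V3 := a + (1 / 2 : ℝ) • ![(h.1 : ℝ), (h.2 : ℝ), 0] with hsh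
  have hρ1 : 1 ≤ ρ := by linarith
  have hρ0 : 0 < ρ := by linarith
  have hρρ : ρ ≤ ρ ^ 2 := le_self_pow₀ hρ1 two_ne_zero
  have hL1 : 1 ≤ L := by linarith
  have hM1 : 1 ≤ M := by linarith
  have hL0 : 0 < L := by linarith
  have hM0 : 0 < M := by linarith
  have hX1 : 1 ≤ X := le_trans (one_le_mul_of_one_le_of_one_le hρ1 hM1) a7
  have hX : 0 < X := by linarith
  have hτ : 0 < L / X := by positivity
  have hA2 : 0 ≤ A ^ 2 := sq_nonneg A
  have hRX : 1 ≤ R * X := one_le_mul_of_one_le_of_one_le hR hX1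
  simp only [box_T]
  rw [← hhh, ← hsh]
  set s : Finset Z3 := (Fintype.piFinset fun i => Finset.Icc ⌈-sh i - 2 * R * X⌉
    ⌊-sh i + 2 * R * X⌋).filter (fun n => wwf B W hh (zr n + sh) ≠ 0) with hs
  have hmem : ∀ n, wwf B W hh (zr n + sh) ≠ 0 → n ∈ s := by
    intro n hn
    refine Finset.mem_filter.2 ⟨box_mem_pi fun i => ?_, hn⟩
    have := (box_loc hR hX hB (box_supp hW hn)).1
    have k : |(zr n + sh) i| ≤ ‖zr n + sh‖ := by simpa using norm_le_pi_norm (zr n + sh) i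
    exact k.trans this
  have hsne : ∀ n ∈ s, wwf B W hh (zr n + sh) ≠ 0 := fun n hn => (Finset.mem_filter.1 hn).2
  have hcard : (s.card : ℝ) ≤ 27 * (2 * R * X) ^ 3 :=
    le_trans (by exact_mod_cast Finset.card_filter_le _ _) (box_cnt (by linarith))
  set T : Z3 → ℂ := fun n => wwf B W hh (zr n + sh) * ee (gmf B c hh (zr n + sh)) with hT
  have hTn : ∀ n, ‖T n‖ ≤ A ^ 2 := fun n => by
    rw [hT]; simp only [norm_mul, box_ee_norm, mul_one]; exact box_ww_le hW hR hX _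
  have hsum : ∑' n, T n = ∑ n ∈ s, T n :=
    tsum_eq_sum fun n hn => by
      by_contra h0; exact hn (hmem n (left_ne_zero_of_mul h0))
  set f : (ℝ × ℝ) × ℝ → ℂ := fun κ => ∑ n ∈ s, T n * (gaus Real.pi (L / X) M (zr n + sh) κ : ℝ)
    with hf
  have hint : ∫ κ, f κ = (∑ n ∈ s, T n) * (((L / X) ^ 2 * M : ℝ) : ℂ) := by
    rw [hf, integral_finsetSum _ (fun n _ =>
      ((gaus_int Real.pi_pos hτ hM0 _).ofReal).const_mul _), Finset.sum_mul]
    refine Finset.sum_congr rfl fun n _ => ?_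
    rw [integral_const_mul, integral_complex_ofReal, gaus_integral Real.pi_pos hτ hM0,
      div_self Real.pi_pos.ne', Real.sqrt_one]
    simp
  set In' : Set ((ℝ × ℝ) × ℝ) := Metric.closedBall (0 : ℝ × ℝ) (8 * R ^ 2) ×ˢ
    Set.Icc 0 (4 * R ^ 2 * X) with hIn
  have hInm : MeasurableSet In' := measurableSet_closedBall.prod measurableSet_Icc
  have hInv : volume In' = ENNReal.ofReal (K3 * X) := by
    rw [hIn, Measure.volume_eq_prod, Measure.prod_prod, Real.volume_Icc, ← closedBall_prod_same,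
      Measure.volume_eq_prod, Measure.prod_prod, Real.volume_closedBall, Real.volume_closedBall,
      ← ENNReal.ofReal_mul (by positivity), ← ENNReal.ofReal_mul (by positivity), hK3]
    congr 1; ring
  set a1' : ℝ := K1 * A ^ 2 * X ^ 3 / ρ ^ N with ha1
  set e1 : ℝ := A ^ 2 * (N.factorial / ρ ^ N) with he1
  have ha1' : 0 ≤ a1' := by positivity
  have he1' : 0 ≤ e1 := by positivity
  set g : (ℝ × ℝ) × ℝ → ℝ := fun κ => In'.indicator (fun _ => a1') κ +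
    ∑ n ∈ s, e1 * gaus (Real.pi / 2) (L / X) M (zr n + sh) κ with hg
  have hpi2 : 0 < Real.pi / 2 := by linarith [Real.pi_pos]
  have hg1 : Integrable (In'.indicator (fun _ => a1')) := by
    refine (integrable_indicator_iff hInm).2 (integrableOn_const ?_ (by simp))
    rw [hInv]; exact ENNReal.ofReal_ne_top
  have hg2 : Integrable (fun κ => ∑ n ∈ s, e1 * gaus (Real.pi / 2) (L / X) M (zr n + sh) κ) :=
    integrable_finsetSum _ fun n _ => (gaus_int hpi2 hτ hM0 _).const_mul _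
  have hg20 : ∀ κ, 0 ≤ ∑ n ∈ s, e1 * gaus (Real.pi / 2) (L / X) M (zr n + sh) κ := fun κ =>
    Finset.sum_nonneg fun n _ => mul_nonneg he1' (gaus_pos _ _ _ _ _).le
  have hg10 : ∀ κ, 0 ≤ In'.indicator (fun _ => a1') κ := fun κ =>
    Set.indicator_nonneg (fun _ _ => ha1') _
  have hgi : ∫ κ, g κ ≤ a1' * (K3 * X) + e1 * (27 * (2 * R * X) ^ 3) * (8 * ((L / X) ^ 2 * M)) := by
    rw [hg, integral_add hg1 hg2, integral_indicator_const _ hInm, integral_finsetSum _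
      (fun n _ => (gaus_int hpi2 hτ hM0 _).const_mul _)]
    simp only [integral_const_mul, gaus_integral hpi2 hτ hM0, Finset.sum_const, nsmul_eq_mul]
    rw [Measure.real, hInv, ENNReal.toReal_ofReal (by positivity), smul_eq_mul]
    have e2 : √(Real.pi / (Real.pi / 2)) ≤ 2 := by
      rw [Real.sqrt_le_left (by norm_num), div_le_iff₀ hpi2]; linarith [Real.pi_pos]
    have e3 : √(Real.pi / (Real.pi / 2)) ^ 3 ≤ 8 := by
      calc _ ≤ (2 : ℝ) ^ 3 := by gcongr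
        _ = 8 := by norm_num
    have : (s.card : ℝ) * (e1 * (√(Real.pi / (Real.pi / 2)) ^ 3 * ((L / X) ^ 2 * M))) ≤
        27 * (2 * R * X) ^ 3 * (e1 * (8 * ((L / X) ^ 2 * M))) := by gcongr
    linarith
  set a2' : ℝ := A ^ 2 * (1152 * R ^ 2 * (L ^ 2 * M)) with ha2
  have hpt : ∀ κ, ‖f κ‖ ≤ g κ + (ResSet (4 * R ^ 2) B c hh X (L / ρ) (M / ρ)).indicator
      (fun _ => a2') κ := by
    rintro ⟨θ, r⟩
    have hi0 : 0 ≤ (ResSet (4 * R ^ 2) B c hh X (L / ρ) (M / ρ)).indicator (fun _ => a2') (θ, r) :=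
      Set.indicator_nonneg (fun _ _ => by positivity) _
    by_cases hin : Dr (4 * R ^ 2) (pp B θ) ∧ X / (4 * R ^ 2) ≤ r ∧ r ≤ 4 * R ^ 2 * X
    · by_cases hres : Res B c hh (L / ρ) (M / ρ) θ r
      · rw [Set.indicator_of_mem (show (θ, r) ∈ ResSet (4 * R ^ 2) B c hh X (L / ρ) (M / ρ) from
          ⟨hin.1, hin.2.1, hin.2.2, hres⟩)]
        have k1 : ‖f (θ, r)‖ ≤ ∑ n ∈ s, A ^ 2 * gaus Real.pi (L / X) M (zr n + sh) (θ, r) := by
          refine (norm_sum_le _ _).trans (Finset.sum_le_sum fun n _ => ?_)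
          rw [norm_mul, Complex.norm_real, Real.norm_eq_abs, abs_of_pos (gaus_pos _ _ _ _ _)]
          exact mul_le_mul_of_nonneg_right (hTn n) (gaus_pos _ _ _ _ _).le
        rw [← Finset.mul_sum] at k1
        have k2 := box_gsum hB6 hR hX hL1 hM1 sh (θ, r) s (fun n hn => by
          have := box_loc hR hX hB (box_supp hW (hsne n hn))
          exact ⟨lt_of_lt_of_le (by positivity) this.2.1, this.2.2⟩)
        have k3 := mul_le_mul_of_nonneg_left k2 hA2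
        have := hg10 (θ, r); have := hg20 (θ, r)
        simp only [hg]; linarith
      · have hmemIn : (θ, r) ∈ In' := by
          have := box_theta hQ hB hin.1
          refine ⟨?_, le_trans (by positivity) hin.2.1, hin.2.2⟩
          rw [mem_closedBall_zero_iff, Prod.norm_def, max_le_iff]
          exact ⟨by simp only [Real.norm_eq_abs]; linarith [this.1],
            by simp only [Real.norm_eq_abs]; linarith [this.2]⟩
        have hL2 : 1 ≤ L / ρ := by rw [one_le_div hρ0]; linarith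
        have hM2 : 1 ≤ M / ρ := by rw [one_le_div hρ0]; linarith
        rcases hC (xif B c hh θ r) θ (L / ρ) (M / ρ) hL2 hM2 with ⟨b, b2, b0, b1, be⟩ | ⟨m, m0, m1, m2⟩
        · set F : Z3 → ℂ := fun n => wwf B W hh (zr n + sh) *
            Ef B c hh (L / X) M θ r (zr n + sh) with hF
          have hFs : (Function.support F).Finite :=
            s.finite_toSet.subset fun n hn => hmem n (left_ne_zero_of_mul hn)
          have k1 := hB5 F hFs b (xif B c hh θ r)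
            (∑ i, xif B c hh θ r i * sh i + kap B c hh θ / (12 * r)) N
          have k2 : ∑' n : Z3, F n * ee (∑ i, xif B c hh θ r i * n i +
              (∑ i, xif B c hh θ r i * sh i + kap B c hh θ / (12 * r))) = f (θ, r) := by
            rw [tsum_eq_sum (s := s) (fun n hn => by
              by_contra h0; exact hn (hmem n (left_ne_zero_of_mul (left_ne_zero_of_mul h0))))]
            refine Finset.sum_congr rfl fun n _ => ?_
            simp only [hF, hT, Ef]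
            rw [mul_assoc, mul_assoc, ← box_ee_add, mul_assoc, mul_comm (ee _)]
            congr 3
            simp only [Fin.sum_univ_three, Pi.add_apply, zr]; ring
          have k3 : ∀ n : Z3, (fwdDiff b)^[N] F n = (fwdDiff 1)^[N] (fun j : ℕ =>
              wwf B W hh (zr n + sh + (j : ℝ) • zr b) *
                Ef B c hh (L / X) M θ r (zr n + sh + (j : ℝ) • zr b)) 0 := by
            intro n
            rw [← hB3.2]
            refine congrArg (fun s : ℕ → ℂ => (fwdDiff 1)^[N] s 0) (funext fun j => ?_)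
            have : zr (n + (j : ℤ) • b) + sh = zr n + sh + (j : ℝ) • zr b := by
              ext i; simp [zr]; ring
            simp only [hF, this]
          have k4 := fun n : Z3 => H1 mu c hmu hc B hB X H ρ L M r A W hh θ (zr n + sh) (zr b) hH hH1
            (by linarith) hL1 hM0 a1 a2 a3 a4 a5 a6 a7 hW hin.1 hin.2.1 hin.2.2 b2 b0 b1
          have k5 : ∑' n : Z3, ‖(fwdDiff b)^[N] F n‖ ≤
              27 * (3 * R * X) ^ 3 * (C1 * A ^ 2 / ρ ^ N) := by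
            rw [tsum_eq_sum (s := Fintype.piFinset fun i => Finset.Icc ⌈-sh i - 3 * R * X⌉
              ⌊-sh i + 3 * R * X⌋) (fun n hn => by
                by_contra h0
                rw [norm_eq_zero, k3] at h0
                refine hn (box_mem_pi fun i => ?_)
                have k : |(zr n + sh) i| ≤ ‖zr n + sh‖ := by
                  simpa using norm_le_pi_norm (zr n + sh) i
                exact k.trans ((k4 n).2 h0))]
            refine (Finset.sum_le_card_nsmul _ _ (C1 * A ^ 2 / ρ ^ N)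
              (fun n _ => by rw [k3]; exact (k4 n).1)).trans ?_
            rw [nsmul_eq_mul]
            exact mul_le_mul_of_nonneg_right (box_cnt (by linarith)) (by positivity)
          rw [k2] at k1
          have k6 : (1 / 2 : ℝ) ^ N * ‖f (θ, r)‖ ≤ 27 * (3 * R * X) ^ 3 * (C1 * A ^ 2 / ρ ^ N) :=
            le_trans (by gcongr) (k1.trans k5)
          have k7 : ‖f (θ, r)‖ ≤ a1' := by
            calc ‖f (θ, r)‖ = 2 ^ N * ((1 / 2 : ℝ) ^ N * ‖f (θ, r)‖) := by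
                  rw [← mul_assoc, ← mul_pow]; simp
              _ ≤ 2 ^ N * (27 * (3 * R * X) ^ 3 * (C1 * A ^ 2 / ρ ^ N)) := by gcongr
              _ = a1' := by rw [ha1, hK1]; ring
          have := hg20 (θ, r)
          simp only [hg, Set.indicator_of_mem hmemIn]; linarith
        · refine absurd ⟨m, m0, m1, ?_⟩ hres
          convert m2 using 2
          simp only [xif, Matrix.cons_val_zero, Matrix.cons_val_one, Matrix.cons_val_two,
            Matrix.head_cons, Matrix.tail_cons]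
          ring
    · have k1 : ‖f (θ, r)‖ ≤ ∑ n ∈ s, e1 * gaus (Real.pi / 2) (L / X) M (zr n + sh) (θ, r) := by
        refine (norm_sum_le _ _).trans (Finset.sum_le_sum fun n hn => ?_)
        rw [norm_mul, Complex.norm_real, Real.norm_eq_abs, abs_of_pos (gaus_pos _ _ _ _ _),
          gaus_half, ← mul_assoc]
        refine mul_le_mul_of_nonneg_right ?_ (gaus_pos _ _ _ _ _).le
        refine mul_le_mul (hTn n) ?_ (gaus_pos _ _ _ _ _).le hA2
        exact (gaus_le_of (by positivity) hpi2.le (box_out hR hX hρ1 hL0 hM0 a5 a7 hB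
          (box_supp hW (hsne n hn)) (κ := (θ, r)) hin)).trans
          (box_exp_le N hρ0 (box_pi2 hR (by linarith)))
      have := hg10 (θ, r)
      simp only [hg]; linarith
  have main := box_M1 volume f g _ a2' V (hg1.add hg2) (fun κ => add_nonneg (hg10 κ) (hg20 κ))
    (by positivity) hV0 hV hpt
  rw [hint, norm_mul, Complex.norm_real, Real.norm_eq_abs, abs_of_pos (by positivity)] at main
  rw [hsum]
  have hμ : 0 < (L / X) ^ 2 * M := by positivity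
  refine le_of_mul_le_mul_right (main.trans ?_) hμ
  have u1 : 1 ≤ X ^ 2 * ((L / X) ^ 2 * M) := by
    rw [show X ^ 2 * ((L / X) ^ 2 * M) = L ^ 2 * M by field_simp]
    exact one_le_mul_of_one_le_of_one_le (one_le_pow₀ hL1) hM1
  set μ0 := (L / X) ^ 2 * M with hμ0
  set Z := A ^ 2 * (X ^ 6 / ρ ^ N) * μ0 with hZ
  have hZ0 : 0 ≤ Z := by positivity
  have u2 : a1' * (K3 * X) ≤ K1 * K3 * Z := by
    calc a1' * (K3 * X) = K1 * K3 * (A ^ 2 * (X ^ 4 / ρ ^ N)) * 1 := by rw [ha1]; ring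
      _ ≤ K1 * K3 * (A ^ 2 * (X ^ 4 / ρ ^ N)) * (X ^ 2 * μ0) := by gcongr
      _ = _ := by rw [hZ]; ring
  have u3 : e1 * (27 * (2 * R * X) ^ 3) * (8 * μ0) ≤ K2 * Z := by
    calc _ = K2 * (A ^ 2 * (X ^ 3 / ρ ^ N) * μ0) := by rw [he1, hK2]; ring
      _ ≤ K2 * (A ^ 2 * (X ^ 6 / ρ ^ N) * μ0) := by
        have : X ^ 3 ≤ X ^ 6 := pow_le_pow_right₀ hX1 (by norm_num)
        gcongr
  set Z' := A ^ 2 * (X ^ 2 * V) * μ0 with hZ'
  have hZ0' : 0 ≤ Z' := by positivity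
  have u4 : a2' * V = 1152 * R ^ 2 * Z' := by
    rw [ha2, hZ', hμ0]; field_simp
  have u5 : (C1 + K1 * K3 + K2 + 1152 * R ^ 2 + 64 * R ^ 4) * A ^ 2 * (X ^ 6 / ρ ^ N + X ^ 2 * V) *
      μ0 = (C1 + K1 * K3 + K2 + 1152 * R ^ 2 + 64 * R ^ 4) * (Z + Z') := by
    rw [hZ, hZ']; ring
  rw [u5, u4]
  have v1 : 0 ≤ (C1 + 1152 * R ^ 2 + 64 * R ^ 4) * Z := by positivity
  have v2 : 0 ≤ (C1 + K1 * K3 + K2 + 64 * R ^ 4) * Z' := by positivity
  linarith

end Pool.Agent.CubZ
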