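import Pool.Agent.Lib.MP_d79f69_nt.Z3.Basic
import Pool.Agent.Lib.MP_d79f69_nt.CM
import Pool.Agent.Lib.MP_d79f69_nt.PL

open Matrix MeasureTheory Complex Finset

namespace Pool.Agent.CubZ

open Pool.Agent.CubH

/-- the point of the Cahen-Mellin formula -/
noncomputable def j_z (k ε u l : ℝ) : ℂ :=
  ((Real.log (k * Real.pi) - 2 * u / k + 2 * l / k : ℝ) : ℂ) + ((Real.pi / 2 - 2 * ε / k : ℝ) : ℂ) * I

noncomputable def j_A (k : ℝ) (a : ℂ) : ℂ :=
  a * Real.log (2 / k) + ((Real.pi * a.im / 2 - Real.log √(2 * Real.pi) : ℝ) : ℂ) -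
    ((k * Real.pi / 8 + a.re * Real.pi / 2 : ℝ) : ℂ) * I

noncomputable def j_h (k : ℝ) (a : ℂ) (ε u l t : ℝ) : ℂ :=
  cexp (j_A k a) * (Gamma (((a.re + 1 / 2 : ℝ) : ℂ) + ((k / 2 * t + a.im : ℝ) : ℂ) * I) *
    cexp (-(((k / 2 * t : ℝ) : ℂ) * I * j_z k ε u l)))

theorem j_int {k ε : ℝ} (hk : 1 ≤ k) (h0 : 0 < ε) (h1 : ε ≤ 1 / 2) {a : ℂ} (ha : 1 ≤ a.re)
    (u l : ℝ) : ∫ t, j_h k a ε u l t =
      ((4 * Real.pi / k : ℝ) : ℂ) * cexp (j_A k a + (a + 1 / 2) * j_z k ε u 0) *
        MM k (a + 1 / 2) ε u l := by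
  have hk0 : 0 < k := by linarith
  have hp := Real.pi_gt_three
  have a1 : 2 * ε / k ≤ 1 := by rw [div_le_one hk0]; linarith
  have a0 : 0 < 2 * ε / k := by positivity
  have key : ∫ v : ℝ, Gamma (((a.re + 1 / 2 : ℝ) : ℂ) + v * I) *
      cexp (-((((a.re + 1 / 2 : ℝ) : ℂ) + v * I) * j_z k ε u l)) =
      2 * Real.pi * cexp (-cexp (j_z k ε u l)) :=
    cmCM (by linarith) _ _ (abs_lt.2 ⟨by linarith, by linarith⟩)
  rw [← integral_add_right_eq_self _ a.im] at key
  have e1 : ∀ t, j_h k a ε u l t = cexp (j_A k a + (a + 1 / 2) * j_z k ε u l) *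
      (fun v : ℝ => Gamma (((a.re + 1 / 2 : ℝ) : ℂ) + ((v + a.im : ℝ) : ℂ) * I) *
        cexp (-((((a.re + 1 / 2 : ℝ) : ℂ) + ((v + a.im : ℝ) : ℂ) * I) * j_z k ε u l)))
        (k / 2 * t) := by
    intro t
    simp only [j_h]
    rw [mul_left_comm, mul_left_comm (cexp _), ← Complex.exp_add, ← Complex.exp_add]
    congr 2
    have := Complex.re_add_im a
    push_cast
    linear_combination (j_z k ε u l) * this
  have e2 : cexp (j_z k ε u l) = om k ε u * ((Real.exp (2 * l / k) : ℝ) : ℂ) := by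
    rw [j_z, Complex.exp_add, ← Complex.ofReal_exp, Real.exp_add, sub_eq_add_neg, Real.exp_add,
      Real.exp_log (by positivity), om, ei, Complex.ofReal_mul _ (Real.exp (2 * l / k))]
    ring
  rw [funext e1, integral_const_mul, Measure.integral_comp_mul_left (fun v : ℝ =>
    Gamma (((a.re + 1 / 2 : ℝ) : ℂ) + ((v + a.im : ℝ) : ℂ) * I) *
      cexp (-((((a.re + 1 / 2 : ℝ) : ℂ) + ((v + a.im : ℝ) : ℂ) * I) * j_z k ε u l))) (k / 2),
    key, e2, MM,
    abs_of_pos (by positivity), Complex.real_smul, mul_assoc ((4 * Real.pi / k : ℝ) : ℂ),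
    ← Complex.exp_add]
  have e3 : j_A k a + (a + 1 / 2) * j_z k ε u 0 + (((2 * l / k : ℝ) : ℂ) * (a + 1 / 2) -
      om k ε u * ((Real.exp (2 * l / k) : ℝ) : ℂ)) = j_A k a + (a + 1 / 2) * j_z k ε u l +
      -(om k ε u * ((Real.exp (2 * l / k) : ℝ) : ℂ)) := by
    unfold j_z; push_cast; ring
  rw [e3, Complex.exp_add _ (-_)]
  have : (k : ℂ) ≠ 0 := by exact_mod_cast hk0.ne'
  push_cast
  field_simp
  ring

theorem j_norm (k : ℝ) (hk : k ≠ 0) (a : ℂ) (ε u l t : ℝ) : ‖j_h k a ε u l t‖ =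
    Real.exp (a.re * Real.log (2 / k) - Real.log √(2 * Real.pi) +
      Real.pi / 2 * (k / 2 * t + a.im) - ε * t) *
    ‖Gamma (((a.re + 1 / 2 : ℝ) : ℂ) + ((k / 2 * t + a.im : ℝ) : ℂ) * I)‖ := by
  rw [j_h, mul_left_comm, ← Complex.exp_add, norm_mul, Complex.norm_exp, mul_comm]
  congr 2
  unfold j_A j_z
  generalize Real.log (2 / k) = x
  generalize Real.log √(2 * Real.pi) = y
  generalize Real.log (k * Real.pi) = z
  simp only [add_re, sub_re, neg_re, mul_re, mul_im, add_im, ofReal_re, ofReal_im, I_re, I_im]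
  field_simp
  ring

theorem j_log {U β : ℝ} (hU : 0 < U) (h : 2 * |β| ≤ U) :
    |Real.log (U + β) - Real.log U| ≤ 2 * |β| / U := by
  have b1 := le_abs_self β
  have b2 := neg_abs_le β
  have hV : 0 < U + β := by linarith
  have a1 := Real.log_le_sub_one_of_pos (div_pos hV hU)
  have a2 := Real.log_le_sub_one_of_pos (div_pos hU hV)
  rw [Real.log_div hV.ne' hU.ne'] at a1
  rw [Real.log_div hU.ne' hV.ne'] at a2
  have a3 : (U + β) / U - 1 ≤ 2 * |β| / U := by
    rw [div_sub_one hU.ne']; gcongr; linarith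
  have a4 : U / (U + β) - 1 ≤ 2 * |β| / U := by
    rw [div_sub_one hV.ne', div_le_div_iff₀ hV hU]; nlinarith
  exact abs_le.2 ⟨by linarith, by linarith⟩

theorem j_far {k t : ℝ} (hk : 0 < k) (ht : 0 < t) (a R : ℂ) (ε u l : ℝ)
    (e : Gamma (((a.re + 1 / 2 : ℝ) : ℂ) + ((k / 2 * t + a.im : ℝ) : ℂ) * I) =
      cexp (((Real.log √(2 * Real.pi) + Real.log (k / 2 * t + a.im) * (a.re + 1 / 2 - 1 / 2) +
        -Real.pi * (k / 2 * t + a.im) / 2 : ℝ) : ℂ) +
        I * (((k / 2 * t + a.im) * Real.log (k / 2 * t + a.im) - (k / 2 * t + a.im) +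
          (a.re + 1 / 2 - 1 / 2) * Real.pi / 2 : ℝ) : ℂ) + R)) :
    j_h k a ε u l t = KC a ε u t * ei (k * tht t) * ei (-(l * t)) *
      cexp (((a.re * (Real.log (k / 2 * t + a.im) - Real.log (k / 2 * t)) : ℝ) : ℂ) +
        (((k / 2 * t + a.im) * Real.log (k / 2 * t + a.im) -
          (k / 2 * t + a.im) * Real.log (k / 2 * t) - a.im : ℝ) : ℂ) * I + R) := by
  have hp := Real.pi_pos
  have l1 : Real.log t = Real.log (k / 2 * t) + Real.log (2 / k) := by
    rw [← Real.log_mul (by positivity) (by positivity)]; congr 1; field_simp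
  have l2 : Real.log (t / (2 * Real.pi)) = Real.log (k / 2 * t) - Real.log (k * Real.pi) := by
    rw [← Real.log_div (by positivity) (by positivity)]; congr 1; field_simp
  rw [j_h, e, KC, pw, ei, ei, tht, l2, l1, j_A, j_z]
  simp only [← Complex.exp_add]
  congr 1
  generalize Real.log (2 / k) = x
  generalize Real.log √(2 * Real.pi) = y
  generalize Real.log (k * Real.pi) = z
  generalize Real.log (k / 2 * t + a.im) = v
  generalize Real.log (k / 2 * t) = w
  apply Complex.ext <;>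
  · simp only [add_re, sub_re, neg_re, mul_re, mul_im, add_im, sub_im, neg_im, ofReal_re, ofReal_im,
      I_re, I_im]
    field_simp
    ring

theorem j_pt (hS : SSt) {k a2 : ℝ} (hk : 1 ≤ k) (h2 : 1 ≤ a2) : ∃ K : ℝ, 0 < K ∧
    ∀ (a : ℂ) (ε u l t : ℝ), 1 ≤ a.re → a.re + 1 / 2 ≤ a2 → 0 < ε → ε ≤ 1 / 2 →
    ‖(Set.Ioi (0 : ℝ)).indicator (fun t => KC a ε u t * ei (k * tht t) * ei (-(l * t))) t -
      j_h k a ε u l t‖ ≤ K * Real.exp (3 * |a.im|) *
        ((Set.Ioi (0 : ℝ)).indicator (fun t => t ^ (a.re - 1) * Real.exp (-(ε * t))) t +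
          Real.exp (-(1 / 4) * |t|)) := by
  have hk0 : 0 < k := by linarith
  obtain ⟨C, hC, H⟩ := plStir hS 1 a2
  obtain ⟨M, hM, HM⟩ := cmGamB (φ := 3 / 2) one_pos h2 (by norm_num)
    (by linarith [Real.pi_gt_three])
  obtain ⟨D, hD⟩ : ∃ D, D = a2 * |Real.log (2 / k)| + |Real.log √(2 * Real.pi)| := ⟨_, rfl⟩
  obtain ⟨K1, hK1⟩ : ∃ K1, K1 = Real.exp (D + 2 * C) * M := ⟨_, rfl⟩
  obtain ⟨K2, hK2⟩ : ∃ K2, K2 = 2 * (2 * a2 + 2 * C + 1) * Real.exp (a2 + 1) := ⟨_, rfl⟩
  have p1 : 0 < K1 := by rw [hK1]; positivity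
  have p2 : 0 < K2 := by rw [hK2]; positivity
  refine ⟨K1 + K2 + 4 * C, by positivity, fun a ε u l t ha ha2 h0 h1 => ?_⟩
  have b0 := abs_nonneg a.im
  have b1 := le_abs_self a.im
  have b2 := neg_abs_le a.im
  have e0 := Real.exp_pos (3 * |a.im|)
  have e4 := Real.exp_pos (-(1 / 4) * |t|)
  have near : k / 2 * t ≤ 2 * |a.im| + 2 * C →
      ‖j_h k a ε u l t‖ ≤ K1 * Real.exp (3 * |a.im|) * Real.exp (-(1 / 4) * |t|) := by
    intro hn
    have g1 := HM (((a.re + 1 / 2 : ℝ) : ℂ) + ((k / 2 * t + a.im : ℝ) : ℂ) * I)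
      (by simp; linarith) (by simpa using ha2)
    have g2 : (((a.re + 1 / 2 : ℝ) : ℂ) + ((k / 2 * t + a.im : ℝ) : ℂ) * I).im =
      k / 2 * t + a.im := by simp
    rw [g2] at g1
    rw [j_norm k hk0.ne', hK1]
    refine (mul_le_mul_of_nonneg_left g1 (Real.exp_pos _).le).trans ?_
    rw [mul_left_comm, mul_comm _ M, mul_assoc, mul_assoc, ← Real.exp_add, ← Real.exp_add,
      ← Real.exp_add]
    refine mul_le_mul_of_nonneg_left (Real.exp_le_exp.2 ?_) hM.le
    have d1 : a.re * Real.log (2 / k) ≤ a2 * |Real.log (2 / k)| :=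
      (mul_le_mul_of_nonneg_left (le_abs_self _) (by linarith)).trans
        (mul_le_mul_of_nonneg_right (by linarith) (abs_nonneg _))
    have d2 := neg_abs_le (Real.log √(2 * Real.pi))
    have q1 := Real.pi_gt_three
    have q2 := Real.pi_lt_d2
    have v0 := abs_nonneg (k / 2 * t + a.im)
    have v1 := le_abs_self (k / 2 * t + a.im)
    rcases le_total t 0 with c | c
    · rw [abs_of_nonpos c]
      have : Real.pi / 2 * (k / 2 * t) ≤ 3 / 4 * t := by
        have : 3 / 4 ≤ Real.pi / 2 * (k / 2) := by nlinarith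
        nlinarith
      nlinarith
    · rw [abs_of_nonneg c]
      have w0 : t / 2 ≤ k / 2 * t := by nlinarith
      have w1 : |k / 2 * t + a.im| ≤ 3 * |a.im| + 2 * C := abs_le.2 ⟨by linarith, by linarith⟩
      have w2 : Real.pi / 2 * (k / 2 * t + a.im) ≤ 8 / 5 * |k / 2 * t + a.im| := by nlinarith
      have w3 := mul_nonneg h0.le c
      linarith
  by_cases ht : 0 < t
  · rw [Set.indicator_of_mem (show t ∈ Set.Ioi 0 from ht),
      Set.indicator_of_mem (show t ∈ Set.Ioi 0 from ht)]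
    have nf : ‖KC a ε u t * ei (k * tht t) * ei (-(l * t))‖ =
        t * (t ^ (a.re - 1) * Real.exp (-(ε * t))) := by
      rw [norm_mul, norm_mul, norm_ei, norm_ei, norm_KC a ε u ht, Real.rpow_sub_one ht.ne']
      field_simp
    have g0 : 0 < t ^ (a.re - 1) * Real.exp (-(ε * t)) := by positivity
    generalize t ^ (a.re - 1) * Real.exp (-(ε * t)) = g at nf g0 ⊢
    have w0 : t / 2 ≤ k / 2 * t := by nlinarith
    have x1 : 1 + |a.im| ≤ Real.exp |a.im| := by linarith [Real.add_one_le_exp |a.im|]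
    rcases le_total (k / 2 * t) (2 * |a.im| + 2 * C) with c | c
    · have x2 : Real.exp |a.im| ≤ Real.exp (3 * |a.im|) := Real.exp_le_exp.2 (by linarith)
      have x3 : t ≤ 4 * C * Real.exp (3 * |a.im|) := by nlinarith
      have x4 := mul_le_mul_of_nonneg_right x3 g0.le
      refine (norm_sub_le _ _).trans ((add_le_add (nf.trans_le x4) (near c)).trans ?_)
      have := mul_pos e0 g0
      have := mul_pos e0 e4
      nlinarith
    · obtain ⟨R, hR, e⟩ := H (a.re + 1 / 2) (k / 2 * t + a.im) (by linarith) ha2 (by linarith)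
      rw [j_far hk0 ht a R ε u l e, ← mul_one_sub, norm_mul, nf, norm_sub_rev]
      have hU : 0 < k / 2 * t := by positivity
      have y1 := j_log hU (β := a.im) (by linarith)
      have y2 := plLog (k / 2 * t + a.im) (k / 2 * t) (by linarith) hU
      generalize k / 2 * t = U at *
      have y3 : C / (U + a.im) ≤ 2 * C / U := by
        rw [div_le_div_iff₀ (by linarith) hU]; nlinarith
      generalize hρ : ((a.re * (Real.log (U + a.im) - Real.log U) : ℝ) : ℂ) +
        (((U + a.im) * Real.log (U + a.im) - (U + a.im) * Real.log U - a.im : ℝ) : ℂ) * I + R = ρ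
      have y4 : ‖ρ‖ ≤ a2 * (2 * |a.im| / U) + |a.im| ^ 2 / U + 2 * C / U := by
        rw [← hρ]
        refine norm_add₃_le.trans (add_le_add_three ?_ ?_ (hR.trans y3))
        · rw [Complex.norm_real, norm_mul, Real.norm_of_nonneg (by linarith), Real.norm_eq_abs]
          exact mul_le_mul (by linarith) y1 (abs_nonneg _) (by linarith)
        · rw [norm_mul, norm_I, mul_one, Complex.norm_real, sq_abs]
          rw [add_sub_cancel_left] at y2
          rw [Real.norm_of_nonneg (by linarith [y2.1])]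
          linarith [y2.2]
      have y5 : ‖ρ‖ ≤ a2 + 1 + |a.im| := by
        have z1 : 2 * |a.im| / U ≤ 1 := by rw [div_le_one hU]; linarith
        have z2 : |a.im| ^ 2 / U ≤ |a.im| := by rw [div_le_iff₀ hU]; nlinarith
        have z3 : 2 * C / U ≤ 1 := by rw [div_le_one hU]; linarith
        nlinarith
      have y6 : t * ‖ρ‖ ≤ 2 * (2 * a2 + 2 * C + 1) * Real.exp (2 * |a.im|) := by
        have z1 : U * ‖ρ‖ ≤ (2 * a2 + 2 * C + 1) * (1 + |a.im|) ^ 2 := by
          refine (mul_le_mul_of_nonneg_left y4 hU.le).trans ?_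
          have : U * (a2 * (2 * |a.im| / U) + |a.im| ^ 2 / U + 2 * C / U) =
            2 * a2 * |a.im| + |a.im| ^ 2 + 2 * C := by field_simp
          rw [this]
          have := mul_nonneg (by linarith : 0 ≤ a2) (sq_nonneg |a.im|)
          have := mul_nonneg (by linarith : 0 ≤ C) (sq_nonneg |a.im|)
          have := mul_nonneg (by linarith : 0 ≤ C) b0
          have := mul_nonneg (by linarith : 0 ≤ a2) b0
          nlinarith
        have z2 : (1 + |a.im|) ^ 2 ≤ Real.exp (2 * |a.im|) := by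
          rw [two_mul, Real.exp_add, ← sq]; gcongr
        have z3 := mul_le_mul_of_nonneg_left z2 (by linarith : 0 ≤ 2 * a2 + 2 * C + 1)
        have z4 := mul_le_mul_of_nonneg_right w0 (norm_nonneg ρ)
        linarith
      have y7 : ‖cexp ρ - 1‖ ≤ ‖ρ‖ * Real.exp (a2 + 1 + |a.im|) := by
        have := Complex.norm_exp_sub_sum_le_norm_mul_exp ρ 1
        simp only [range_one, sum_singleton, pow_zero, Nat.factorial_zero, Nat.cast_one, div_one,
          pow_one] at this
        exact this.trans (by gcongr)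
      calc _ ≤ t * g * (‖ρ‖ * Real.exp (a2 + 1 + |a.im|)) := by gcongr
        _ = t * ‖ρ‖ * Real.exp (a2 + 1 + |a.im|) * g := by ring
        _ ≤ 2 * (2 * a2 + 2 * C + 1) * Real.exp (2 * |a.im|) * Real.exp (a2 + 1 + |a.im|) * g := by
          gcongr
        _ = K2 * Real.exp (3 * |a.im|) * g := by
          rw [hK2, Real.exp_add (a2 + 1), show 3 * |a.im| = 2 * |a.im| + |a.im| by ring,
            Real.exp_add (2 * _)]
          ring
        _ ≤ _ := by gcongr <;> linarith
  · rw [Set.indicator_of_notMem (show t ∉ Set.Ioi 0 from ht),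
      Set.indicator_of_notMem (show t ∉ Set.Ioi 0 from ht), zero_sub, norm_neg, zero_add]
    refine (near (by nlinarith [not_lt.1 ht])).trans ?_
    gcongr
    linarith

theorem stJ (hS : SSt) : StJ := by
  intro k a1 hk
  have hk0 : 0 < k := by linarith
  have hp := Real.pi_pos
  have h2 : 1 ≤ |a1| + 1 := by linarith [abs_nonneg a1]
  obtain ⟨K, hK, H⟩ := j_pt hS hk h2
  obtain ⟨M, hM, HM⟩ := cmGamB (φ := 0) one_pos h2 le_rfl (by positivity)
  have hE := cmIntExp (δ := 1 / 4) (by norm_num)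
  have E0 : 0 ≤ ∫ t : ℝ, Real.exp (-(1 / 4) * |t|) := integral_nonneg fun _ => (Real.exp_pos _).le
  obtain ⟨K', hK'⟩ : ∃ K', K' = 4 * Real.pi / k * Real.exp ((|a1| + 1) * |Real.log (2 / k)| +
    |Real.log √(2 * Real.pi)| + (|a1| + 1) * (|Real.log (k * Real.pi)| + 2)) := ⟨_, rfl⟩
  have p1 : 0 < K' := by rw [hK']; positivity
  have p2 : 0 < K * (M + ∫ t : ℝ, Real.exp (-(1 / 4) * |t|)) := by positivity
  refine ⟨K' + K * (M + ∫ t : ℝ, Real.exp (-(1 / 4) * |t|)), by positivity,
    fun a ε u ha ha1 h0 h1 hu => ⟨((4 * Real.pi / k : ℝ) : ℂ) *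
      cexp (j_A k a + (a + 1 / 2) * j_z k ε u 0), ?_, fun l => ?_⟩⟩
  · refine le_trans ?_ (mul_le_mul_of_nonneg_right (le_add_of_nonneg_right p2.le) (by positivity))
    rw [norm_mul, Complex.norm_real, Real.norm_of_nonneg (by positivity), Complex.norm_exp, hK',
      mul_assoc, ← Real.exp_add]
    gcongr
    have e : (j_A k a + (a + 1 / 2) * j_z k ε u 0).re = a.re * Real.log (2 / k) -
        Real.log √(2 * Real.pi) + (a.re + 1 / 2) * (Real.log (k * Real.pi) - 2 * u / k) +
        a.im * (2 * ε / k) := by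
      rw [show (1 / 2 : ℂ) = ((1 / 2 : ℝ) : ℂ) by norm_num]
      simp only [j_A, j_z, add_re, sub_re, mul_re, add_im, mul_im, ofReal_re, ofReal_im, I_re, I_im]
      ring
    have b := le_abs_self a1
    have d1 : a.re * Real.log (2 / k) ≤ (|a1| + 1) * |Real.log (2 / k)| :=
      (mul_le_mul_of_nonneg_left (le_abs_self _) (by linarith)).trans
        (mul_le_mul_of_nonneg_right (by linarith) (abs_nonneg _))
    have d2 := neg_abs_le (Real.log √(2 * Real.pi))
    have d3 : -2 ≤ 2 * u / k := by rw [le_div_iff₀ hk0]; linarith [(abs_le.1 hu).1]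
    have d4 : (a.re + 1 / 2) * (Real.log (k * Real.pi) - 2 * u / k) ≤
        (|a1| + 1) * (|Real.log (k * Real.pi)| + 2) :=
      (mul_le_mul_of_nonneg_left (by linarith [le_abs_self (Real.log (k * Real.pi))])
        (by linarith)).trans (mul_le_mul_of_nonneg_right (by linarith) (by positivity))
    have d5 : 2 * ε / k ≤ 1 := by rw [div_le_one hk0]; linarith
    have d6 : a.im * (2 * ε / k) ≤ |a.im| * 1 :=
      mul_le_mul (le_abs_self _) d5 (by positivity) (abs_nonneg _)
    linarith [abs_nonneg a.im]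
  · have b := le_abs_self a1
    obtain ⟨i1, i2⟩ := int_rpow_exp (p := a.re - 1) (by linarith) h0
    have i3 := (integrable_indicator_iff measurableSet_Ioi).2 i1
    have i4 : IntegrableOn (fun t => KC a ε u t * ei (k * tht t) * ei (-(l * t))) (Set.Ioi 0) := by
      simp only [mul_assoc]
      refine (KC_triv (C := 1) (p := 0) u h0 (by linarith) ?_ fun t _ => by simp).1
      exact (continuous_ei.comp_continuousOn (continuousOn_const.mul continuousOn_tht)).mul
        (continuous_ei.comp (by fun_prop)).continuousOn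
    have i5 := (integrable_indicator_iff measurableSet_Ioi).2 i4
    have c1 : Continuous (j_h k a ε u l) := by
      refine continuous_const.mul ((cmGamC (by fun_prop) fun t => ?_).mul (by fun_prop))
      simp
      linarith
    have hb := ae_of_all volume fun t => H a ε u l t ha (by linarith) h0 h1
    have i6 := (i3.add hE).const_mul (K * Real.exp (3 * |a.im|))
    have i7 := i6.mono' (i5.1.sub c1.aestronglyMeasurable) hb
    have i8 : Integrable (j_h k a ε u l) := by simpa using i5.sub i7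
    rw [← j_int hk h0 h1 ha, ← integral_indicator measurableSet_Ioi, ← integral_sub i5 i8]
    refine (norm_integral_le_of_norm_le i6 hb).trans ?_
    rw [integral_const_mul, integral_add' i3 hE, integral_indicator measurableSet_Ioi, i2,
      sub_add_cancel]
    have g1 : Real.Gamma a.re ≤ M := by
      have := HM (a.re : ℂ) (by simpa using ha) (by simp; linarith)
      rw [Complex.Gamma_ofReal, Complex.norm_real] at this
      simpa using (le_abs_self _).trans this
    have g2 : 1 ≤ ε ^ (-a.re) :=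
      Real.one_le_rpow_of_pos_of_le_one_of_nonpos h0 (by linarith) (by linarith)
    generalize ∫ t : ℝ, Real.exp (-(1 / 4) * |t|) = E at *
    calc _ ≤ K * Real.exp (3 * |a.im|) * (M * ε ^ (-a.re) + E * ε ^ (-a.re)) := by
          gcongr
          exact le_mul_of_one_le_right E0 g2
      _ = K * (M + E) * Real.exp (3 * |a.im|) * ε ^ (-a.re) := by ring
      _ ≤ _ := by gcongr; linarith

end Pool.Agent.CubZ
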