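import Pool.Agent.Lib.MP_d79f69_nt.Z3.Basic

open Matrix MeasureTheory Complex Finset

namespace Pool.Agent.CubZ

open Pool.Agent.CubH

/-- continuous on the half line and bounded by a multiple of `mm` -/
def MainOk (x : ℝ) (f : ℝ → ℂ) : Prop :=
  ContinuousOn f (Set.Ioi 0) ∧ ∃ C : ℝ, 0 ≤ C ∧ ∀ t, 0 < t → ‖f t‖ ≤ C * mm x t

theorem main_ok_add {x : ℝ} {f g : ℝ → ℂ} (hf : MainOk x f) (hg : MainOk x g) :
    MainOk x (fun t => f t + g t) := by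
  obtain ⟨c1, C1, p1, b1⟩ := hf
  obtain ⟨c2, C2, p2, b2⟩ := hg
  refine ⟨c1.add c2, C1 + C2, add_nonneg p1 p2, fun t ht => ?_⟩
  rw [add_mul]
  exact (norm_add_le _ _).trans (add_le_add (b1 t ht) (b2 t ht))

theorem main_mm_cube {x t : ℝ} (hx : 0 < x) (ht : 0 < t) :
    mm x t ^ 3 ≤ 4 * (x ^ ((3 : ℝ) / 5)) ^ 3 * t ^ (0 : ℝ) +
      4 * (x⁻¹ ^ ((3 : ℝ) / 5)) ^ 3 * t ^ ((9 : ℝ) / 5) := by
  have e1 : (t / x) ^ ((3 : ℝ) / 5) = x⁻¹ ^ ((3 : ℝ) / 5) * t ^ ((3 : ℝ) / 5) := by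
    rw [div_eq_inv_mul, Real.mul_rpow (inv_pos.2 hx).le ht.le]
  have e2 : t ^ ((9 : ℝ) / 5) = (t ^ ((3 : ℝ) / 5)) ^ 3 := by
    rw [← Real.rpow_natCast, ← Real.rpow_mul ht.le]; norm_num
  unfold mm
  rw [e1, e2, Real.rpow_zero, mul_one, mul_assoc, ← mul_pow]
  have ha : 0 ≤ x ^ ((3 : ℝ) / 5) := by positivity
  have hb : 0 ≤ x⁻¹ ^ ((3 : ℝ) / 5) * t ^ ((3 : ℝ) / 5) := by positivity
  generalize x ^ ((3 : ℝ) / 5) = a at ha ⊢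
  generalize x⁻¹ ^ ((3 : ℝ) / 5) * t ^ ((3 : ℝ) / 5) = b at hb ⊢
  nlinarith [mul_nonneg (add_nonneg ha hb) (sq_nonneg (a - b))]

theorem main_int (A : ℕ) {ε x : ℝ} (u : ℝ) (hε : 0 < ε) (hx : 0 < x) {f g h : ℝ → ℂ}
    (hf : MainOk x f) (hg : MainOk x g) (hh : MainOk x h) :
    IntegrableOn (fun t => KC A ε u t * (f t * g t * h t)) (Set.Ioi 0) := by
  obtain ⟨c1, C1, p1, b1⟩ := hf
  obtain ⟨c2, C2, p2, b2⟩ := hg
  obtain ⟨c3, C3, p3, b3⟩ := hh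
  have hA : (0 : ℝ) ≤ ((A : ℂ)).re := by simp
  refine (KC_triv_sum (univ : Finset (Fin 2)) (a := (A : ℂ))
    ![C1 * C2 * C3 * (4 * (x ^ ((3 : ℝ) / 5)) ^ 3), C1 * C2 * C3 * (4 * (x⁻¹ ^ ((3 : ℝ) / 5)) ^ 3)]
    ![0, (9 : ℝ) / 5] u (f := fun t => f t * g t * h t) hε ?_ ((c1.mul c2).mul c3) ?_).1
  · intro i _
    fin_cases i
    · simp only [Fin.zero_eta, Matrix.cons_val_zero]; linarith
    · simp only [Fin.mk_one, Matrix.cons_val_one, Matrix.cons_val_fin_one]; linarith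
  · intro t ht
    have hm := (mm_pos hx ht).le
    have h3 := main_mm_cube hx ht
    rw [Fin.sum_univ_two]
    simp only [Matrix.cons_val_zero, Matrix.cons_val_one, Matrix.cons_val_fin_one]
    rw [norm_mul, norm_mul]
    calc ‖f t‖ * ‖g t‖ * ‖h t‖ ≤ (C1 * mm x t) * (C2 * mm x t) * (C3 * mm x t) := by
          have := b1 t ht
          have := b2 t ht
          have := b3 t ht
          gcongr
      _ = C1 * C2 * C3 * mm x t ^ 3 := by ring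
      _ ≤ C1 * C2 * C3 * (4 * (x ^ ((3 : ℝ) / 5)) ^ 3 * t ^ (0 : ℝ) +
            4 * (x⁻¹ ^ ((3 : ℝ) / 5)) ^ 3 * t ^ ((9 : ℝ) / 5)) :=
          mul_le_mul_of_nonneg_left h3 (by positivity)
      _ = _ := by ring

/-- the target bound together with integrability -/
def MainG (A : ℕ) (f : ℝ → ℝ → ℂ) : Prop :=
  Tgt A f ∧ ∀ ε u : ℝ, 0 < ε → ε ≤ 1 / 2 →
    IntegrableOn (fun t => KC A ε u t * f ε t) (Set.Ioi 0)

theorem main_g_add {A : ℕ} {f g : ℝ → ℝ → ℂ} (hf : MainG A f) (hg : MainG A g) :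
    MainG A (fun ε t => f ε t + g ε t) := by
  obtain ⟨⟨C1, p1, b1⟩, i1⟩ := hf
  obtain ⟨⟨C2, p2, b2⟩, i2⟩ := hg
  refine ⟨⟨C1 + C2, add_pos p1 p2, fun ε u h0 h1 hu => ?_⟩, fun ε u h0 h1 => ?_⟩
  · simp only [mul_add]
    rw [integral_add (i1 ε u h0 h1) (i2 ε u h0 h1), add_mul]
    exact (norm_add_le _ _).trans (add_le_add (b1 ε u h0 h1 hu) (b2 ε u h0 h1 hu))
  · simp only [mul_add]
    exact (i1 ε u h0 h1).add (i2 ε u h0 h1)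

theorem stMain (h1 : StPPP) (h2 : StPPQ) (h3 : StPQQ) (h4 : StQQQ) (hE : StErr) (hS : StSz)
    (hA : StAfe) (hXi : StXi) : StMain := by
  intro A α β γ hA0
  obtain ⟨⟨C, hC, hb⟩, hc⟩ := hS
  have hx : ∀ ε : ℝ, 0 < ε → ε ≤ 1 / 2 → 0 < xe ε := fun ε h0 h1 =>
    lt_of_lt_of_le one_pos (one_le_xe h0 h1)
  have oP : ∀ (a ε : ℝ), 0 < ε → ε ≤ 1 / 2 → MainOk (xe ε) (PP a (xe ε) (Xe ε)) :=
    fun a ε h0 h1 => ⟨(hc a _ _ (hx ε h0 h1)).2.2.1, C, hC.le,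
      fun t ht => ((hb _ _ (hx ε h0 h1)).2 a t ht).2.2.1⟩
  have oQ : ∀ (a ε : ℝ), 0 < ε → ε ≤ 1 / 2 → MainOk (xe ε) (QQ a (xe ε) (Ye ε)) :=
    fun a ε h0 h1 => ⟨(hc a _ _ (hx ε h0 h1)).2.2.2, C, hC.le,
      fun t ht => ((hb _ _ (hx ε h0 h1)).2 a t ht).2.2.2⟩
  have oZ : ∀ (a ε : ℝ), 0 < ε → ε ≤ 1 / 2 → MainOk (xe ε) (fun t => Zf (t + a)) := by
    intro a ε h0 h1
    obtain ⟨D, hD, hb⟩ := (hA a).2.1
    exact ⟨(hXi.2.2.comp (continuous_id.add continuous_const)).continuousOn, D, hD.le,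
      fun t ht => hb t _ ht (one_le_xe h0 h1)⟩
  have g1 : MainG A _ := ⟨h1 A α β γ hA0, fun ε u h0 h1 =>
    main_int A u h0 (hx ε h0 h1) (oP α ε h0 h1) (oP β ε h0 h1) (oP γ ε h0 h1)⟩
  have g2 : ∀ a b c : ℝ, MainG A (fun ε t =>
      PP a (xe ε) (Xe ε) t * PP b (xe ε) (Xe ε) t * QQ c (xe ε) (Ye ε) t) := fun a b c =>
    ⟨h2 A a b c hA0, fun ε u h0 h1 =>
      main_int A u h0 (hx ε h0 h1) (oP a ε h0 h1) (oP b ε h0 h1) (oQ c ε h0 h1)⟩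
  have g3 : ∀ a b c : ℝ, MainG A (fun ε t =>
      PP a (xe ε) (Xe ε) t * QQ b (xe ε) (Ye ε) t * QQ c (xe ε) (Ye ε) t) := fun a b c =>
    ⟨h3 A a b c hA0, fun ε u h0 h1 =>
      main_int A u h0 (hx ε h0 h1) (oP a ε h0 h1) (oQ b ε h0 h1) (oQ c ε h0 h1)⟩
  have g4 : MainG A _ := ⟨h4 A α β γ hA0, fun ε u h0 h1 =>
    main_int A u h0 (hx ε h0 h1) (oQ α ε h0 h1) (oQ β ε h0 h1) (oQ γ ε h0 h1)⟩
  have g0 : MainG A _ := ⟨hE A α β γ hA0, fun ε u h0 h1 => by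
    simp only [mul_sub]
    exact (main_int A u h0 (hx ε h0 h1) (oZ α ε h0 h1) (oZ β ε h0 h1) (oZ γ ε h0 h1)).sub
      (main_int A u h0 (hx ε h0 h1) (main_ok_add (oP α ε h0 h1) (oQ α ε h0 h1))
        (main_ok_add (oP β ε h0 h1) (oQ β ε h0 h1)) (main_ok_add (oP γ ε h0 h1) (oQ γ ε h0 h1)))⟩
  have key := (main_g_add (main_g_add (main_g_add (main_g_add (main_g_add (main_g_add
    (main_g_add (main_g_add g0 g1) (g2 α β γ)) (g2 α γ β)) (g2 β γ α)) (g3 α β γ)) (g3 β α γ))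
    (g3 γ α β)) g4).1
  convert key using 3
  ring

end Pool.Agent.CubZ
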