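import Pool.Agent.Lib.MP_d79f69_nt.Z3.Basic

open Matrix MeasureTheory Complex Finset

namespace Pool.Agent.CubZ

open Pool.Agent.CubH

/-- the kernel after inserting the contour integral for the cut-off -/
noncomputable def mix_G (σ α x : ℝ) (Y : ℕ) (t v : ℝ) : ℂ :=
  gw (σ + v * I) * pw (2 * Real.pi * x) (-(σ + v * I)) *
    (pw t (σ + v * I) * PW α (σ + v * I) Y t)

theorem mix_EH (hV2 : StV2) {σ x : ℝ} (hσ : 0 < σ) (hx : 0 < x) (α : ℝ) (Y : ℕ) {t : ℝ}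
    (ht : 0 < t) :
    EH α x Y t = ((2 * Real.pi : ℝ) : ℂ)⁻¹ * ∫ v : ℝ, mix_G σ α x Y t v := by
  have hp := Real.pi_pos
  have hy : ∀ y ∈ Icc 1 Y, (0 : ℝ) < 2 * Real.pi * x * y / t := by
    intro y hy
    have : (0 : ℝ) < y := by exact_mod_cast (Finset.mem_Icc.1 hy).1
    positivity
  have e : ∀ v : ℝ, mix_G σ α x Y t v = ∑ y ∈ Icc 1 Y, pw y (-(1 / 2) + (α + t) * I) *
      (gw (σ + v * I) * pw (2 * Real.pi * x * y / t) (-(σ + v * I))) := by
    intro v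
    unfold mix_G PW
    rw [Finset.mul_sum, Finset.mul_sum]
    refine Finset.sum_congr rfl fun y hy => ?_
    have y0 : (0 : ℝ) < y := by exact_mod_cast (Finset.mem_Icc.1 hy).1
    have e2 : (-(1 / 2) - (σ + v * I) + (α + t) * I : ℂ) =
        (-(1 / 2) + (α + t) * I) + (-(σ + v * I)) := by ring
    rw [pw_div (by positivity) ht, pw_mul (y := 2 * Real.pi * x) (by positivity) y0, neg_neg, e2,
      pw_add (y : ℝ) (-(1 / 2) + (α + t) * I)]
    ring
  simp_rw [e]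
  rw [integral_finsetSum _ fun y hy' => ((hV2.2 σ _ hσ (hy y hy')).1.const_mul _), Finset.mul_sum]
  unfold EH
  refine Finset.sum_congr rfl fun y hy' => ?_
  rw [(hV2.2 σ _ hσ (hy y hy')).2, integral_const_mul]
  ring

theorem mix_PW_le {σ : ℝ} (hσ : 0 < σ) (α v t : ℝ) (Y : ℕ) : ‖PW α (σ + v * I) Y t‖ ≤ Y := by
  unfold PW
  refine (norm_sum_le _ _).trans ?_
  have : ∀ y ∈ Icc 1 Y, ‖pw (y : ℝ) (-(1 / 2) - (σ + v * I) + (α + t) * I)‖ ≤ 1 := by
    intro y hy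
    have y1 : (1 : ℝ) ≤ y := by exact_mod_cast (Finset.mem_Icc.1 hy).1
    rw [norm_pw (by linarith)]
    refine Real.rpow_le_one_of_one_le_of_nonpos y1 ?_
    simp
    linarith
  refine (Finset.sum_le_sum this).trans ?_
  simp

theorem mix_head {σ x : ℝ} (hσ : 0 < σ) (hx : 0 < x) (v : ℝ) :
    ‖gw (σ + v * I) * pw (2 * Real.pi * x) (-(σ + v * I))‖ ≤
      Real.exp (σ ^ 2) / σ * x ^ (-σ) * Real.exp (-v ^ 2) := by
  have hp := Real.pi_gt_three
  have a1 := norm_gw_le hσ.ne' v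
  rw [abs_of_pos hσ] at a1
  have a2 : ‖pw (2 * Real.pi * x) (-(σ + v * I))‖ ≤ x ^ (-σ) := by
    rw [norm_pw (by positivity)]
    have : (-(σ + v * I : ℂ)).re = -σ := by simp
    rw [this]
    exact Real.rpow_le_rpow_of_nonpos hx (by nlinarith) (by linarith)
  rw [norm_mul]
  calc _ ≤ Real.exp (σ ^ 2 - v ^ 2) / σ * x ^ (-σ) :=
        mul_le_mul a1 a2 (norm_nonneg _) (by positivity)
    _ = _ := by rw [sub_eq_add_neg, Real.exp_add]; ring

theorem mix_meas (σ α x : ℝ) (Y : ℕ) :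
    Measurable fun p : ℝ × ℝ => mix_G σ α x Y p.1 p.2 := by
  unfold mix_G PW gw pw
  refine Measurable.mul (Measurable.mul ?_ ?_) (Measurable.mul ?_ ?_)
  · fun_prop
  · fun_prop
  · fun_prop
  · exact Finset.measurable_sum _ fun y _ => by fun_prop

theorem mix_int {σ x : ℝ} (hσ : 0 < σ) (hx : 0 < x) (α : ℝ) (Y : ℕ) {H : ℝ → ℂ}
    (hH : ContinuousOn H (Set.Ioi 0)) (hI : IntegrableOn (fun t => ‖H t‖ * t ^ σ) (Set.Ioi 0)) :
    Integrable (Function.uncurry fun t v : ℝ => H t * mix_G σ α x Y t v)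
      ((volume.restrict (Set.Ioi (0 : ℝ))).prod volume) := by
  have g1 : Integrable fun v : ℝ =>
      Real.exp (σ ^ 2) / σ * x ^ (-σ) * Y * Real.exp (-v ^ 2) := by
    have := (integrable_gauss 0).const_mul (Real.exp (σ ^ 2) / σ * x ^ (-σ) * Y)
    simpa using this
  have g2 := Integrable.mul_prod hI g1
  refine g2.mono' ?_ ?_
  · exact (hH.aestronglyMeasurable measurableSet_Ioi).comp_fst.mul
      (mix_meas σ α x Y).aestronglyMeasurable
  · have hm : ∀ᵐ p : ℝ × ℝ ∂((volume.restrict (Set.Ioi (0 : ℝ))).prod volume),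
        p.1 ∈ Set.Ioi (0 : ℝ) :=
      (Measure.quasiMeasurePreserving_fst).ae (ae_restrict_mem measurableSet_Ioi)
    refine hm.mono fun p hp => ?_
    have ht : 0 < p.1 := hp
    have a1 := mix_head hσ hx p.2
    have a2 := mix_PW_le hσ α p.2 p.1 Y
    have a3 : ‖pw p.1 (σ + p.2 * I)‖ = p.1 ^ σ := by rw [norm_pw ht]; simp
    change ‖H p.1 * mix_G σ α x Y p.1 p.2‖ ≤ _
    unfold mix_G
    rw [norm_mul, norm_mul, norm_mul (pw p.1 _), a3]
    calc _ ≤ ‖H p.1‖ * (Real.exp (σ ^ 2) / σ * x ^ (-σ) * Real.exp (-p.2 ^ 2) *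
          (p.1 ^ σ * Y)) := by gcongr
      _ = _ := by ring

theorem stMix (hV2 : StV2) : StMix := by
  intro σ L hσ _ _
  have hp := Real.pi_pos
  have hJ : 0 ≤ ∫ v : ℝ, Real.exp (-v ^ 2 + L * |v|) :=
    integral_nonneg fun v => (Real.exp_pos _).le
  refine ⟨(2 * Real.pi)⁻¹ * (Real.exp (σ ^ 2) / σ * ∫ v : ℝ, Real.exp (-v ^ 2 + L * |v|)) + 1,
    by positivity, fun H α x B Y hx hB hH hI hb => ?_⟩
  have e1 : ∫ t in Set.Ioi (0 : ℝ), H t * EH α x Y t =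
      ((2 * Real.pi : ℝ) : ℂ)⁻¹ * ∫ t in Set.Ioi (0 : ℝ), ∫ v : ℝ, H t * mix_G σ α x Y t v := by
    rw [← integral_const_mul]
    refine setIntegral_congr_fun measurableSet_Ioi fun t ht => ?_
    rw [mix_EH hV2 hσ hx α Y ht, integral_const_mul]
    ring
  have e2 : ∀ v : ℝ, ∫ t in Set.Ioi (0 : ℝ), H t * mix_G σ α x Y t v =
      gw (σ + v * I) * pw (2 * Real.pi * x) (-(σ + v * I)) *
        ∫ t in Set.Ioi (0 : ℝ), H t * pw t (σ + v * I) * PW α (σ + v * I) Y t := by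
    intro v
    rw [← integral_const_mul]
    congr 1
    funext t
    unfold mix_G
    ring
  rw [e1, integral_integral_swap (mix_int hσ hx α Y hH hI)]
  simp_rw [e2]
  have b1 : ∀ v : ℝ, ‖gw (σ + v * I) * pw (2 * Real.pi * x) (-(σ + v * I)) *
        ∫ t in Set.Ioi (0 : ℝ), H t * pw t (σ + v * I) * PW α (σ + v * I) Y t‖ ≤
      Real.exp (σ ^ 2) / σ * x ^ (-σ) * B * Real.exp (-v ^ 2 + L * |v|) := by
    intro v
    rw [norm_mul]
    calc _ ≤ Real.exp (σ ^ 2) / σ * x ^ (-σ) * Real.exp (-v ^ 2) * (B * Real.exp (L * |v|)) :=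
          mul_le_mul (mix_head hσ hx v) (hb v) (norm_nonneg _) (by positivity)
      _ = _ := by rw [Real.exp_add]; ring
  have b2 := norm_integral_le_of_norm_le ((integrable_gauss L).const_mul
    (Real.exp (σ ^ 2) / σ * x ^ (-σ) * B)) (Filter.Eventually.of_forall b1)
  rw [integral_const_mul] at b2
  rw [norm_mul, norm_inv, Complex.norm_real, Real.norm_of_nonneg (by positivity)]
  have b3 : 0 ≤ B * x ^ (-σ) := by positivity
  calc _ ≤ (2 * Real.pi)⁻¹ * (Real.exp (σ ^ 2) / σ * x ^ (-σ) * B *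
        ∫ v : ℝ, Real.exp (-v ^ 2 + L * |v|)) := by gcongr
    _ = (2 * Real.pi)⁻¹ * (Real.exp (σ ^ 2) / σ * ∫ v : ℝ, Real.exp (-v ^ 2 + L * |v|)) *
        (B * x ^ (-σ)) := by ring
    _ ≤ _ := by nlinarith

end Pool.Agent.CubZ
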