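import Pool.Agent.Lib.MP_d79f69_nt.Z3.Basic

open Matrix MeasureTheory Complex Finset

namespace Pool.Agent.CubZ

open Pool.Agent.CubH

/-- the smooth part of the weight -/
noncomputable def mvG (b : ℂ) (l r y : ℝ) : ℂ :=
  cexp (-(1 / 2) * (Real.log y : ℂ) + ((2 * Real.log (y * r) : ℝ) : ℂ) * b -
    ((l * (y * r) ^ 2 : ℝ) : ℂ))

theorem mv_norm (b : ℂ) (l p : ℝ) {r y : ℝ} (hr : 0 < r) (hy : 0 < y) :
    ‖mvG b l r y‖ = (y * r) ^ (-p) / √y *
      (((y * r) ^ 2) ^ (b.re + p / 2) * Real.exp (-(l * (y * r) ^ 2))) := by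
  have hx : 0 < y * r := mul_pos hy hr
  unfold mvG
  rw [Complex.norm_exp, Real.rpow_def_of_pos hx, Real.rpow_def_of_pos (pow_pos hx 2),
    Real.sqrt_eq_rpow, Real.rpow_def_of_pos hy, ← Real.exp_sub, ← Real.exp_add, ← Real.exp_add,
    Real.log_pow]
  congr 1
  rw [Complex.sub_re, Complex.add_re, Complex.re_ofReal_mul, Complex.re_mul_ofReal,
    Complex.ofReal_re]
  norm_num
  ring

theorem mv_deriv (b : ℂ) (l : ℝ) {r y : ℝ} (hr : 0 < r) (hy : 0 < y) :
    HasDerivAt (mvG b l r)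
      (mvG b l r y * ((-(1 / 2) + 2 * b - ((2 * (l * (y * r) ^ 2) : ℝ) : ℂ)) / y)) y := by
  have hx : 0 < y * r := mul_pos hy hr
  have h0 : HasDerivAt (fun y : ℝ => y * r) r y := hasDerivAt_mul_const r
  have h1 := (Real.hasDerivAt_log hy.ne').ofReal_comp.const_mul (-(1 / 2) : ℂ)
  have h2 := ((h0.log hx.ne').const_mul 2).ofReal_comp.mul_const b
  have h3 := ((h0.pow 2).const_mul l).ofReal_comp
  have h4 := ((h1.add h2).sub h3).cexp
  refine h4.congr_deriv ?_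
  have hy' : (y : ℂ) ≠ 0 := by exact_mod_cast hy.ne'
  have hr' : (r : ℂ) ≠ 0 := by exact_mod_cast hr.ne'
  congr 1
  push_cast
  field_simp

theorem mv_pow {ξ0 ξ p : ℝ} (h0 : 0 < ξ0) (h1 : ξ0 ≤ ξ) (h2 : ξ ≤ 2 * ξ0) (hp : -1 ≤ p) :
    ξ ^ (-p) ≤ 2 * ξ0 ^ (-p) := by
  have hpos : 0 < ξ0 ^ (-p) := Real.rpow_pos_of_pos h0 _
  rcases le_total 0 p with h | h
  · have := Real.rpow_le_rpow_of_nonpos h0 h1 (neg_nonpos.2 h)
    linarith
  · have a := Real.rpow_le_rpow (h0.le.trans h1) h2 (neg_nonneg.2 h)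
    rw [Real.mul_rpow zero_le_two h0.le] at a
    have c : (2 : ℝ) ^ (-p) ≤ 2 ^ (1 : ℝ) :=
      Real.rpow_le_rpow_of_exponent_le one_le_two (by linarith)
    rw [Real.rpow_one] at c
    exact a.trans (mul_le_mul_of_nonneg_right c hpos.le)

theorem mv_bound (b1 : ℝ) : ∃ K : ℝ, 0 < K ∧ ∀ (b : ℂ) (ε l r p Z y : ℝ), 1 ≤ b.re → b.re ≤ b1 →
    0 < ε → ε / 2 ≤ l → 0 < r → -1 ≤ p → p ≤ 1 → 0 < Z → Z ≤ y → y ≤ 2 * Z →
    ‖mvG b l r y‖ ≤ K * (ε ^ (-(b.re + p / 2)) * (Z * r) ^ (-p) / √Z) ∧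
    l * (y * r) ^ 2 * ‖mvG b l r y‖ ≤ K * (ε ^ (-(b.re + p / 2)) * (Z * r) ^ (-p) / √Z) := by
  obtain ⟨C, hC, h⟩ := sup_pow_exp (b1 + 3 / 2)
  refine ⟨2 * C * 2 ^ (b1 + 1 / 2), by positivity,
    fun b ε l r p Z y hb hb1 hε hl hr hp hp1 hZ hy hy2 => ?_⟩
  have hy0 : 0 < y := hZ.trans_le hy
  have hl0 : 0 < l := by linarith
  have hx : 0 < (y * r) ^ 2 := by positivity
  have a1 : (y * r) ^ (-p) / √y ≤ 2 * (Z * r) ^ (-p) / √Z :=
    div_le_div₀ (by positivity) (mv_pow (mul_pos hZ hr) (mul_le_mul_of_nonneg_right hy hr.le)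
      (by nlinarith) hp) (Real.sqrt_pos.2 hZ) (Real.sqrt_le_sqrt hy)
  have a2 : l ^ (-(b.re + p / 2)) ≤ 2 ^ (b1 + 1 / 2) * ε ^ (-(b.re + p / 2)) := by
    refine (Real.rpow_le_rpow_of_nonpos (half_pos hε) hl (by linarith)).trans ?_
    rw [Real.div_rpow hε.le zero_le_two, Real.rpow_neg zero_le_two, div_inv_eq_mul, mul_comm]
    exact mul_le_mul_of_nonneg_right
      (Real.rpow_le_rpow_of_exponent_le one_le_two (by linarith)) (by positivity)
  have key : ∀ w : ℝ, 0 ≤ w → w ≤ C * l ^ (-(b.re + p / 2)) → (y * r) ^ (-p) / √y * w ≤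
      2 * C * 2 ^ (b1 + 1 / 2) * (ε ^ (-(b.re + p / 2)) * (Z * r) ^ (-p) / √Z) := by
    intro w hw0 hw
    refine (mul_le_mul a1 (hw.trans (mul_le_mul_of_nonneg_left a2 (by linarith))) hw0
      (by positivity)).trans_eq ?_
    ring
  rw [mv_norm b l p hr hy0]
  refine ⟨key _ (by positivity) (h _ _ _ (by linarith) (by linarith) hl0 hx), ?_⟩
  rw [mul_left_comm]
  refine key _ (by positivity) ?_
  have a3 := mul_le_mul_of_nonneg_left
    (h (b.re + p / 2 + 1) l _ (by linarith) (by linarith) hl0 hx) hl0.le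
  rw [Real.rpow_add_one hx.ne', neg_add, Real.rpow_add hl0, Real.rpow_neg_one] at a3
  refine (le_of_eq ?_).trans (a3.trans_eq ?_)
  · ring
  · field_simp

theorem mv_split (b : ℂ) (ε u : ℝ) {r y : ℝ} (hr : 0 < r) (hy : 0 < y) :
    pw y (-(1 / 2)) * MM 1 b ε u (Real.log (y * r)) = mvG b (om 1 ε u).re r y *
      ee (-(Real.exp (-(2 * u)) * Real.cos (2 * ε) / 2 * r ^ 2) * y ^ 2) := by
  have hx : 0 < y * r := mul_pos hy hr
  have e : Real.exp (2 * Real.log (y * r) / 1) = (y * r) ^ 2 := by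
    rw [div_one, two_mul, Real.exp_add, Real.exp_log hx, sq]
  have e2 : om 1 ε u = ((om 1 ε u).re : ℂ) +
      ((Real.pi * Real.exp (-(2 * u)) * Real.cos (2 * ε) : ℝ) : ℂ) * I := by
    conv_lhs => rw [← Complex.re_add_im (om 1 ε u), om_im]
    simp only [div_one, one_mul]
  rw [ee_eq_ei]
  unfold pw MM mvG ei
  rw [e, ← Complex.exp_add, ← Complex.exp_add]
  congr 1
  generalize (om 1 ε u).re = l at e2
  rw [e2]
  generalize Real.exp (-(2 * u)) = E
  generalize Real.cos (2 * ε) = c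
  generalize Real.log (y * r) = L
  generalize Real.log y = L'
  push_cast
  ring

theorem stMv : StMv := by
  intro b1
  obtain ⟨K, hK, h⟩ := mv_bound b1
  refine ⟨(4 + 2 * |b1|) * K, by positivity,
    fun b ε u r p Z q a hb hb1 hε hε1 hu hr hp hp1 hZ hq ha => ?_⟩
  have hl := om_re_ge le_rfl hε hε1 hu
  have hZ0 : (0 : ℝ) < Z := by exact_mod_cast hZ
  have hb2 : b.re ≤ |b1| := hb1.trans (le_abs_self _)
  have hi := abs_nonneg b.im
  have h := fun y => h b ε (om 1 ε u).re r p Z y hb hb1 hε hl hr hp hp1 hZ0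
  have hE : 0 < ε ^ (-(b.re + p / 2)) * (Z * r) ^ (-p) / √Z := by positivity
  generalize ε ^ (-(b.re + p / 2)) * (Z * r) ^ (-p) / √Z = E at h hE ⊢
  have hKE : 0 < K * E := mul_pos hK hE
  have hn : ‖b‖ ≤ |b1| + |b.im| := by
    have := Complex.norm_le_abs_re_add_abs_im b
    rw [abs_of_nonneg (by linarith : 0 ≤ b.re)] at this
    linarith
  have hc : 7 / 2 + 2 * ‖b‖ ≤ (4 + 2 * |b1|) * (1 + |b.im|) := by nlinarith
  refine ⟨fun n => a n * mvG b (om 1 ε u).re r n, fun n hn => ?_, fun n hn => ?_, ?_⟩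
  · rw [mul_assoc, mv_split b ε u hr (by exact_mod_cast hn), mul_assoc]
  · obtain ⟨h1, h2⟩ := Finset.mem_Ico.1 hn
    have a1 := (h n (by exact_mod_cast h1) (by exact_mod_cast (h2.le.trans hq))).1
    rw [norm_mul]
    refine (mul_le_mul (ha n (hZ.trans h1)).1 a1 (norm_nonneg _) zero_le_one).trans ?_
    have := norm_nonneg b
    nlinarith
  · have hl0 : 0 < (om 1 ε u).re := by linarith
    generalize (om 1 ε u).re = l at h hl0
    have step : ∀ n ∈ Ico Z (q - 1), ‖a (n + 1) * mvG b l r (n + 1 : ℕ) - a n * mvG b l r n‖ ≤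
        (7 / 2 + 2 * ‖b‖) * (K * E) / Z := by
      intro n hn
      obtain ⟨h1, h2⟩ := Finset.mem_Ico.1 hn
      have n1 : (Z : ℝ) ≤ n := by exact_mod_cast h1
      have n2 : (n : ℝ) + 1 ≤ 2 * Z := by exact_mod_cast (by omega : n + 1 ≤ 2 * Z)
      have d : ‖mvG b l r (n + 1) - mvG b l r n‖ ≤
          (5 / 2 + 2 * ‖b‖) * (K * E) / Z * ‖((n : ℝ) + 1) - n‖ := by
        refine (convex_Icc (n : ℝ) (n + 1)).norm_image_sub_le_of_norm_hasDerivWithin_le
          (fun y hy => (mv_deriv b l hr (hZ0.trans_le (n1.trans hy.1))).hasDerivWithinAt)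
          (fun y hy => ?_) (Set.left_mem_Icc.2 (by linarith)) (Set.right_mem_Icc.2 (by linarith))
        have y1 : (Z : ℝ) ≤ y := n1.trans hy.1
        have y0 : 0 < y := hZ0.trans_le y1
        obtain ⟨g1, g2⟩ := h y y1 (hy.2.trans n2)
        have t : ‖(-(1 / 2) + 2 * b - ((2 * (l * (y * r) ^ 2) : ℝ) : ℂ))‖ ≤
            1 / 2 + 2 * ‖b‖ + 2 * (l * (y * r) ^ 2) := by
          refine (norm_sub_le _ _).trans (add_le_add ((norm_add_le _ _).trans ?_) ?_)
          · rw [norm_neg, norm_mul]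
            simp
          · rw [Complex.norm_real, Real.norm_of_nonneg (by positivity)]
        rw [norm_mul, norm_div, Complex.norm_real, Real.norm_of_nonneg y0.le, ← mul_div_assoc]
        refine div_le_div₀ (by positivity) ?_ hZ0 y1
        refine (mul_le_mul_of_nonneg_left t (norm_nonneg _)).trans ?_
        have := mul_le_mul_of_nonneg_left g1 (norm_nonneg b)
        nlinarith
      rw [add_sub_cancel_left, norm_one, mul_one] at d
      have g := (h n n1 (by linarith)).1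
      obtain ⟨-, a2⟩ := ha n (hZ.trans h1)
      have a1 := (ha (n + 1) (by omega)).1
      have a3 : ‖a (n + 1) - a n‖ ≤ 1 / Z := a2.trans (one_div_le_one_div_of_le hZ0 n1)
      have e : a (n + 1) * mvG b l r (n + 1 : ℕ) - a n * mvG b l r n =
          a (n + 1) * (mvG b l r (n + 1) - mvG b l r n) + (a (n + 1) - a n) * mvG b l r n := by
        push_cast
        ring
      rw [e]
      refine (norm_add_le _ _).trans ?_
      rw [norm_mul, norm_mul]
      refine (add_le_add (mul_le_mul a1 d (norm_nonneg _) zero_le_one)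
        (mul_le_mul a3 g (norm_nonneg _) (by positivity))).trans_eq ?_
      ring
    refine (Finset.sum_le_card_nsmul _ _ _ step).trans ?_
    rw [Nat.card_Ico, nsmul_eq_mul]
    have c1 : ((q - 1 - Z : ℕ) : ℝ) ≤ Z := by exact_mod_cast (by omega : q - 1 - Z ≤ Z)
    refine (mul_le_mul_of_nonneg_right c1 (by positivity)).trans ?_
    rw [mul_div_cancel₀ _ hZ0.ne']
    refine (mul_le_mul_of_nonneg_right hc hKE.le).trans_eq ?_
    ring

end Pool.Agent.CubZ
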