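import Pool.Agent.Lib.MP_d79f69_nt.Z3.Basic

open Matrix MeasureTheory Complex Finset

namespace Pool.Agent.CubZ

open Pool.Agent.CubH

/-- the coefficient of one factor -/
noncomputable def pppC (α x : ℝ) (n : ℕ) : ℂ := pw n (-(1 / 2 + α * I)) * VV ((n / x : ℝ) : ℂ)

theorem ppp_DH (α x : ℝ) (X : ℕ) (t : ℝ) :
    DH α x X t = ∑ n ∈ Icc 1 X, pppC α x n * ei (-(Real.log n * t)) := by
  unfold DH pppC
  refine Finset.sum_congr rfl fun n _ => ?_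
  have e : (-(1 / 2 + (α + t) * I) : ℂ) = -(1 / 2 + α * I) + ((-t : ℝ) : ℂ) * I := by
    push_cast; ring
  rw [e, pw_add, pw_I, show -t * Real.log n = -(Real.log n * t) by ring]
  ring

theorem ppp_prod (α : V3) (x : ℝ) (X : ℕ) (t : ℝ) :
    DH (α 0) x X t * DH (α 1) x X t * DH (α 2) x X t =
      ∑ n ∈ Fintype.piFinset (fun _ : Fin 3 => Icc 1 X),
        (∏ i, pppC (α i) x (n i)) * ei (-((∑ i, Real.log (n i)) * t)) := by
  rw [← Fin.prod_univ_three fun i => DH (α i) x X t]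
  simp only [ppp_DH]
  rw [Finset.prod_univ_sum]
  refine Finset.sum_congr rfl fun n _ => ?_
  rw [Finset.prod_mul_distrib]
  congr 1
  rw [Fin.prod_univ_three, Fin.sum_univ_three, ← ei_add, ← ei_add]
  congr 1
  ring

theorem ppp_norm (α : V3) (x : ℝ) (X : ℕ) :
    ∑ n ∈ Fintype.piFinset (fun _ : Fin 3 => Icc 1 X), ‖∏ i, pppC (α i) x (n i)‖ =
      (∑ n ∈ Icc 1 X, (n : ℝ) ^ (-(1 : ℝ) / 2) * ‖VV ((n / x : ℝ) : ℂ)‖) ^ 3 := by
  have e : ∀ i, ∑ n ∈ Icc 1 X, ‖pppC (α i) x n‖ =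
      ∑ n ∈ Icc 1 X, (n : ℝ) ^ (-(1 : ℝ) / 2) * ‖VV ((n / x : ℝ) : ℂ)‖ := by
    intro i
    refine Finset.sum_congr rfl fun n hn => ?_
    have hn0 : (0 : ℝ) < n := by exact_mod_cast (mem_Icc.1 hn).1
    unfold pppC
    rw [norm_mul, norm_pw hn0]
    congr 2
    simp
    norm_num
  simp only [norm_prod]
  rw [← Finset.prod_univ_sum (fun _ : Fin 3 => Icc 1 X) fun i n => ‖pppC (α i) x n‖]
  simp only [e]
  rw [Finset.prod_const, Finset.card_univ, Fintype.card_fin]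

theorem ppp_pt (A : ℂ) (α : V3) (ε u x : ℝ) (X : ℕ) {t : ℝ} (ht : 0 < t) :
    KC A ε u t * (PP (α 0) x X t * PP (α 1) x X t * PP (α 2) x X t) =
      pw (2 * Real.pi) (-(((α 0 + α 1 + α 2) / 2 : ℝ) * I)) *
        (KC (A + ((α 0 + α 1 + α 2) / 2 : ℝ) * I) ε u t * ei (3 * tht t) *
          ∑ n ∈ Fintype.piFinset (fun _ : Fin 3 => Icc 1 X),
            (∏ i, pppC (α i) x (n i)) * ei (-((∑ i, Real.log (n i)) * t))) := by
  have e1 : ei (3 * tht t) = ei (tht t) * ei (tht t) * ei (tht t) := by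
    rw [← ei_add, ← ei_add]; congr 1; ring
  have e2 : pw t (((α 0 + α 1 + α 2) / 2 : ℝ) * I) *
      pw (2 * Real.pi) (-(((α 0 + α 1 + α 2) / 2 : ℝ) * I)) =
      pw (t / (2 * Real.pi)) (α 0 / 2 * I) * pw (t / (2 * Real.pi)) (α 1 / 2 * I) *
        pw (t / (2 * Real.pi)) (α 2 / 2 * I) := by
    rw [← pw_div ht (by positivity), ← pw_add, ← pw_add]
    congr 1
    push_cast
    ring
  rw [← ppp_prod, ← KC_mul_pw, e1]
  unfold PP
  linear_combination (-(KC A ε u t * (ei (tht t) * ei (tht t) * ei (tht t)) *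
    (DH (α 0) x X t * DH (α 1) x X t * DH (α 2) x X t))) * e2

theorem stPPP (hJ : StJs) (h3 : St3) (hS : StSz) : StPPP := by
  intro A α β γ hA
  obtain ⟨C1, hC1, h1⟩ := hJ 3 A (by norm_num)
  obtain ⟨C2, hC2, h2⟩ := h3 A ![α, β, γ] hA
  obtain ⟨⟨C3, hC3, h4⟩, -⟩ := hS
  set a : V3 := ![α, β, γ] with ha
  set s : ℝ := (a 0 + a 1 + a 2) / 2 with hs
  refine ⟨C1 * Real.exp (3 * |s|) * (C2 + C3 ^ 3), by positivity, fun ε u h0 hε hu => ?_⟩
  have hx : 0 < xe ε := lt_of_lt_of_le one_pos (one_le_xe h0 hε)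
  have hre : ((A : ℂ) + (s : ℂ) * I).re = A := by simp
  have him : ((A : ℂ) + (s : ℂ) * I).im = s := by simp
  have hA1 : (1 : ℝ) ≤ A := by exact_mod_cast le_trans (by norm_num) hA
  have h5 := (h1 (A + s * I) ε u (by rw [hre]; exact hA1) hre.le h0 hε hu (Fin 3 → ℕ)
    (Fintype.piFinset fun _ : Fin 3 => Icc 1 (Xe ε)) (fun n => ∏ i, pppC (a i) (xe ε) (n i))
    fun n => ∑ i, Real.log (n i)).1
  rw [hre, him, ppp_norm] at h5
  have e : ∫ t in Set.Ioi (0 : ℝ), KC A ε u t *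
      (PP α (xe ε) (Xe ε) t * PP β (xe ε) (Xe ε) t * PP γ (xe ε) (Xe ε) t) =
      pw (2 * Real.pi) (-((s : ℂ) * I)) * ∫ t in Set.Ioi (0 : ℝ),
        KC (A + s * I) ε u t * ei (3 * tht t) *
          ∑ n ∈ Fintype.piFinset (fun _ : Fin 3 => Icc 1 (Xe ε)),
            (∏ i, pppC (a i) (xe ε) (n i)) * ei (-((∑ i, Real.log (n i)) * t)) := by
    rw [← integral_const_mul]
    exact setIntegral_congr_fun measurableSet_Ioi fun t ht => ppp_pt A a ε u (xe ε) (Xe ε) ht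
  have n1 : ‖pw (2 * Real.pi) (-((s : ℂ) * I))‖ = 1 := by
    rw [norm_pw (by positivity)]; simp
  have b1 : ‖∑ n ∈ Fintype.piFinset (fun _ : Fin 3 => Icc 1 (Xe ε)),
      (∏ i, pppC (a i) (xe ε) (n i)) * MM 3 (A + s * I + 1 / 2) ε u (∑ i, Real.log (n i))‖ ≤
      C2 * ε ^ (-((A : ℝ) + 1) + 1 / 60000) := h2 ε u h0 hε hu
  have b2 : ε ^ (-(A : ℝ)) * (∑ n ∈ Icc 1 (Xe ε), (n : ℝ) ^ (-(1 : ℝ) / 2) *
      ‖VV ((n / xe ε : ℝ) : ℂ)‖) ^ 3 ≤ C3 ^ 3 * ε ^ (-((A : ℝ) + 1) + 1 / 60000) := by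
    have c1 := pow_le_pow_left₀ (Finset.sum_nonneg fun n _ => by positivity)
      (h4 (xe ε) (Xe ε) hx).1 3
    refine (mul_le_mul_of_nonneg_left c1 (by positivity)).trans ?_
    rw [mul_pow, mul_left_comm]
    refine mul_le_mul_of_nonneg_left ?_ (by positivity)
    unfold xe
    rw [← Real.rpow_mul h0.le, ← Real.rpow_natCast, ← Real.rpow_mul h0.le, ← Real.rpow_add h0]
    refine eps_rpow_le h0 hε ?_
    push_cast
    linarith
  show ‖∫ t in Set.Ioi (0 : ℝ), KC A ε u t *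
    (PP α (xe ε) (Xe ε) t * PP β (xe ε) (Xe ε) t * PP γ (xe ε) (Xe ε) t)‖ ≤ _
  rw [e, norm_mul, n1, one_mul, mul_assoc (C1 * Real.exp (3 * |s|)), add_mul]
  exact h5.trans (mul_le_mul_of_nonneg_left (add_le_add b1 b2) (by positivity))

end Pool.Agent.CubZ
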