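import Pool.Agent.Lib.MP_d79f69_nt.Z3.Basic

open Matrix MeasureTheory Complex Finset

namespace Pool.Agent.CubZ

open Pool.Agent.CubH

noncomputable def ppq_a (α x : ℝ) (n : ℕ) : ℂ := pw n (-(α * I)) * VV ((n / x : ℝ) : ℂ)

noncomputable def ppq_c (α β γ x : ℝ) (w : ℂ) (m : ℕ × ℕ × ℕ) : ℂ :=
  ppq_a α x m.1 * pw m.1 (-(1 / 2)) * (ppq_a β x m.2.1 * pw m.2.1 (-(1 / 2))) *
    (pw m.2.2 (-w + γ * I) * pw m.2.2 (-(1 / 2)))

theorem ppq_triple {R : Type} [CommSemiring R] (f1 f2 f3 : ℕ → R) (S1 S2 S3 : Finset ℕ) :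
    (∑ n ∈ S1, f1 n) * (∑ n ∈ S2, f2 n) * ∑ n ∈ S3, f3 n =
      ∑ m ∈ S1 ×ˢ S2 ×ˢ S3, f1 m.1 * f2 m.2.1 * f3 m.2.2 := by
  rw [Finset.sum_product, mul_assoc, Finset.sum_mul]
  refine Finset.sum_congr rfl fun a _ => ?_
  rw [Finset.sum_product, Finset.sum_mul_sum, Finset.mul_sum]
  refine Finset.sum_congr rfl fun b _ => ?_
  rw [Finset.mul_sum]
  exact Finset.sum_congr rfl fun c _ => (mul_assoc _ _ _).symm

theorem ppq_norm_pw (y τ : ℝ) : ‖pw y (τ * I)‖ = 1 := by rw [pw_I, norm_ei]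

theorem ppq_norm_pw' (y τ : ℝ) : ‖pw y (-(τ * I))‖ = 1 := by
  have := ppq_norm_pw y (-τ)
  rwa [ofReal_neg, neg_mul] at this

theorem ppq_norm_pw2 (y τ : ℝ) : ‖pw y (τ / 2 * I)‖ = 1 ∧ ‖pw y (-(τ / 2 * I))‖ = 1 := by
  have h1 := ppq_norm_pw y (τ / 2)
  have h2 := ppq_norm_pw' y (τ / 2)
  push_cast at h1 h2
  exact ⟨h1, h2⟩

theorem ppq_DH (α x t : ℝ) (X : ℕ) : DH α x X t =
    ∑ n ∈ Icc 1 X, ppq_a α x n * pw n (-(1 / 2)) * ei (-(Real.log n * t)) := by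
  refine Finset.sum_congr rfl fun n _ => ?_
  have : pw n (-(1 / 2 + (α + t) * I)) =
      pw n (-(α * I)) * pw n (-(1 / 2)) * ei (-(Real.log n * t)) := by
    unfold pw ei
    rw [← Complex.exp_add, ← Complex.exp_add]
    congr 1
    push_cast
    ring
  rw [this, ppq_a]
  ring

theorem ppq_PW (γ t : ℝ) (w : ℂ) (Y : ℕ) : PW γ w Y t =
    ∑ n ∈ Icc 1 Y, pw n (-w + γ * I) * pw n (-(1 / 2)) * ei (Real.log n * t) := by
  refine Finset.sum_congr rfl fun n _ => ?_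
  unfold pw ei
  rw [← Complex.exp_add, ← Complex.exp_add]
  congr 1
  push_cast
  ring

theorem ppq_sum (α β γ x t : ℝ) (w : ℂ) (X Y : ℕ) :
    DH α x X t * DH β x X t * PW γ w Y t = ∑ m ∈ Icc 1 X ×ˢ Icc 1 X ×ˢ Icc 1 Y,
      ppq_c α β γ x w m * ei (-(Real.log ((m.1 : ℝ) * m.2.1 / m.2.2) * t)) := by
  rw [ppq_DH, ppq_DH, ppq_PW, ppq_triple]
  refine Finset.sum_congr rfl fun m hm => ?_
  simp only [Finset.mem_product, Finset.mem_Icc] at hm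
  have h1 : (m.1 : ℝ) ≠ 0 := Nat.cast_ne_zero.2 (by omega)
  have h2 : (m.2.1 : ℝ) ≠ 0 := Nat.cast_ne_zero.2 (by omega)
  have h3 : (m.2.2 : ℝ) ≠ 0 := Nat.cast_ne_zero.2 (by omega)
  rw [Real.log_div (mul_ne_zero h1 h2) h3, Real.log_mul h1 h2,
    show -((Real.log m.1 + Real.log m.2.1 - Real.log m.2.2) * t) =
      -(Real.log m.1 * t) + -(Real.log m.2.1 * t) + Real.log m.2.2 * t by ring, ei_add, ei_add,
    ppq_c]
  ring

theorem ppq_pt (A : ℂ) (α β γ x ε u : ℝ) (w : ℂ) (X Y : ℕ) {t : ℝ} (ht : 0 < t) :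
    KC A ε u t * (PP α x X t * PP β x X t *
        (ei (-tht t) * pw (t / (2 * Real.pi)) (-(γ / 2 * I)))) * pw t w * PW γ w Y t =
      pw (2 * Real.pi) (-((((α + β - γ) / 2 : ℝ) : ℂ) * I)) *
        (KC (A + (((α + β - γ) / 2 : ℝ) : ℂ) * I + w) ε u t * ei (1 * tht t) *
          ∑ m ∈ Icc 1 X ×ˢ Icc 1 X ×ˢ Icc 1 Y,
            ppq_c α β γ x w m * ei (-(Real.log ((m.1 : ℝ) * m.2.1 / m.2.2) * t))) := by
  have hp : (0 : ℝ) < 2 * Real.pi := by positivity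
  have e1 : ei (tht t) * ei (-tht t) = 1 := by rw [← ei_add, add_neg_cancel, ei_zero]
  have e2 : pw (t / (2 * Real.pi)) (α / 2 * I) * pw (t / (2 * Real.pi)) (β / 2 * I) *
      pw (t / (2 * Real.pi)) (-(γ / 2 * I)) =
      pw t ((((α + β - γ) / 2 : ℝ) : ℂ) * I) *
        pw (2 * Real.pi) (-((((α + β - γ) / 2 : ℝ) : ℂ) * I)) := by
    rw [← pw_add, ← pw_add, ← pw_div ht hp]
    congr 1
    push_cast
    ring
  rw [← ppq_sum, ← KC_mul_pw, ← KC_mul_pw, one_mul, PP, PP]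
  linear_combination (KC A ε u t * pw t w * ei (tht t) * (DH α x X t * DH β x X t * PW γ w Y t)) *
    (pw (t / (2 * Real.pi)) (α / 2 * I) * pw (t / (2 * Real.pi)) (β / 2 * I) *
      pw (t / (2 * Real.pi)) (-(γ / 2 * I)) * e1 + e2)

theorem ppq_coef (hV1 : StV1) : ∃ C : ℝ, 1 ≤ C ∧ ∀ (α x : ℝ) (n : ℕ), 0 < x → 1 ≤ n →
    ‖ppq_a α x n‖ ≤ C * (1 + |α|) ∧ ‖ppq_a α x (n + 1) - ppq_a α x n‖ ≤ C * (1 + |α|) / n := by
  obtain ⟨h1, -, C2, hC2, h2⟩ := hV1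
  obtain ⟨C1, hC1, h1⟩ := h1 0 le_rfl
  refine ⟨1 + C1 + C2, by linarith, fun α x n hx hn => ?_⟩
  have hb : ∀ k : ℕ, 1 ≤ k → ‖VV ((k / x : ℝ) : ℂ)‖ ≤ C1 := fun k hk => by
    have hk0 : (0 : ℝ) < k := by exact_mod_cast hk
    have := h1 ((k / x : ℝ) : ℂ) (by rw [ofReal_re]; positivity)
    rwa [neg_zero, Real.rpow_zero, mul_one] at this
  have ha := abs_nonneg α
  have hn0 : (0 : ℝ) < n := by exact_mod_cast hn
  constructor
  · rw [ppq_a, norm_mul, ppq_norm_pw', one_mul]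
    nlinarith [hb n hn]
  · have e : ppq_a α x (n + 1) - ppq_a α x n =
        (pw ((n + 1 : ℕ) : ℝ) (-(α * I)) - pw n (-(α * I))) * VV ((((n + 1 : ℕ) : ℝ) / x : ℝ) : ℂ) +
          pw n (-(α * I)) * (VV ((((n + 1 : ℕ) : ℝ) / x : ℝ) : ℂ) - VV ((n / x : ℝ) : ℂ)) := by
      unfold ppq_a
      ring
    have h3 := pw_diff (w := -(α * I)) (by simp) hn
    have h4 : ‖(-(α * I) : ℂ)‖ = |α| := by simp
    rw [h4] at h3
    rw [e]
    refine (norm_add_le _ _).trans ?_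
    rw [norm_mul, norm_mul, ppq_norm_pw', one_mul]
    calc _ ≤ |α| / n * C1 + C2 / n :=
          add_le_add (mul_le_mul h3 (hb _ (by omega)) (norm_nonneg _) (by positivity)) (h2 x n hx hn)
      _ = (|α| * C1 + C2) / n := by ring
      _ ≤ _ := div_le_div_of_nonneg_right (by nlinarith) hn0.le

theorem ppq_half {n : ℕ} (hn : 1 ≤ n) : ‖pw n (-(1 / 2))‖ = (n : ℝ) ^ (-(1 : ℝ) / 2) := by
  rw [norm_pw (by exact_mod_cast hn)]
  congr 1
  simp only [neg_re, div_ofNat_re, one_re]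
  ring

theorem ppq_a3 {σ : ℝ} (hσ : 0 ≤ σ) (v γ : ℝ) {n : ℕ} (hn : 1 ≤ n) :
    ‖pw n (-(σ + v * I) + γ * I)‖ ≤ 1 := by
  rw [norm_pw (by exact_mod_cast hn)]
  exact Real.rpow_le_one_of_one_le_of_nonpos (by exact_mod_cast hn) (by simpa using hσ)

theorem ppq_abs {σ S : ℝ} (hσ : 0 ≤ σ) (α β γ x v : ℝ) (X Y : ℕ)
    (hS : ∑ n ∈ Icc 1 X, (n : ℝ) ^ (-(1 : ℝ) / 2) * ‖VV ((n / x : ℝ) : ℂ)‖ ≤ S) :
    ∑ m ∈ Icc 1 X ×ˢ Icc 1 X ×ˢ Icc 1 Y, ‖ppq_c α β γ x (σ + v * I) m‖ ≤ S * S * (2 * √Y) := by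
  have h0 : 0 ≤ ∑ n ∈ Icc 1 X, (n : ℝ) ^ (-(1 : ℝ) / 2) * ‖VV ((n / x : ℝ) : ℂ)‖ := by positivity
  refine le_trans ?_ (mul_le_mul (mul_le_mul hS hS h0 (h0.trans hS)) (sum_inv_sqrt Y)
    (by positivity) (mul_nonneg (h0.trans hS) (h0.trans hS)))
  rw [ppq_triple]
  refine Finset.sum_le_sum fun m hm => ?_
  simp only [Finset.mem_product, Finset.mem_Icc] at hm
  simp only [ppq_c, ppq_a, norm_mul, ppq_norm_pw', one_mul, ppq_half hm.1.1, ppq_half hm.2.1.1,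
    ppq_half hm.2.2.1]
  rw [mul_comm ‖VV _‖, mul_comm ‖VV _‖]
  refine mul_le_mul_of_nonneg_left ?_ (by positivity)
  exact mul_le_of_le_one_left (by positivity) (ppq_a3 hσ v γ hm.2.2.1)

theorem stPPQ (hJ : StJs) (hM : StMix) (hQ : StQs) (hS : StSz) (hV1 : StV1) : StPPQ := by
  intro A α β γ hA
  have hA' : (200000 : ℝ) ≤ A := by exact_mod_cast hA
  obtain ⟨σ, hσ⟩ : ∃ σ : ℝ, σ = 1 / 10 ^ 7 := ⟨_, rfl⟩
  have hσ0 : 0 < σ := by rw [hσ]; norm_num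
  have hσ1 : σ ≤ 1 / 2 := by rw [hσ]; norm_num
  obtain ⟨CJ, hCJ, hJ⟩ := hJ 1 (A + 1) le_rfl
  obtain ⟨CM, hCM, hM⟩ := hM σ 4 hσ0 (by linarith) (by norm_num)
  obtain ⟨CQ, hCQ, hQ⟩ := hQ σ (A + 1) hσ0
  obtain ⟨⟨CS, hCS, hS⟩, hS'⟩ := hS
  obtain ⟨CV, hCV, hV⟩ := ppq_coef hV1
  obtain ⟨s, hs⟩ : ∃ s : ℝ, s = (α + β - γ) / 2 := ⟨_, rfl⟩
  obtain ⟨B, hB⟩ : ∃ B : ℝ, B = CV * (1 + |α| + |β|) := ⟨_, rfl⟩
  have hB1 : 1 ≤ B := by rw [hB]; nlinarith [abs_nonneg α, abs_nonneg β]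
  have hB0 : 0 < B := by linarith
  refine ⟨CM * (CJ * Real.exp (4 * |s|) * (CQ * B ^ 3 + 2 * CS ^ 2)), by positivity,
    fun ε u h0 h1 hu => ?_⟩
  have hx1 := one_le_xe h0 h1
  have hx : 0 < xe ε := by linarith
  obtain ⟨E, hE⟩ : ∃ E : ℝ, E = ε ^ (-((A : ℝ) + 1) + 1 / 60000) := ⟨_, rfl⟩
  have hE0 : 0 < E := by rw [hE]; positivity
  rw [← hE]
  have hf : ContinuousOn (fun t => PP α (xe ε) (Xe ε) t * PP β (xe ε) (Xe ε) t *
      (ei (-tht t) * pw (t / (2 * Real.pi)) (-(γ / 2 * I)))) (Set.Ioi 0) := by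
    refine (((hS' α _ _ hx).2.2.1).mul (hS' β _ _ hx).2.2.1).mul (ContinuousOn.mul ?_ ?_)
    · exact continuous_ei.comp_continuousOn continuousOn_tht.neg
    · refine (continuousOn_pw _).comp (f := fun t : ℝ => t / (2 * Real.pi)) (by fun_prop)
        fun t ht => ?_
      have : 0 < t := ht
      exact Set.mem_Ioi.2 (by positivity)
  have hP : ∀ δ t : ℝ, 0 < t → ‖PP δ (xe ε) (Xe ε) t‖ ≤ CS * xe ε ^ ((3 : ℝ) / 5) := fun δ t ht => by
    rw [PP, norm_mul, norm_mul, norm_ei, (ppq_norm_pw2 _ _).1, one_mul, one_mul]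
    exact ((hS _ _ hx).2 δ t ht).1
  have key := hM (fun t => KC A ε u t * (PP α (xe ε) (Xe ε) t * PP β (xe ε) (Xe ε) t *
      (ei (-tht t) * pw (t / (2 * Real.pi)) (-(γ / 2 * I))))) γ (xe ε)
    (CJ * Real.exp (4 * |s|) * (CQ * B ^ 3 + 2 * CS ^ 2) * E) (Ye ε) hx (by positivity)
    ((continuousOn_KC _ _ _).mul hf) ?_ fun v => ?_
  · have e : ∀ t, KC A ε u t * (PP α (xe ε) (Xe ε) t * PP β (xe ε) (Xe ε) t *
        QQ γ (xe ε) (Ye ε) t) = KC A ε u t * (PP α (xe ε) (Xe ε) t * PP β (xe ε) (Xe ε) t *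
        (ei (-tht t) * pw (t / (2 * Real.pi)) (-(γ / 2 * I)))) * EH γ (xe ε) (Ye ε) t := fun t => by
      rw [QQ]
      ring
    simp only [e]
    refine key.trans ?_
    have : xe ε ^ (-σ) ≤ 1 := Real.rpow_le_one_of_one_le_of_nonpos hx1 (by linarith)
    refine (mul_le_of_le_one_right (by positivity) this).trans (le_of_eq ?_)
    ring
  · have hI := (KC_triv (a := A) (p := σ)
      (C := CS * xe ε ^ ((3 : ℝ) / 5) * (CS * xe ε ^ ((3 : ℝ) / 5))) u h0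
      (by rw [natCast_re]; linarith) (hf.mul (continuousOn_pw σ)) fun t ht => by
        simp only [Pi.mul_apply, norm_mul, norm_ei, (ppq_norm_pw2 _ _).2, mul_one, norm_pw ht,
          ofReal_re]
        exact mul_le_mul_of_nonneg_right
          (mul_le_mul (hP α t ht) (hP β t ht) (norm_nonneg _) (by positivity)) (by positivity)).1
    refine IntegrableOn.congr_fun hI.norm (fun t ht => ?_) measurableSet_Ioi
    have ht0 : 0 < t := ht
    simp only [Pi.mul_apply]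
    rw [← mul_assoc, norm_mul, norm_pw ht0, ofReal_re]
  · obtain ⟨a, ha⟩ : ∃ a : ℂ, a = A + (s : ℂ) * I + (σ + v * I) := ⟨_, rfl⟩
    have hre : a.re = A + σ := by rw [ha]; simp
    have him : a.im = s + v := by rw [ha]; simp
    have hre' : (a + 1 / 2).re = A + σ + 1 / 2 := by rw [add_re, hre]; simp
    have him' : (a + 1 / 2).im = s + v := by rw [add_im, him]; simp
    rw [setIntegral_congr_fun measurableSet_Ioi fun t ht => ppq_pt A α β γ (xe ε) ε u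
      (σ + v * I) (Xe ε) (Ye ε) ht, integral_const_mul, norm_mul, ppq_norm_pw', one_mul, ← hs, ← ha]
    refine (hJ a ε u (by rw [hre]; linarith) (by rw [hre]; linarith) h0 h1 hu _ _ _ _).1.trans ?_
    have q1 := hQ (a + 1 / 2) ε u B (Xe ε) (Xe ε) (Ye ε) (ppq_a α (xe ε)) (ppq_a β (xe ε))
      (fun n => pw n (-(σ + v * I) + γ * I)) (by rw [hre']; linarith) (by rw [hre']; linarith) h0 h1
      hu hB0 (Xe_mul_le h0 h1) (Xe_mul_le h0 h1) (Ye_sq_mul_le h0 h1) (fun n hn => ?_)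
      (fun n hn => ?_) fun n hn => (ppq_a3 hσ0.le v γ hn).trans hB1
    · have q2 := ppq_abs hσ0.le α β γ (xe ε) v (Xe ε) (Ye ε) (hS (xe ε) (Xe ε) hx).1
      have y1 : (Ye ε : ℝ) ^ ((3 : ℝ) / 8) ≤ ε ^ (-((1 : ℝ) / 2 - 1 / 20000) * (3 / 8)) := by
        rw [Real.rpow_mul h0.le]
        exact Real.rpow_le_rpow (Nat.cast_nonneg _) (Ye_le h0 h1) (by norm_num)
      have y2 : √(Ye ε : ℝ) ≤ ε ^ (-((1 : ℝ) / 2 - 1 / 20000) * (1 / 2)) := by
        rw [Real.rpow_mul h0.le, Real.sqrt_eq_rpow]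
        exact Real.rpow_le_rpow (Nat.cast_nonneg _) (Ye_le h0 h1) (by norm_num)
      have y3 : xe ε ^ ((3 : ℝ) / 5) = ε ^ (-((1 : ℝ) / 2 + 1 / 10000) * (3 / 5)) := by
        rw [Real.rpow_mul h0.le, xe]
      have z1 : ε ^ (-((A : ℝ) + σ + 1 / 2 + 5 / 16 + σ)) * (Ye ε : ℝ) ^ ((3 : ℝ) / 8) ≤ E := by
        refine (mul_le_mul_of_nonneg_left y1 (by positivity)).trans ?_
        rw [← Real.rpow_add h0, hE]
        refine eps_rpow_le h0 h1 ?_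
        rw [hσ]
        linarith
      have z2 : ε ^ (-((A : ℝ) + σ)) *
          (xe ε ^ ((3 : ℝ) / 5) * xe ε ^ ((3 : ℝ) / 5) * √(Ye ε : ℝ)) ≤ E := by
        refine (mul_le_mul_of_nonneg_left (mul_le_mul_of_nonneg_left y2 (by positivity))
          (by positivity)).trans ?_
        rw [y3, ← Real.rpow_add h0, ← Real.rpow_add h0, ← Real.rpow_add h0, hE]
        refine eps_rpow_le h0 h1 ?_
        rw [hσ]
        linarith
      rw [hre', him'] at q1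
      rw [hre, him]
      have hr := abs_nonneg (s + v)
      have w1 : Real.exp (3 * |s + v|) * (1 + |s + v|) ≤
          Real.exp (4 * |s|) * Real.exp (4 * |v|) := by
        rw [← Real.exp_add]
        calc _ ≤ Real.exp (3 * |s + v|) * Real.exp |s + v| :=
              mul_le_mul_of_nonneg_left (by linarith [Real.add_one_le_exp |s + v|])
                (Real.exp_pos _).le
          _ = Real.exp (4 * |s + v|) := by rw [← Real.exp_add]; congr 1; ring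
          _ ≤ _ := Real.exp_le_exp.2 (by linarith [abs_add_le s v])
      have w2 : ‖∑ m ∈ Icc 1 (Xe ε) ×ˢ Icc 1 (Xe ε) ×ˢ Icc 1 (Ye ε),
          ppq_c α β γ (xe ε) (σ + v * I) m *
            MM 1 (a + 1 / 2) ε u (Real.log ((m.1 : ℝ) * m.2.1 / m.2.2))‖ ≤
          CQ * B ^ 3 * (1 + |s + v|) * E := by
        refine q1.trans ?_
        rw [mul_assoc (CQ * B ^ 3 * (1 + |s + v|))]
        exact mul_le_mul_of_nonneg_left z1 (by positivity)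
      have w3 : ε ^ (-((A : ℝ) + σ)) * ∑ m ∈ Icc 1 (Xe ε) ×ˢ Icc 1 (Xe ε) ×ˢ Icc 1 (Ye ε),
          ‖ppq_c α β γ (xe ε) (σ + v * I) m‖ ≤ 2 * CS ^ 2 * (1 + |s + v|) * E := by
        refine (mul_le_mul_of_nonneg_left q2 (by positivity)).trans ?_
        calc _ = 2 * CS ^ 2 * 1 * (ε ^ (-((A : ℝ) + σ)) *
              (xe ε ^ ((3 : ℝ) / 5) * xe ε ^ ((3 : ℝ) / 5) * √(Ye ε : ℝ))) := by ring
          _ ≤ _ := mul_le_mul (mul_le_mul_of_nonneg_left (by linarith) (by positivity)) z2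
              (by positivity) (by positivity)
      calc _ ≤ CJ * Real.exp (3 * |s + v|) *
            (CQ * B ^ 3 * (1 + |s + v|) * E + 2 * CS ^ 2 * (1 + |s + v|) * E) :=
            mul_le_mul_of_nonneg_left (add_le_add w2 w3) (by positivity)
        _ = CJ * (CQ * B ^ 3 + 2 * CS ^ 2) * E * (Real.exp (3 * |s + v|) * (1 + |s + v|)) := by ring
        _ ≤ CJ * (CQ * B ^ 3 + 2 * CS ^ 2) * E * (Real.exp (4 * |s|) * Real.exp (4 * |v|)) :=
            mul_le_mul_of_nonneg_left w1 (by positivity)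
        _ = _ := by ring
    · have hb : CV * (1 + |α|) ≤ B := by rw [hB]; nlinarith [abs_nonneg β]
      exact ⟨(hV α _ n hx hn).1.trans hb, (hV α _ n hx hn).2.trans
        (div_le_div_of_nonneg_right hb (Nat.cast_nonneg n))⟩
    · have hb : CV * (1 + |β|) ≤ B := by rw [hB]; nlinarith [abs_nonneg α]
      exact ⟨(hV β _ n hx hn).1.trans hb, (hV β _ n hx hn).2.trans
        (div_le_div_of_nonneg_right hb (Nat.cast_nonneg n))⟩

end Pool.Agent.CubZ
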