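import Pool.Agent.Lib.MP_d79f69_nt.Z3.Basic

open Matrix MeasureTheory Complex Finset

namespace Pool.Agent.CubZ

open Pool.Agent.CubH

theorem pqq_prod {R : Type} [CommSemiring R] (s t u : Finset ℕ) (f g h : ℕ → R) :
    (∑ a ∈ s, f a) * (∑ b ∈ t, g b) * ∑ c ∈ u, h c =
      ∑ i ∈ s ×ˢ t ×ˢ u, f i.1 * g i.2.1 * h i.2.2 := by
  rw [sum_product, mul_assoc, sum_mul]
  refine sum_congr rfl fun a _ => ?_
  rw [sum_product, sum_mul_sum, mul_sum]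
  refine sum_congr rfl fun b _ => ?_
  rw [mul_sum]
  exact sum_congr rfl fun c _ => (mul_assoc _ _ _).symm

theorem pqq_int {a : ℂ} {ε C p σ : ℝ} (u : ℝ) {f : ℝ → ℂ} (hε : 0 < ε) (hp : -1 < a.re + (p + σ))
    (hf : ContinuousOn f (Set.Ioi 0)) (hb : ∀ t, 0 < t → ‖f t‖ ≤ C * t ^ p) :
    IntegrableOn (fun t => ‖KC a ε u t * f t‖ * t ^ σ) (Set.Ioi 0) := by
  have e : ∀ t : ℝ, 0 < t → ‖pw t σ‖ = t ^ σ := fun t ht => by rw [norm_pw ht, ofReal_re]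
  have := (KC_triv (C := C) u hε hp (hf.mul (continuousOn_pw σ)) fun t ht => by
    rw [Pi.mul_apply, norm_mul, e t ht, Real.rpow_add ht, ← mul_assoc]
    exact mul_le_mul_of_nonneg_right (hb t ht) (by positivity)).1
  refine IntegrableOn.congr_fun this.norm (fun t ht => ?_) measurableSet_Ioi
  simp only [Pi.mul_apply, norm_mul, e t ht, mul_assoc]

/-- the coefficients of the triple product -/
noncomputable def pqqC (z1 z2 z3 : ℂ) (x : ℝ) (i : ℕ × ℕ × ℕ) : ℂ :=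
  pw i.1 (-(1 / 2) + z1) * pw i.2.1 (-(1 / 2) + z2) *
    (pw i.2.2 (-(1 / 2) + z3) * VV ((i.2.2 / x : ℝ) : ℂ))

theorem pqq_mem {Y X : ℕ} {i : ℕ × ℕ × ℕ} : i ∈ Icc 1 Y ×ˢ Icc 1 Y ×ˢ Icc 1 X ↔
    (1 ≤ i.1 ∧ i.1 ≤ Y) ∧ (1 ≤ i.2.1 ∧ i.2.1 ≤ Y) ∧ 1 ≤ i.2.2 ∧ i.2.2 ≤ X := by
  simp only [mem_product, mem_Icc]

theorem pqq_expand (α β γ x t : ℝ) (w1 w2 : ℂ) (X Y : ℕ) :
    PW β w1 Y t * PW γ w2 Y t * DH α x X t = ∑ i ∈ Icc 1 Y ×ˢ Icc 1 Y ×ˢ Icc 1 X,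
      pqqC (-w1 + β * I) (-w2 + γ * I) (-(α * I)) x i *
        ei (Real.log ((i.1 : ℝ) * i.2.1 / i.2.2) * t) := by
  have e1 : ∀ (y b : ℝ) (w : ℂ), pw y (-(1 / 2) - w + (b + t) * I) =
      pw y (-(1 / 2) + (-w + b * I)) * ei (Real.log y * t) := fun y b w => by
    unfold pw ei; rw [← Complex.exp_add]; congr 1; push_cast; ring
  have e2 : ∀ y : ℝ, pw y (-(1 / 2 + (α + t) * I)) =
      pw y (-(1 / 2) + -(α * I)) * ei (-(Real.log y * t)) := fun y => by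
    unfold pw ei; rw [← Complex.exp_add]; congr 1; push_cast; ring
  rw [PW, PW, DH, pqq_prod]
  refine sum_congr rfl fun i hi => ?_
  obtain ⟨⟨h1, -⟩, ⟨h2, -⟩, h3, -⟩ := pqq_mem.1 hi
  have e3 : Real.log ((i.1 : ℝ) * i.2.1 / i.2.2) * t =
      Real.log i.1 * t + Real.log i.2.1 * t + -(Real.log i.2.2 * t) := by
    rw [Real.log_div (by positivity) (by positivity), Real.log_mul (by positivity) (by positivity)]
    ring
  rw [e3, ei_add, ei_add, e1, e1, e2, pqqC]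
  ring

theorem pqq_pw_le {n : ℕ} (hn : 1 ≤ n) {z : ℂ} (hz : z.re ≤ 0) :
    ‖pw n (-(1 / 2) + z)‖ ≤ (n : ℝ) ^ (-(1 : ℝ) / 2) := by
  rw [norm_pw (by positivity)]
  refine Real.rpow_le_rpow_of_exponent_le (by exact_mod_cast hn) ?_
  have : (-(1 / 2) + z : ℂ).re = -(1 / 2) + z.re := by simp
  linarith

theorem pqq_pw_one {n : ℕ} (hn : 1 ≤ n) {z : ℂ} (hz : z.re ≤ 0) : ‖pw n z‖ ≤ 1 := by
  rw [norm_pw (by positivity)]
  exact Real.rpow_le_one_of_one_le_of_nonpos (by exact_mod_cast hn) hz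

theorem pqq_abs (hS : StSz) : ∃ C : ℝ, 0 < C ∧ ∀ (z1 z2 z3 : ℂ) (ε : ℝ), z1.re ≤ 0 → z2.re ≤ 0 →
    z3.re ≤ 0 → 0 < ε → ε ≤ 1 / 2 →
    ∑ i ∈ Icc 1 (Ye ε) ×ˢ Icc 1 (Ye ε) ×ˢ Icc 1 (Xe ε), ‖pqqC z1 z2 z3 (xe ε) i‖ ≤
      C * ε ^ (-(9 : ℝ) / 10) := by
  obtain ⟨⟨C, hC, h⟩, -⟩ := hS
  refine ⟨4 * C, by positivity, fun z1 z2 z3 ε a1 a2 a3 h0 h1 => ?_⟩
  have hx : 0 < xe ε := zero_lt_one.trans_le (one_le_xe h0 h1)
  have b1 := sum_inv_sqrt (Ye ε)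
  have b2 := (h (xe ε) (Xe ε) hx).1
  have b3 : xe ε ^ ((3 : ℝ) / 5) ≤ ε ^ (-(2 : ℝ) / 5) := by
    rw [xe, ← Real.rpow_mul h0.le]
    exact eps_rpow_le h0 h1 (by norm_num)
  have b4 : (Ye ε : ℝ) ≤ ε ^ (-(1 : ℝ) / 2) := (Ye_le h0 h1).trans (eps_rpow_le h0 h1 (by norm_num))
  calc _ ≤ ∑ i ∈ Icc 1 (Ye ε) ×ˢ Icc 1 (Ye ε) ×ˢ Icc 1 (Xe ε), (i.1 : ℝ) ^ (-(1 : ℝ) / 2) *
        (i.2.1 : ℝ) ^ (-(1 : ℝ) / 2) *
          ((i.2.2 : ℝ) ^ (-(1 : ℝ) / 2) * ‖VV ((i.2.2 / xe ε : ℝ) : ℂ)‖) := by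
        refine sum_le_sum fun i hi => ?_
        obtain ⟨⟨c1, -⟩, ⟨c2, -⟩, c3, -⟩ := pqq_mem.1 hi
        rw [pqqC, norm_mul, norm_mul, norm_mul]
        gcongr
        · exact pqq_pw_le c1 a1
        · exact pqq_pw_le c2 a2
        · exact pqq_pw_le c3 a3
    _ ≤ 2 * √(Ye ε) * (2 * √(Ye ε)) * (C * xe ε ^ ((3 : ℝ) / 5)) := by
        rw [← pqq_prod _ _ _ (fun n => (n : ℝ) ^ (-(1 : ℝ) / 2)) (fun n => (n : ℝ) ^ (-(1 : ℝ) / 2))
          fun n => (n : ℝ) ^ (-(1 : ℝ) / 2) * ‖VV ((n / xe ε : ℝ) : ℂ)‖]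
        gcongr
    _ = 4 * C * (Ye ε * xe ε ^ ((3 : ℝ) / 5)) := by
        rw [mul_mul_mul_comm 2, Real.mul_self_sqrt (Nat.cast_nonneg _)]; ring
    _ ≤ 4 * C * (ε ^ (-(1 : ℝ) / 2) * ε ^ (-(2 : ℝ) / 5)) := by gcongr
    _ = _ := by rw [← Real.rpow_add h0]; norm_num

theorem pqq_conj (y : ℝ) (z : ℂ) :
    (starRingEnd ℂ) (pw y (-(1 / 2) + z)) = pw y ((starRingEnd ℂ) z) * pw y (-(1 / 2)) := by
  rw [pw_conj, ← pw_add, map_add, add_comm]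
  congr 2
  simp [map_ofNat]

theorem pqq_tail {A : ℕ} (hA : 200000 ≤ A) {ε u : ℝ} {b : ℂ} (h0 : 0 < ε) (h1 : ε ≤ 1 / 2)
    (hu : |u| ≤ 1) (hb : 0 ≤ b.re) (hb' : b.re ≤ A + 1) {r : ℝ} (hr : 0 < r) (hr' : r ≤ Ye ε) :
    ‖MM 1 b ε u (Real.log r)‖ ≤ ε ^ (-(A : ℝ)) := by
  have hA' : (200000 : ℝ) ≤ A := by exact_mod_cast hA
  calc _ ≤ Real.exp (Real.log r * (2 * b.re)) := by
        refine (norm_MM_le le_rfl h0 h1 hu b _).trans (Real.exp_le_exp.2 ?_)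
        have : 0 ≤ ε / 2 * Real.exp (2 * Real.log r / 1) := by positivity
        linarith
    _ = r ^ (2 * b.re) := (Real.rpow_def_of_pos hr _).symm
    _ ≤ (ε ^ (-((1 : ℝ) / 2 - 1 / 20000))) ^ (2 * b.re) :=
        Real.rpow_le_rpow hr.le (hr'.trans (Ye_le h0 h1)) (by positivity)
    _ ≤ _ := by
        rw [← Real.rpow_mul h0.le]
        exact eps_rpow_le h0 h1 (by linarith)

theorem pqq_main (hQ : StQs) (hS : StSz) (hV1 : StV1) {A : ℕ} (hA : 200000 ≤ A) :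
    ∃ C : ℝ, 0 < C ∧ ∀ (z1 z2 z3 b : ℂ) (ε u K : ℝ), z1.re ≤ 0 → z2.re ≤ 0 → z3.re ≤ 0 → 0 < ε →
      ε ≤ 1 / 2 → |u| ≤ 1 → b.re = A + 1 / 2 + 2 / 10 ^ 7 → ‖z1‖ ≤ K → ‖z2‖ ≤ K → |b.im| ≤ K →
      ‖∑ i ∈ Icc 1 (Ye ε) ×ˢ Icc 1 (Ye ε) ×ˢ Icc 1 (Xe ε),
        (starRingEnd ℂ) (pqqC z1 z2 z3 (xe ε) i) *
          MM 1 b ε u (Real.log ((i.1 : ℝ) * i.2.1 / i.2.2))‖ ≤
        C * Real.exp K * ε ^ (-((A : ℝ) + 1) + 1 / 60000) := by
  have hA' : (200000 : ℝ) ≤ A := by exact_mod_cast hA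
  obtain ⟨C1, p1, k1⟩ := pqq_abs hS
  obtain ⟨C2, p2, k2⟩ := hQ (1 / 10 ^ 7) (A + 1) (by positivity)
  obtain ⟨C3, p3, k3⟩ := hV1.1 0 le_rfl
  obtain ⟨C4, p4, k4⟩ := poly_le_exp 4
  refine ⟨C1 + C2 * (1 + C3) ^ 3 * C4, by positivity,
    fun z1 z2 z3 b ε u K a1 a2 a3 h0 h1 hu hb n1 n2 n3 => ?_⟩
  have hK : 0 ≤ K := (norm_nonneg _).trans n1
  have hx : 0 < xe ε := zero_lt_one.trans_le (one_le_xe h0 h1)
  have hB : 1 + K ≤ (1 + C3) * (1 + K) := le_mul_of_one_le_left (by positivity) (by linarith)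
  have ha : ∀ z : ℂ, z.re ≤ 0 → ‖z‖ ≤ K → ∀ n : ℕ, 1 ≤ n →
      ‖pw n ((starRingEnd ℂ) z)‖ ≤ (1 + C3) * (1 + K) ∧
      ‖pw ((n + 1 : ℕ) : ℝ) ((starRingEnd ℂ) z) - pw n ((starRingEnd ℂ) z)‖ ≤
        (1 + C3) * (1 + K) / n := fun z c1 c2 n hn =>
    ⟨(pqq_pw_one hn (by simpa using c1)).trans (by linarith),
      (pw_diff (by simpa using c1) hn).trans (by
        rw [Complex.norm_conj]
        exact div_le_div_of_nonneg_right (by linarith) (Nat.cast_nonneg n))⟩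
  have q := k2 b ε u ((1 + C3) * (1 + K)) (Ye ε) (Ye ε) (Ye ε)
    (fun n => pw n ((starRingEnd ℂ) z1)) (fun n => pw n ((starRingEnd ℂ) z2))
    (fun n => pw n ((starRingEnd ℂ) z3) * (starRingEnd ℂ) (VV ((n / xe ε : ℝ) : ℂ)))
    (by linarith) (by linarith) h0 h1 hu (by positivity) (Ye_mul_le h0 h1) (Ye_mul_le h0 h1)
    (Ye_sq_mul_le h0 h1) (ha z1 a1 n1) (ha z2 a2 n2) (fun n hn => by
      have c1 := k3 ((n / xe ε : ℝ) : ℂ) (by rw [ofReal_re]; positivity)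
      rw [neg_zero, Real.rpow_zero, mul_one] at c1
      rw [norm_mul, Complex.norm_conj]
      calc _ ≤ 1 * C3 := mul_le_mul (pqq_pw_one hn (by simpa using a3)) c1 (norm_nonneg _) zero_le_one
        _ ≤ _ := by nlinarith)
  have hsub : Icc 1 (Ye ε) ×ˢ Icc 1 (Ye ε) ×ˢ Icc 1 (Ye ε) ⊆
      Icc 1 (Ye ε) ×ˢ Icc 1 (Ye ε) ×ˢ Icc 1 (Xe ε) :=
    product_subset_product_right (product_subset_product_right (Icc_subset_Icc_right (Ye_le_Xe h0 h1)))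
  have hE : 1 ≤ Real.exp K := Real.one_le_exp hK
  rw [← sum_sdiff hsub, add_mul, add_mul]
  refine (norm_add_le _ _).trans (add_le_add ?_ ?_)
  · calc _ ≤ ∑ i ∈ (Icc 1 (Ye ε) ×ˢ Icc 1 (Ye ε) ×ˢ Icc 1 (Xe ε)) \
          (Icc 1 (Ye ε) ×ˢ Icc 1 (Ye ε) ×ˢ Icc 1 (Ye ε)),
            ‖pqqC z1 z2 z3 (xe ε) i‖ * ε ^ (-(A : ℝ)) := by
          refine norm_sum_le_of_le _ fun i hi => ?_
          rw [mem_sdiff, pqq_mem, pqq_mem] at hi
          obtain ⟨⟨⟨c1, c2⟩, ⟨c3, c4⟩, c5, c6⟩, c7⟩ := hi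
          have c8 : i.2.1 ≤ i.2.2 := by omega
          rw [norm_mul, Complex.norm_conj]
          refine mul_le_mul_of_nonneg_left (pqq_tail hA h0 h1 hu (by linarith) (by linarith)
            (by positivity) ?_) (norm_nonneg _)
          rw [div_le_iff₀ (by positivity)]
          exact_mod_cast Nat.mul_le_mul c2 c8
      _ ≤ C1 * ε ^ (-(9 : ℝ) / 10) * ε ^ (-(A : ℝ)) := by
          rw [← sum_mul]
          refine mul_le_mul_of_nonneg_right (le_trans ?_ (k1 z1 z2 z3 ε a1 a2 a3 h0 h1))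
            (by positivity)
          exact sum_le_sum_of_subset_of_nonneg sdiff_subset fun _ _ _ => norm_nonneg _
      _ ≤ C1 * 1 * ε ^ (-((A : ℝ) + 1) + 1 / 60000) := by
          rw [mul_one, mul_assoc, ← Real.rpow_add h0]
          exact mul_le_mul_of_nonneg_left (eps_rpow_le h0 h1 (by linarith)) p1.le
      _ ≤ _ := by gcongr
  · refine le_trans (le_of_eq ?_) (q.trans ?_)
    · congr 1
      refine sum_congr rfl fun i _ => ?_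
      simp only [pqqC, map_mul, pqq_conj]
      ring
    · have c1 : (Ye ε : ℝ) ^ ((3 : ℝ) / 8) ≤ ε ^ (-((1 : ℝ) / 2 - 1 / 20000) * (3 / 8)) := by
        rw [Real.rpow_mul h0.le]
        exact Real.rpow_le_rpow (Nat.cast_nonneg _) (Ye_le h0 h1) (by norm_num)
      calc _ ≤ C2 * ((1 + C3) * (1 + K)) ^ 3 * (1 + K) * ε ^ (-(b.re + 5 / 16 + 1 / 10 ^ 7)) *
            ε ^ (-((1 : ℝ) / 2 - 1 / 20000) * (3 / 8)) := by gcongr
        _ = C2 * (1 + C3) ^ 3 * (1 + K) ^ 4 * (ε ^ (-(b.re + 5 / 16 + 1 / 10 ^ 7)) *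
            ε ^ (-((1 : ℝ) / 2 - 1 / 20000) * (3 / 8))) := by ring
        _ ≤ C2 * (1 + C3) ^ 3 * (C4 * Real.exp K) * ε ^ (-((A : ℝ) + 1) + 1 / 60000) := by
            rw [← Real.rpow_add h0]
            gcongr ?_ * ?_
            · exact mul_le_mul_of_nonneg_left (k4 K hK) (by positivity)
            · exact eps_rpow_le h0 h1 (by rw [hb]; norm_num; linarith)
        _ = _ := by ring

theorem pqq_inner (hJ : StJs) (hQ : StQs) (hS : StSz) (hV1 : StV1) {A : ℕ} (hA : 200000 ≤ A)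
    (α β γ s : ℝ) : ∃ C : ℝ, 0 < C ∧ ∀ ε u v1 v2 : ℝ, 0 < ε → ε ≤ 1 / 2 → |u| ≤ 1 →
      ‖∫ t in Set.Ioi (0 : ℝ), KC (A + s * I) ε u t * (ei (-tht t) * DH α (xe ε) (Xe ε) t *
        pw t ((1 / 10 ^ 7 : ℝ) + v2 * I) * PW γ ((1 / 10 ^ 7 : ℝ) + v2 * I) (Ye ε) t) *
        pw t ((1 / 10 ^ 7 : ℝ) + v1 * I) * PW β ((1 / 10 ^ 7 : ℝ) + v1 * I) (Ye ε) t‖ ≤
      C * ε ^ (-((A : ℝ) + 1) + 1 / 60000) * Real.exp (4 * |v2|) * Real.exp (4 * |v1|) := by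
  have hA' : (200000 : ℝ) ≤ A := by exact_mod_cast hA
  obtain ⟨C1, p1, k1⟩ := pqq_abs hS
  obtain ⟨C2, p2, k2⟩ := pqq_main hQ hS hV1 hA
  obtain ⟨C3, p3, k3⟩ := hJ 1 (A + 1) le_rfl
  refine ⟨C3 * (C2 + C1) * Real.exp (4 * (1 + |β| + |γ| + |s|)), by positivity,
    fun ε u v1 v2 h0 h1 hu => ?_⟩
  obtain ⟨σ, hσ⟩ : ∃ σ : ℝ, σ = 1 / 10 ^ 7 := ⟨_, rfl⟩
  rw [← hσ]
  obtain ⟨K, hK⟩ : ∃ K : ℝ, K = 1 + |β| + |γ| + |s| + |v1| + |v2| := ⟨_, rfl⟩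
  obtain ⟨a, ha⟩ : ∃ a : ℂ, a = A + s * I + (σ + v2 * I) + (σ + v1 * I) := ⟨_, rfl⟩
  have a1 : a.re = A + 2 / 10 ^ 7 := by rw [ha]; simp; rw [hσ]; ring
  have a2 : |a.im| ≤ K := by
    have : a.im = s + v2 + v1 := by rw [ha]; simp
    rw [this, hK]
    linarith [abs_add_three s v2 v1, abs_nonneg β, abs_nonneg γ]
  have σ0 : 0 < σ := by rw [hσ]; positivity
  have σ1 : σ ≤ 1 := by rw [hσ]; norm_num
  have hz : ∀ v b : ℝ, (-(σ + v * I) + b * I : ℂ).re ≤ 0 ∧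
      ‖(-(σ + v * I) + b * I : ℂ)‖ ≤ 1 + |v| + |b| := fun v b => by
    refine ⟨by simpa using σ0.le, (norm_add_le _ _).trans (add_le_add ?_ (by simp))⟩
    rw [norm_neg]
    refine (norm_add_le _ _).trans (add_le_add ?_ (by simp))
    rwa [Complex.norm_real, Real.norm_of_nonneg σ0.le]
  have hz3 : (-(α * I) : ℂ).re ≤ 0 := by simp
  have j := (k3 a ε u (by linarith) (by linarith) h0 h1 hu _
    (Icc 1 (Ye ε) ×ˢ Icc 1 (Ye ε) ×ˢ Icc 1 (Xe ε))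
    (pqqC (-(σ + v1 * I) + β * I) (-(σ + v2 * I) + γ * I) (-(α * I)) (xe ε))
    fun i => Real.log ((i.1 : ℝ) * i.2.1 / i.2.2)).2
  have m := k2 _ _ _ ((starRingEnd ℂ) a + 1 / 2) ε (-u) K (hz v1 β).1 (hz v2 γ).1 hz3 h0 h1
    (by rwa [abs_neg]) (by simp [a1]; ring)
    ((hz v1 β).2.trans (by linarith [abs_nonneg γ, abs_nonneg s, abs_nonneg v2]))
    ((hz v2 γ).2.trans (by linarith [abs_nonneg β, abs_nonneg s, abs_nonneg v1]))
    (by simpa using a2)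
  have n := k1 _ _ _ ε (hz v1 β).1 (hz v2 γ).1 hz3 h0 h1
  have hE : 1 ≤ Real.exp K := Real.one_le_exp ((abs_nonneg _).trans a2)
  refine le_trans (le_of_eq ?_) (j.trans ?_)
  · congr 2
    funext t
    rw [← pqq_expand, ha, ← KC_mul_pw _ (σ + v1 * I), ← KC_mul_pw _ (σ + v2 * I), one_mul]
    ring
  · calc _ ≤ C3 * Real.exp (3 * K) * (C2 * Real.exp K * ε ^ (-((A : ℝ) + 1) + 1 / 60000) +
          ε ^ (-a.re) * (C1 * ε ^ (-(9 : ℝ) / 10))) := by gcongr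
      _ ≤ C3 * Real.exp (3 * K) * (C2 * Real.exp K * ε ^ (-((A : ℝ) + 1) + 1 / 60000) +
          C1 * Real.exp K * ε ^ (-((A : ℝ) + 1) + 1 / 60000)) := by
          refine mul_le_mul_of_nonneg_left (add_le_add le_rfl ?_) (by positivity)
          rw [mul_left_comm, ← Real.rpow_add h0, mul_assoc]
          refine mul_le_mul_of_nonneg_left ?_ p1.le
          exact (eps_rpow_le h0 h1 (by rw [a1]; norm_num; linarith)).trans
            (le_mul_of_one_le_left (by positivity) hE)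
      _ = C3 * (C2 + C1) * (Real.exp (3 * K) * Real.exp K) * ε ^ (-((A : ℝ) + 1) + 1 / 60000) := by
          ring
      _ = _ := by
          rw [← Real.exp_add, show 3 * K + K = 4 * (1 + |β| + |γ| + |s|) + 4 * |v2| + 4 * |v1| by
            rw [hK]; ring, Real.exp_add, Real.exp_add]
          ring

theorem stPQQ (hJ : StJs) (hM : StMix) (hQ : StQs) (hS : StSz) (hV1 : StV1) : StPQQ := by
  intro A α β γ hA
  have hA' : (200000 : ℝ) ≤ A := by exact_mod_cast hA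
  obtain ⟨C1, p1, k1⟩ := pqq_inner hJ hQ hS hV1 hA α β γ ((α - β - γ) / 2)
  obtain ⟨C2, p2, k2⟩ := hM (1 / 10 ^ 7) 4 (by positivity) (by norm_num) (by norm_num)
  obtain ⟨⟨C3, p3, k3⟩, k4⟩ := hS
  refine ⟨C2 * (C2 * C1), by positivity, fun ε u h0 h1 hu => ?_⟩
  have hx1 := one_le_xe h0 h1
  have hx : 0 < xe ε := zero_lt_one.trans_le hx1
  have hx2 : xe ε ^ (-(1 / 10 ^ 7 : ℝ)) ≤ 1 :=
    Real.rpow_le_one_of_one_le_of_nonpos hx1 (by norm_num)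
  obtain ⟨s, hs⟩ : ∃ s : ℝ, s = (α - β - γ) / 2 := ⟨_, rfl⟩
  rw [← hs] at k1
  have hre : (A + s * I : ℂ).re = A := by simp
  have c0 : ContinuousOn (fun t => ei (-tht t) * DH α (xe ε) (Xe ε) t) (Set.Ioi 0) :=
    (continuous_ei.comp_continuousOn continuousOn_tht.neg).mul (k4 α _ _ hx).1.continuousOn
  have b0 : ∀ t, 0 < t → ‖ei (-tht t) * DH α (xe ε) (Xe ε) t‖ ≤ C3 * xe ε ^ ((3 : ℝ) / 5) :=
    fun t ht => by rw [norm_mul, norm_ei, one_mul]; exact ((k3 _ _ hx).2 α t ht).1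
  have c1 := c0.mul (k4 β _ (Ye ε) hx).2.1
  have key := k2 (fun t => KC (A + s * I) ε u t *
      (ei (-tht t) * DH α (xe ε) (Xe ε) t * EH β (xe ε) (Ye ε) t)) γ (xe ε)
    (C2 * C1 * ε ^ (-((A : ℝ) + 1) + 1 / 60000)) (Ye ε) hx (by positivity)
    ((continuousOn_KC _ _ _).mul c1)
    (pqq_int (C := C3 * xe ε ^ ((3 : ℝ) / 5) * (C3 / xe ε ^ ((3 : ℝ) / 5))) (p := 3 / 5) u h0
      (by rw [hre]; norm_num; linarith) c1 fun t ht => by
        rw [norm_mul, mul_assoc _ (C3 / _), div_mul_eq_mul_div, mul_div_assoc,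
          ← Real.div_rpow ht.le hx.le]
        exact mul_le_mul (b0 t ht) ((k3 _ _ hx).2 β t ht).2.1 (norm_nonneg _) (by positivity))
    fun v2 => by
      have c2 : Continuous (PW γ ((1 / 10 ^ 7 : ℝ) + v2 * I) (Ye ε)) :=
        continuous_finsetSum _ fun y _ => (continuous_pw y).comp (by fun_prop)
      have c3 := (c0.mul (continuousOn_pw ((1 / 10 ^ 7 : ℝ) + v2 * I))).mul c2.continuousOn
      have := k2 (fun t => KC (A + s * I) ε u t * (ei (-tht t) * DH α (xe ε) (Xe ε) t *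
          pw t ((1 / 10 ^ 7 : ℝ) + v2 * I) * PW γ ((1 / 10 ^ 7 : ℝ) + v2 * I) (Ye ε) t)) β (xe ε)
        (C1 * ε ^ (-((A : ℝ) + 1) + 1 / 60000) * Real.exp (4 * |v2|)) (Ye ε) hx (by positivity)
        ((continuousOn_KC _ _ _).mul c3)
        (pqq_int (C := C3 * xe ε ^ ((3 : ℝ) / 5) * (2 * √(Ye ε))) (p := 1 / 10 ^ 7) u h0
          (by rw [hre]; norm_num; linarith) c3 fun t ht => by
            have e : ((1 / 10 ^ 7 : ℝ) + v2 * I : ℂ).re = 1 / 10 ^ 7 := by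
              rw [add_re, ofReal_re]; simp
            rw [norm_mul, norm_mul, norm_pw ht, e, mul_right_comm]
            refine mul_le_mul_of_nonneg_right (mul_le_mul (b0 t ht) ?_ (norm_nonneg _)
              (by positivity)) (by positivity)
            refine (norm_sum_le_of_le _ fun y hy => ?_).trans (sum_inv_sqrt _)
            rw [sub_eq_add_neg, add_assoc]
            refine pqq_pw_le (mem_Icc.1 hy).1 ?_
            rw [add_re, neg_re, e]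
            simp)
        fun v1 => k1 ε u v1 v2 h0 h1 hu
      refine le_trans (le_of_eq ?_) (this.trans ?_)
      · congr 2
        funext t
        ring
      · refine (mul_le_of_le_one_right (by positivity) hx2).trans (le_of_eq ?_)
        ring
  have e : ∀ t ∈ Set.Ioi (0 : ℝ), KC A ε u t *
      (PP α (xe ε) (Xe ε) t * QQ β (xe ε) (Ye ε) t * QQ γ (xe ε) (Ye ε) t) =
      pw (2 * Real.pi) (-(s * I)) * (KC (A + s * I) ε u t *
        (ei (-tht t) * DH α (xe ε) (Xe ε) t * EH β (xe ε) (Ye ε) t) * EH γ (xe ε) (Ye ε) t) := by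
    intro t ht
    have e1 : ei (tht t) * ei (-tht t) = 1 := by rw [← ei_add, add_neg_cancel, ei_zero]
    have e2 : pw (t / (2 * Real.pi)) (α / 2 * I) * pw (t / (2 * Real.pi)) (-(β / 2 * I)) *
        pw (t / (2 * Real.pi)) (-(γ / 2 * I)) = pw t (s * I) * pw (2 * Real.pi) (-(s * I)) := by
      rw [← pw_add, ← pw_add, ← pw_div ht (by positivity), hs]
      congr 1
      push_cast
      ring
    rw [← KC_mul_pw, PP, QQ, QQ]
    linear_combination (KC A ε u t * DH α (xe ε) (Xe ε) t * EH β (xe ε) (Ye ε) t *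
      EH γ (xe ε) (Ye ε) t * ei (-tht t)) * (pw (t / (2 * Real.pi)) (α / 2 * I) *
        pw (t / (2 * Real.pi)) (-(β / 2 * I)) * pw (t / (2 * Real.pi)) (-(γ / 2 * I)) * e1 + e2)
  rw [setIntegral_congr_fun measurableSet_Ioi e, integral_const_mul, norm_mul,
    norm_pw (by positivity), show (-(s * I) : ℂ).re = 0 by simp, Real.rpow_zero, one_mul]
  refine key.trans ((mul_le_of_le_one_right (by positivity) hx2).trans (le_of_eq ?_))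
  ring

end Pool.Agent.CubZ
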