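import Pool.Agent.Lib.MP_d79f69_nt.Z3.Basic

open Matrix MeasureTheory Complex Finset

namespace Pool.Agent.CubZ

open Pool.Agent.CubH

/-- continuous on the half line and bounded by a power -/
def qqq_G (F : ℝ → ℂ) : Prop :=
  ContinuousOn F (Set.Ioi 0) ∧ ∃ C p : ℝ, 0 ≤ p ∧ ∀ t, 0 < t → ‖F t‖ ≤ C * t ^ p

theorem qqq_mul {F G : ℝ → ℂ} (hF : qqq_G F) (hG : qqq_G G) : qqq_G (fun t => F t * G t) := by
  obtain ⟨h1, C, p, hp, hb⟩ := hF
  obtain ⟨h2, D, q, hq, hc⟩ := hG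
  refine ⟨h1.mul h2, C * D, p + q, by linarith, fun t ht => ?_⟩
  rw [norm_mul, Real.rpow_add ht]
  calc _ ≤ (C * t ^ p) * (D * t ^ q) :=
        mul_le_mul (hb t ht) (hc t ht) (norm_nonneg _) ((norm_nonneg _).trans (hb t ht))
    _ = _ := by ring

theorem qqq_pw {w : ℂ} (hw : 0 ≤ w.re) : qqq_G (fun t => pw t w) :=
  ⟨continuousOn_pw w, 1, w.re, hw, fun t ht => by rw [norm_pw ht, one_mul]⟩

theorem qqq_PW_eq (α : ℝ) (w : ℂ) (Y : ℕ) (t : ℝ) :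
    PW α w Y t = ∑ y ∈ Icc 1 Y, pw y (-(1 / 2) - w + α * I) * ei (Real.log y * t) := by
  unfold PW
  refine Finset.sum_congr rfl fun y _ => ?_
  rw [mul_comm (Real.log y) t, ← pw_I, ← pw_add]
  congr 1; ring

theorem qqq_PW (α : ℝ) (w : ℂ) (Y : ℕ) : qqq_G (PW α w Y) := by
  have e : PW α w Y = fun t => ∑ y ∈ Icc 1 Y, pw y (-(1 / 2) - w + α * I) * ei (Real.log y * t) :=
    funext (qqq_PW_eq α w Y)
  rw [e]
  refine ⟨Continuous.continuousOn ?_, ∑ y ∈ Icc 1 Y, ‖pw (y : ℕ) (-(1 / 2) - w + α * I)‖, 0, le_rfl,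
    fun t _ => ?_⟩
  · refine continuous_finsetSum _ fun y _ => continuous_const.mul ?_
    exact continuous_ei.comp (by fun_prop)
  · rw [Real.rpow_zero, mul_one]
    refine (norm_sum_le _ _).trans (le_of_eq ?_)
    refine Finset.sum_congr rfl fun y _ => ?_
    rw [norm_mul, norm_ei, mul_one]

theorem qqq_EH (hS : StSz) (α : ℝ) {x : ℝ} (hx : 0 < x) (Y : ℕ) : qqq_G (EH α x Y) := by
  obtain ⟨⟨C, _, hb⟩, hc⟩ := hS
  refine ⟨(hc α x Y hx).2.1, C / x ^ ((3 : ℝ) / 5), 3 / 5, by norm_num, fun t ht => ?_⟩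
  have := ((hb x Y hx).2 α t ht).2.1
  rw [Real.div_rpow ht.le hx.le] at this
  calc _ ≤ _ := this
    _ = _ := by ring

theorem qqq_F0 (s : ℝ) :
    qqq_G (fun t => ei (-(3 * tht t)) * pw (t / (2 * Real.pi)) ((s : ℂ) * I)) := by
  have hp := Real.pi_pos
  refine ⟨ContinuousOn.mul ?_ ?_, 1, 0, le_rfl, fun t ht => ?_⟩
  · exact continuous_ei.comp_continuousOn (continuousOn_const.mul continuousOn_tht).neg
  · refine (continuousOn_pw _).comp (f := fun t : ℝ => t / (2 * Real.pi)) (by fun_prop) ?_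
    intro t ht
    have : 0 < t := ht
    exact Set.mem_Ioi.2 (by positivity)
  · rw [norm_mul, norm_ei, pw_I, norm_ei]; simp

theorem qqq_int {F : ℝ → ℂ} (hF : qqq_G F) {a : ℂ} (ha : 0 ≤ a.re) {ε σ : ℝ} (u : ℝ) (hε : 0 < ε)
    (hσ : 0 ≤ σ) : IntegrableOn (fun t => ‖KC a ε u t * F t‖ * t ^ σ) (Set.Ioi 0) := by
  obtain ⟨h1, C, p, hp, hb⟩ := qqq_mul hF (qqq_pw (w := (σ : ℂ)) (by simpa using hσ))
  have h := (KC_triv (a := a) u hε (by linarith) h1 hb).1.norm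
  refine IntegrableOn.congr_fun h (fun t ht => ?_) measurableSet_Ioi
  have ht0 : 0 < t := ht
  simp only [norm_mul, norm_pw ht0, Complex.ofReal_re]
  ring

/-- one use of the mixing step -/
theorem qqq_step (hM : StMix) {σ L : ℝ} (h0 : 0 < σ) (h1 : σ ≤ 1) (hL : 0 ≤ L) :
    ∃ C : ℝ, 0 < C ∧ ∀ (F : ℝ → ℂ) (a : ℂ) (ε u α x B : ℝ) (Y : ℕ), qqq_G F → 0 ≤ a.re → 0 < ε →
      1 ≤ x → 0 ≤ B →
      (∀ v : ℝ, ‖∫ t in Set.Ioi (0 : ℝ),
        KC a ε u t * (F t * (pw t (σ + v * I) * PW α (σ + v * I) Y t))‖ ≤ B * Real.exp (L * |v|)) →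
      ‖∫ t in Set.Ioi (0 : ℝ), KC a ε u t * (F t * EH α x Y t)‖ ≤ C * B := by
  obtain ⟨C, hC, h⟩ := hM σ L h0 h1 hL
  refine ⟨C, hC, fun F a ε u α x B Y hF ha hε hx hB hv => ?_⟩
  have := h (fun t => KC a ε u t * F t) α x B Y (by linarith) hB
    ((continuousOn_KC a ε u).mul hF.1) (qqq_int hF ha u hε h0.le)
    (fun v => by simpa only [mul_assoc] using hv v)
  have h2 : x ^ (-σ) ≤ 1 := Real.rpow_le_one_of_one_le_of_nonpos hx (by linarith)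
  calc _ = ‖∫ t in Set.Ioi (0 : ℝ), KC a ε u t * F t * EH α x Y t‖ := by simp only [mul_assoc]
    _ ≤ C * B * x ^ (-σ) := this
    _ ≤ C * B * 1 := by gcongr
    _ = _ := mul_one _

theorem qqq_coef {y : ℕ} (hy : 1 ≤ y) {w : ℂ} (hw : 0 ≤ w.re) (α : ℝ) :
    ‖pw y (-(1 / 2) - w + α * I)‖ ≤ (y : ℝ) ^ (-(1 : ℝ) / 2) := by
  have h1 : (1 : ℝ) ≤ y := by exact_mod_cast hy
  rw [norm_pw (by linarith)]
  refine Real.rpow_le_rpow_of_exponent_le h1 ?_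
  simp
  linarith

theorem qqq_sqrt {ε : ℝ} (h0 : 0 < ε) (h1 : ε ≤ 1 / 2) :
    (2 * √(Ye ε : ℝ)) ^ 3 ≤ 8 * ε ^ (-(3 : ℝ) / 4) := by
  have a : (Ye ε : ℝ) ≤ ε ^ (-(1 : ℝ) / 2) := (Ye_le h0 h1).trans (eps_rpow_le h0 h1 (by norm_num))
  have b : √(Ye ε : ℝ) ≤ ε ^ (-(1 : ℝ) / 4) := by
    refine (Real.sqrt_le_sqrt a).trans (le_of_eq ?_)
    rw [Real.sqrt_eq_rpow, ← Real.rpow_mul h0.le]; norm_num
  have c : (ε ^ (-(1 : ℝ) / 4)) ^ 3 = ε ^ (-(3 : ℝ) / 4) := by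
    rw [← Real.rpow_natCast, ← Real.rpow_mul h0.le]; norm_num
  calc _ ≤ (2 * ε ^ (-(1 : ℝ) / 4)) ^ 3 := by gcongr
    _ = _ := by rw [mul_pow, c]; norm_num

theorem qqq_MM {ε u l : ℝ} (h0 : 0 < ε) (h1 : ε ≤ 1 / 2) (hu : |u| ≤ 1) {b : ℂ} {r : ℝ}
    (hr : 5000 ≤ r) (hb : b.re = r + 1 / 2) (hl : l ≤ 3 * Real.log (Ye ε)) :
    ‖MM 3 b ε u l‖ ≤ ε ^ (-r) := by
  have hY : (1 : ℝ) ≤ Ye ε := by exact_mod_cast one_le_Ye h0 h1
  refine (norm_MM_le (by norm_num) h0 h1 hu b l).trans ?_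
  have a1 : 2 * l / 3 * b.re - ε / 2 * Real.exp (2 * l / 3) ≤ Real.log (Ye ε) * (2 * b.re) := by
    have : 0 ≤ ε / 2 * Real.exp (2 * l / 3) := by positivity
    have h2 : 0 ≤ b.re := by linarith
    nlinarith
  refine (Real.exp_le_exp.2 a1).trans ?_
  rw [← Real.rpow_def_of_pos (by linarith)]
  calc _ ≤ (ε ^ (-((1 : ℝ) / 2 - 1 / 20000))) ^ (2 * b.re) :=
        Real.rpow_le_rpow (by linarith) (Ye_le h0 h1) (by linarith)
    _ = ε ^ (-((1 : ℝ) / 2 - 1 / 20000) * (2 * b.re)) := by rw [← Real.rpow_mul h0.le]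
    _ ≤ _ := eps_rpow_le h0 h1 (by rw [hb]; linarith)

/-- the innermost integral -/
theorem qqq_core (hJ : StJs) (A : ℕ) (hA : 200000 ≤ A) (s α β γ : ℝ) :
    ∃ C : ℝ, 0 < C ∧ ∀ ε u v1 v2 v3 : ℝ, 0 < ε → ε ≤ 1 / 2 → |u| ≤ 1 →
      ‖∫ t in Set.Ioi (0 : ℝ), KC A ε u t *
        (ei (-(3 * tht t)) * pw (t / (2 * Real.pi)) ((s : ℂ) * I) *
          (pw t ((1 / 20 : ℝ) + v1 * I) * PW α ((1 / 20 : ℝ) + v1 * I) (Ye ε) t) *
          (pw t ((1 / 20 : ℝ) + v2 * I) * PW β ((1 / 20 : ℝ) + v2 * I) (Ye ε) t) *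
          (pw t ((1 / 20 : ℝ) + v3 * I) * PW γ ((1 / 20 : ℝ) + v3 * I) (Ye ε) t))‖ ≤
        C * ε ^ (-((A : ℝ) + 1) + 1 / 60000) * Real.exp (3 * |v1|) * Real.exp (3 * |v2|) *
          Real.exp (3 * |v3|) := by
  obtain ⟨C, hC, h⟩ := hJ 3 (A + 1) (by norm_num)
  refine ⟨C * Real.exp (3 * |s|) * 16, by positivity, fun ε u v1 v2 v3 h0 h1 hu => ?_⟩
  have hA' : (200000 : ℝ) ≤ A := by exact_mod_cast hA
  have hp := Real.pi_pos
  set w1 : ℂ := (1 / 20 : ℝ) + v1 * I with hw1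
  set w2 : ℂ := (1 / 20 : ℝ) + v2 * I with hw2
  set w3 : ℂ := (1 / 20 : ℝ) + v3 * I with hw3
  have r1 : w1.re = 1 / 20 := by simp [hw1]
  have r2 : w2.re = 1 / 20 := by simp [hw2]
  have r3 : w3.re = 1 / 20 := by simp [hw3]
  set a : ℂ := (A : ℂ) + (s : ℂ) * I + w1 + w2 + w3 with ha
  have are : a.re = A + 3 / 20 := by simp [ha, r1, r2, r3]; ring
  have aim : a.im = s + v1 + v2 + v3 := by simp [ha, hw1, hw2, hw3]
  set S := Icc 1 (Ye ε) ×ˢ Icc 1 (Ye ε) ×ˢ Icc 1 (Ye ε) with hS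
  set c : ℕ × ℕ × ℕ → ℂ := fun i => pw i.1 (-(1 / 2) - w1 + α * I) *
    (pw i.2.1 (-(1 / 2) - w2 + β * I) * pw i.2.2 (-(1 / 2) - w3 + γ * I)) with hc
  set l : ℕ × ℕ × ℕ → ℝ := fun i => Real.log i.1 + (Real.log i.2.1 + Real.log i.2.2) with hl
  have key := (h a ε u (by linarith) (by linarith) h0 h1 hu (ℕ × ℕ × ℕ) S c l).2
  have e : ∫ t in Set.Ioi (0 : ℝ), KC A ε u t *
        (ei (-(3 * tht t)) * pw (t / (2 * Real.pi)) ((s : ℂ) * I) *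
          (pw t w1 * PW α w1 (Ye ε) t) * (pw t w2 * PW β w2 (Ye ε) t) *
          (pw t w3 * PW γ w3 (Ye ε) t)) =
      pw (2 * Real.pi) (-((s : ℂ) * I)) *
        ∫ t in Set.Ioi (0 : ℝ), KC a ε u t * ei (-(3 * tht t)) * ∑ i ∈ S, c i * ei (l i * t) := by
    rw [← integral_const_mul]
    refine setIntegral_congr_fun measurableSet_Ioi fun t ht => ?_
    have ht0 : 0 < t := ht
    have e1 : ∑ i ∈ S, c i * ei (l i * t) =
        PW α w1 (Ye ε) t * (PW β w2 (Ye ε) t * PW γ w3 (Ye ε) t) := by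
      rw [qqq_PW_eq, qqq_PW_eq, qqq_PW_eq, Finset.sum_mul_sum, Finset.sum_mul, hS,
        Finset.sum_product]
      refine Finset.sum_congr rfl fun y1 _ => ?_
      rw [Finset.sum_product, Finset.mul_sum]
      refine Finset.sum_congr rfl fun y2 _ => ?_
      rw [Finset.mul_sum]
      refine Finset.sum_congr rfl fun y3 _ => ?_
      simp only [hc, hl, add_mul, ei_add]
      ring
    rw [e1, ha, ← KC_mul_pw, ← KC_mul_pw, ← KC_mul_pw, ← KC_mul_pw, pw_div ht0 (by positivity)]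
    ring
  have n1 : ‖pw (2 * Real.pi) (-((s : ℂ) * I))‖ = 1 := by
    rw [norm_pw (by positivity)]; simp
  have hsum : ∑ i ∈ S, ‖c i‖ ≤ 8 * ε ^ (-(3 : ℝ) / 4) := by
    have b1 : ∑ i ∈ S, ‖c i‖ ≤ ∑ i ∈ S, (i.1 : ℝ) ^ (-(1 : ℝ) / 2) *
        ((i.2.1 : ℝ) ^ (-(1 : ℝ) / 2) * (i.2.2 : ℝ) ^ (-(1 : ℝ) / 2)) := by
      refine Finset.sum_le_sum fun i hi => ?_
      simp only [hS, Finset.mem_product, Finset.mem_Icc] at hi
      simp only [hc, norm_mul]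
      have c1 := qqq_coef hi.1.1 (w := w1) (by rw [r1]; norm_num) α
      have c2 := qqq_coef hi.2.1.1 (w := w2) (by rw [r2]; norm_num) β
      have c3 := qqq_coef hi.2.2.1 (w := w3) (by rw [r3]; norm_num) γ
      gcongr
    have b2 : ∑ i ∈ S, (i.1 : ℝ) ^ (-(1 : ℝ) / 2) *
        ((i.2.1 : ℝ) ^ (-(1 : ℝ) / 2) * (i.2.2 : ℝ) ^ (-(1 : ℝ) / 2)) =
        (∑ n ∈ Icc 1 (Ye ε), (n : ℝ) ^ (-(1 : ℝ) / 2)) ^ 3 := by
      rw [hS, Finset.sum_product]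
      simp only [Finset.sum_product, ← Finset.mul_sum, ← Finset.sum_mul]
      ring
    have b3 : 0 ≤ ∑ n ∈ Icc 1 (Ye ε), (n : ℝ) ^ (-(1 : ℝ) / 2) :=
      Finset.sum_nonneg fun n _ => by positivity
    rw [b2] at b1
    exact b1.trans ((pow_le_pow_left₀ b3 (sum_inv_sqrt _) 3).trans (qqq_sqrt h0 h1))
  have hmain : ‖∑ i ∈ S, (starRingEnd ℂ) (c i) * MM 3 ((starRingEnd ℂ) a + 1 / 2) ε (-u) (l i)‖ ≤
      ε ^ (-a.re) * ∑ i ∈ S, ‖c i‖ := by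
    rw [Finset.mul_sum]
    refine (norm_sum_le _ _).trans (Finset.sum_le_sum fun i hi => ?_)
    simp only [hS, Finset.mem_product, Finset.mem_Icc] at hi
    rw [norm_mul, Complex.norm_conj, mul_comm]
    refine mul_le_mul_of_nonneg_right ?_ (norm_nonneg _)
    have lg : ∀ y : ℕ, 1 ≤ y → y ≤ Ye ε → Real.log y ≤ Real.log (Ye ε) := fun y k1 k2 =>
      Real.log_le_log (by exact_mod_cast k1) (by exact_mod_cast k2)
    refine qqq_MM h0 h1 (by rwa [abs_neg]) (by linarith) (by simp) ?_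
    have := lg _ hi.1.1 hi.1.2
    have := lg _ hi.2.1.1 hi.2.1.2
    have := lg _ hi.2.2.1 hi.2.2.2
    simp only [hl]
    linarith
  have hexp : Real.exp (3 * |a.im|) ≤ Real.exp (3 * |s|) * Real.exp (3 * |v1|) *
      Real.exp (3 * |v2|) * Real.exp (3 * |v3|) := by
    rw [← Real.exp_add, ← Real.exp_add, ← Real.exp_add, aim]
    refine Real.exp_le_exp.2 ?_
    have := abs_add_le (s + v1 + v2) v3
    have := abs_add_le (s + v1) v2
    have := abs_add_le s v1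
    linarith
  have hpow : ε ^ (-a.re) * (8 * ε ^ (-(3 : ℝ) / 4)) ≤ 8 * ε ^ (-((A : ℝ) + 1) + 1 / 60000) := by
    have : ε ^ (-a.re) * ε ^ (-(3 : ℝ) / 4) ≤ ε ^ (-((A : ℝ) + 1) + 1 / 60000) := by
      rw [← Real.rpow_add h0]
      exact eps_rpow_le h0 h1 (by rw [are]; linarith)
    linarith
  have hlast : ε ^ (-a.re) * ∑ i ∈ S, ‖c i‖ ≤ 8 * ε ^ (-((A : ℝ) + 1) + 1 / 60000) :=
    (mul_le_mul_of_nonneg_left hsum (by positivity)).trans hpow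
  rw [e, norm_mul, n1, one_mul]
  refine key.trans ?_
  calc _ ≤ C * (Real.exp (3 * |s|) * Real.exp (3 * |v1|) * Real.exp (3 * |v2|) *
        Real.exp (3 * |v3|)) * (16 * ε ^ (-((A : ℝ) + 1) + 1 / 60000)) := by
        refine mul_le_mul (mul_le_mul_of_nonneg_left hexp hC.le) (by linarith) (by positivity)
          (by positivity)
    _ = _ := by ring

theorem stQQQ (hJ : StJs) (hM : StMix) (hS : StSz) : StQQQ := by
  intro A α β γ hA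
  obtain ⟨C, hC, h⟩ := qqq_core hJ A hA (-((α + β + γ) / 2)) α β γ
  obtain ⟨D, hD, hm⟩ := qqq_step hM (σ := 1 / 20) (L := 3) (by norm_num) (by norm_num) (by norm_num)
  refine ⟨D * (D * (D * C)), by positivity, fun ε u h0 h1 hu => ?_⟩
  have hx := one_le_xe h0 h1
  have hx0 : 0 < xe ε := by linarith
  have ha : 0 ≤ (A : ℂ).re := by simp
  have g0 := qqq_F0 (-((α + β + γ) / 2))
  have gW : ∀ (δ v : ℝ), qqq_G (fun t => pw t ((1 / 20 : ℝ) + v * I) *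
      PW δ ((1 / 20 : ℝ) + v * I) (Ye ε) t) := fun δ v =>
    qqq_mul (qqq_pw (by simp)) (qqq_PW _ _ _)
  have gE : ∀ δ : ℝ, qqq_G (EH δ (xe ε) (Ye ε)) := fun δ => qqq_EH hS δ hx0 _
  set E : ℝ := ε ^ (-((A : ℝ) + 1) + 1 / 60000) with hE
  have hE0 : 0 < E := by positivity
  have s3 := fun v1 v2 : ℝ => hm _ A ε u γ (xe ε)
    (C * E * Real.exp (3 * |v1|) * Real.exp (3 * |v2|)) (Ye ε)
    (qqq_mul (qqq_mul g0 (gW α v1)) (gW β v2)) ha h0 hx (by positivity)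
    (fun v3 => h ε u v1 v2 v3 h0 h1 hu)
  have s2 := fun v1 : ℝ => hm _ A ε u β (xe ε) (D * (C * E * Real.exp (3 * |v1|))) (Ye ε)
    (qqq_mul (qqq_mul g0 (gW α v1)) (gE γ)) ha h0 hx (by positivity)
    (fun v2 => by
      refine le_of_eq_of_le ?_ ((s3 v1 v2).trans (le_of_eq (by ring)))
      congr 2; funext t; ring)
  have s1 := hm _ A ε u α (xe ε) (D * (D * (C * E))) (Ye ε)
    (qqq_mul (qqq_mul g0 (gE γ)) (gE β)) ha h0 hx (by positivity)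
    (fun v1 => by
      refine le_of_eq_of_le ?_ ((s2 v1).trans (le_of_eq (by ring)))
      congr 2; funext t; ring)
  refine le_of_eq_of_le ?_ (s1.trans (le_of_eq (by ring)))
  congr 2; funext t
  have e1 : ei (-(3 * tht t)) = ei (-tht t) * ei (-tht t) * ei (-tht t) := by
    rw [← ei_add, ← ei_add]; congr 1; ring
  have e2 : pw (t / (2 * Real.pi)) (((-((α + β + γ) / 2) : ℝ) : ℂ) * I) =
      pw (t / (2 * Real.pi)) (-(α / 2 * I)) * pw (t / (2 * Real.pi)) (-(β / 2 * I)) *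
        pw (t / (2 * Real.pi)) (-(γ / 2 * I)) := by
    rw [← pw_add, ← pw_add]; congr 1; push_cast; ring
  simp only [QQ]
  rw [e1, e2]
  ring

end Pool.Agent.CubZ
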