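import Pool.Agent.Lib.MP_d79f69_nt.Z3.Basic

open Matrix MeasureTheory Complex Finset

namespace Pool.Agent.CubZ

open Pool.Agent.CubH

theorem qb_num {Z X Y ε : ℝ} (hX : 1 ≤ X) (hZ : X ≤ Z) (hY : 1 ≤ Y) (hε : 0 < ε)
    (h : Y ^ 2 * ε ≤ 1) : ∃ p : ℝ, -1 ≤ p ∧ p ≤ 1 ∧
      (ε ^ (-(p / 2)) * (Z * X / Y) ^ (-p) / √Z) ^ 2 *
        (Z * X * Y + Z ^ 2 * (X * √X / √Y) + Y ^ 3 / X) ≤
      3 * (ε ^ (-((5 : ℝ) / 16)) * Y ^ ((3 : ℝ) / 8)) ^ 2 := by
  obtain ⟨z, rfl⟩ : ∃ z, Z = Real.exp z := ⟨_, (Real.exp_log (by linarith)).symm⟩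
  obtain ⟨x, rfl⟩ : ∃ x, X = Real.exp x := ⟨_, (Real.exp_log (by linarith)).symm⟩
  obtain ⟨y, rfl⟩ : ∃ y, Y = Real.exp y := ⟨_, (Real.exp_log (by linarith)).symm⟩
  obtain ⟨e, rfl⟩ : ∃ e, ε = Real.exp e := ⟨_, (Real.exp_log hε).symm⟩
  rw [Real.one_le_exp_iff] at hX hY
  rw [Real.exp_le_exp] at hZ
  rw [← Real.exp_nat_mul, ← Real.exp_add, Real.exp_le_one_iff] at h
  push_cast at h
  simp only [← Real.exp_half, ← Real.exp_add, ← Real.exp_sub, ← Real.exp_mul, ← Real.exp_nat_mul,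
    mul_add]
  have key : ∀ a b c d : ℝ, a ≤ d → b ≤ d → c ≤ d →
      Real.exp a + Real.exp b + Real.exp c ≤ 3 * Real.exp d := fun a b c d h1 h2 h3 => by
    linarith [Real.exp_le_exp.2 h1, Real.exp_le_exp.2 h2, Real.exp_le_exp.2 h3]
  rcases le_total 0 (e + 2 * (z + x - y)) with h1 | h1
  · refine ⟨5 / 8, by norm_num, by norm_num, key _ _ _ _ ?_ ?_ ?_⟩ <;> push_cast <;> linarith
  · refine ⟨-1 / 2, by norm_num, by norm_num, key _ _ _ _ ?_ ?_ ?_⟩ <;> push_cast <;> linarith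

theorem qb_pow {a b p : ℝ} (ha : 0 < a) (h1 : a / 2 ≤ b) (h2 : b ≤ 2 * a) (hp : -1 ≤ p)
    (hp' : p ≤ 1) : b ^ (-p) ≤ 2 * a ^ (-p) := by
  have hb : 0 < b := by linarith
  have h3 : (b / a) ^ (-p) ≤ 2 := by
    rcases le_total 0 p with h | h
    · calc (b / a) ^ (-p) ≤ (2⁻¹ : ℝ) ^ (-p) :=
            Real.rpow_le_rpow_of_nonpos (by norm_num) (by rw [le_div_iff₀ ha]; linarith) (by linarith)
        _ = 2 ^ p := by rw [Real.inv_rpow (by norm_num), Real.rpow_neg (by norm_num), inv_inv]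
        _ ≤ 2 ^ (1 : ℝ) := Real.rpow_le_rpow_of_exponent_le one_le_two hp'
        _ = 2 := Real.rpow_one 2
    · calc (b / a) ^ (-p) ≤ (2 : ℝ) ^ (-p) :=
            Real.rpow_le_rpow (by positivity) (by rw [div_le_iff₀ ha]; linarith) (by linarith)
        _ ≤ 2 ^ (1 : ℝ) := Real.rpow_le_rpow_of_exponent_le one_le_two (by linarith)
        _ = 2 := Real.rpow_one 2
  rwa [Real.div_rpow hb.le ha.le, div_le_iff₀ (by positivity)] at h3

theorem stQb (hW : StWm) (hY : StWy) (hM : StMv) : StQb := by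
  intro η b1 hη
  obtain ⟨CW, hCW, hW⟩ := hW (2 * η) (Real.exp (-2) / 2) (Real.exp 2) (by positivity)
    (by positivity)
  obtain ⟨CM, hCM, hM⟩ := hM b1
  refine ⟨4 * CM * √(3 * (1 + 2 * CW)), by positivity, ?_⟩
  intro b ε u Z X Y q a hb1 hb2 hε hε2 hu hX hXZ hY1 hYε hq ha
  have rX : (1 : ℝ) ≤ X := by exact_mod_cast hX
  have rY : (1 : ℝ) ≤ Y := by exact_mod_cast hY1
  have rXZ : (X : ℝ) ≤ Z := by exact_mod_cast hXZ
  have rZ : (1 : ℝ) ≤ Z := rX.trans rXZ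
  obtain ⟨p, hp1, hp2, hp⟩ := qb_num rX rXZ rY hε hYε
  set β : ℝ := -(Real.exp (-(2 * u)) * Real.cos (2 * ε)) with hβ
  have hcos : 1 / 2 ≤ Real.cos (2 * ε) := by
    have := Real.one_sub_sq_div_two_le_cos (x := 2 * ε)
    nlinarith
  have hu' := abs_le.1 hu
  have e1 : Real.exp (-2) ≤ Real.exp (-(2 * u)) := Real.exp_le_exp.2 (by linarith)
  have e2 : Real.exp (-(2 * u)) ≤ Real.exp 2 := Real.exp_le_exp.2 (by linarith)
  have e3 : |β| = Real.exp (-(2 * u)) * Real.cos (2 * ε) := by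
    rw [hβ, abs_neg, abs_of_nonneg (by positivity)]
  have hW' := hW β Z X Y
    (by rw [e3]; nlinarith [Real.exp_pos (-2)])
    (by rw [e3]; nlinarith [Real.exp_pos (-(2 * u)), Real.cos_le_one (2 * ε)])
    (hX.trans hXZ) hX hY1
  set D : ℝ := ε ^ (-(p / 2)) * ((Z : ℝ) * X / Y) ^ (-p) / √Z with hD
  set B : ℝ := CM * (1 + |b.im|) * (2 * ε ^ (-b.re) * D) with hB
  have hS : ∀ x ∈ Ico X (2 * X), ∀ y ∈ Ico Y (2 * Y),
      ‖∑ n ∈ Ico Z q, a n * pw n (-(1 / 2)) * MM 1 b ε u (Real.log (n * (x / y)))‖ ^ 2 ≤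
      4 * B ^ 2 * (Z + 2 * ∑ h ∈ Icc 1 Z, mn Z (β * h * (x : ℝ) ^ 2 / (y : ℝ) ^ 2)) := by
    intro x hx y hy
    rw [mem_Ico] at hx hy
    have x1 : (X : ℝ) ≤ x := by exact_mod_cast hx.1
    have x2 : (x : ℝ) ≤ 2 * X := by exact_mod_cast hx.2.le
    have y1 : (Y : ℝ) ≤ y := by exact_mod_cast hy.1
    have y2 : (y : ℝ) ≤ 2 * Y := by exact_mod_cast hy.2.le
    have x0 : (0 : ℝ) < x := by linarith
    have y0 : (0 : ℝ) < y := by linarith
    obtain ⟨g, g1, g2, g3⟩ := hM b ε u (x / y) p Z q a hb1 hb2 hε hε2 hu (by positivity) hp1 hp2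
      (hX.trans hXZ) hq ha
    have hle : CM * (1 + |b.im|) * (ε ^ (-(b.re + p / 2)) * ((Z : ℝ) * (x / y)) ^ (-p) / √Z) ≤ B := by
      have h1 : ((Z : ℝ) * (x / y)) ^ (-p) ≤ 2 * ((Z : ℝ) * X / Y) ^ (-p) := by
        refine qb_pow (by positivity) ?_ ?_ hp1 hp2
        · rw [div_div, mul_div_assoc]
          refine mul_le_mul_of_nonneg_left ?_ (by positivity)
          rw [div_le_div_iff₀ (by positivity) y0]
          nlinarith
        · rw [show 2 * ((Z : ℝ) * X / Y) = Z * (2 * X / Y) by ring]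
          gcongr
      rw [hB, hD, neg_add, Real.rpow_add hε]
      refine mul_le_mul_of_nonneg_left ?_ (by positivity)
      calc _ ≤ ε ^ (-b.re) * ε ^ (-(p / 2)) * (2 * ((Z : ℝ) * X / Y) ^ (-p)) / √Z := by gcongr
        _ = _ := by ring
    rw [sum_congr rfl fun n hn => g1 n ((hX.trans hXZ).trans (mem_Ico.1 hn).1)]
    refine (hY _ B Z Z q g (hX.trans hXZ) (by omega) (by positivity)
      (fun n hn => (g2 n hn).trans hle) (g3.trans hle)).trans (le_of_eq ?_)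
    congr 3
    refine sum_congr rfl fun h _ => ?_
    congr 1
    rw [hβ]
    ring
  refine (abs_le_of_sq_le_sq' ?_ (by positivity)).2
  rw [← sum_product']
  refine (sum_mul_sq_le_sq_mul_sq _ _ _).trans ?_
  have c1 : ∑ i ∈ Ico X (2 * X) ×ˢ Ico Y (2 * Y), (((i.1 : ℝ) * i.2) ^ (-(1 : ℝ) / 2)) ^ 2 ≤ 1 := by
    refine (sum_le_card_nsmul _ _ (((X : ℝ) * Y)⁻¹) fun i hi => ?_).trans (le_of_eq ?_)
    · rw [mem_product, mem_Ico, mem_Ico] at hi
      have x1 : (X : ℝ) ≤ i.1 := by exact_mod_cast hi.1.1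
      have y1 : (Y : ℝ) ≤ i.2 := by exact_mod_cast hi.2.1
      rw [← Real.rpow_natCast, ← Real.rpow_mul (by positivity),
        show -(1 : ℝ) / 2 * (2 : ℕ) = -1 by norm_num, Real.rpow_neg_one]
      gcongr
    · rw [card_product, Nat.card_Ico, Nat.card_Ico, show 2 * X - X = X by omega,
        show 2 * Y - Y = Y by omega, nsmul_eq_mul]
      push_cast
      exact mul_inv_cancel₀ (by positivity)
  refine (mul_le_of_le_one_left (by positivity) c1).trans ?_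
  rw [sum_product]
  refine (sum_le_sum fun x hx => sum_le_sum fun y hy => hS x hx y hy).trans ?_
  simp only [← mul_sum, sum_add_distrib, sum_const, Nat.card_Ico, nsmul_eq_mul]
  rw [show 2 * X - X = X by omega, show 2 * Y - Y = Y by omega]
  set T : ℝ := Z * X * Y + (Z : ℝ) ^ 2 * (X * √X / √Y) + (Y : ℝ) ^ 3 / X with hT
  set P : ℝ := ((Z : ℝ) * X * Y) ^ η with hP
  have p1 : 1 ≤ P := Real.one_le_rpow (one_le_mul_of_one_le_of_one_le
    (one_le_mul_of_one_le_of_one_le rZ rX) rY) hη.le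
  have p2 : ((Z : ℝ) * X * Y) ^ (2 * η) = P ^ 2 := by
    rw [hP, mul_comm 2 η, Real.rpow_mul (by positivity), Real.rpow_two]
  rw [p2] at hW'
  have t0 : 0 ≤ T := by positivity
  have t1 : (X : ℝ) * (Y * Z) ≤ P ^ 2 * T := by
    have : (X : ℝ) * (Y * Z) ≤ T := by
      have : 0 ≤ (Z : ℝ) ^ 2 * (X * √X / √Y) + (Y : ℝ) ^ 3 / X := by positivity
      rw [hT]
      linarith
    exact this.trans (le_mul_of_one_le_left t0 (one_le_pow₀ p1))
  calc _ ≤ 4 * B ^ 2 * (P ^ 2 * T + 2 * (CW * P ^ 2 * T)) :=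
        mul_le_mul_of_nonneg_left (by linarith) (by positivity)
    _ = 16 * CM ^ 2 * (1 + 2 * CW) * (1 + |b.im|) ^ 2 * P ^ 2 * (ε ^ (-b.re)) ^ 2 * (D ^ 2 * T) := by
        rw [hB]; ring
    _ ≤ 16 * CM ^ 2 * (1 + 2 * CW) * (1 + |b.im|) ^ 2 * P ^ 2 * (ε ^ (-b.re)) ^ 2 *
        (3 * (ε ^ (-((5 : ℝ) / 16)) * (Y : ℝ) ^ ((3 : ℝ) / 8)) ^ 2) := by gcongr
    _ = _ := by
        rw [neg_add, Real.rpow_add hε]
        simp only [mul_pow]
        rw [Real.sq_sqrt (by positivity)]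
        ring

end Pool.Agent.CubZ
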