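import Pool.Agent.Lib.MP_d79f69_nt.Z3.Basic

open Matrix MeasureTheory Complex Finset

namespace Pool.Agent.CubZ

open Pool.Agent.CubH

/-- dyadic block of `[1, M]` -/
def qs_blk (M i : ℕ) : Finset ℕ := Ico (2 ^ i) (min (2 * 2 ^ i) (M + 1))

theorem qs_dy0 (f : ℕ → ℂ) (M K : ℕ) :
    ∑ n ∈ Ico 1 (min (2 ^ K) (M + 1)), f n = ∑ i ∈ range K, ∑ n ∈ qs_blk M i, f n := by
  induction K with
  | zero => simp
  | succ K ih =>
    rw [sum_range_succ, ← ih, qs_blk, pow_succ']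
    have h1 : 1 ≤ 2 ^ K := Nat.one_le_two_pow
    rcases le_total (2 ^ K) (M + 1) with h | h
    · rw [min_eq_left h, sum_Ico_consecutive _ h1 (by omega)]
    · rw [min_eq_right h, min_eq_right (by omega), Ico_eq_empty (a := 2 ^ K) (by omega)]
      simp

theorem qs_dy (f : ℕ → ℂ) (M : ℕ) :
    ∑ n ∈ Icc 1 M, f n = ∑ i ∈ range M.size, ∑ n ∈ qs_blk M i, f n := by
  rw [← qs_dy0, min_eq_right (Nat.lt_size_self M)]
  rfl

theorem qs_split (G : ℕ → ℕ → ℕ → ℂ) (M1 M2 M3 : ℕ) (D : ℝ)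
    (h : ∀ i j k, 2 ^ i ≤ M1 → 2 ^ j ≤ M2 → 2 ^ k ≤ M3 →
      ‖∑ n ∈ qs_blk M1 i, ∑ x ∈ qs_blk M2 j, ∑ y ∈ qs_blk M3 k, G n x y‖ ≤ D) :
    ‖∑ m ∈ Icc 1 M1 ×ˢ Icc 1 M2 ×ˢ Icc 1 M3, G m.1 m.2.1 m.2.2‖ ≤
      M1.size * (M2.size * (M3.size * D)) := by
  have e : ∑ m ∈ Icc 1 M1 ×ˢ Icc 1 M2 ×ˢ Icc 1 M3, G m.1 m.2.1 m.2.2 =
      ∑ i ∈ range M1.size, ∑ j ∈ range M2.size, ∑ k ∈ range M3.size,
        ∑ n ∈ qs_blk M1 i, ∑ x ∈ qs_blk M2 j, ∑ y ∈ qs_blk M3 k, G n x y := by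
    rw [sum_product, qs_dy]
    refine sum_congr rfl fun i _ => ?_
    have e1 : ∀ n, ∑ m ∈ Icc 1 M2 ×ˢ Icc 1 M3, G n m.1 m.2 =
        ∑ j ∈ range M2.size, ∑ k ∈ range M3.size,
          ∑ x ∈ qs_blk M2 j, ∑ y ∈ qs_blk M3 k, G n x y := by
      intro n
      rw [sum_product, qs_dy]
      refine sum_congr rfl fun j _ => ?_
      exact (sum_congr rfl fun x _ => qs_dy (G n x) M3).trans sum_comm
    simp only [e1]
    rw [sum_comm]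
    refine sum_congr rfl fun j _ => ?_
    rw [sum_comm]
  rw [e]
  have key : ∀ (K : ℕ) (f : ℕ → ℂ) (E : ℝ), (∀ i, i < K → ‖f i‖ ≤ E) →
      ‖∑ i ∈ range K, f i‖ ≤ K * E := by
    intro K f E hf
    refine (norm_sum_le _ _).trans ?_
    simpa using sum_le_card_nsmul (range K) (fun i => ‖f i‖) E fun i hi => hf i (mem_range.1 hi)
  refine key _ _ _ fun i hi => key _ _ _ fun j hj => key _ _ _ fun k hk => ?_
  exact h i j k (Nat.lt_size.1 hi) (Nat.lt_size.1 hj) (Nat.lt_size.1 hk)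

theorem qs_block (F : ℝ → ℂ) (B D : ℝ) (hB : 0 < B) (X Y : ℕ) (hX : 1 ≤ X) (hY : 1 ≤ Y)
    (SZ SX SY : Finset ℕ) (hSX : SX ⊆ Ico X (2 * X)) (hSY : SY ⊆ Ico Y (2 * Y))
    (a c d : ℕ → ℂ) (hc : ∀ n, 1 ≤ n → ‖c n‖ ≤ B) (hd : ∀ n, 1 ≤ n → ‖d n‖ ≤ B)
    (h : ∑ x ∈ Ico X (2 * X), ∑ y ∈ Ico Y (2 * Y), ((x : ℝ) * y) ^ (-(1 : ℝ) / 2) *
      ‖∑ n ∈ SZ, a n / B * pw n (-(1 / 2)) * F (n * (x / y))‖ ≤ D) :
    ‖∑ n ∈ SZ, ∑ x ∈ SX, ∑ y ∈ SY, a n * pw n (-(1 / 2)) * (c x * pw x (-(1 / 2))) *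
      (d y * pw y (-(1 / 2))) * F ((n : ℝ) * x / y)‖ ≤ B ^ 3 * D := by
  have hB' : (B : ℂ) ≠ 0 := by exact_mod_cast hB.ne'
  have e : ∑ n ∈ SZ, ∑ x ∈ SX, ∑ y ∈ SY, a n * pw n (-(1 / 2)) * (c x * pw x (-(1 / 2))) *
      (d y * pw y (-(1 / 2))) * F ((n : ℝ) * x / y) =
      ∑ x ∈ SX, ∑ y ∈ SY, (c x * pw x (-(1 / 2))) * (d y * pw y (-(1 / 2))) * B *
        ∑ n ∈ SZ, a n / B * pw n (-(1 / 2)) * F (n * (x / y)) := by
    rw [sum_comm]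
    refine sum_congr rfl fun x _ => ?_
    rw [sum_comm]
    refine sum_congr rfl fun y _ => ?_
    rw [mul_sum]
    refine sum_congr rfl fun n _ => ?_
    rw [mul_div_assoc]
    field_simp
  have hre : (-(1 / 2) : ℂ).re = -(1 : ℝ) / 2 := by norm_num
  rw [e]
  calc _ ≤ ∑ x ∈ SX, ∑ y ∈ SY, B ^ 3 * (((x : ℝ) * y) ^ (-(1 : ℝ) / 2) *
        ‖∑ n ∈ SZ, a n / B * pw n (-(1 / 2)) * F (n * (x / y))‖) := by
        refine (norm_sum_le _ _).trans (sum_le_sum fun x hx => ?_)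
        refine (norm_sum_le _ _).trans (sum_le_sum fun y hy => ?_)
        have hx1 : 1 ≤ x := hX.trans (mem_Ico.1 (hSX hx)).1
        have hy1 : 1 ≤ y := hY.trans (mem_Ico.1 (hSY hy)).1
        have hx0 : (0 : ℝ) < x := by exact_mod_cast hx1
        have hy0 : (0 : ℝ) < y := by exact_mod_cast hy1
        rw [norm_mul, norm_mul, norm_mul, norm_mul, norm_mul, norm_pw hx0, norm_pw hy0, hre,
          Real.mul_rpow hx0.le hy0.le, Complex.norm_real, Real.norm_of_nonneg hB.le]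
        have h1 := hc x hx1
        have h2 := hd y hy1
        calc _ ≤ B * (x : ℝ) ^ (-(1 : ℝ) / 2) * (B * (y : ℝ) ^ (-(1 : ℝ) / 2)) * B *
            ‖∑ n ∈ SZ, a n / B * pw n (-(1 / 2)) * F (n * (x / y))‖ := by gcongr
          _ = _ := by ring
    _ ≤ ∑ x ∈ Ico X (2 * X), ∑ y ∈ Ico Y (2 * Y), B ^ 3 * (((x : ℝ) * y) ^ (-(1 : ℝ) / 2) *
        ‖∑ n ∈ SZ, a n / B * pw n (-(1 / 2)) * F (n * (x / y))‖) := by
        refine (sum_le_sum fun x _ => sum_le_sum_of_subset_of_nonneg hSY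
          fun y _ _ => by positivity).trans ?_
        exact sum_le_sum_of_subset_of_nonneg hSX fun x _ _ => sum_nonneg fun y _ => by positivity
    _ ≤ B ^ 3 * D := by
        simp only [← mul_sum]
        gcongr

theorem qs_size {η : ℝ} (hη : 0 < η) : ∃ C : ℝ, 0 < C ∧ ∀ (ε : ℝ) (M : ℕ), 0 < ε → ε ≤ 1 / 2 →
    (M : ℝ) * ε ≤ 1 → (M.size : ℝ) ≤ C * ε ^ (-η) := by
  obtain ⟨C, hC, h⟩ := log_le_rpow hη
  refine ⟨2 * C, by linarith, fun ε M h0 h1 hM => ?_⟩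
  have hi : 1 ≤ ε⁻¹ := (one_le_inv₀ h0).2 (by linarith)
  have h2 := h ε⁻¹ hi
  rw [Real.inv_rpow h0.le, ← Real.rpow_neg h0.le] at h2
  have h3 : 0 ≤ Real.log ε⁻¹ := Real.log_nonneg hi
  rcases hs : M.size with _ | s
  · simp only [Nat.cast_zero]
    positivity
  · have h4 : 2 ^ s ≤ M := Nat.lt_size.1 (by omega)
    have h5 : (2 : ℝ) ^ s ≤ ε⁻¹ := by
      have : ((2 ^ s : ℕ) : ℝ) ≤ M := by exact_mod_cast h4
      push_cast at this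
      rw [← one_div, le_div_iff₀ h0]
      nlinarith
    have h6 := Real.log_le_log (by positivity) h5
    rw [Real.log_pow] at h6
    have h7 := Real.log_two_gt_d9
    have h8 : (0 : ℝ) ≤ s := Nat.cast_nonneg s
    push_cast
    nlinarith

theorem qs_norm {B : ℝ} (hB : 0 < B) {a : ℕ → ℂ}
    (ha : ∀ n, 1 ≤ n → ‖a n‖ ≤ B ∧ ‖a (n + 1) - a n‖ ≤ B / n) (n : ℕ) (hn : 1 ≤ n) :
    ‖a n / B‖ ≤ 1 ∧ ‖a (n + 1) / B - a n / B‖ ≤ 1 / n := by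
  obtain ⟨h1, h2⟩ := ha n hn
  rw [← sub_div, norm_div, norm_div, Complex.norm_real, Real.norm_of_nonneg hB.le,
    div_le_one hB, div_le_iff₀ hB]
  exact ⟨h1, h2.trans_eq (by ring)⟩

theorem stQs (hQ : StQb) : StQs := by
  intro η b1 hη
  have hη6 : 0 < η / 6 := by positivity
  obtain ⟨C, hC, hq⟩ := hQ (η / 6) b1 hη6
  obtain ⟨K, hK, hs⟩ := qs_size hη6
  refine ⟨K ^ 3 * C, by positivity, ?_⟩
  intro b ε u B M1 M2 M3 a1 a2 a3 hb hb1 h0 h1 hu hB hM1 hM2 hM3 ha1 ha2 ha3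
  have hM3' : (M3 : ℝ) * ε ≤ 1 := by
    rcases Nat.eq_zero_or_pos M3 with h | h
    · simp [h]
    · have : (1 : ℝ) ≤ M3 := by exact_mod_cast h
      nlinarith [mul_nonneg (sub_nonneg.2 this) (mul_nonneg (by linarith : (0 : ℝ) ≤ M3) h0.le)]
  set D : ℝ := C * (1 + |b.im|) * ε ^ (-(η / 2)) * ε ^ (-(b.re + 5 / 16)) *
    (M3 : ℝ) ^ ((3 : ℝ) / 8) with hD
  have hle : ∀ {M N : ℕ}, (M : ℝ) * ε ≤ 1 → N ≤ M → (N : ℝ) ≤ ε⁻¹ := by
    intro M N hM hN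
    have : (N : ℝ) ≤ M := by exact_mod_cast hN
    rw [← one_div, le_div_iff₀ h0]
    nlinarith
  have hq' : ∀ (Z X Y q : ℕ) (a : ℕ → ℂ), 1 ≤ X → X ≤ Z → 1 ≤ Y → (Z : ℝ) ≤ ε⁻¹ → Y ≤ M3 →
      q ≤ 2 * Z → (∀ n, 1 ≤ n → ‖a n‖ ≤ B ∧ ‖a (n + 1) - a n‖ ≤ B / n) →
      ∑ x ∈ Ico X (2 * X), ∑ y ∈ Ico Y (2 * Y), ((x : ℝ) * y) ^ (-(1 : ℝ) / 2) *
        ‖∑ n ∈ Ico Z q, a n / B * pw n (-(1 / 2)) *
          MM 1 b ε u (Real.log (n * (x / y)))‖ ≤ D := by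
    intro Z X Y q a hX hXZ hY hZ hY3 hqZ ha
    have hY' : (Y : ℝ) ≤ M3 := by exact_mod_cast hY3
    have hY2 : (Y : ℝ) ^ 2 * ε ≤ 1 := le_trans (by gcongr) hM3
    refine (hq b ε u Z X Y q (fun n => a n / B) hb hb1 h0 h1 hu hX hXZ hY hY2 hqZ
      (qs_norm hB ha)).trans ?_
    have hX' : (X : ℝ) ≤ ε⁻¹ := le_trans (by exact_mod_cast hXZ) hZ
    have hY'' : (Y : ℝ) ≤ ε⁻¹ := hle hM3' hY3
    have h3 : ((Z : ℝ) * X * Y) ^ (η / 6) ≤ ε ^ (-(η / 2)) := by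
      calc _ ≤ (ε⁻¹ * ε⁻¹ * ε⁻¹) ^ (η / 6) := by gcongr
        _ = _ := by
          rw [show ε⁻¹ * ε⁻¹ * ε⁻¹ = ε ^ (-(3 : ℝ)) by
            rw [Real.rpow_neg h0.le, show (3 : ℝ) = (3 : ℕ) by norm_num, Real.rpow_natCast]
            field_simp, ← Real.rpow_mul h0.le]
          congr 1
          ring
    rw [hD]
    gcongr
  have main := qs_split (fun n x y => a1 n * pw n (-(1 / 2)) * (a2 x * pw x (-(1 / 2))) *
    (a3 y * pw y (-(1 / 2))) * MM 1 b ε u (Real.log ((n : ℝ) * x / y))) M1 M2 M3 (B ^ 3 * D) (by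
      intro i j k hi hj hk
      have sub : ∀ M l : ℕ, qs_blk M l ⊆ Ico (2 ^ l) (2 * 2 ^ l) := fun M l =>
        Ico_subset_Ico_right (min_le_left _ _)
      rcases le_total (2 ^ j) (2 ^ i) with h | h
      · exact qs_block (fun r => MM 1 b ε u (Real.log r)) B D hB _ _ Nat.one_le_two_pow
          Nat.one_le_two_pow _ _ _ (sub M2 j) (sub M3 k) a1 a2 a3 (fun n hn => (ha2 n hn).1) ha3
          (hq' _ _ _ _ a1 Nat.one_le_two_pow h Nat.one_le_two_pow (hle hM1 hi) hk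
            (min_le_left _ _) ha1)
      · have := qs_block (fun r => MM 1 b ε u (Real.log r)) B D hB _ _ Nat.one_le_two_pow
          Nat.one_le_two_pow _ _ _ (sub M1 i) (sub M3 k) a2 a1 a3 (fun n hn => (ha1 n hn).1) ha3
          (hq' _ _ _ _ a2 Nat.one_le_two_pow h Nat.one_le_two_pow (hle hM2 hj) hk
            (min_le_left (2 * 2 ^ j) (M2 + 1)) ha2)
        rw [sum_comm]
        refine le_of_eq_of_le ?_ this
        congr 1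
        refine sum_congr rfl fun x _ => sum_congr rfl fun n _ => sum_congr rfl fun y _ => ?_
        rw [mul_comm (n : ℝ) (x : ℝ)]
        ring)
  refine main.trans ?_
  have s1 := hs ε M1 h0 h1 hM1
  have s2 := hs ε M2 h0 h1 hM2
  have s3 := hs ε M3 h0 h1 hM3'
  have e : ε ^ (-(b.re + 5 / 16 + η)) = ε ^ (-(η / 6)) * ε ^ (-(η / 6)) * ε ^ (-(η / 6)) *
      ε ^ (-(η / 2)) * ε ^ (-(b.re + 5 / 16)) := by
    rw [← Real.rpow_add h0, ← Real.rpow_add h0, ← Real.rpow_add h0, ← Real.rpow_add h0]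
    congr 1
    ring
  have hD0 : 0 ≤ D := by positivity
  calc _ ≤ K * ε ^ (-(η / 6)) * (K * ε ^ (-(η / 6)) * (K * ε ^ (-(η / 6)) * (B ^ 3 * D))) := by
        gcongr
    _ = _ := by rw [e, hD]; ring

end Pool.Agent.CubZ
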