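import Pool.Agent.Lib.MP_d79f69_nt.Z3.Basic

open Matrix MeasureTheory Complex Finset

namespace Pool.Agent.CubZ

open Pool.Agent.CubH

theorem sz_sum (hV1 : StV1) : ∃ C : ℝ, 0 < C ∧ ∀ (x : ℝ) (X : ℕ), 0 < x →
    ∑ n ∈ Icc 1 X, (n : ℝ) ^ (-(1 : ℝ) / 2) * ‖VV ((n / x : ℝ) : ℂ)‖ ≤ C * x ^ ((3 : ℝ) / 5) := by
  obtain ⟨C, hC, h⟩ := hV1.1 (3 / 5) (by norm_num)
  have hs : Summable fun n : ℕ => (n : ℝ) ^ (-(11 : ℝ) / 10) :=
    Real.summable_nat_rpow.2 (by norm_num)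
  have hT : 0 ≤ ∑' n : ℕ, (n : ℝ) ^ (-(11 : ℝ) / 10) := tsum_nonneg fun n => by positivity
  refine ⟨C * (1 + ∑' n : ℕ, (n : ℝ) ^ (-(11 : ℝ) / 10)), by positivity, fun x X hx => ?_⟩
  have hx3 : 0 < x ^ ((3 : ℝ) / 5) := Real.rpow_pos_of_pos hx _
  have h1 : ∀ n ∈ Icc 1 X, (n : ℝ) ^ (-(1 : ℝ) / 2) * ‖VV ((n / x : ℝ) : ℂ)‖ ≤
      C * x ^ ((3 : ℝ) / 5) * (n : ℝ) ^ (-(11 : ℝ) / 10) := by
    intro n hn
    have hn0 : (0 : ℝ) < n := by exact_mod_cast (Finset.mem_Icc.1 hn).1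
    have hq : 0 < (n : ℝ) / x := div_pos hn0 hx
    have h2 := h ((n / x : ℝ) : ℂ) (by rw [Complex.ofReal_re]; exact hq)
    rw [Complex.norm_real, Real.norm_of_nonneg hq.le] at h2
    have e1 : ((n : ℝ) / x) ^ (-((3 : ℝ) / 5)) =
        (n : ℝ) ^ (-((3 : ℝ) / 5)) * x ^ ((3 : ℝ) / 5) := by
      rw [Real.div_rpow hn0.le hx.le, Real.rpow_neg hx.le, div_inv_eq_mul]
    have e2 : (n : ℝ) ^ (-(11 : ℝ) / 10) =
        (n : ℝ) ^ (-(1 : ℝ) / 2) * (n : ℝ) ^ (-((3 : ℝ) / 5)) := by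
      rw [← Real.rpow_add hn0]; congr 1; norm_num
    rw [e1] at h2
    rw [e2]
    calc _ ≤ (n : ℝ) ^ (-(1 : ℝ) / 2) * (C * ((n : ℝ) ^ (-((3 : ℝ) / 5)) * x ^ ((3 : ℝ) / 5))) :=
          mul_le_mul_of_nonneg_left h2 (by positivity)
      _ = _ := by ring
  refine (Finset.sum_le_sum h1).trans ?_
  rw [← Finset.mul_sum]
  have h3 : ∑ n ∈ Icc 1 X, (n : ℝ) ^ (-(11 : ℝ) / 10) ≤ ∑' n : ℕ, (n : ℝ) ^ (-(11 : ℝ) / 10) :=
    hs.sum_le_tsum _ fun n _ => by positivity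
  calc _ ≤ C * x ^ ((3 : ℝ) / 5) * (1 + ∑' n : ℕ, (n : ℝ) ^ (-(11 : ℝ) / 10)) :=
        mul_le_mul_of_nonneg_left (by linarith) (by positivity)
    _ = _ := by ring

theorem sz_DH (α x t : ℝ) (X : ℕ) : ‖DH α x X t‖ ≤
    ∑ n ∈ Icc 1 X, (n : ℝ) ^ (-(1 : ℝ) / 2) * ‖VV ((n / x : ℝ) : ℂ)‖ := by
  unfold DH
  refine (norm_sum_le _ _).trans (le_of_eq (Finset.sum_congr rfl fun n hn => ?_))
  have hn0 : (0 : ℝ) < n := by exact_mod_cast (Finset.mem_Icc.1 hn).1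
  rw [norm_mul, norm_pw hn0]
  congr 2
  simp
  norm_num

theorem sz_EH (α x t : ℝ) (X : ℕ) : ‖EH α x X t‖ ≤
    ∑ n ∈ Icc 1 X, (n : ℝ) ^ (-(1 : ℝ) / 2) *
      ‖VV ((n / (t / (2 * Real.pi * x)) : ℝ) : ℂ)‖ := by
  unfold EH
  refine (norm_sum_le _ _).trans (le_of_eq (Finset.sum_congr rfl fun n hn => ?_))
  have hn0 : (0 : ℝ) < n := by exact_mod_cast (Finset.mem_Icc.1 hn).1
  have e : (n : ℝ) / (t / (2 * Real.pi * x)) = 2 * Real.pi * x * n / t := by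
    rw [div_div_eq_mul_div]; ring
  rw [norm_mul, norm_pw hn0, e]
  congr 2
  simp
  norm_num

theorem sz_contD (α x : ℝ) (X : ℕ) : Continuous (DH α x X) := by
  unfold DH
  refine continuous_finsetSum _ fun n _ => Continuous.mul ?_ continuous_const
  exact (continuous_pw _).comp (by fun_prop)

theorem sz_contE (hV1 : StV1) (α x : ℝ) (X : ℕ) (hx : 0 < x) :
    ContinuousOn (EH α x X) (Set.Ioi 0) := by
  unfold EH
  refine continuousOn_finsetSum _ fun n hn => ContinuousOn.mul ?_ ?_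
  · exact ((continuous_pw _).comp (by fun_prop)).continuousOn
  · have hn0 : (0 : ℝ) < n := by exact_mod_cast (Finset.mem_Icc.1 hn).1
    have hp := Real.pi_pos
    refine hV1.2.1.continuousOn.comp
      (f := fun t : ℝ => ((2 * Real.pi * x * n / t : ℝ) : ℂ)) ?_ fun t ht => ?_
    · refine Complex.continuous_ofReal.comp_continuousOn ?_
      exact continuousOn_const.div continuousOn_id fun t ht => ne_of_gt ht
    · have ht0 : 0 < t := ht
      show 0 < (((2 * Real.pi * x * n / t : ℝ) : ℂ)).re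
      rw [Complex.ofReal_re]
      positivity

theorem sz_contW (w : ℂ) :
    ContinuousOn (fun t : ℝ => pw (t / (2 * Real.pi)) w) (Set.Ioi 0) := by
  have hp := Real.pi_pos
  refine (continuousOn_pw w).comp (f := fun t : ℝ => t / (2 * Real.pi)) (by fun_prop)
    fun t ht => ?_
  have ht0 : 0 < t := ht
  show 0 < t / (2 * Real.pi)
  positivity

theorem stSz (hV1 : StV1) : StSz := by
  obtain ⟨C, hC, h⟩ := sz_sum hV1
  have hp := Real.pi_pos
  refine ⟨⟨C, hC, fun x X hx => ⟨h x X hx, fun α t ht => ?_⟩⟩, fun α x X hx => ?_⟩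
  · have hD : ‖DH α x X t‖ ≤ C * x ^ ((3 : ℝ) / 5) := (sz_DH α x t X).trans (h x X hx)
    have hE : ‖EH α x X t‖ ≤ C * (t / x) ^ ((3 : ℝ) / 5) := by
      refine (sz_EH α x t X).trans ((h _ X (by positivity)).trans ?_)
      refine mul_le_mul_of_nonneg_left (Real.rpow_le_rpow (by positivity) ?_ (by norm_num)) hC.le
      refine div_le_div_of_nonneg_left ht.le hx ?_
      nlinarith [Real.pi_gt_three]
    have hq : 0 < t / (2 * Real.pi) := by positivity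
    have a1 : 0 ≤ C * x ^ ((3 : ℝ) / 5) := by positivity
    have a2 : 0 ≤ C * (t / x) ^ ((3 : ℝ) / 5) := by positivity
    refine ⟨hD, hE, ?_, ?_⟩
    · unfold PP mm
      have e : ((α : ℂ) / 2 * I).re = 0 := by simp
      rw [norm_mul, norm_mul, norm_ei, norm_pw hq, e, Real.rpow_zero, mul_add]
      linarith
    · unfold QQ mm
      have e : (-((α : ℂ) / 2 * I)).re = 0 := by simp
      rw [norm_mul, norm_mul, norm_ei, norm_pw hq, e, Real.rpow_zero, mul_add]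
      linarith
  · refine ⟨sz_contD α x X, sz_contE hV1 α x X hx, ?_, ?_⟩
    · unfold PP
      exact ((continuous_ei.comp_continuousOn continuousOn_tht).mul (sz_contW _)).mul
        (sz_contD α x X).continuousOn
    · unfold QQ
      exact ((continuous_ei.comp_continuousOn continuousOn_tht.neg).mul (sz_contW _)).mul
        (sz_contE hV1 α x X hx)

end Pool.Agent.CubZ
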