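import Pool.Agent.Lib.MP_d79f69_nt.Z3.Basic
import Pool.Agent.Lib.MP_d79f69_nt.PartA
import Pool.Agent.Lib.MP_d79f69_nt.PartB

open Matrix MeasureTheory Complex Finset

namespace Pool.Agent.CubZ

open Pool.Agent.CubH

noncomputable def t3g_b (A : ℕ) (α : V3) : ℂ := A + ((α 0 + α 1 + α 2) / 2 : ℝ) * I + 1 / 2

noncomputable def t3g_be (A : ℕ) (α : V3) (i : Fin 3) : ℂ :=
  2 / 3 * t3g_b A α - (1 / 2 + α i * I)

noncomputable def t3g_G (A : ℕ) (α : V3) (x s : ℝ) (j : V3) (p : C3) : ℂ :=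
  (∏ i, cexp (t3g_be A α i * (Complex.log (p i) + j i)) *
    VV (((Real.exp (j i) / x : ℝ) : ℂ) * p i)) * cexp (-(s * phc p))

noncomputable def t3g_Psi (y : V3) : ℂ := ((∏ i, partPsi (y i) : ℝ) : ℂ)

theorem t3g_be_re (A : ℕ) (α : V3) (i : Fin 3) : (t3g_be A α i).re = 2 * A / 3 - 1 / 6 := by
  have e : t3g_be A α i = ((2 * A / 3 - 1 / 6 : ℝ) : ℂ) +
      (((α 0 + α 1 + α 2) / 3 - α i : ℝ) : ℂ) * I := by
    unfold t3g_be t3g_b
    push_cast
    ring
  rw [e, Complex.add_re, Complex.ofReal_re, Complex.re_ofReal_mul, Complex.I_re, mul_zero, add_zero]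

theorem t3g_Psi_contDiff : ContDiff ℝ (⊤ : ℕ∞) t3g_Psi := by
  have hc : ContDiff ℝ (⊤ : ℕ∞) (fun x : ℝ => (x : ℂ)) := Complex.ofRealCLM.contDiff
  refine hc.comp (contDiff_prod fun i _ => partPsi_contDiff.comp ?_)
  exact contDiff_apply ℝ ℝ i

theorem t3g_Psi_supp (y : V3) (h : t3g_Psi y ≠ 0) (i : Fin 3) : |y i| ≤ 1 := by
  refine partPsi_abs_le fun h0 => h ?_
  rw [t3g_Psi, Finset.prod_eq_zero (Finset.mem_univ i) h0, Complex.ofReal_zero]

theorem t3g_diff (hV1 : StV1) (A : ℕ) (α : V3) {x : ℝ} (hx : 0 < x) (s : ℝ) (j : V3) :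
    DifferentiableOn ℂ (t3g_G A α x s j) {p | ∀ i, 0 < (p i).re} := by
  have hl : ∀ i, DifferentiableOn ℂ (fun p : C3 => Complex.log (p i)) {p | ∀ i, 0 < (p i).re} :=
    fun i p hp => ((differentiableAt_apply i p).clog (Or.inl (hp i))).differentiableWithinAt
  have hv : ∀ i, DifferentiableOn ℂ (fun p : C3 => VV (((Real.exp (j i) / x : ℝ) : ℂ) * p i))
      {p | ∀ i, 0 < (p i).re} := by
    intro i
    refine hV1.2.1.comp (f := fun p : C3 => ((Real.exp (j i) / x : ℝ) : ℂ) * p i) (by fun_prop) ?_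
    intro p hp
    simp only [Set.mem_ofPred_eq, Complex.re_ofReal_mul]
    exact mul_pos (by positivity) (hp i)
  unfold t3g_G phc
  refine DifferentiableOn.mul ?_ ?_
  · simp only [Fin.prod_univ_three]
    exact (((((hl 0).add_const _).const_mul _).cexp.mul (hv 0)).mul
      ((((hl 1).add_const _).const_mul _).cexp.mul (hv 1))).mul
      ((((hl 2).add_const _).const_mul _).cexp.mul (hv 2))
  · exact ((((((hl 0).add (hl 1)).add (hl 2)).const_mul _).cexp.const_mul _).neg).cexp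

theorem t3g_log_bd {R : ℝ} (hR : 1 ≤ R) {x : V3} {w : C3} (hx : Dr (2 * R) x)
    (hw : ‖w‖ ≤ 1 / (4 * R)) (i : Fin 3) :
    ‖Complex.log ((cv x + w) i)‖ ≤ Real.log (4 * R) + Real.pi := by
  have hR0 : 0 < R := by linarith
  have h1 : ‖w i‖ ≤ 1 / (4 * R) := (norm_le_pi_norm w i).trans hw
  have h2 := (hx i).1
  have h3 := (hx i).2
  have e1 : 1 / (2 * R) = 2 * (1 / (4 * R)) := by field_simp; ring
  have h4 : 0 < 1 / (4 * R) := by positivity
  have h5 : 1 / (4 * R) ≤ 1 := by rw [div_le_one (by positivity)]; linarith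
  have hxi : ‖(x i : ℂ)‖ = x i := by
    rw [Complex.norm_real, Real.norm_of_nonneg (by linarith)]
  have h6 : 1 / (4 * R) ≤ ‖(cv x + w) i‖ := by
    have := norm_sub_norm_le (x i : ℂ) (-(w i))
    simp only [sub_neg_eq_add, norm_neg] at this
    simp only [Pi.add_apply, cv]
    linarith
  have h7 : ‖(cv x + w) i‖ ≤ 4 * R := by
    have := norm_add_le (x i : ℂ) (w i)
    simp only [Pi.add_apply, cv]
    linarith
  have h8 : |Real.log ‖(cv x + w) i‖| ≤ Real.log (4 * R) := by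
    rw [abs_le]
    constructor
    · rw [← Real.log_inv, ← one_div]
      exact Real.log_le_log h4 h6
    · exact Real.log_le_log (h4.trans_le h6) h7
  refine (Complex.norm_le_abs_re_add_abs_im _).trans ?_
  rw [Complex.log_re, Complex.log_im]
  exact add_le_add h8 (Complex.abs_arg_le_pi _)

theorem t3g_fac {A : ℕ} {α : V3} {L C : ℝ} {z v : ℂ} (i : Fin 3) (t : ℝ) (hz : ‖z‖ ≤ L)
    (hv : ‖v‖ ≤ C) : ‖cexp (t3g_be A α i * (z + t)) * v‖ ≤
      Real.exp (‖t3g_be A α i‖ * L) * C * Real.exp ((2 * A / 3 - 1 / 6) * t) := by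
  rw [norm_mul, Complex.norm_exp, mul_add, Complex.add_re, Complex.re_mul_ofReal, t3g_be_re,
    Real.exp_add]
  have h1 : (t3g_be A α i * z).re ≤ ‖t3g_be A α i‖ * L :=
    (Complex.re_le_norm _).trans (by rw [norm_mul]; gcongr)
  have h2 : 0 ≤ C := (norm_nonneg _).trans hv
  calc _ ≤ Real.exp (‖t3g_be A α i‖ * L) * Real.exp ((2 * A / 3 - 1 / 6) * t) * C := by gcongr
    _ = _ := by ring

theorem t3g_term (A : ℕ) (α : V3) (ε u : ℝ) (j : V3) (n : Fin 3 → ℕ) (hn : ∀ i, 1 ≤ n i) :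
    t3g_G A α (xe ε) ((om 3 ε u).re * Real.exp (2 / 3 * (j 0 + j 1 + j 2))) j
      (cv (zr (fun i => (n i : ℤ)) / fun i => Real.exp (j i))) *
      ee (-(om 3 ε u).im / (2 * Real.pi) * ph (zr (fun i => (n i : ℤ)))) = T3 A α ε u n := by
  have h0 : ∀ i, (0 : ℝ) < n i := fun i => by exact_mod_cast hn i
  have hc : ∀ i, cv (zr (fun i => (n i : ℤ)) / fun i => Real.exp (j i)) i =
      (((n i : ℝ) / Real.exp (j i) : ℝ) : ℂ) := fun i => by
    simp only [cv, zr, Pi.div_apply, Int.cast_natCast]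
  have hl : ∀ i, Complex.log (((n i : ℝ) / Real.exp (j i) : ℝ) : ℂ) =
      ((Real.log (n i) : ℝ) : ℂ) - j i := fun i => by
    rw [← Complex.ofReal_log (by have := h0 i; positivity),
      Real.log_div (h0 i).ne' (Real.exp_pos _).ne', Real.log_exp]
    push_cast
    ring
  have hv : ∀ i, ((Real.exp (j i) / xe ε : ℝ) : ℂ) * (((n i : ℝ) / Real.exp (j i) : ℝ) : ℂ) =
      (((n i : ℝ) / xe ε : ℝ) : ℂ) := fun i => by
    rw [← Complex.ofReal_mul]
    congr 1
    have := Real.exp_pos (j i)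
    field_simp
  have hp : ph (zr (fun i => (n i : ℤ))) = Real.exp (2 * (∑ i, Real.log (n i)) / 3) := by
    simp only [ph, zr, Int.cast_natCast, Fin.sum_univ_three]
    have a0 := h0 0
    have a1 := h0 1
    have a2 := h0 2
    rw [Real.rpow_def_of_pos (by positivity), Real.log_mul (by positivity) a2.ne',
      Real.log_mul a0.ne' a1.ne']
    congr 1
    ring
  have hπ : (Real.pi : ℂ) ≠ 0 := by exact_mod_cast Real.pi_pos.ne'
  have hE : ((Real.exp (2 / 3 * (j 0 + j 1 + j 2)) : ℝ) : ℂ) *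
      cexp (2 / 3 * ((((Real.log (n 0) : ℝ) : ℂ) - j 0) + (((Real.log (n 1) : ℝ) : ℂ) - j 1) +
        (((Real.log (n 2) : ℝ) : ℂ) - j 2))) =
      ((Real.exp (2 * (∑ i, Real.log (n i)) / 3) : ℝ) : ℂ) := by
    rw [Complex.ofReal_exp, Complex.ofReal_exp, ← Complex.exp_add, Fin.sum_univ_three]
    congr 1
    push_cast
    ring
  unfold t3g_G T3 MM phc ee pw
  simp only [hc, hl, hv, hp]
  rw [Complex.ofReal_mul, mul_assoc ((om 3 ε u).re : ℂ), hE]
  generalize ((Real.exp (2 * (∑ i, Real.log (n i)) / 3) : ℝ)) = E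
  simp only [Finset.prod_mul_distrib, Fin.prod_univ_three, Fin.sum_univ_three, ← Complex.exp_add]
  rw [mul_right_comm _ (_ * _ * _), mul_right_comm _ (_ * _ * _), mul_right_comm _ (_ * _ * _),
    ← Complex.exp_add, ← Complex.exp_add, ← Complex.exp_add]
  congr 2
  have hom := Complex.re_add_im (om 3 ε u)
  unfold t3g_be t3g_b
  push_cast
  field_simp
  linear_combination (-(6 : ℂ) * E) * hom

theorem st3g (hB : StBox) (hW : StWt) (hV1 : StV1) (h5 : SBa) (h6 : STc) : St3g := by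
  intro A α hA
  obtain ⟨N, hBox⟩ := hB
  have hR : (1 : ℝ) ≤ Real.exp 1 := Real.one_le_exp zero_le_one
  obtain ⟨κ0, m, hκ0, -, hm, hD⟩ := part_disc h5 h6 (Q := 2 * Real.exp 1) (by linarith)
  obtain ⟨C1, hC1, hWt⟩ := hW N (Real.exp 1) (min κ0 (1 / (4 * Real.exp 1))) (partLog t3g_Psi) hR
    (by positivity) (min_le_right _ _) (partLog_contDiff t3g_Psi_contDiff t3g_Psi_supp)
    (partLog_compact t3g_Psi_supp) (fun x hx i => partLog_supp t3g_Psi_supp hx i)
  obtain ⟨C2, hC2, hBx⟩ := hBox (Real.exp 1) (3 / 4 * Real.exp (-1)) (3 / 2 * Real.exp 1) hR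
    (by positivity)
  obtain ⟨Cv, hCv, hVV⟩ := hV1.1 0 le_rfl
  obtain ⟨C4, hC4, hsup⟩ := sup_pow_exp ((A : ℝ) + 1)
  set L := Real.log (4 * Real.exp 1) + Real.pi with hL
  set K := ∏ i, Real.exp (‖t3g_be A α i‖ * L) * Cv with hK
  have hK0 : 0 < K := Finset.prod_pos fun i _ => by positivity
  refine ⟨C2 * C1 * K * C4 * (m / 2) ^ (-((A : ℝ) + 1 - 1 / 200)), by positivity,
    fun ε u Xm j h0 h1 hu hX hj => ?_⟩
  have hxe : 0 < xe ε := lt_of_lt_of_le one_pos (one_le_xe h0 h1)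
  set jr : V3 := fun i => (j i : ℝ) with hjr
  set J := jr 0 + jr 1 + jr 2 with hJ
  set y := Real.exp (2 / 3 * J) with hy
  have hy0 : 0 < y := Real.exp_pos _
  have hom := om_re_ge (k := 3) (by norm_num) h0 h1 hu
  set s := (om 3 ε u).re * y with hs
  have hs0 : 0 ≤ s := mul_nonneg (by linarith) hy0.le
  set A0 := K * Real.exp ((2 * A / 3 - 1 / 6) * J) * Real.exp (-(m / 2 * ε * y)) with hA0
  have hG : ∀ (x : V3) (w : C3), Dr (2 * Real.exp 1) x → ‖w‖ ≤ min κ0 (1 / (4 * Real.exp 1)) →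
      ‖t3g_G A α (xe ε) s jr (cv x + w)‖ ≤ A0 := by
    intro x w hx hw
    obtain ⟨a1, a2⟩ := hD x w hx (hw.trans (min_le_left _ _))
    have a3 := a2 (s : ℂ) (by
      rw [Complex.norm_real, Real.norm_of_nonneg hs0, Complex.ofReal_re]; linarith)
    rw [Complex.ofReal_re] at a3
    have a4 : ‖cexp (-(s * phc (cv x + w)))‖ ≤ Real.exp (-(m / 2 * ε * y)) := by
      rw [Complex.norm_exp, Complex.neg_re]
      refine Real.exp_le_exp.2 (neg_le_neg (le_trans ?_ a3))
      calc m / 2 * ε * y = m * (ε / 2 * y) := by ring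
        _ ≤ _ := mul_le_mul_of_nonneg_left (mul_le_mul_of_nonneg_right hom hy0.le) hm.le
    have a5 : ∀ i, ‖cexp (t3g_be A α i * (Complex.log ((cv x + w) i) + jr i)) *
        VV (((Real.exp (jr i) / xe ε : ℝ) : ℂ) * (cv x + w) i)‖ ≤
        Real.exp (‖t3g_be A α i‖ * L) * Cv * Real.exp ((2 * A / 3 - 1 / 6) * jr i) := by
      intro i
      refine t3g_fac i _ (t3g_log_bd hR hx (hw.trans (min_le_right _ _)) i) ?_
      have := hVV (((Real.exp (jr i) / xe ε : ℝ) : ℂ) * (cv x + w) i) (by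
        rw [Complex.re_ofReal_mul]; exact mul_pos (by positivity) (a1 i))
      rwa [neg_zero, Real.rpow_zero, mul_one] at this
    rw [t3g_G, norm_mul, norm_prod]
    refine mul_le_mul ((Finset.prod_le_prod (fun i _ => norm_nonneg _) fun i _ => a5 i).trans
      (le_of_eq ?_)) a4 (norm_nonneg _) (by positivity)
    rw [Finset.prod_mul_distrib, ← hK, Fin.prod_univ_three, ← Real.exp_add, ← Real.exp_add]
    congr 2
    rw [hJ]
    ring
  have hWW := hWt _ A0 (t3g_diff hV1 A α hxe s jr) hG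
  have hc : 3 / 4 * Real.exp (-1) ≤ |-(om 3 ε u).im / (2 * Real.pi)| ∧
      |-(om 3 ε u).im / (2 * Real.pi)| ≤ 3 / 2 * Real.exp 1 := by
    have hp := Real.pi_pos
    have b1 : 1 / 2 ≤ Real.cos (2 * ε / 3) := by
      have := Real.one_sub_sq_div_two_le_cos (x := 2 * ε / 3)
      nlinarith
    have b2 := Real.cos_le_one (2 * ε / 3)
    have b3 := abs_le.1 hu
    have b4 : Real.exp (-1) ≤ Real.exp (-(2 * u / 3)) := Real.exp_le_exp.2 (by linarith [b3.2])
    have b5 : Real.exp (-(2 * u / 3)) ≤ Real.exp 1 := Real.exp_le_exp.2 (by linarith [b3.1])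
    have b6 : |-(om 3 ε u).im / (2 * Real.pi)| =
        3 / 2 * (Real.exp (-(2 * u / 3)) * Real.cos (2 * ε / 3)) := by
      rw [om_im, neg_div, abs_neg, abs_of_nonneg (by positivity)]
      field_simp
    have b7 := Real.exp_pos (-1)
    have b8 := Real.exp_pos (-(2 * u / 3))
    rw [b6]
    constructor <;> nlinarith
  have hfin := hBx _ Xm _ (fun i => Real.exp (jr i)) _ hc.1 hc.2 hX
    (fun i => ⟨(hj i).1, (hj i).2.1⟩) hWW
  have hinj : Function.Injective (fun (n : Fin 3 → ℕ) (i : Fin 3) => (n i : ℤ)) := by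
    intro a b h
    funext i
    exact Int.ofNat_inj.1 (congrFun h i)
  rw [tsum_eq_sum (s := (Fintype.piFinset (fun _ : Fin 3 => Icc 1 (Xe ε))).image
    (fun (n : Fin 3 → ℕ) (i : Fin 3) => (n i : ℤ))), Finset.sum_image hinj.injOn] at hfin
  swap
  · intro n hn
    by_contra hne
    apply hn
    have b1 := partLog_supp t3g_Psi_supp (mul_ne_zero_iff.1 (mul_ne_zero_iff.1 hne).1).1
    have b2 : ∀ i, 0 < n i ∧ n i ≤ Xe ε := by
      intro i
      have c1 := b1 i
      have c2 := Real.exp_pos (jr i)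
      simp only [Pi.div_apply, zr] at c1
      have c3 : (0 : ℝ) < n i := by
        have : 0 < (n i : ℝ) / Real.exp (jr i) := lt_of_lt_of_le (by positivity) c1.1
        exact (div_pos_iff_of_pos_right c2).1 this
      have c4 : (n i : ℝ) ≤ Xe ε := by
        refine le_trans ?_ (hj i).2.2
        rw [Real.exp_add, mul_comm, ← div_le_iff₀ c2]
        exact c1.2
      exact ⟨by exact_mod_cast c3, by exact_mod_cast c4⟩
    refine Finset.mem_image.2 ⟨fun i => (n i).toNat, Fintype.mem_piFinset.2 fun i => ?_, ?_⟩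
    · have := b2 i
      rw [Finset.mem_Icc]
      omega
    · funext i
      exact Int.toNat_of_nonneg (b2 i).1.le
  refine le_trans (le_of_eq (congrArg _ (Finset.sum_congr rfl fun n hn => ?_))) (hfin.trans ?_)
  · have hn1 : ∀ i, 1 ≤ n i := fun i => (Finset.mem_Icc.1 (Fintype.mem_piFinset.1 hn i)).1
    have hn0 : ∀ i, (0 : ℝ) < n i := fun i => by exact_mod_cast hn1 i
    rw [mul_assoc, t3g_term A α ε u jr n hn1, partLog, if_pos, t3g_Psi]
    · congr 2
      refine Finset.prod_congr rfl fun i _ => ?_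
      simp only [Pi.div_apply, zr, Int.cast_natCast]
      rw [Real.log_div (hn0 i).ne' (Real.exp_pos _).ne', Real.log_exp]
      rfl
    · intro i
      simp only [Pi.div_apply, zr, Int.cast_natCast]
      exact div_pos (hn0 i) (Real.exp_pos _)
  · have hA1 : (1 : ℝ) ≤ A := by exact_mod_cast hA
    have b1 := hsup ((A : ℝ) + 1 - 1 / 200) (m / 2 * ε) y (by linarith) (by linarith)
      (by positivity) hy0
    have b2 : Real.exp ((2 * A / 3 - 1 / 6) * J) *
        (Real.exp (jr 0) * Real.exp (jr 1) * Real.exp (jr 2)) ^ ((5 : ℝ) / 6 - 1 / 300) =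
        y ^ ((A : ℝ) + 1 - 1 / 200) := by
      rw [← Real.exp_add, ← Real.exp_add, ← hJ, hy, ← Real.exp_mul, ← Real.exp_mul, ← Real.exp_add]
      congr 1
      ring
    rw [Real.mul_rpow (by positivity) h0.le] at b1
    rw [show -((A : ℝ) + 1) + 1 / 200 = -((A : ℝ) + 1 - 1 / 200) by ring]
    calc _ = C2 * C1 * K * (y ^ ((A : ℝ) + 1 - 1 / 200) * Real.exp (-(m / 2 * ε * y))) := by
          rw [← b2, hA0]; ring
      _ ≤ C2 * C1 * K * (C4 * ((m / 2) ^ (-((A : ℝ) + 1 - 1 / 200)) *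
          ε ^ (-((A : ℝ) + 1 - 1 / 200)))) := by gcongr
      _ = _ := by ring

end Pool.Agent.CubZ
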