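import Pool.Agent.Lib.MP_d79f69_nt.Z3.Basic
import Pool.Agent.Lib.MP_d79f69_nt.PartA

open Matrix MeasureTheory Complex Finset

namespace Pool.Agent.CubZ

open Pool.Agent.CubH

theorem t3s_MM (A : ℕ) : ∃ C : ℝ, 0 < C ∧ ∀ ε u l τ : ℝ, 0 < ε → ε ≤ 1 / 2 → |u| ≤ 1 →
    ‖MM 3 (A + τ * I + 1 / 2) ε u l‖ ≤ C * Real.exp (-Real.log ε * (A + 1 / 2)) ∧
    ‖MM 3 (A + τ * I + 1 / 2) ε u l‖ ≤ Real.exp (2 * l / 3 * (A + 1 / 2)) := by
  obtain ⟨C, C1, hC⟩ := sup_pow_exp (A + 1 / 2)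
  refine ⟨C * Real.exp (Real.log 2 * (A + 1 / 2)), by positivity, fun ε u l τ h0 h1 hu => ?_⟩
  have h := norm_MM_le (k := 3) (by norm_num) h0 h1 hu (A + τ * I + 1 / 2) l
  have hre : ((A : ℂ) + τ * I + 1 / 2).re = A + 1 / 2 := by simp
  rw [hre] at h
  constructor
  · have h2 := hC (A + 1 / 2) (ε / 2) (Real.exp (2 * l / 3)) (by positivity) le_rfl (by positivity)
      (Real.exp_pos _)
    rw [← Real.exp_mul, ← Real.exp_add, Real.rpow_def_of_pos (by positivity),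
      Real.log_div h0.ne' two_ne_zero] at h2
    rw [mul_assoc, ← Real.exp_add]
    refine (h.trans_eq ?_).trans (h2.trans_eq ?_)
    · rw [sub_eq_add_neg]
    · congr 2; ring
  · refine h.trans (Real.exp_le_exp.2 (sub_le_self _ (by positivity)))

theorem t3s_V (hV1 : StV1) : ∃ C : ℝ, 0 < C ∧ ∀ (n : ℕ) (x a : ℝ), 1 ≤ n → 0 < x →
    ‖pw n (-(1 / 2 + a * I)) * VV ((n / x : ℝ) : ℂ)‖ ≤ C ∧
    ∀ s : ℝ, s ≤ Real.log n - Real.log x →
      ‖pw n (-(1 / 2 + a * I)) * VV ((n / x : ℝ) : ℂ)‖ ≤ C * Real.exp (-(100000 * s)) := by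
  obtain ⟨C0, p0, h0⟩ := hV1.1 0 le_rfl
  obtain ⟨C1, p1, h1⟩ := hV1.1 100000 (by norm_num)
  refine ⟨C0 + C1, by positivity, fun n x a hn hx => ?_⟩
  have n1 : (1 : ℝ) ≤ n := by exact_mod_cast hn
  have n0 : (0 : ℝ) < n := by linarith
  have q0 : 0 < n / x := div_pos n0 hx
  have a1 : ‖pw n (-(1 / 2 + a * I))‖ ≤ 1 := by
    rw [norm_pw n0]
    exact Real.rpow_le_one_of_one_le_of_nonpos n1 (by simp)
  have a2 : ‖pw n (-(1 / 2 + a * I)) * VV ((n / x : ℝ) : ℂ)‖ ≤ ‖VV ((n / x : ℝ) : ℂ)‖ := by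
    rw [norm_mul]
    exact mul_le_of_le_one_left (norm_nonneg _) a1
  have b0 := h0 ((n / x : ℝ) : ℂ) (by rwa [Complex.ofReal_re])
  have b1 := h1 ((n / x : ℝ) : ℂ) (by rwa [Complex.ofReal_re])
  rw [neg_zero, Real.rpow_zero, mul_one] at b0
  rw [Complex.norm_real, Real.norm_of_nonneg q0.le, Real.rpow_def_of_pos q0,
    Real.log_div n0.ne' hx.ne'] at b1
  refine ⟨by linarith, fun s hs => (a2.trans b1).trans ?_⟩
  exact mul_le_mul (by linarith) (Real.exp_le_exp.2 (by linarith)) (Real.exp_pos _).le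
    (by positivity)

theorem t3s_T (hV1 : StV1) (A : ℕ) (α : V3) (hA : 200000 ≤ A) : ∃ C : ℝ, 0 < C ∧
    ∀ (ε u : ℝ) (n : Fin 3 → ℕ), 0 < ε → ε ≤ 1 / 2 → |u| ≤ 1 → (∀ i, 1 ≤ n i) →
      ‖T3 A α ε u n‖ ≤ C * Real.exp (-Real.log ε * (A + 1 / 2)) ∧
      (((∃ i, -Real.log ε * (1 / 2 + 2 / 10000) - 1 ≤ Real.log (n i)) ∨
        ∑ i, Real.log (n i) ≤ -Real.log ε * (3 / 2 - 4 / 10000) + 3) →
        ‖T3 A α ε u n‖ ≤ C * Real.exp (-Real.log ε * (A + 1 / 2 - 10))) := by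
  obtain ⟨CM, pM, hM⟩ := t3s_MM A
  obtain ⟨CV, pV, hV⟩ := t3s_V hV1
  obtain ⟨E, E1⟩ : ∃ E : ℝ, E = Real.exp 100000 := ⟨_, rfl⟩
  have E0 : 1 ≤ E := E1 ▸ Real.one_le_exp (by norm_num)
  obtain ⟨G, G1⟩ : ∃ G : ℝ, G = Real.exp (2 * (A + 1 / 2)) := ⟨_, rfl⟩
  have G0 : 0 < G := G1 ▸ Real.exp_pos _
  have V3 : 0 < CV ^ 3 := by positivity
  refine ⟨CV ^ 3 * (E * CM + G), by positivity, fun ε u n h0 h1 hu hn => ?_⟩
  have x0 : 0 < xe ε := zero_lt_one.trans_le (one_le_xe h0 h1)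
  have lx : Real.log (xe ε) = -Real.log ε * (1 / 2 + 1 / 10000) := by
    rw [xe, Real.log_rpow h0]; ring
  have l0 : 0 ≤ -Real.log ε := neg_nonneg.2 (Real.log_nonpos h0.le (by linarith))
  obtain ⟨m1, m2⟩ := hM ε u (∑ i, Real.log (n i)) ((α 0 + α 1 + α 2) / 2) h0 h1 hu
  have v := fun i => hV (n i) (xe ε) (α i) (hn i) x0
  have p1 : ‖∏ i, pw (n i) (-(1 / 2 + α i * I)) * VV ((n i / xe ε : ℝ) : ℂ)‖ ≤ CV ^ 3 := by
    rw [norm_prod]
    refine (Finset.prod_le_prod (fun i _ => norm_nonneg _) fun i _ => (v i).1).trans_eq ?_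
    simp
  generalize -Real.log ε = L at *
  have c1 : CM ≤ E * CM + G := by nlinarith
  unfold T3
  rw [norm_mul]
  refine ⟨(mul_le_mul p1 m1 (norm_nonneg _) V3.le).trans ?_, ?_⟩
  · rw [mul_assoc]
    exact mul_le_mul_of_nonneg_left (mul_le_mul_of_nonneg_right c1 (Real.exp_pos _).le) V3.le
  rintro (⟨i, hi⟩ | hs)
  · have p2 : ‖∏ i, pw (n i) (-(1 / 2 + α i * I)) * VV ((n i / xe ε : ℝ) : ℂ)‖ ≤
        CV * Real.exp (-(100000 * (L / 10000 - 1))) * CV ^ 2 := by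
      rw [norm_prod, ← Finset.mul_prod_erase _ _ (Finset.mem_univ i)]
      refine mul_le_mul ((v i).2 _ (by linarith)) ?_
        (Finset.prod_nonneg fun _ _ => norm_nonneg _) (by positivity)
      refine (Finset.prod_le_prod (fun i _ => norm_nonneg _) fun i _ => (v i).1).trans_eq ?_
      simp
    refine (mul_le_mul p2 m1 (norm_nonneg _) (by positivity)).trans ?_
    have e1 : Real.exp (-(100000 * (L / 10000 - 1))) * Real.exp (L * (A + 1 / 2)) =
        E * Real.exp (L * (A + 1 / 2 - 10)) := by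
      rw [E1, ← Real.exp_add, ← Real.exp_add]; congr 1; ring
    calc _ = CV ^ 3 * CM * (Real.exp (-(100000 * (L / 10000 - 1))) *
          Real.exp (L * (A + 1 / 2))) := by ring
      _ = CV ^ 3 * (E * CM) * Real.exp (L * (A + 1 / 2 - 10)) := by rw [e1]; ring
      _ ≤ _ := mul_le_mul_of_nonneg_right
          (mul_le_mul_of_nonneg_left (by linarith) V3.le) (Real.exp_pos _).le
  · refine (mul_le_mul p1 m2 (norm_nonneg _) V3.le).trans ?_
    rw [mul_assoc]
    refine mul_le_mul_of_nonneg_left ?_ V3.le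
    have A1 : (200000 : ℝ) ≤ A := by exact_mod_cast hA
    have e1 : Real.exp (2 * (∑ i, Real.log (n i)) / 3 * (A + 1 / 2)) ≤
        G * Real.exp (L * (A + 1 / 2 - 10)) := by
      rw [G1, ← Real.exp_add]
      refine Real.exp_le_exp.2 ?_
      have e2 := mul_le_mul_of_nonneg_right hs (show (0 : ℝ) ≤ A + 1 / 2 by positivity)
      nlinarith [mul_le_mul_of_nonneg_left A1 l0]
    exact e1.trans (mul_le_mul_of_nonneg_right (by nlinarith) (Real.exp_pos _).le)

theorem t3s_sum {t : ℝ} {K : ℕ} (h0 : 0 ≤ t) (h1 : t + 1 ≤ K) :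
    ∑ j ∈ range K, psi (t - j) = 1 := by
  have h := Finset.sum_range_sub' (fun j : ℕ => Real.smoothTransition (t - j + 1)) K
  rw [Nat.cast_zero, sub_zero, Real.smoothTransition.one_of_one_le (by linarith),
    Real.smoothTransition.zero_of_nonpos (x := t - K + 1) (by linarith), sub_zero] at h
  rw [← h]
  refine Finset.sum_congr rfl fun j _ => ?_
  rw [psi]
  congr 2
  push_cast
  ring

theorem st3 (hg : St3g) (hV1 : StV1) : St3 := by
  classical
  intro A α hA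
  obtain ⟨Cg, pg, hg⟩ := hg A α (by omega)
  obtain ⟨CT, pT, hT⟩ := t3s_T hV1 A α hA
  obtain ⟨CL, pL, hL⟩ := log_le_rpow (η := 1 / 1000) (by norm_num)
  refine ⟨10 ^ 6 * CT + (2 * CL) ^ 3 * Cg, by positivity, fun ε u h0 h1 hu => ?_⟩
  have l0 : 0 ≤ -Real.log ε := neg_nonneg.2 (Real.log_nonpos h0.le (by linarith))
  have eL : Real.exp (-Real.log ε) = 1 / ε := by rw [Real.exp_neg, Real.exp_log h0, one_div]
  have X1 : (Xe ε : ℝ) ≤ 1 / ε := by rw [le_div_iff₀ h0]; exact Xe_mul_le h0 h1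
  have X2 := le_two_Xe h0 h1
  have hL1 := hL (1 / ε) (by rw [le_div_iff₀ h0]; linarith)
  rw [Real.rpow_def_of_pos (by positivity), one_div ε, Real.log_inv] at hL1
  have hg1 := fun Xm j => hg ε u Xm j h0 h1 hu
  have hT1 := fun n => hT ε u n h0 h1 hu
  rw [Real.rpow_def_of_pos h0, ← neg_mul_neg (Real.log ε)] at hg1 ⊢
  have l100 : ε ≤ 1 / 100 → 4 ≤ -Real.log ε := fun h => by
    refine Real.exp_le_exp.1 ?_
    rw [eL, le_div_iff₀ h0]
    have e1 : Real.exp 4 = Real.exp 1 ^ 4 := by rw [← Real.exp_nat_mul]; norm_num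
    have e2 : Real.exp 1 ^ 4 ≤ 3 ^ 4 :=
      pow_le_pow_left₀ (Real.exp_pos _).le (by linarith [Real.exp_one_lt_d9]) 4
    nlinarith
  generalize -Real.log ε = L at *
  set S := Fintype.piFinset (fun _ : Fin 3 => Icc 1 (Xe ε)) with hS
  have mS : ∀ n ∈ S, ∀ i, 1 ≤ n i ∧ n i ≤ Xe ε := fun n hn i =>
    Finset.mem_Icc.1 (Fintype.mem_piFinset.1 hn i)
  have cS : (#S : ℝ) ≤ (1 / ε) ^ 3 := by
    have : #S = Xe ε ^ 3 := by simp [hS]
    rw [this]
    push_cast
    exact pow_le_pow_left₀ (Nat.cast_nonneg _) X1 3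
  have q0 : 0 < (2 * CL) ^ 3 * Cg := by positivity
  have E0 := Real.exp_pos (L * -(-((A : ℝ) + 1) + 1 / 60000))
  rcases le_total (1 / 100) ε with h2 | h2
  · have b1 := (norm_sum_le S _).trans (Finset.sum_le_card_nsmul S _ _
      fun n hn => (hT1 n fun i => (mS n hn i).1).1)
    rw [nsmul_eq_mul] at b1
    have b2 : (1 / ε) ^ 3 ≤ 100 ^ 3 :=
      pow_le_pow_left₀ (by positivity) (by rw [div_le_iff₀ h0]; linarith) 3
    have b3 : Real.exp (L * (A + 1 / 2)) ≤ Real.exp (L * -(-((A : ℝ) + 1) + 1 / 60000)) :=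
      Real.exp_le_exp.2 (mul_le_mul_of_nonneg_left (by linarith) l0)
    have b4 := mul_le_mul (cS.trans b2) (mul_le_mul_of_nonneg_left b3 pT.le) (by positivity)
      (by positivity)
    nlinarith [mul_pos q0 E0]
  have l4 := l100 h2
  set K := ⌈L⌉₊ + 1 with hK
  have K1 : L + 1 ≤ K := by rw [hK]; push_cast; linarith [Nat.le_ceil L]
  have K2 : (K : ℝ) ≤ 2 * (1 + L) := by rw [hK]; push_cast; linarith [Nat.ceil_lt_add_one l0]
  set J := Fintype.piFinset (fun _ : Fin 3 => range K) with hJ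
  let w : (Fin 3 → ℕ) → (Fin 3 → ℕ) → ℝ := fun j n => ∏ i, psi (Real.log (n i) - j i)
  have w0 : ∀ j n, 0 ≤ w j n := fun j n => Finset.prod_nonneg fun i _ => partPsi_nonneg _
  have w1 : ∀ n ∈ S, ∑ j ∈ J, w j n = 1 := fun n hn => by
    rw [hJ, ← Finset.prod_univ_sum (fun _ : Fin 3 => range K)
      fun i (j : ℕ) => psi (Real.log (n i) - j)]
    refine Finset.prod_eq_one fun i _ => t3s_sum (Real.log_natCast_nonneg _) ?_
    have a1 : (0 : ℝ) < n i := by exact_mod_cast (mS n hn i).1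
    have a2 : (n i : ℝ) ≤ Xe ε := by exact_mod_cast (mS n hn i).2
    have := (Real.log_le_iff_le_exp a1).2 ((a2.trans X1).trans_eq eL.symm)
    linarith
  let gd : (Fin 3 → ℕ) → Prop := fun j =>
    (∀ i, (j i : ℝ) ≤ L * (1 / 2 + 2 / 10000)) ∧ L * (3 / 2 - 4 / 10000) ≤ ∑ i, (j i : ℝ)
  have split : ∑ n ∈ S, T3 A α ε u n =
      ∑ j ∈ J.filter gd, ∑ n ∈ S, ((w j n : ℝ) : ℂ) * T3 A α ε u n +
      ∑ n ∈ S, ((∑ j ∈ J.filter fun j => ¬ gd j, w j n : ℝ) : ℂ) * T3 A α ε u n := by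
    rw [Finset.sum_comm, ← Finset.sum_add_distrib]
    refine Finset.sum_congr rfl fun n hn => ?_
    rw [← Finset.sum_mul, ← add_mul, ← Complex.ofReal_sum, ← Complex.ofReal_add,
      Finset.sum_filter_add_sum_filter_not, w1 n hn, Complex.ofReal_one, one_mul]
  have good : ‖∑ j ∈ J.filter gd, ∑ n ∈ S, ((w j n : ℝ) : ℂ) * T3 A α ε u n‖ ≤
      (2 * CL) ^ 3 * Cg * Real.exp (L * -(-((A : ℝ) + 1) + 1 / 60000)) := by
    have b1 := (norm_sum_le (J.filter gd) _).trans (Finset.sum_le_card_nsmul _ _ _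
      fun j hj => hg1 (Real.exp (L * (1 / 2 - 8 / 10000))) j (Real.one_le_exp (by positivity))
        fun i => by
          obtain ⟨g1, g2⟩ := (Finset.mem_filter.1 hj).2
          rw [Fin.sum_univ_three] at g2
          refine ⟨Real.exp_le_exp.2 ?_, ?_, ?_⟩
          · have := g1 0; have := g1 1; have := g1 2
            fin_cases i <;> simp only [Fin.zero_eta, Fin.mk_one, Fin.reduceFinMk] <;> linarith
          · rw [← Real.exp_mul]
            exact Real.exp_le_exp.2 (by linarith [g1 i])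
          · have c1 : Real.exp (j i + 1) * Real.exp (9 / 10) ≤ Real.exp L := by
              rw [← Real.exp_add]
              exact Real.exp_le_exp.2 (by linarith [g1 i])
            have c2 : (2 : ℝ) ≤ Real.exp (9 / 10) := by
              have := Real.quadratic_le_exp_of_nonneg (x := 9 / 10) (by norm_num)
              linarith
            nlinarith [Real.exp_pos ((j i : ℝ) + 1)])
    rw [nsmul_eq_mul] at b1
    have b2 : (#(J.filter gd) : ℝ) ≤ (2 * CL * Real.exp (L * (1 / 1000))) ^ 3 := by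
      have c1 : #(J.filter gd) ≤ K ^ 3 := (Finset.card_filter_le _ _).trans_eq (by simp [hJ])
      have c2 : (#(J.filter gd) : ℝ) ≤ (K : ℝ) ^ 3 := by exact_mod_cast c1
      exact c2.trans (pow_le_pow_left₀ (Nat.cast_nonneg _) (by linarith) 3)
    refine b1.trans ((mul_le_mul_of_nonneg_right b2 (by positivity)).trans ?_)
    have b3 : Real.exp (L * (1 / 1000)) ^ 3 * Real.exp (L * -(-((A : ℝ) + 1) + 1 / 200)) ≤
        Real.exp (L * -(-((A : ℝ) + 1) + 1 / 60000)) := by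
      rw [← Real.exp_nat_mul, ← Real.exp_add]
      refine Real.exp_le_exp.2 ?_
      push_cast
      nlinarith
    refine le_trans (le_of_eq ?_) (mul_le_mul_of_nonneg_left b3 q0.le)
    ring
  have bad : ‖∑ n ∈ S, ((∑ j ∈ J.filter fun j => ¬ gd j, w j n : ℝ) : ℂ) * T3 A α ε u n‖ ≤
      CT * Real.exp (L * -(-((A : ℝ) + 1) + 1 / 60000)) := by
    have b1 := (norm_sum_le S fun n =>
      ((∑ j ∈ J.filter fun j => ¬ gd j, w j n : ℝ) : ℂ) * T3 A α ε u n).trans
      (Finset.sum_le_card_nsmul S _ (CT * Real.exp (L * (A + 1 / 2 - 10))) fun n hn => by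
        by_cases hz : ∑ j ∈ J.filter fun j => ¬ gd j, w j n = 0
        · rw [hz, Complex.ofReal_zero, zero_mul, norm_zero]; positivity
        obtain ⟨j, hj, hw⟩ := Finset.exists_ne_zero_of_sum_ne_zero hz
        have c1 : ∀ i, |Real.log (n i) - j i| ≤ 1 := fun i =>
          partPsi_abs_le (Finset.prod_ne_zero_iff.1 hw i (Finset.mem_univ i))
        have c2 : ∑ j ∈ J.filter fun j => ¬ gd j, w j n ≤ 1 :=
          (Finset.sum_le_sum_of_subset_of_nonneg (Finset.filter_subset _ _)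
            fun j _ _ => w0 j n).trans_eq (w1 n hn)
        rw [norm_mul, Complex.norm_real,
          Real.norm_of_nonneg (Finset.sum_nonneg fun j _ => w0 j n)]
        refine (mul_le_of_le_one_left (norm_nonneg _) c2).trans
          ((hT1 n fun i => (mS n hn i).1).2 ?_)
        rcases not_and_or.1 (Finset.mem_filter.1 hj).2 with c3 | c3
        · obtain ⟨i, hi⟩ := not_forall.1 c3
          exact Or.inl ⟨i, by linarith [not_le.1 hi, (abs_le.1 (c1 i)).1]⟩
        · right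
          have c4 := not_le.1 c3
          rw [Fin.sum_univ_three] at c4 ⊢
          linarith [(abs_le.1 (c1 0)).2, (abs_le.1 (c1 1)).2, (abs_le.1 (c1 2)).2])
    rw [nsmul_eq_mul] at b1
    rw [← eL] at cS
    refine b1.trans ((mul_le_mul_of_nonneg_right cS (by positivity)).trans ?_)
    have b3 : Real.exp L ^ 3 * Real.exp (L * (A + 1 / 2 - 10)) ≤
        Real.exp (L * -(-((A : ℝ) + 1) + 1 / 60000)) := by
      rw [← Real.exp_nat_mul, ← Real.exp_add]
      refine Real.exp_le_exp.2 ?_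
      push_cast
      nlinarith
    refine le_trans (le_of_eq ?_) (mul_le_mul_of_nonneg_left b3 pT.le)
    ring
  rw [split]
  refine (norm_add_le _ _).trans ((add_le_add good bad).trans ?_)
  nlinarith [mul_pos pT E0]

end Pool.Agent.CubZ
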