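import Pool.Agent.Lib.MP_d79f69_nt.Z3.Basic

open Matrix MeasureTheory Complex Finset

namespace Pool.Agent.CubZ

open Pool.Agent.CubH

theorem uns_triv {g : ℝ → ℂ} (hg : Continuous g) {C ε : ℝ} {z : ℂ} (h0 : 0 < ε) (h1 : ε ≤ 1)
    (hz : z.re = -ε) (hC : 0 ≤ C) (hb : ∀ t, 0 < t → ‖g t‖ ≤ C * (1 + t) ^ 2) :
    IntegrableOn (fun t : ℝ => cexp (z * t) * g t) (Set.Ioi 0) ∧
      ‖∫ t in Set.Ioi (0 : ℝ), cexp (z * t) * g t‖ ≤ 32 * C / ε ^ 3 := by
  have h2 : -(ε / 2) < 0 := by linarith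
  have h3 := (integrableOn_exp_mul_Ioi h2 0).const_mul (16 * C / ε ^ 2)
  have hpt : ∀ᵐ t : ℝ ∂(volume.restrict (Set.Ioi (0 : ℝ))),
      ‖cexp (z * t) * g t‖ ≤ 16 * C / ε ^ 2 * Real.exp (-(ε / 2) * t) := by
    refine (ae_restrict_iff' measurableSet_Ioi).2 (Filter.Eventually.of_forall fun t ht => ?_)
    have ht0 : 0 < t := ht
    rw [norm_mul, Complex.norm_exp, Complex.re_mul_ofReal, hz]
    have a1 : ε * (1 + t) ≤ 4 * Real.exp (ε * t / 4) := by
      linarith [Real.add_one_le_exp (ε * t / 4)]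
    have a2 : (ε * (1 + t)) ^ 2 ≤ (4 * Real.exp (ε * t / 4)) ^ 2 := by gcongr
    have a3 : Real.exp (-ε * t) * Real.exp (ε * t / 4) ^ 2 = Real.exp (-(ε / 2) * t) := by
      rw [sq, ← Real.exp_add, ← Real.exp_add]
      congr 1
      ring
    rw [← a3, div_mul_eq_mul_div, le_div_iff₀ (by positivity)]
    calc _ ≤ Real.exp (-ε * t) * (C * (1 + t) ^ 2) * ε ^ 2 := by gcongr; exact hb t ht0
      _ = Real.exp (-ε * t) * C * (ε * (1 + t)) ^ 2 := by ring
      _ ≤ Real.exp (-ε * t) * C * (4 * Real.exp (ε * t / 4)) ^ 2 := by gcongr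
      _ = _ := by ring
  refine ⟨Integrable.mono' h3 (Continuous.aestronglyMeasurable (by fun_prop)) hpt, ?_⟩
  refine (norm_integral_le_of_norm_le h3 hpt).trans (le_of_eq ?_)
  rw [integral_const_mul, integral_exp_mul_Ioi h2]
  simp only [mul_zero, Real.exp_zero]
  field_simp
  ring

theorem uns_ibp {f F : ℝ → ℂ} (hF : ∀ t, HasDerivAt F (f t) t) (h0 : F 0 = 0) {z : ℂ}
    (h1 : IntegrableOn (fun t : ℝ => cexp (z * t) * f t) (Set.Ioi 0))
    (h2 : IntegrableOn (fun t : ℝ => cexp (z * t) * F t) (Set.Ioi 0)) :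
    z * ∫ t in Set.Ioi (0 : ℝ), cexp (z * t) * F t =
      -∫ t in Set.Ioi (0 : ℝ), cexp (z * t) * f t := by
  have hd : ∀ t : ℝ, HasDerivAt (fun t : ℝ => cexp (z * t) * F t)
      (z * (cexp (z * t) * F t) + cexp (z * t) * f t) t := by
    intro t
    have a1 : HasDerivAt (fun t : ℝ => cexp (z * t)) (cexp (z * t) * (z * 1)) t :=
      (((hasDerivAt_id t).ofReal_comp).const_mul z).cexp
    exact (a1.mul (hF t)).congr_deriv (by ring)
  have h3 : IntegrableOn (fun t : ℝ => z * (cexp (z * t) * F t) + cexp (z * t) * f t)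
      (Set.Ioi 0) := (h2.const_mul z).add h1
  have h4 := integral_Ioi_of_hasDerivAt_of_tendsto' (fun t _ => hd t) h3
    (tendsto_zero_of_hasDerivAt_of_integrableOn_Ioi (fun t _ => hd t) h3 h2)
  rw [integral_add (h2.const_mul z) h1, integral_const_mul, h0, mul_zero, sub_zero] at h4
  exact eq_neg_of_add_eq_zero_left h4

theorem uns_abs {s : ℝ} (hs : -1 < s) :
    Integrable fun u : ℝ => |u| ^ s * Real.exp (-(1 / 2) * u ^ 2) := by
  have h1 : IntegrableOn (fun u : ℝ => |u| ^ s * Real.exp (-(1 / 2) * u ^ 2)) (Set.Ioi 0) :=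
    (integrableOn_rpow_mul_exp_neg_mul_sq (b := 1 / 2) (by norm_num) hs).congr_fun
      (fun u hu => by simp only [abs_of_pos (Set.mem_Ioi.1 hu)]) measurableSet_Ioi
  rw [← integrableOn_univ, ← Set.Iio_union_Ici (a := (0 : ℝ)), integrableOn_union,
    integrableOn_Ici_iff_integrableOn_Ioi]
  refine ⟨?_, h1⟩
  rw [← (Measure.measurePreserving_neg (volume : Measure ℝ)).integrableOn_comp_preimage
      (Homeomorph.neg ℝ).measurableEmbedding]
  simpa only [Function.comp_def, neg_sq, Set.neg_preimage, Set.neg_Iio, neg_zero, abs_neg] using h1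

/-- the kernel on the Fourier side -/
noncomputable def unsPsi (b ε T u : ℝ) : ℂ :=
  cexp ((-b : ℝ) * (u : ℂ) ^ 2 + (-(2 * b * ε + T) * I) * u + ((b * ε ^ 2 + ε * T : ℝ) : ℂ))

theorem uns_norm_psi (b ε T u : ℝ) :
    ‖unsPsi b ε T u‖ = Real.exp (-b * u ^ 2 + (b * ε ^ 2 + ε * T)) := by
  rw [unsPsi, Complex.norm_exp]
  congr 1
  simp [sq]

theorem uns_fub {F : ℝ → ℂ} (hF : Continuous F) {b ε : ℝ} (T : ℝ) (hb : 0 < b)
    (h1 : IntegrableOn (fun t : ℝ => cexp ((-ε : ℝ) * t) * F t) (Set.Ioi 0)) :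
    ((Real.pi : ℂ) / b) ^ (1 / 2 : ℂ) *
      ∫ t in Set.Ioi (0 : ℝ), (Real.exp (-(1 / (4 * b)) * (t - T) ^ 2) : ℂ) * F t =
    ∫ u : ℝ, unsPsi b ε T u * ∫ t in Set.Ioi (0 : ℝ), cexp ((-ε + u * I) * t) * F t := by
  have hb' : (((-b : ℝ) : ℂ)).re < 0 := by simpa using hb
  have hb0 : (b : ℂ) ≠ 0 := by exact_mod_cast hb.ne'
  have h2 : Integrable (unsPsi b ε T) := integrable_cexp_quadratic' hb' _ _
  have h3 : Integrable (Function.uncurry fun (t u : ℝ) =>
      unsPsi b ε T u * (cexp ((-ε + u * I) * t) * F t))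
      ((volume.restrict (Set.Ioi (0 : ℝ))).prod volume) := by
    refine Integrable.mono' (h1.norm.mul_prod h2.norm) (Continuous.aestronglyMeasurable ?_)
      (Filter.Eventually.of_forall fun p => le_of_eq ?_)
    · unfold unsPsi Function.uncurry
      fun_prop
    · simp only [Function.uncurry, norm_mul, Complex.norm_exp]
      rw [mul_comm]
      congr 3
      simp
  simp only [← integral_const_mul]
  rw [← integral_integral_swap h3]
  refine integral_congr_ae (Filter.Eventually.of_forall fun t => ?_)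
  have h4 : ∀ u : ℝ, unsPsi b ε T u * (cexp ((-ε + u * I) * t) * F t) =
      cexp ((-b : ℝ) * (u : ℂ) ^ 2 + ((t - (2 * b * ε + T)) * I) * u +
        ((b * ε ^ 2 + ε * T - ε * t : ℝ) : ℂ)) * F t := by
    intro u
    rw [unsPsi, ← mul_assoc, ← Complex.exp_add]
    congr 2
    push_cast
    ring
  simp only [h4]
  rw [integral_mul_const, integral_cexp_quadratic hb', ← mul_assoc, Complex.ofReal_exp]
  congr 3
  · simp
  · push_cast
    rw [mul_pow, I_sq]
    field_simp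
    ring

theorem uns_smooth {F : ℝ → ℂ} (hF : Continuous F) (h0 : F 0 = 0) {b C T : ℝ} (hb : 1 ≤ b)
    (hC : 0 ≤ C) (hT : 0 ≤ T) (h1 : ∀ t, 0 ≤ t → ‖F t - F T‖ ≤ C * (1 + (t - T) ^ 2)) :
    √(Real.pi / (1 / (4 * b))) * ‖F T‖ ≤
      ‖∫ t in Set.Ioi (0 : ℝ), (Real.exp (-(1 / (4 * b)) * (t - T) ^ 2) : ℂ) * F t‖ +
        48 * C * b ^ 2 := by
  have a0 : 0 < 1 / (4 * b) := by positivity
  have a1 : 0 < 1 / (8 * b) := by positivity
  have i0 := (integrable_exp_neg_mul_sq a0).comp_sub_right T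
  have i1 := ((integrable_exp_neg_mul_sq a1).comp_sub_right T).const_mul (8 * b * C)
  have hpt : ∀ t : ℝ, ‖(Real.exp (-(1 / (4 * b)) * (t - T) ^ 2) : ℂ) * (F T - F (max t 0))‖ ≤
      8 * b * C * Real.exp (-(1 / (8 * b)) * (t - T) ^ 2) := by
    intro t
    rw [norm_mul, Complex.norm_real, Real.norm_of_nonneg (Real.exp_pos _).le, norm_sub_rev]
    have c1 : (max t 0 - T) ^ 2 ≤ (t - T) ^ 2 := by
      rcases le_total t 0 with c | c
      · rw [max_eq_right c]
        nlinarith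
      · rw [max_eq_left c]
    have c2 := Real.add_one_le_exp (1 / (8 * b) * (t - T) ^ 2)
    have c3 : 8 * b * (1 / (8 * b) * (t - T) ^ 2) = (t - T) ^ 2 := by field_simp
    have c4 : 1 + (max t 0 - T) ^ 2 ≤ 8 * b * Real.exp (1 / (8 * b) * (t - T) ^ 2) := by
      nlinarith
    have c5 : Real.exp (-(1 / (4 * b)) * (t - T) ^ 2) * Real.exp (1 / (8 * b) * (t - T) ^ 2) =
        Real.exp (-(1 / (8 * b)) * (t - T) ^ 2) := by
      rw [← Real.exp_add]
      congr 1
      field_simp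
      ring
    calc _ ≤ Real.exp (-(1 / (4 * b)) * (t - T) ^ 2) *
          (C * (8 * b * Real.exp (1 / (8 * b) * (t - T) ^ 2))) := by
          gcongr
          exact (h1 _ (le_max_right t 0)).trans (by gcongr)
      _ = _ := by rw [← c5]; ring
  have i2 : Integrable fun t : ℝ =>
      (Real.exp (-(1 / (4 * b)) * (t - T) ^ 2) : ℂ) * (F T - F (max t 0)) :=
    Integrable.mono' i1 (Continuous.aestronglyMeasurable (by fun_prop))
      (Filter.Eventually.of_forall hpt)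
  have i3 : Integrable fun t : ℝ => (Real.exp (-(1 / (4 * b)) * (t - T) ^ 2) : ℂ) * F T :=
    i0.ofReal.mul_const _
  have e1 : ∫ t in Set.Ioi (0 : ℝ), (Real.exp (-(1 / (4 * b)) * (t - T) ^ 2) : ℂ) * F t =
      ∫ t : ℝ, (Real.exp (-(1 / (4 * b)) * (t - T) ^ 2) : ℂ) * F (max t 0) := by
    refine (setIntegral_congr_fun measurableSet_Ioi fun t ht => ?_).trans
      (setIntegral_eq_integral_of_forall_compl_eq_zero (s := Set.Ioi (0 : ℝ)) fun t ht => by
        rw [max_eq_right (not_lt.1 ht), h0, mul_zero])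
    simp only [max_eq_left (le_of_lt (Set.mem_Ioi.1 ht))]
  have e2 : ∫ t : ℝ, (Real.exp (-(1 / (4 * b)) * (t - T) ^ 2) : ℂ) * F T =
      (√(Real.pi / (1 / (4 * b))) : ℝ) * F T := by
    rw [integral_mul_const, integral_complex_ofReal,
      integral_sub_right_eq_self (fun t => Real.exp (-(1 / (4 * b)) * t ^ 2)), integral_gaussian]
  have e3 := norm_integral_le_of_norm_le i1 (Filter.Eventually.of_forall hpt)
  rw [integral_const_mul, integral_sub_right_eq_self (fun t => Real.exp (-(1 / (8 * b)) * t ^ 2)),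
    integral_gaussian] at e3
  have e4 : √(Real.pi / (1 / (8 * b))) ≤ 6 * b := by
    rw [Real.sqrt_le_left (by positivity), one_div, div_inv_eq_mul]
    nlinarith [Real.pi_lt_d2]
  have e5 := integral_sub i3 i2
  simp only [← mul_sub, sub_sub_cancel] at e5
  rw [e2, ← e1, eq_sub_iff_add_eq] at e5
  have e6 := congrArg norm e5
  rw [norm_mul, Complex.norm_real, Real.norm_of_nonneg (Real.sqrt_nonneg _)] at e6
  rw [← e6]
  refine (norm_add_le _ _).trans (add_le_add le_rfl (e3.trans ?_))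
  calc _ ≤ 8 * b * C * (6 * b) := by gcongr
    _ = _ := by ring

theorem uns_z {ε u θ : ℝ} (h0 : 0 < ε) (hu : u ≠ 0) (h1 : 0 ≤ θ) (h2 : θ ≤ 1) :
    1 ≤ ‖(-ε + u * I : ℂ)‖ * (ε ^ (-θ) * |u| ^ (θ - 1)) := by
  have a1 : ε ≤ ‖(-ε + u * I : ℂ)‖ := by
    simpa [abs_of_pos h0] using Complex.abs_re_le_norm (-ε + u * I : ℂ)
  have a2 : |u| ≤ ‖(-ε + u * I : ℂ)‖ := by simpa using Complex.abs_im_le_norm (-ε + u * I : ℂ)
  have a3 := abs_pos.2 hu
  generalize ‖(-ε + u * I : ℂ)‖ = r at a1 a2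
  have a4 : 0 < r := h0.trans_le a1
  have a5 : r ^ (-θ) ≤ ε ^ (-θ) := Real.rpow_le_rpow_of_nonpos h0 a1 (by linarith)
  have a6 : r ^ (θ - 1) ≤ |u| ^ (θ - 1) := Real.rpow_le_rpow_of_nonpos a3 a2 (by linarith)
  calc (1 : ℝ) = r * (r ^ (-θ) * r ^ (θ - 1)) := by
        rw [← Real.rpow_add a4, show -θ + (θ - 1) = -1 by ring, Real.rpow_neg_one,
          mul_inv_cancel₀ a4.ne']
    _ ≤ _ := by gcongr

theorem stUns : StUns := by
  rintro f hf ⟨C, hC⟩ ⟨C1, hC1, hL⟩
  have C0 : 0 ≤ C := by simpa using (norm_nonneg _).trans (hC 0 le_rfl)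
  set F : ℝ → ℂ := fun x => ∫ t in (0 : ℝ)..x, f t with hFdef
  have hF : ∀ t, HasDerivAt F (f t) t := fun t => (hf.integral_hasStrictDerivAt 0 t).hasDerivAt
  have hFc : Continuous F := continuous_iff_continuousAt.2 fun t => (hF t).continuousAt
  have hF0 : F 0 = 0 := by simp [hFdef]
  have hsub : ∀ t T : ℝ, 0 ≤ t → 0 ≤ T →
      ‖F t - F T‖ ≤ C * (1 + T + |t - T|) ^ ((9 : ℝ) / 10) * |t - T| := by
    intro t T ht hT
    rw [hFdef]
    dsimp only
    rw [intervalIntegral.integral_interval_sub_left (hf.intervalIntegrable _ _)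
      (hf.intervalIntegrable _ _)]
    refine intervalIntegral.norm_integral_le_of_norm_le_const fun x hx => ?_
    have a1 : 0 ≤ x := (le_min hT ht).trans hx.1.le
    have a2 : x ≤ T + |t - T| :=
      hx.2.trans (max_le (by linarith [abs_nonneg (t - T)]) (by linarith [le_abs_self (t - T)]))
    exact (hC x a1).trans (mul_le_mul_of_nonneg_left
      (Real.rpow_le_rpow (by linarith) (by linarith) (by norm_num)) C0)
  have hp : ∀ x : ℝ, 0 ≤ x → (1 + x) ^ ((9 : ℝ) / 10) ≤ 1 + x := fun x hx => by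
    simpa using Real.rpow_le_rpow_of_exponent_le (show 1 ≤ 1 + x by linarith)
      (show (9 : ℝ) / 10 ≤ 1 by norm_num)
  have hf2 : ∀ t, 0 < t → ‖f t‖ ≤ C * (1 + t) ^ 2 := fun t ht => (hC t ht.le).trans (by
    gcongr
    nlinarith [hp t ht.le])
  have hF2 : ∀ t, 0 < t → ‖F t‖ ≤ C * (1 + t) ^ 2 := fun t ht => by
    have := hsub t 0 ht.le le_rfl
    rw [hF0, sub_zero, sub_zero, add_zero, abs_of_pos ht] at this
    refine this.trans ?_
    rw [mul_assoc]
    gcongr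
    nlinarith [hp t ht.le]
  obtain ⟨K, hK1, hK⟩ := poly_le_exp 120
  have hm := uns_abs (s := 1 / 120000 - 1) (by norm_num)
  set J := ∫ u : ℝ, |u| ^ ((1 : ℝ) / 120000 - 1) * Real.exp (-(1 / 2) * u ^ 2) with hJ
  have J0 : 0 ≤ J := integral_nonneg fun u => by positivity
  set C2 := Real.exp 2 * (C1 + 32 * C * K * Real.exp (1 / 2)) with hC2
  have C20 : 0 ≤ C2 := by positivity
  refine ⟨9 * C + C2 * J + 384 * C, fun T hT => ?_⟩
  have hT0 : 0 < T := by linarith
  have hT1 : 1 ≤ T ^ (1 - (1 : ℝ) / 120000) := Real.one_le_rpow hT (by norm_num)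
  show ‖F T‖ ≤ _
  rcases le_total T 2 with h2 | h2
  · calc ‖F T‖ ≤ C * (1 + T) ^ 2 := hF2 T hT0
      _ ≤ C * (1 + 2) ^ 2 := by gcongr
      _ ≤ (9 * C + C2 * J + 384 * C) * 1 := by linarith [mul_nonneg C20 J0]
      _ ≤ _ := by gcongr
  set ε := 1 / T with hε
  have e0 : 0 < ε := by positivity
  have e1 : ε ≤ 1 / 2 := one_div_le_one_div_of_le two_pos h2
  have e2 : ε * T = 1 := by rw [hε]; field_simp
  have e3 : ∀ p : ℝ, ε ^ (-p) = T ^ p := fun p => by
    rw [hε, one_div, Real.inv_rpow hT0.le, Real.rpow_neg hT0.le, inv_inv]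
  set b := T ^ ((1 : ℝ) / 40) with hb
  have b1 : 1 ≤ b := Real.one_le_rpow hT (by norm_num)
  have b2 : b ^ 40 = T := by
    rw [hb, ← Real.rpow_natCast, ← Real.rpow_mul hT0.le]
    norm_num
  have b3 : b * ε ^ 2 ≤ 1 := by
    have a1 : b ≤ T := b2 ▸ le_self_pow₀ b1 (by norm_num)
    nlinarith [mul_le_mul_of_nonneg_right a1 (sq_nonneg ε)]
  have hz : ∀ u : ℝ, (-ε + u * I : ℂ).re = -ε := fun u => by simp
  have key : ∀ u : ℝ, Real.exp (-b * u ^ 2) *
      ‖∫ t in Set.Ioi (0 : ℝ), cexp ((-ε + u * I) * t) * f t‖ ≤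
      (C1 + 32 * C * K * Real.exp (1 / 2)) * T ^ (1 - (1 : ℝ) / 60000) *
        Real.exp (-(1 / 2) * u ^ 2) := by
    intro u
    have a0 : 1 ≤ T ^ (1 - (1 : ℝ) / 60000) := Real.one_le_rpow hT (by norm_num)
    rcases le_total |u| 1 with hu | hu
    · have a1 := hL ε u e0 e1 hu
      have a2 : ∀ t : ℝ, KC (0 : ℕ) ε u t = cexp ((-ε + u * I) * t) := fun t => by
        rw [KC, Nat.cast_zero, pw_zero, one_mul]
        congr 1
        ring
      simp only [a2] at a1
      rw [show -(((0 : ℕ) : ℝ) + 1) + 1 / 60000 = -(1 - 1 / 60000) by norm_num, e3] at a1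
      have a3 : Real.exp (-b * u ^ 2) ≤ Real.exp (-(1 / 2) * u ^ 2) :=
        Real.exp_le_exp.2 (by nlinarith [sq_nonneg u])
      rw [mul_comm]
      gcongr
      refine a1.trans ?_
      gcongr
      exact le_add_of_nonneg_right (by positivity)
    · have a1 := (uns_triv hf e0 (by linarith) (hz u) C0 hf2).2
      have a2 : 1 ≤ u ^ 2 := by nlinarith [sq_abs u]
      have a3 : Real.exp (-b * u ^ 2) * Real.exp b ≤
          Real.exp (1 / 2) * Real.exp (-(1 / 2) * u ^ 2) := by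
        rw [← Real.exp_add, ← Real.exp_add]
        exact Real.exp_le_exp.2 (by nlinarith)
      have a4 : 32 * C / ε ^ 3 ≤ 32 * C * (K * Real.exp b) := by
        rw [hε, one_div, inv_pow, div_inv_eq_mul, ← b2, ← pow_mul]
        gcongr
        exact (pow_le_pow_left₀ (by linarith) (by linarith) _).trans (hK b (by linarith))
      calc _ ≤ Real.exp (-b * u ^ 2) * (32 * C * (K * Real.exp b)) := by
            gcongr
            exact a1.trans a4
        _ = 32 * C * K * (Real.exp (-b * u ^ 2) * Real.exp b) := by ring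
        _ ≤ 32 * C * K * (Real.exp (1 / 2) * Real.exp (-(1 / 2) * u ^ 2)) := by gcongr
        _ = (0 + 32 * C * K * Real.exp (1 / 2)) * 1 * Real.exp (-(1 / 2) * u ^ 2) := by ring
        _ ≤ _ := by gcongr
  have main : ‖∫ u : ℝ, unsPsi b ε T u * ∫ t in Set.Ioi (0 : ℝ), cexp ((-ε + u * I) * t) * F t‖ ≤
      C2 * J * T ^ (1 - (1 : ℝ) / 120000) := by
    refine (norm_integral_le_of_norm_le (hm.const_mul (C2 * T ^ (1 - (1 : ℝ) / 120000))) ?_).trans
      (le_of_eq (by rw [integral_const_mul]; ring))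
    filter_upwards [(Set.countable_singleton (0 : ℝ)).ae_notMem volume] with u hu
    have a1 := congrArg norm (uns_ibp hF hF0 (uns_triv hf e0 (by linarith) (hz u) C0 hf2).1
      (uns_triv hFc e0 (by linarith) (hz u) C0 hF2).1)
    rw [norm_mul, norm_neg] at a1
    have a2 := uns_z (θ := 1 / 120000) e0 (by simpa using hu : u ≠ 0) (by norm_num) (by norm_num)
    have a3 := key u
    rw [← a1] at a3
    rw [e3] at a2
    have a4 : T ^ (1 - (1 : ℝ) / 120000) = T ^ (1 - (1 : ℝ) / 60000) * T ^ ((1 : ℝ) / 120000) := by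
      rw [← Real.rpow_add hT0]
      norm_num
    have a5 : Real.exp (b * ε ^ 2 + ε * T) ≤ Real.exp 2 := Real.exp_le_exp.2 (by linarith)
    rw [norm_mul, uns_norm_psi, Real.exp_add, a4, hC2]
    have a6 := norm_nonneg (∫ t in Set.Ioi (0 : ℝ), cexp ((-ε + u * I) * t) * F t)
    generalize ‖∫ t in Set.Ioi (0 : ℝ), cexp ((-ε + u * I) * t) * F t‖ = M at a3 a6 ⊢
    generalize ‖(-ε + u * I : ℂ)‖ = r at a2 a3
    calc _ ≤ Real.exp (-b * u ^ 2) * Real.exp 2 * M * 1 := by rw [mul_one]; gcongr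
      _ ≤ Real.exp (-b * u ^ 2) * Real.exp 2 * M *
          (r * (T ^ ((1 : ℝ) / 120000) * |u| ^ ((1 : ℝ) / 120000 - 1))) := by gcongr
      _ = Real.exp 2 * (T ^ ((1 : ℝ) / 120000) * |u| ^ ((1 : ℝ) / 120000 - 1)) *
          (Real.exp (-b * u ^ 2) * (r * M)) := by ring
      _ ≤ Real.exp 2 * (T ^ ((1 : ℝ) / 120000) * |u| ^ ((1 : ℝ) / 120000 - 1)) * _ :=
          mul_le_mul_of_nonneg_left a3 (by positivity)
      _ = _ := by ring
  have h3 := congrArg norm (uns_fub hFc T (by linarith : 0 < b) (ε := ε)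
    (uns_triv hFc e0 (by linarith) (by simp) C0 hF2).1)
  have h4 := uns_smooth hFc hF0 (C := 4 * C * T ^ ((9 : ℝ) / 10)) b1 (by positivity) hT0.le
    fun t ht => by
      refine (hsub t T ht hT0.le).trans ?_
      have a1 := abs_nonneg (t - T)
      have a2 : (1 + T + |t - T|) ^ ((9 : ℝ) / 10) ≤ 2 * T ^ ((9 : ℝ) / 10) * (1 + |t - T|) := by
        calc _ ≤ (2 * T * (1 + |t - T|)) ^ ((9 : ℝ) / 10) := by
              gcongr
              nlinarith
          _ = 2 ^ ((9 : ℝ) / 10) * T ^ ((9 : ℝ) / 10) * (1 + |t - T|) ^ ((9 : ℝ) / 10) := by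
              rw [Real.mul_rpow (by positivity) (by positivity),
                Real.mul_rpow (by positivity) (by positivity)]
          _ ≤ _ := by
              gcongr
              · simpa only [one_add_one_eq_two] using hp 1 zero_le_one
              · exact hp _ a1
      calc _ ≤ C * (2 * T ^ ((9 : ℝ) / 10) * (1 + |t - T|)) * |t - T| := by gcongr
        _ = 2 * C * T ^ ((9 : ℝ) / 10) * ((1 + |t - T|) * |t - T|) := by ring
        _ ≤ 2 * C * T ^ ((9 : ℝ) / 10) * (2 * (1 + (t - T) ^ 2)) := by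
            refine mul_le_mul_of_nonneg_left ?_ (by positivity)
            nlinarith [sq_abs (t - T), sq_nonneg (|t - T| - 1)]
        _ = _ := by ring
  have h5 : ‖((Real.pi : ℂ) / b) ^ (1 / 2 : ℂ)‖ = √(Real.pi / b) := by
    rw [← Complex.ofReal_div, Complex.norm_cpow_eq_rpow_re_of_pos (by positivity),
      Real.sqrt_eq_rpow]
    norm_num
  rw [norm_mul, h5] at h3
  have h6 : √(Real.pi / b) ≤ 2 := by
    rw [Real.sqrt_le_left (by norm_num), div_le_iff₀ (by linarith)]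
    linarith [Real.pi_lt_d2]
  have h7 : 1 ≤ √(Real.pi / b) * √(Real.pi / (1 / (4 * b))) := by
    rw [← Real.sqrt_mul (by positivity), Real.one_le_sqrt,
      show Real.pi / b * (Real.pi / (1 / (4 * b))) = 4 * Real.pi ^ 2 by field_simp]
    nlinarith [Real.pi_gt_three]
  have h8 : T ^ ((9 : ℝ) / 10) * b ^ 2 ≤ T ^ (1 - (1 : ℝ) / 120000) := by
    rw [hb, ← Real.rpow_natCast, ← Real.rpow_mul hT0.le, ← Real.rpow_add hT0]
    exact Real.rpow_le_rpow_of_exponent_le hT (by norm_num)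
  calc ‖F T‖ ≤ √(Real.pi / b) * √(Real.pi / (1 / (4 * b))) * ‖F T‖ :=
        le_mul_of_one_le_left (norm_nonneg _) h7
    _ ≤ √(Real.pi / b) * (_ + 48 * (4 * C * T ^ ((9 : ℝ) / 10)) * b ^ 2) := by
        rw [mul_assoc]
        exact mul_le_mul_of_nonneg_left h4 (Real.sqrt_nonneg _)
    _ ≤ C2 * J * T ^ (1 - (1 : ℝ) / 120000) + 2 * (192 * C * T ^ (1 - (1 : ℝ) / 120000)) := by
        rw [mul_add, h3, show 48 * (4 * C * T ^ ((9 : ℝ) / 10)) * b ^ 2 =
          192 * C * (T ^ ((9 : ℝ) / 10) * b ^ 2) by ring]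
        gcongr
    _ ≤ _ := by nlinarith [mul_nonneg C0 (zero_le_one.trans hT1)]

end Pool.Agent.CubZ
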