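import Pool.Agent.Lib.MP_d79f69_nt.Z3.Basic

open Matrix MeasureTheory Complex Finset

namespace Pool.Agent.CubZ

open Pool.Agent.CubH

theorem v2_gauss (σ a : ℝ) : ∫ v : ℝ, cexp ((σ + v * I) ^ 2 - a * (σ + v * I)) =
    (√Real.pi : ℝ) * cexp (-((a : ℂ) ^ 2) / 4) := by
  have h := integral_cexp_quadratic (b := -1) (by simp) ((2 * σ - a) * I) (σ ^ 2 - a * σ)
  have e : ∀ v : ℝ, (σ + v * I : ℂ) ^ 2 - a * (σ + v * I) =
      -1 * (v : ℂ) ^ 2 + (2 * σ - a) * I * v + (σ ^ 2 - a * σ) := fun v => by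
    linear_combination (v : ℂ) ^ 2 * I_sq
  simp only [e]
  rw [h, Real.sqrt_eq_rpow, Complex.ofReal_cpow Real.pi_pos.le]
  congr 2
  · simp
  · simp
  · linear_combination (2 * σ - a : ℂ) ^ 2 / 4 * I_sq

theorem v2_int (σ l : ℝ) (hσ : 0 < σ) :
    Integrable (Function.uncurry fun (v r : ℝ) => cexp ((σ + v * I) ^ 2 - (r + l : ℝ) * (σ + v * I)))
      (volume.prod (volume.restrict (Set.Ioi 0))) := by
  have h1 : Integrable fun v : ℝ => Real.exp (σ ^ 2 - l * σ) * Real.exp (-1 * v ^ 2) :=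
    (integrable_exp_neg_mul_sq one_pos).const_mul _
  have h2 : Integrable (fun r : ℝ => Real.exp (-σ * r)) (volume.restrict (Set.Ioi 0)) :=
    exp_neg_integrableOn_Ioi 0 hσ
  refine (h1.mul_prod h2).mono' (Continuous.aestronglyMeasurable (by fun_prop))
    (Filter.Eventually.of_forall fun p => le_of_eq ?_)
  simp only [Function.uncurry]
  rw [Complex.norm_exp, ← Real.exp_add, ← Real.exp_add]
  congr 1
  simp [sq]
  ring

theorem v2_inner (σ y v : ℝ) (hσ : 0 < σ) : gw (σ + v * I) * pw y (-(σ + v * I)) =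
    ∫ r in Set.Ioi (0 : ℝ), cexp ((σ + v * I) ^ 2 - (r + Real.log y : ℝ) * (σ + v * I)) := by
  have h := integral_exp_mul_complex_Ioi (a := -(σ + v * I)) (by simpa using hσ) 0
  have e : ∀ r : ℝ, cexp ((σ + v * I) ^ 2 - (r + Real.log y : ℝ) * (σ + v * I)) =
      cexp ((σ + v * I) ^ 2) * pw y (-(σ + v * I)) * cexp (-(σ + v * I) * r) := fun r => by
    unfold pw
    rw [← Complex.exp_add, ← Complex.exp_add]
    congr 1
    push_cast
    ring
  simp only [e]
  rw [integral_const_mul, h, neg_div_neg_eq, gw, Complex.ofReal_zero, mul_zero, Complex.exp_zero]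
  ring

theorem stV2 : StV2 := by
  have hp := Real.sqrt_pos.2 Real.pi_pos
  have hp' : ((√Real.pi : ℝ) : ℂ) ≠ 0 := by exact_mod_cast hp.ne'
  refine ⟨?_, fun σ y hσ hy => ⟨?_, ?_⟩⟩
  · have h := integral_gaussian_Ioi (1 / 4)
    have e : ∀ r : ℝ, cexp (-((r + Complex.log 1) ^ 2) / 4) =
        ((Real.exp (-(1 / 4) * r ^ 2) : ℝ) : ℂ) := fun r => by
      rw [Complex.log_one]
      push_cast
      congr 1
      ring
    have e2 : √(Real.pi / (1 / 4)) = √Real.pi * 2 := by
      rw [show Real.pi / (1 / 4) = Real.pi * 2 ^ 2 by ring, Real.sqrt_mul Real.pi_pos.le,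
        Real.sqrt_sq (by norm_num)]
    unfold VV
    simp only [e]
    rw [integral_complex_ofReal, h, e2]
    push_cast
    field_simp
  · simp only [v2_inner σ y _ hσ]
    exact (v2_int σ (Real.log y) hσ).integral_prod_left
  · simp only [v2_inner σ y _ hσ]
    rw [integral_integral_swap (v2_int σ (Real.log y) hσ)]
    simp only [v2_gauss]
    rw [integral_const_mul, VV, ← Complex.ofReal_log hy.le, ← mul_assoc]
    congr 1
    · rw [← Real.mul_self_sqrt Real.pi_pos.le, Real.sqrt_mul_self hp.le]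
      push_cast
      field_simp
    · simp only [Complex.ofReal_add]

end Pool.Agent.CubZ
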