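import Pool.Agent.Lib.MP_d79f69_nt.Z3.Basic

open Matrix MeasureTheory Complex Finset

namespace Pool.Agent.CubZ

open Pool.Agent.CubH

theorem wm_nn (Z θ : ℝ) (hZ : 0 ≤ Z) : 0 ≤ mn Z θ :=
  div_nonneg hZ (zero_le_one.trans (le_max_left _ _))

theorem wm_le (Z θ : ℝ) (hZ : 0 ≤ Z) : mn Z θ ≤ Z := div_le_self hZ (le_max_left _ _)

theorem wm_le_inv {Z θ a : ℝ} (hZ : 0 < Z) (ha : 0 < a) (h : a ≤ |θ - round θ|) :
    mn Z θ ≤ 1 / a := by
  rw [mn, div_le_div_iff₀ (lt_of_lt_of_le one_pos (le_max_left _ _)) ha, one_mul]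
  exact (mul_le_mul_of_nonneg_left h hZ.le).trans (le_max_right _ _)

theorem wm_level {δ : ℝ} (h : δ ≤ 1 / 2) (J : ℕ) :
    ∃ j ≤ J, δ ≤ (1 / 2) ^ (j + 1) ∧ (j = J ∨ (1 / 2) ^ (j + 2) ≤ δ) := by
  induction J with
  | zero => exact ⟨0, le_rfl, by simpa using h, Or.inl rfl⟩
  | succ J ih =>
    obtain ⟨j, h1, h2, h3⟩ := ih
    rcases h3 with rfl | h3
    · by_cases h4 : δ ≤ (1 / 2) ^ (j + 2)
      · exact ⟨j + 1, le_rfl, h4, Or.inl rfl⟩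
      · exact ⟨j, by omega, h2, Or.inr (not_le.1 h4).le⟩
    · exact ⟨j, by omega, h2, Or.inr h3⟩

theorem wm_pt {Z θ a : ℝ} {J : ℕ} (hZ : 0 < Z) (hJ : Z ≤ 2 ^ (J + 2)) (ha : 0 < a)
    (h : a ≤ |θ|) : mn Z θ ≤ 1 / a + ∑ j ∈ range (J + 1),
      if |θ - round θ| ≤ (1 / 2) ^ (j + 1) ∧ round θ ≠ 0 then (2 : ℝ) ^ (j + 2) else 0 := by
  have hs : ∀ j ∈ range (J + 1), (0 : ℝ) ≤
      if |θ - round θ| ≤ (1 / 2) ^ (j + 1) ∧ round θ ≠ 0 then (2 : ℝ) ^ (j + 2) else 0 :=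
    fun j _ => by split_ifs <;> positivity
  by_cases h0 : round θ = 0
  · have h1 : mn Z θ ≤ 1 / a := wm_le_inv hZ ha (by rw [h0]; simpa using h)
    linarith [sum_nonneg hs]
  · obtain ⟨j, h1, h2, h3⟩ := wm_level (abs_sub_round θ) J
    have h4 := single_le_sum hs (mem_range.2 (Nat.lt_succ_of_le h1))
    rw [if_pos ⟨h2, h0⟩] at h4
    have h5 : mn Z θ ≤ 2 ^ (j + 2) := by
      rcases h3 with rfl | h3
      · exact (wm_le Z θ hZ.le).trans hJ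
      · simpa using wm_le_inv hZ (by positivity) h3
    have : 0 ≤ 1 / a := by positivity
    linarith

theorem wm_dy (g : ℕ → ℝ) (n : ℕ) :
    ∑ h ∈ Ico 1 (2 ^ n), g h = ∑ i ∈ range n, ∑ h ∈ Ico (2 ^ i) (2 * 2 ^ i), g h := by
  induction n with
  | zero => simp
  | succ n ih =>
    rw [sum_range_succ, ← ih, sum_Ico_consecutive _ Nat.one_le_two_pow (by omega), pow_succ']

theorem wm_num {Z H D A B : ℝ} (hH : 0 ≤ H) (hHZ : H ≤ Z) (hD : 0 < D) (hZ : 1 ≤ 2 * Z * D)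
    (hA : 0 ≤ A) (hB : 0 ≤ B) :
    (H + H * √(H * D)) * A + (√(H * D) + H * D) * B ≤ D * (4 * (Z * B + Z ^ 2 * A)) := by
  have hZ0 : 0 ≤ Z := hH.trans hHZ
  have hZD : 0 ≤ Z * D := by positivity
  have hHD : H * D ≤ Z * D := mul_le_mul_of_nonneg_right hHZ hD.le
  have h1 : √(H * D) ≤ 2 * Z * D := by
    rw [Real.sqrt_le_left (by positivity)]
    nlinarith
  have h2 : H * √(H * D) ≤ Z * (2 * Z * D) := mul_le_mul hHZ h1 (Real.sqrt_nonneg _) hZ0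
  have h3 : H ≤ Z * (2 * Z * D) := by nlinarith
  have h4 : (H + H * √(H * D)) * A ≤ (4 * Z ^ 2 * D) * A :=
    mul_le_mul_of_nonneg_right (by nlinarith) hA
  have h5 : (√(H * D) + H * D) * B ≤ (4 * Z * D) * B :=
    mul_le_mul_of_nonneg_right (by nlinarith) hB
  nlinarith

theorem stWm (hC : StCnt) : StWm := by
  intro η β0 β1 hη hβ0
  obtain ⟨C, hC0, hC⟩ := hC (η / 3) β0 β1 (by positivity) hβ0
  obtain ⟨C', hC1, hL⟩ := log_le_rpow (show 0 < η / 3 by positivity)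
  refine ⟨4 * C' ^ 2 * (4 / β0 + 8 * C), by positivity, fun β Z X Y b0 b1 hZ hX hY => ?_⟩
  have rZ : (1 : ℝ) ≤ Z := by exact_mod_cast hZ
  have rX : (1 : ℝ) ≤ X := by exact_mod_cast hX
  have rY : (1 : ℝ) ≤ Y := by exact_mod_cast hY
  obtain ⟨L, l1, l2⟩ : ∃ L, 2 ^ L ≤ Z ∧ Z < 2 ^ (L + 1) :=
    ⟨Nat.log 2 Z, Nat.pow_log_le_self 2 (by omega), Nat.lt_pow_succ_log_self one_lt_two Z⟩
  have r1 : (2 : ℝ) ^ L ≤ Z := by exact_mod_cast l1
  have r2 : (Z : ℝ) ≤ 2 ^ (L + 2) := by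
    have : (Z : ℝ) < 2 ^ (L + 1) := by exact_mod_cast l2
    have h2 : (0 : ℝ) < 2 ^ (L + 1) := by positivity
    rw [pow_succ]; linarith
  have hP : (1 : ℝ) ≤ (Z : ℝ) * X * Y :=
    one_le_mul_of_one_le_of_one_le (one_le_mul_of_one_le_of_one_le rZ rX) rY
  obtain ⟨P, hPe⟩ : ∃ P, P = ((Z : ℝ) * X * Y) ^ (η / 3) := ⟨_, rfl⟩
  have P1 : 1 ≤ P := hPe ▸ Real.one_le_rpow hP (by positivity)
  have P3 : ((Z : ℝ) * X * Y) ^ η = P ^ 3 := by
    rw [hPe, ← Real.rpow_natCast, ← Real.rpow_mul (by positivity)]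
    congr 1; push_cast; ring
  have hLP : (L : ℝ) + 1 ≤ 2 * C' * P := by
    have h1 := hL _ hP
    have h2 : Real.log (2 ^ L) ≤ Real.log ((Z : ℝ) * X * Y) :=
      Real.log_le_log (by positivity) (r1.trans (by
        have : (1 : ℝ) ≤ X * Y := one_le_mul_of_one_le_of_one_le rX rY
        nlinarith))
    rw [Real.log_pow] at h2
    have h3 := Real.log_two_gt_d9
    have h4 : (0 : ℝ) ≤ L := Nat.cast_nonneg _
    rw [← hPe] at h1
    nlinarith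
  obtain ⟨A, hA⟩ : ∃ A : ℝ, A = X * √X / √Y := ⟨_, rfl⟩
  have A0 : 0 ≤ A := by rw [hA]; positivity
  have blk : ∀ i ∈ range (L + 1), ∑ h ∈ Ico (2 ^ i) (2 * 2 ^ i), ∑ x ∈ Ico X (2 * X),
      ∑ y ∈ Ico Y (2 * Y), mn Z (β * (h : ℕ) * (x : ℝ) ^ 2 / (y : ℝ) ^ 2) ≤
      4 / β0 * ((Y : ℝ) ^ 3 / X) + (L + 1) * (8 * C * P * (Z * (X * Y) + Z ^ 2 * A)) := by
    intro i hi
    obtain ⟨H, hH⟩ : ∃ H : ℕ, H = 2 ^ i := ⟨_, rfl⟩
    have H1 : 1 ≤ H := hH ▸ Nat.one_le_two_pow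
    have HZ : H ≤ Z :=
      hH ▸ (Nat.pow_le_pow_right two_pos (by simpa [Nat.lt_succ_iff] using hi)).trans l1
    have rH : (1 : ℝ) ≤ H := by exact_mod_cast H1
    have rHZ : (H : ℝ) ≤ Z := by exact_mod_cast HZ
    rw [← hH]
    have e1 : ∑ h ∈ Ico H (2 * H), ∑ x ∈ Ico X (2 * X), ∑ y ∈ Ico Y (2 * Y),
        mn Z (β * (h : ℕ) * (x : ℝ) ^ 2 / (y : ℝ) ^ 2)
        = ∑ q ∈ Ico H (2 * H) ×ˢ Ico X (2 * X) ×ˢ Ico Y (2 * Y),
          mn Z (β * q.1 * (q.2.1 : ℝ) ^ 2 / (q.2.2 : ℝ) ^ 2) := by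
      simp only [sum_product]
    have ha : 0 < β0 * H * (X : ℝ) ^ 2 / (4 * (Y : ℝ) ^ 2) := by positivity
    rw [e1]
    refine (sum_le_sum fun q hq => wm_pt (J := L) (by positivity) r2 ha ?_).trans ?_
    · simp only [mem_product, mem_Ico] at hq
      obtain ⟨⟨q1, -⟩, ⟨q2, -⟩, q3, q4⟩ := hq
      have s1 : (H : ℝ) ≤ q.1 := by exact_mod_cast q1
      have s2 : (X : ℝ) ≤ q.2.1 := by exact_mod_cast q2
      have s3 : (Y : ℝ) ≤ q.2.2 := by exact_mod_cast q3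
      have s4 : (q.2.2 : ℝ) ≤ 2 * Y := by exact_mod_cast q4.le
      have s5 : (0 : ℝ) < q.2.2 := by linarith
      rw [abs_div, abs_mul, abs_mul, abs_of_nonneg (Nat.cast_nonneg _ : (0 : ℝ) ≤ q.1),
        abs_of_nonneg (sq_nonneg (q.2.1 : ℝ)), abs_of_nonneg (sq_nonneg (q.2.2 : ℝ))]
      refine div_le_div₀ (by positivity) ?_ (by positivity) (by nlinarith)
      gcongr
    rw [sum_add_distrib, sum_const, sum_comm, card_product, card_product, Nat.card_Ico,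
      Nat.card_Ico, Nat.card_Ico, nsmul_eq_mul, show 2 * H - H = H by omega,
      show 2 * X - X = X by omega, show 2 * Y - Y = Y by omega]
    refine add_le_add (le_of_eq ?_) ?_
    · push_cast; field_simp
    refine (sum_le_card_nsmul _ _ (8 * C * P * (Z * (X * Y) + Z ^ 2 * A)) fun j hj => ?_).trans
      (le_of_eq (by rw [card_range, nsmul_eq_mul]; push_cast; rfl))
    obtain ⟨D, hD⟩ : ∃ D : ℝ, D = (1 / 2) ^ (j + 1) := ⟨_, rfl⟩
    have D0 : 0 < D := by rw [hD]; positivity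
    have D1 : D * 2 ^ (j + 1) = 1 := by rw [hD, ← mul_pow]; norm_num
    have D2 : D ≤ 1 / 2 := by
      have : (2 : ℝ) ≤ 2 ^ (j + 1) := le_self_pow₀ one_le_two (by omega)
      nlinarith
    have D3 : 1 ≤ 2 * Z * D := by
      have h1 : (2 : ℝ) ^ j ≤ 2 ^ L :=
        pow_le_pow_right₀ one_le_two (by simpa [Nat.lt_succ_iff] using hj)
      rw [pow_succ] at D1
      nlinarith
    have c1 := hC β D H X Y b0 b1 D0 D2 H1 hX hY
    have c2 := wm_num (B := (X : ℝ) * Y) (by positivity) rHZ D0 D3 A0 (by positivity)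
    have c3 : ((H : ℝ) * X * Y) ^ (η / 3) ≤ P := by
      rw [hPe]
      gcongr
    rw [← hA] at c1
    rw [← hD, ← sum_filter, sum_const, nsmul_eq_mul]
    have c4 := c1.trans (mul_le_mul (mul_le_mul_of_nonneg_left c3 hC0.le) c2 (by positivity)
      (by positivity))
    refine (mul_le_mul_of_nonneg_right c4 (by positivity)).trans (le_of_eq ?_)
    rw [pow_succ _ (j + 1)]
    linear_combination (8 * C * P * (Z * (X * Y) + Z ^ 2 * A)) * D1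
  have e0 : ∑ x ∈ Ico X (2 * X), ∑ y ∈ Ico Y (2 * Y), ∑ h ∈ Icc 1 Z,
      mn Z (β * h * (x : ℝ) ^ 2 / (y : ℝ) ^ 2) = ∑ h ∈ Icc 1 Z, ∑ x ∈ Ico X (2 * X),
        ∑ y ∈ Ico Y (2 * Y), mn Z (β * h * (x : ℝ) ^ 2 / (y : ℝ) ^ 2) := by
    rw [sum_comm (s := Icc 1 Z)]
    exact sum_congr rfl fun x _ => sum_comm
  have sub : Icc 1 Z ⊆ Ico 1 (2 ^ (L + 1)) := fun h hh => by
    rw [mem_Icc] at hh; rw [mem_Ico]; omega
  rw [e0, P3, ← hA]
  refine (sum_le_sum_of_subset_of_nonneg sub fun h _ _ => sum_nonneg fun x _ =>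
    sum_nonneg fun y _ => wm_nn _ _ (by positivity)).trans ?_
  rw [wm_dy]
  refine (sum_le_card_nsmul _ _ _ blk).trans ?_
  rw [card_range, nsmul_eq_mul]
  push_cast
  have U0 : 0 ≤ (Y : ℝ) ^ 3 / X := by positivity
  have V0 : 0 ≤ (Z : ℝ) * (X * Y) + Z ^ 2 * A := by positivity
  have e2 : (Z : ℝ) * X * Y + Z ^ 2 * A + (Y : ℝ) ^ 3 / X
      = (Z * (X * Y) + Z ^ 2 * A) + (Y : ℝ) ^ 3 / X := by ring
  rw [e2]
  generalize (Y : ℝ) ^ 3 / X = U at *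
  generalize (Z : ℝ) * (X * Y) + Z ^ 2 * A = V at *
  have b4 : 0 < 4 / β0 := by positivity
  generalize 4 / β0 = b at *
  have L0 : (0 : ℝ) ≤ (L : ℝ) + 1 := by positivity
  have M1 : 1 ≤ 2 * C' * P * P := by
    have : 1 ≤ C' * P := one_le_mul_of_one_le_of_one_le hC1 P1
    nlinarith
  calc ((L : ℝ) + 1) * (b * U + (L + 1) * (8 * C * P * V))
      ≤ (2 * C' * P) * (b * U * (2 * C' * P * P) + (2 * C' * P) * (8 * C * P * V)) := by
        refine mul_le_mul hLP (add_le_add (le_mul_of_one_le_right (by positivity) M1)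
          (mul_le_mul_of_nonneg_right hLP (by positivity))) (by positivity) (by positivity)
    _ = 4 * C' ^ 2 * P ^ 3 * (b * U + 8 * C * V) := by ring
    _ ≤ 4 * C' ^ 2 * P ^ 3 * ((b + 8 * C) * (V + U)) := by
        refine mul_le_mul_of_nonneg_left ?_ (by positivity)
        have : 0 ≤ b * V := by positivity
        have : 0 ≤ C * U := by positivity
        nlinarith
    _ = 4 * C' ^ 2 * (b + 8 * C) * P ^ 3 * (V + U) := by ring

end Pool.Agent.CubZ
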