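import Pool.Agent.Lib.MP_d79f69_nt.Z3.Basic
import Pool.Agent.Lib.MP_d79f69_nt.PartB

open Matrix MeasureTheory Complex Finset

namespace Pool.Agent.CubZ

open Pool.Agent.CubH

theorem wtg_re {R κ : ℝ} (hR : 1 ≤ R) (hκR : κ ≤ 1 / (4 * R)) {x : V3} {w : C3}
    (hx : Dr (2 * R) x) (hw : ‖w‖ ≤ κ) (i : Fin 3) : 0 < ((cv x + w) i).re := by
  have hR0 : 0 < R := by linarith
  have h1 : |(w i).re| ≤ 1 / (4 * R) :=
    (Complex.abs_re_le_norm _).trans ((norm_le_pi_norm w i).trans (hw.trans hκR))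
  have h2 : 1 / (4 * R) < 1 / (2 * R) := one_div_lt_one_div_of_lt (by positivity) (by linarith)
  have h3 := (hx i).1
  have h4 := (abs_le.1 h1).1
  simp only [Pi.add_apply, cv, Complex.add_re, Complex.ofReal_re]
  linarith

theorem wtg_dr {R : ℝ} (hR : 1 ≤ R) {x y : V3} (hy : ∀ i, 1 / R ≤ y i ∧ y i ≤ R)
    (hxy : ‖y - x‖ ≤ 1 / (16 * R)) : Dr (2 * R) x := by
  intro i
  have hR0 : 0 < R := by linarith
  have a1 := hy i
  have a2 := abs_le.1 ((norm_le_pi_norm (y - x) i).trans hxy)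
  simp only [Pi.sub_apply] at a2
  have a3 : 1 / (16 * R) = 1 / R / 16 := by field_simp
  have a4 : 1 / (2 * R) = 1 / R / 2 := by field_simp
  have a5 : 1 / R ≤ 1 := div_le_self zero_le_one hR
  have a7 : 0 < 1 / R := by positivity
  constructor <;> linarith [a1.1, a1.2, a2.1, a2.2]

theorem stWt (h1 : SB1) (h2 : SB2) (h3 : SB3) (h4 : SB4) : StWt := by
  intro N R κ F hR hκ hκR hF hFc hs
  obtain ⟨C, hC, hB2⟩ := h2 N
  obtain ⟨A, hA, hB4⟩ := h4 F hF hFc N
  have hR0 : 0 < R := by linarith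
  have hκ1 : κ ≤ 1 := hκR.trans (by rw [div_le_one (by positivity)]; linarith)
  have hCκ : 1 ≤ C / κ := by
    rw [le_div_iff₀ hκ]
    linarith
  refine ⟨2 ^ N * A * C * (C / κ) ^ N, by positivity, fun G e hG hexp => ?_⟩
  have he0 : 0 ≤ e := by
    refine (norm_nonneg _).trans (hexp (fun _ => 1) 0 (fun i => ⟨?_, by linarith⟩)
      (by rw [norm_zero]; exact hκ.le))
    rw [div_le_one (by positivity)]
    linarith
  set W : V3 → ℂ := fun x => F x * G (cv x) with hW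
  have hsup : ∀ x, W x ≠ 0 → ∀ i, 1 / R ≤ x i ∧ x i ≤ R := fun x hx =>
    hs _ (mul_ne_zero_iff.1 hx).1
  have hbd : ∀ x, ‖W x‖ ≤ A * e := by
    intro x
    by_cases hx : W x = 0
    · rw [hx, norm_zero]
      positivity
    · have a1 := hexp x 0 (wtg_dr hR (hsup x hx) (by rw [sub_self, norm_zero]; positivity))
        (by rw [norm_zero]; positivity)
      rw [add_zero] at a1
      have a2 := hB4 0 (Nat.zero_le _) x 0
      rw [pow_zero, mul_one] at a2
      rw [hW, norm_mul]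
      exact mul_le_mul a2 a1 (norm_nonneg _) hA.le
  refine ⟨fun x hx i => by rw [mul_one]; exact hsup x hx i, fun k hk x v hv => ?_⟩
  rw [div_one]
  have hq0 : 0 ≤ ‖v‖ := norm_nonneg _
  have hp2 : (2 : ℝ) ^ k ≤ 2 ^ N := pow_le_pow_right₀ (by norm_num) hk
  have hpC : (C / κ) ^ k ≤ (C / κ) ^ N := pow_le_pow_right₀ hCκ hk
  by_cases hz : ∀ j ≤ k, W (x + (j : ℝ) • v) = 0
  · rw [part_vanish hz, norm_zero]
    positivity
  push Not at hz
  obtain ⟨j, hj, hj0⟩ := hz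
  have hx : Dr (2 * R) x := by
    refine wtg_dr hR (hsup _ hj0) ?_
    rw [add_sub_cancel_left, norm_smul, Real.norm_natCast]
    refine le_trans (mul_le_mul_of_nonneg_right ?_ (norm_nonneg _)) hv
    exact_mod_cast hj.trans hk
  by_cases hbig : 1 ≤ (C / κ * ‖v‖) ^ k
  · refine (part_triv hbd v k x).trans ?_
    rw [mul_pow] at hbig
    calc 2 ^ k * (A * e) ≤ 2 ^ N * (A * e) * C * ((C / κ) ^ k * ‖v‖ ^ k) := by
          have b1 : 2 ^ k * (A * e) ≤ 2 ^ N * (A * e) := by gcongr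
          have b2 : 2 ^ N * (A * e) ≤ 2 ^ N * (A * e) * C :=
            le_mul_of_one_le_right (by positivity) hC
          exact b1.trans (b2.trans (le_mul_of_one_le_right (by positivity) hbig))
      _ ≤ 2 ^ N * (A * e) * C * ((C / κ) ^ N * ‖v‖ ^ k) := by gcongr
      _ = _ := by ring
  have hsm : C / κ * ‖v‖ ≤ 1 := by
    by_contra h7
    exact hbig (one_le_pow₀ (not_le.1 h7).le)
  by_cases hv0 : v = 0
  · have hk0 : k ≠ 0 := by
      rintro rfl
      exact hbig (by rw [pow_zero])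
    obtain ⟨k, rfl⟩ := Nat.exists_eq_succ_of_ne_zero hk0
    rw [Function.iterate_succ_apply', fwdDiff, hv0, add_zero, sub_self, norm_zero]
    positivity
  have hv1 : 0 < ‖v‖ := norm_pos_iff.2 hv0
  set ρ := κ / ‖v‖ with hρ
  have hρ0 : 0 < ρ := by positivity
  have hCρ : C ≤ ρ := by
    rw [hρ, le_div_iff₀ hv1]
    rw [div_mul_eq_mul_div, div_le_one hκ] at hsm
    exact hsm
  have hqρ : ‖v‖ = κ / ρ := by
    rw [hρ]
    field_simp
  have hcv : ∀ t : ℂ, t ∈ Metric.ball (0 : ℂ) ρ → ‖t • cv v‖ ≤ κ := by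
    intro t ht
    have a1 : ‖cv v‖ ≤ ‖v‖ := (pi_norm_le_iff_of_nonneg hv1.le).2 fun i => by
      rw [cv, Complex.norm_real]
      exact norm_le_pi_norm v i
    rw [mem_ball_zero_iff, hρ, lt_div_iff₀ hv1] at ht
    rw [norm_smul]
    exact (mul_le_mul_of_nonneg_left a1 (norm_nonneg _)).trans ht.le
  have hE := hB2 e ρ (fun t => G (cv x + t • cv v)) hCρ
    (hG.comp (f := fun t : ℂ => cv x + t • cv v) (by fun_prop)
      (fun t ht i => wtg_re hR hκR hx (hcv t ht) i))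
    (fun t ht => hexp x _ hx (hcv t ht))
  have hS : Dd N A ρ (fun n : ℕ => F (x + (n : ℝ) • v)) := by
    intro k' j' hkj
    rw [h3.1]
    refine (hB4 k' (by omega) _ _).trans ?_
    rw [hqρ, div_pow, ← mul_div_assoc]
    exact div_le_div_of_nonneg_right
      (mul_le_of_le_one_right hA.le (pow_le_one₀ hκ.le hκ1)) (by positivity)
  have hP := h1 N _ _ ρ _ _ hρ0 hS hE k 0 (by omega)
  have hfun : (fun n : ℕ => F (x + (n : ℝ) • v) * G (cv x + (n : ℂ) • cv v)) =
      fun n : ℕ => W (x + (n : ℝ) • v) := by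
    funext n
    have a1 : cv x + (n : ℂ) • cv v = cv (x + (n : ℝ) • v) := by
      ext i
      simp [cv]
    rw [hW, a1]
  rw [hfun, h3.1, Nat.cast_zero, zero_smul, add_zero] at hP
  refine hP.trans ?_
  have b1 : 1 / ρ ^ k ≤ (C / κ) ^ N * ‖v‖ ^ k := by
    refine le_trans ?_ (mul_le_mul_of_nonneg_right hpC (by positivity))
    rw [← mul_pow, hqρ, ← _root_.one_div_pow]
    refine pow_le_pow_left₀ (by positivity) ?_ k
    rw [show C / κ * (κ / ρ) = C / ρ by field_simp]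
    exact div_le_div_of_nonneg_right hC hρ0.le
  calc 2 ^ N * A * (C * e) / ρ ^ k = 2 ^ N * A * (C * e) * (1 / ρ ^ k) := by ring
    _ ≤ 2 ^ N * A * (C * e) * ((C / κ) ^ N * ‖v‖ ^ k) := by gcongr
    _ = _ := by ring

end Pool.Agent.CubZ
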