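import Pool.Agent.Lib.MP_d79f69_nt.Z3.Basic
import Pool.Agent.Lib.MP_d79f69_nt.Quad

open Matrix MeasureTheory Complex Finset

namespace Pool.Agent.CubZ

open Pool.Agent.CubH

lemma wy_id (e : ℕ → ℂ) (he : ∀ n, ‖e n‖ = 1) (Z N : ℕ) (hN : N ≤ Z) :
    ‖∑ n ∈ range N, e n‖ ^ 2 = N + 2 * (∑ h ∈ Icc 1 Z, ∑ n ∈ range (N - h),
      e (n + h) * (starRingEnd ℂ) (e n)).re := by
  induction N with
  | zero => simp
  | succ N ih =>
    have h1 : ∑ h ∈ Icc 1 Z, ∑ n ∈ range (N + 1 - h), e (n + h) * (starRingEnd ℂ) (e n) =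
        ∑ h ∈ Icc 1 Z, ∑ n ∈ range (N - h), e (n + h) * (starRingEnd ℂ) (e n) +
        ∑ h ∈ Icc 1 Z, if h ≤ N then e N * (starRingEnd ℂ) (e (N - h)) else 0 := by
      rw [← Finset.sum_add_distrib]
      refine Finset.sum_congr rfl fun h hh => ?_
      split_ifs with hc
      · rw [show N + 1 - h = N - h + 1 by omega, Finset.sum_range_succ, Nat.sub_add_cancel hc]
      · have := (Finset.mem_Icc.1 hh).1
        rw [show N + 1 - h = 0 by omega, show N - h = 0 by omega, add_zero]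
    have h2 : (∑ h ∈ Icc 1 Z, if h ≤ N then e N * (starRingEnd ℂ) (e (N - h)) else 0) =
        e N * (starRingEnd ℂ) (∑ n ∈ range N, e n) := by
      rw [← Finset.sum_filter, map_sum, Finset.mul_sum]
      refine Finset.sum_bij' (fun h _ => N - h) (fun n _ => N - n) ?_ ?_ ?_ ?_ ?_
      · intro h hh; simp only [mem_filter, mem_Icc, mem_range] at hh ⊢; omega
      · intro h hh; simp only [mem_filter, mem_Icc, mem_range] at hh ⊢; omega
      · intro h hh; simp only [mem_filter, mem_Icc] at hh ⊢; omega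
      · intro h hh; simp only [mem_range] at hh ⊢; omega
      · intro h _; rfl
    rw [h1, h2, Finset.sum_range_succ, add_comm _ (e N), Complex.sq_norm, Complex.normSq_add,
      ← Complex.sq_norm, ← Complex.sq_norm, he, ih (by omega), Complex.add_re]
    push_cast
    ring

lemma wy_geo (α c : ℝ) {Z M : ℕ} (hZ : 1 ≤ Z) (hM : M ≤ Z) :
    ‖∑ n ∈ range M, ee (α * n + c)‖ ≤ mn Z α := by
  have Z0 : (0 : ℝ) < Z := by exact_mod_cast hZ
  unfold mn
  rw [le_div_iff₀ (lt_of_lt_of_le one_pos (le_max_left _ _))]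
  have t : ‖∑ n ∈ range M, ee (α * n + c)‖ ≤ Z := by
    refine (quad_triv _ _).trans ?_
    rw [card_range]; exact_mod_cast hM
  rcases le_total (Z * |α - round α|) 1 with h | h
  · rw [max_eq_left h, mul_one]; exact t
  · rw [max_eq_right h]
    have h0 : α - round α ≠ 0 := fun e => by rw [e, abs_zero, mul_zero] at h; linarith
    have g := quad_geo h0 (abs_sub_round α) 0 M c
    have e : ∑ n ∈ range M, ee (α * n + c) =
        ∑ t ∈ Ico (0 : ℤ) M, ee ((α - round α) * t + c) := by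
      refine Finset.sum_bij' (fun n _ => (n : ℤ)) (fun t _ => t.toNat) ?_ ?_ ?_ ?_ ?_
      · intro h hh; simp only [mem_Ico, mem_range] at hh ⊢; omega
      · intro h hh; simp only [mem_Ico, mem_range] at hh ⊢; omega
      · intro h _; simp
      · intro h hh; simp only [mem_Ico] at hh ⊢; omega
      · intro n _
        have := quad_ee_add ((α - round α) * n + c) ((round α * n : ℤ) : ℝ)
        rw [quad_ee_int, mul_one] at this
        rw [Int.cast_natCast, ← this]
        congr 1; push_cast; ring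
    rw [e]
    have a0 : 0 < |α - round α| := abs_pos.2 h0
    rw [le_div_iff₀ (by positivity)] at g
    nlinarith [norm_nonneg (∑ t ∈ Ico (0 : ℤ) M, ee ((α - round α) * t + c))]

lemma wy_weyl (θ : ℝ) (p : ℕ) {Z N : ℕ} (hZ : 1 ≤ Z) (hN : N ≤ Z) :
    ‖∑ n ∈ range N, ee (θ * ((p + n : ℕ) : ℝ) ^ 2)‖ ^ 2 ≤ Z + 2 * ∑ h ∈ Icc 1 Z, mn Z (2 * θ * h) := by
  rw [wy_id _ (fun _ => quad_norm_ee _) Z N hN]
  refine add_le_add (by exact_mod_cast hN) (mul_le_mul_of_nonneg_left ?_ zero_le_two)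
  refine (Complex.re_le_norm _).trans ((norm_sum_le _ _).trans (Finset.sum_le_sum fun h _ => ?_))
  refine le_trans (le_of_eq ?_) (wy_geo (2 * θ * h) (θ * (2 * p * h + h ^ 2)) hZ (M := N - h) (by omega))
  congr 1
  refine Finset.sum_congr rfl fun n _ => ?_
  rw [quad_conj_ee, ← quad_ee_add]
  congr 1; push_cast; ring

lemma wy_abel (a e : ℕ → ℂ) (S : ℝ) (N : ℕ) (hS : ∀ k ≤ N + 1, ‖∑ n ∈ range k, e n‖ ≤ S) :
    ‖∑ n ∈ range (N + 1), a n * e n‖ ≤ (‖a N‖ + ∑ n ∈ range N, ‖a (n + 1) - a n‖) * S := by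
  have := Finset.sum_range_by_parts a e (N + 1)
  simp only [smul_eq_mul, Nat.add_sub_cancel] at this
  rw [this, add_mul, Finset.sum_mul]
  refine (norm_sub_le _ _).trans (add_le_add ?_ ((norm_sum_le _ _).trans
    (Finset.sum_le_sum fun n hn => ?_)))
  · rw [norm_mul]; exact mul_le_mul_of_nonneg_left (hS _ le_rfl) (norm_nonneg _)
  · rw [norm_mul]
    exact mul_le_mul_of_nonneg_left (hS _ (by have := mem_range.1 hn; omega)) (norm_nonneg _)

theorem stWy : StWy := by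
  intro θ B Z p q a hZ hq hB h1 h2
  have m0 : 0 ≤ (Z : ℝ) + 2 * ∑ h ∈ Icc 1 Z, mn Z (2 * θ * h) :=
    le_trans (sq_nonneg _) (wy_weyl θ 0 hZ (Nat.zero_le Z))
  rcases le_or_gt q p with hpq | hpq
  · rw [Finset.Ico_eq_empty_of_le hpq]; simp only [sum_empty, norm_zero]; nlinarith [sq_nonneg B]
  obtain ⟨N, rfl⟩ : ∃ N, q = p + (N + 1) := ⟨q - p - 1, by omega⟩
  rw [Finset.sum_Ico_eq_sum_range, Nat.add_sub_cancel_left]
  rw [Finset.sum_Ico_eq_sum_range, show p + (N + 1) - 1 - p = N by omega] at h2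
  have k := wy_abel (fun n => a (p + n)) (fun n => ee (θ * ((p + n : ℕ) : ℝ) ^ 2)) _ N
    (fun k hk => Real.le_sqrt_of_sq_le (wy_weyl θ p hZ (N := k) (by omega)))
  have h3 := h1 (p + N) (by rw [mem_Ico]; omega)
  have k2 := k.trans (mul_le_mul_of_nonneg_right (add_le_add h3 h2) (Real.sqrt_nonneg _))
  refine (pow_le_pow_left₀ (norm_nonneg _) k2 2).trans (le_of_eq ?_)
  rw [mul_pow, Real.sq_sqrt m0]; ring

end Pool.Agent.CubZ
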