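import Pool.Agent.Lib.MP_d79f69_nt.Z3.Basic
import Pool.Agent.Lib.MP_d79f69_nt.PL
import Pool.Agent.Lib.MP_d79f69_nt.CM

open Matrix MeasureTheory Complex Finset

namespace Pool.Agent.CubZ

open Pool.Agent.CubH

/-- A Mellin transform that converges everywhere is bounded on vertical strips. -/
theorem xi_mellin (f : ℝ → ℂ) (a b : ℝ) (hf : ∀ s, MellinConvergent f s) :
    ∃ B : ℝ, 0 ≤ B ∧ ∀ s : ℂ, a ≤ s.re → s.re ≤ b → ‖mellin f s‖ ≤ B := by
  have h1 : IntegrableOn (fun t : ℝ => ‖(t : ℂ) ^ ((a : ℂ) - 1) • f t‖ +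
      ‖(t : ℂ) ^ ((b : ℂ) - 1) • f t‖) (Set.Ioi 0) := (hf a).norm.add (hf b).norm
  refine ⟨_, integral_nonneg fun t => add_nonneg (norm_nonneg _) (norm_nonneg _),
    fun s ha hb => norm_integral_le_of_norm_le h1 ?_⟩
  filter_upwards [ae_restrict_mem measurableSet_Ioi] with t ht
  have ht' : 0 < t := ht
  rw [norm_smul, norm_smul, norm_smul, ← add_mul, norm_cpow_eq_rpow_re_of_pos ht',
    norm_cpow_eq_rpow_re_of_pos ht', norm_cpow_eq_rpow_re_of_pos ht']
  refine mul_le_mul_of_nonneg_right ?_ (norm_nonneg _)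
  simp only [sub_re, ofReal_re, one_re]
  have h2 := Real.rpow_nonneg ht'.le (a - 1)
  have h3 := Real.rpow_nonneg ht'.le (b - 1)
  rcases le_total t 1 with h | h
  · have := Real.rpow_le_rpow_of_exponent_ge ht' h (show a - 1 ≤ s.re - 1 by linarith)
    linarith
  · have := Real.rpow_le_rpow_of_exponent_le h (show s.re - 1 ≤ b - 1 by linarith)
    linarith

theorem xi_bdd : ∃ B : ℝ, 0 ≤ B ∧ ∀ z : ℂ, -(1 / 2) ≤ z.re → z.re ≤ 2 →
    ‖completedRiemannZeta₀ z‖ ≤ B := by
  obtain ⟨B, h0, hB⟩ := xi_mellin (HurwitzZeta.hurwitzEvenFEPair 0).f_modif (-(1 / 4)) 1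
    fun s => ((HurwitzZeta.hurwitzEvenFEPair 0).isStrongFEPair_toStrongFEPair.hasMellin s).1
  refine ⟨B, h0, fun z h1 h2 => ?_⟩
  have e : (z / 2).re = z.re / 2 := by simp
  have h3 := hB (z / 2) (by rw [e]; linarith) (by rw [e]; linarith)
  have h4 : completedRiemannZeta₀ z =
      mellin (HurwitzZeta.hurwitzEvenFEPair 0).f_modif (z / 2) / 2 := rfl
  rw [h4, norm_div]
  simp only [Complex.norm_ofNat]
  linarith

/-- The entire function that extends the product of `z - 1` and zeta. -/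
noncomputable def xiG (z : ℂ) : ℂ :=
  (z * (z - 1) * completedRiemannZeta₀ z + 1) * (Gammaℝ (z + 2))⁻¹ / (2 * Real.pi)

theorem xi_diff : Differentiable ℂ xiG := by
  have h1 : Differentiable ℂ fun z : ℂ => (Gammaℝ (z + 2))⁻¹ :=
    differentiable_Gammaℝ_inv.comp (differentiable_id.add_const 2)
  exact ((((differentiable_id.mul (differentiable_id.sub_const 1)).mul
    differentiable_completedZeta₀).add_const 1).mul h1).div_const _

theorem xi_eq (z : ℂ) (hz : z ≠ 1) : xiG z = (z - 1) * riemannZeta z := by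
  have hp : (Real.pi : ℂ) ≠ 0 := Complex.ofReal_ne_zero.mpr Real.pi_ne_zero
  by_cases h0 : z = 0
  · subst h0
    have h2 : Gammaℝ 2 = (Real.pi : ℂ)⁻¹ := by
      rw [Gammaℝ_def, show -(2 : ℂ) / 2 = -1 by norm_num, show (2 : ℂ) / 2 = 1 by norm_num,
        Complex.Gamma_one, mul_one, cpow_neg_one]
    rw [xiG, riemannZeta_zero, zero_add (2 : ℂ), h2, inv_inv]
    field_simp
    ring
  · have h1 : 1 - z ≠ 0 := sub_ne_zero.2 hz.symm
    rw [xiG, riemannZeta_def_of_ne_zero h0, completedRiemannZeta_eq, div_eq_mul_inv _ (Gammaℝ z),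
      plShift2 z h0]
    field_simp
    ring

theorem xi_bound (hS : SSt) : ∃ C : ℝ, 0 < C ∧ ∀ z : ℂ, -(1 / 2) ≤ z.re → z.re ≤ 2 →
    ‖xiG z‖ ≤ C * Real.exp (3 * |z.im|) := by
  obtain ⟨B, hB0, hB⟩ := xi_bdd
  obtain ⟨C, hC, hG⟩ := plInvR hS
  obtain ⟨P, hP, hP'⟩ := poly_le_exp 2
  obtain ⟨K, hK⟩ := (isCompact_closedBall (0 : ℂ) (2 + C)).exists_bound_of_continuousOn
    xi_diff.continuous.continuousOn
  have he : 0 < Real.exp 7 := Real.exp_pos 7
  have hK0 : 0 ≤ K := (norm_nonneg _).trans (hK 0 (Metric.mem_closedBall_self (by linarith)))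
  have hQ : 0 < (4 * B + 1) * P * Real.exp 7 := by positivity
  refine ⟨K + (4 * B + 1) * P * Real.exp 7, by positivity, fun z h1 h2 => ?_⟩
  have hy : 0 ≤ |z.im| := abs_nonneg _
  have hE : 1 ≤ Real.exp (3 * |z.im|) := Real.one_le_exp (by positivity)
  have hz : ‖z‖ ≤ 2 + |z.im| := (norm_le_abs_re_add_abs_im z).trans
    (by have : |z.re| ≤ 2 := abs_le.2 ⟨by linarith, h2⟩; linarith)
  rcases le_total |z.im| C with h | h
  · have h3 := hK z (by rw [mem_closedBall_zero_iff]; linarith)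
    nlinarith
  · have hz1 : ‖z - 1‖ ≤ 2 + |z.im| := (norm_le_abs_re_add_abs_im _).trans (by
      have : |(z - 1).re| ≤ 2 := by
        rw [sub_re, one_re]; exact abs_le.2 ⟨by linarith, by linarith⟩
      rw [sub_im, one_im, sub_zero]; linarith)
    have h3 := hG (z + 2) (by simp; linarith) (by simp; linarith) (by simpa using h)
    rw [show (z + 2).im = z.im by simp] at h3
    have h4 : ‖z * (z - 1) * completedRiemannZeta₀ z + 1‖ ≤ (4 * B + 1) * (1 + |z.im|) ^ 2 := by
      refine (norm_add_le _ _).trans ?_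
      rw [norm_mul, norm_mul, norm_one]
      have h5 : ‖z‖ * ‖z - 1‖ ≤ 4 * (1 + |z.im|) ^ 2 :=
        (mul_le_mul hz hz1 (norm_nonneg _) (by linarith)).trans (by nlinarith)
      have h6 := mul_le_mul h5 (hB z h1 h2) (norm_nonneg _) (by positivity)
      nlinarith
    have h5 : ‖xiG z‖ ≤
        ‖z * (z - 1) * completedRiemannZeta₀ z + 1‖ * ‖(Gammaℝ (z + 2))⁻¹‖ := by
      rw [xiG, norm_div, norm_mul]
      refine div_le_self (by positivity) ?_
      rw [norm_mul, Complex.norm_real, Complex.norm_ofNat, Real.norm_of_nonneg Real.pi_pos.le]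
      linarith [Real.pi_gt_three]
    have h6 : (4 * B + 1) * (1 + |z.im|) ^ 2 ≤ (4 * B + 1) * (P * Real.exp |z.im|) :=
      mul_le_mul_of_nonneg_left (hP' _ hy) (by positivity)
    have h7 := mul_le_mul (h4.trans h6) h3 (norm_nonneg _) (by positivity)
    have e : (4 * B + 1) * (P * Real.exp |z.im|) * Real.exp (7 + 2 * |z.im|) =
        (4 * B + 1) * P * Real.exp 7 * Real.exp (3 * |z.im|) := by
      rw [show 3 * |z.im| = |z.im| + 2 * |z.im| by ring, Real.exp_add, Real.exp_add]; ring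
    rw [e] at h7
    nlinarith [mul_nonneg hK0 (Real.exp_pos (3 * |z.im|)).le]

theorem stXi (hS : SSt) : StXi := by
  refine ⟨⟨xiG, xi_diff, xi_eq, xi_bound hS⟩, fun z h1 h2 => ?_, ?_⟩
  · have h0 : z ≠ 0 := fun h => by simp [h] at h2
    have h3 : 0 < (1 - z).re := by simp; linarith
    have h4 : 1 - z ≠ 0 := fun h => by simp [h] at h3
    have h5 := Gammaℝ_ne_zero_of_re_pos h3
    rw [riemannZeta_def_of_ne_zero h0, riemannZeta_def_of_ne_zero h4, completedRiemannZeta_one_sub,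
      chi]
    field_simp
  · have hl : Continuous fun t : ℝ => (1 / 2 + t * I : ℂ) := by fun_prop
    have hne : ∀ t : ℝ, Gammaℝ (1 / 2 + t * I) ≠ 0 := fun t =>
      Gammaℝ_ne_zero_of_re_pos (by simp)
    have hG : Continuous fun t : ℝ => Gammaℝ (1 / 2 + t * I) := by
      have := (differentiable_Gammaℝ_inv.continuous.comp hl).inv₀ fun t => inv_ne_zero (hne t)
      exact this.congr fun t => inv_inv _
    have hz : Continuous fun t : ℝ => riemannZeta (1 / 2 + t * I) :=
      continuous_iff_continuousAt.2 fun t => ContinuousAt.comp (f := fun t : ℝ => (1 / 2 + t * I : ℂ))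
        (differentiableAt_riemannZeta fun h => by
          have := congrArg Complex.re h
          norm_num at this).continuousAt hl.continuousAt
    exact hz.mul (hG.div (continuous_ofReal.comp hG.norm) fun t =>
      ofReal_ne_zero.2 (norm_ne_zero_iff.2 (hne t)))

end Pool.Agent.CubZ
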