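import Pool.Agent.Lib.MP_d79f69_nt.Tay
import Pool.Agent.Lib.MP_d79f69_nt.Geo
import Pool.Agent.Lib.MP_d79f69_nt.Exp
import Pool.Agent.Lib.MP_d79f69_nt.Dif1
import Pool.Agent.Lib.MP_d79f69_nt.Dif2
import Pool.Agent.Lib.MP_d79f69_nt.Quad
import Pool.Agent.Lib.MP_d79f69_nt.Cap
import Pool.Agent.Lib.MP_d79f69_nt.Rad
import Pool.Agent.Lib.MP_d79f69_nt.CoreA
import Pool.Agent.Lib.MP_d79f69_nt.Stir
import Pool.Agent.Lib.MP_d79f69_nt.Z3.V1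
import Pool.Agent.Lib.MP_d79f69_nt.Z3.V2
import Pool.Agent.Lib.MP_d79f69_nt.Z3.Chi1
import Pool.Agent.Lib.MP_d79f69_nt.Z3.Chi2
import Pool.Agent.Lib.MP_d79f69_nt.Z3.Xi
import Pool.Agent.Lib.MP_d79f69_nt.Z3.Ax
import Pool.Agent.Lib.MP_d79f69_nt.Z3.Ad
import Pool.Agent.Lib.MP_d79f69_nt.Z3.Ae
import Pool.Agent.Lib.MP_d79f69_nt.Z3.Sz
import Pool.Agent.Lib.MP_d79f69_nt.Z3.Afe
import Pool.Agent.Lib.MP_d79f69_nt.Z3.J
import Pool.Agent.Lib.MP_d79f69_nt.Z3.Js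
import Pool.Agent.Lib.MP_d79f69_nt.Z3.Mix
import Pool.Agent.Lib.MP_d79f69_nt.Z3.Dv
import Pool.Agent.Lib.MP_d79f69_nt.Z3.Cp
import Pool.Agent.Lib.MP_d79f69_nt.Z3.Cnt
import Pool.Agent.Lib.MP_d79f69_nt.Z3.Wm
import Pool.Agent.Lib.MP_d79f69_nt.Z3.Wy
import Pool.Agent.Lib.MP_d79f69_nt.Z3.Mv
import Pool.Agent.Lib.MP_d79f69_nt.Z3.Qb
import Pool.Agent.Lib.MP_d79f69_nt.Z3.Qs
import Pool.Agent.Lib.MP_d79f69_nt.Z3.HU
import Pool.Agent.Lib.MP_d79f69_nt.Z3.RU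
import Pool.Agent.Lib.MP_d79f69_nt.Z3.E0
import Pool.Agent.Lib.MP_d79f69_nt.Z3.Bx
import Pool.Agent.Lib.MP_d79f69_nt.Z3.WtG
import Pool.Agent.Lib.MP_d79f69_nt.Z3.T3g
import Pool.Agent.Lib.MP_d79f69_nt.Z3.T3s
import Pool.Agent.Lib.MP_d79f69_nt.Z3.PPP
import Pool.Agent.Lib.MP_d79f69_nt.Z3.PPQ
import Pool.Agent.Lib.MP_d79f69_nt.Z3.PQQ
import Pool.Agent.Lib.MP_d79f69_nt.Z3.QQQ
import Pool.Agent.Lib.MP_d79f69_nt.Z3.Err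
import Pool.Agent.Lib.MP_d79f69_nt.Z3.Main
import Pool.Agent.Lib.MP_d79f69_nt.Z3.Desc
import Pool.Agent.Lib.MP_d79f69_nt.Z3.Uns

open MeasureTheory

namespace Pool.Agent.CubZ

open Pool.Agent.CubH

theorem thmBox : StBox :=
  stBox (stE0 sA (stHU (sEx sBa sTc) sBa sB1 sB2 sB3 sB5 sB6 sC)
    (stRU (sR sGe sS (sR1 sTr sGe sQ) (sR2 sTr sGe))))

theorem thmAfe : StAfe :=
  stAfe (stAx (stXi sSt) stV2) (stAd stV1 stV2) (stAe stV1 stV2 (stChi1 sSt) (stXi sSt))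
    (stSz stV1) (stChi2 sSt) (stXi sSt)

theorem thmMain : StMain :=
  have hJ := stJs (stJ sSt)
  have hQ := stQs (stQb (stWm (stCnt stDv stCp)) stWy stMv)
  have hS := stSz stV1
  have hM := stMix stV2
  stMain (stPPP hJ (st3 (st3g thmBox (stWt sB1 sB2 sB3 sB4) stV1 sBa sTc) stV1) hS)
    (stPPQ hJ hM hQ hS stV1) (stPQQ hJ hM hQ hS stV1) (stQQQ hJ hM hS)
    (stErr thmAfe hS (stXi sSt)) hS thmAfe (stXi sSt)

theorem cubic (α β γ : ℝ) : ∃ C : ℝ, ∀ T : ℝ, 1 ≤ T →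
    ‖∫ t in (0 : ℝ)..T, Zf (t + α) * Zf (t + β) * Zf (t + γ)‖ ≤ C * T ^ (1 - (1 : ℝ) / 120000) := by
  have hc := (stXi sSt).2.2
  have hf : Continuous fun t => Zf (t + α) * Zf (t + β) * Zf (t + γ) := by fun_prop
  obtain ⟨C1, h1, k1⟩ := (thmAfe α).2.2
  obtain ⟨C2, h2, k2⟩ := (thmAfe β).2.2
  obtain ⟨C3, h3, k3⟩ := (thmAfe γ).2.2
  have hb : ∀ t : ℝ, 0 ≤ t →
      ‖Zf (t + α) * Zf (t + β) * Zf (t + γ)‖ ≤ C1 * C2 * C3 * (1 + t) ^ ((9 : ℝ) / 10) := by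
    intro t ht
    have e : (1 + t) ^ ((9 : ℝ) / 10) =
        (1 + t) ^ ((3 : ℝ) / 10) * (1 + t) ^ ((3 : ℝ) / 10) * (1 + t) ^ ((3 : ℝ) / 10) := by
      rw [← Real.rpow_add (by linarith), ← Real.rpow_add (by linarith)]; norm_num
    rw [norm_mul, norm_mul, e]
    calc _ ≤ C1 * (1 + t) ^ ((3 : ℝ) / 10) * (C2 * (1 + t) ^ ((3 : ℝ) / 10)) *
          (C3 * (1 + t) ^ ((3 : ℝ) / 10)) := by
          have := k1 t ht; have := k2 t ht; have := k3 t ht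
          gcongr
      _ = _ := by ring
  refine stUns _ hf ⟨_, hb⟩ (stDesc _ 200000 hf ⟨C1 * C2 * C3, fun t ht => (hb t ht).trans ?_⟩
    (thmMain 200000 α β γ le_rfl))
  refine mul_le_mul_of_nonneg_left ?_ (by positivity)
  calc _ ≤ (1 + t) ^ (1 : ℝ) := Real.rpow_le_rpow_of_exponent_le (by linarith) (by norm_num)
    _ = _ := Real.rpow_one _

end Pool.Agent.CubZ
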