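import Pool.Agent.Lib.MP_d79f69_nt.Z3.Defs

/-! Small lemmas on the basic functions. -/

open MeasureTheory Complex Finset

namespace Pool.Agent.CubZ

open Pool.Agent.CubH

theorem ei_add (x y : ℝ) : ei (x + y) = ei x * ei y := by
  unfold ei; rw [← Complex.exp_add]; congr 1; push_cast; ring

@[simp] theorem norm_ei (x : ℝ) : ‖ei x‖ = 1 := Complex.norm_exp_ofReal_mul_I x

@[simp] theorem ei_zero : ei 0 = 1 := by simp [ei]

theorem ei_conj (x : ℝ) : (starRingEnd ℂ) (ei x) = ei (-x) := by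
  unfold ei; rw [← Complex.exp_conj]; congr 1; simp

theorem continuous_ei : Continuous ei := by unfold ei; fun_prop

theorem ee_eq_ei (x : ℝ) : ee x = ei (2 * Real.pi * x) := by
  unfold ee ei; congr 1; push_cast; ring

theorem norm_ei_sub (x y : ℝ) : ‖ei x - ei y‖ ≤ |x - y| := by
  have e : ei x - ei y = ei y * (ei (x - y) - 1) := by
    rw [mul_sub, ← ei_add, mul_one]; congr 2; ring
  rw [e, norm_mul, norm_ei, one_mul]
  have := Real.norm_exp_I_mul_ofReal_sub_one_le (x := x - y)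
  rw [mul_comm] at this
  simpa [ei] using this

theorem pw_add (y : ℝ) (v w : ℂ) : pw y (v + w) = pw y v * pw y w := by
  unfold pw; rw [← Complex.exp_add]; congr 1; ring

@[simp] theorem pw_zero (y : ℝ) : pw y 0 = 1 := by simp [pw]

@[simp] theorem pw_one_left (w : ℂ) : pw 1 w = 1 := by simp [pw]

theorem pw_ne_zero (y : ℝ) (w : ℂ) : pw y w ≠ 0 := Complex.exp_ne_zero _

theorem norm_pw {y : ℝ} (hy : 0 < y) (w : ℂ) : ‖pw y w‖ = y ^ w.re := by
  unfold pw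
  rw [Complex.norm_exp, Real.rpow_def_of_pos hy, Complex.re_mul_ofReal, mul_comm]

theorem pw_mul {y z : ℝ} (hy : 0 < y) (hz : 0 < z) (w : ℂ) : pw (y * z) w = pw y w * pw z w := by
  unfold pw; rw [← Complex.exp_add, Real.log_mul hy.ne' hz.ne']; congr 1; push_cast; ring

theorem pw_div {y z : ℝ} (hy : 0 < y) (hz : 0 < z) (w : ℂ) :
    pw (y / z) w = pw y w * pw z (-w) := by
  unfold pw; rw [← Complex.exp_add, Real.log_div hy.ne' hz.ne']; congr 1; push_cast; ring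

theorem pw_conj (y : ℝ) (w : ℂ) : (starRingEnd ℂ) (pw y w) = pw y ((starRingEnd ℂ) w) := by
  unfold pw; rw [← Complex.exp_conj, map_mul, Complex.conj_ofReal]

theorem pw_eq_cpow {y : ℝ} (hy : 0 < y) (w : ℂ) : pw y w = (y : ℂ) ^ w := by
  unfold pw
  rw [Complex.cpow_def_of_ne_zero (by exact_mod_cast hy.ne'), ← Complex.ofReal_log hy.le, mul_comm]

theorem pw_I (y τ : ℝ) : pw y (τ * I) = ei (τ * Real.log y) := by
  unfold pw ei; congr 1; push_cast; ring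

theorem pw_real {y : ℝ} (hy : 0 < y) (r : ℝ) : pw y r = ((y ^ r : ℝ) : ℂ) := by
  unfold pw
  rw [Real.rpow_def_of_pos hy, Complex.ofReal_exp]; congr 1; push_cast; ring

theorem pw_nat {y : ℝ} (hy : 0 < y) (n : ℕ) : pw y n = (y : ℂ) ^ n := by
  rw [pw_eq_cpow hy, Complex.cpow_natCast]

theorem continuousOn_pw (w : ℂ) : ContinuousOn (fun t => pw t w) (Set.Ioi 0) := by
  unfold pw
  refine Complex.continuous_exp.comp_continuousOn (continuousOn_const.mul ?_)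
  exact Complex.continuous_ofReal.comp_continuousOn
    (Real.continuousOn_log.mono fun t ht => ne_of_gt ht)

theorem continuous_pw (y : ℝ) : Continuous (pw y) := by unfold pw; fun_prop

theorem differentiable_pw (y : ℝ) : Differentiable ℂ (pw y) := by unfold pw; fun_prop

theorem continuousOn_tht : ContinuousOn tht (Set.Ioi 0) := by
  unfold tht
  have := Real.pi_pos
  refine ContinuousOn.sub (ContinuousOn.sub (ContinuousOn.mul (by fun_prop) ?_) (by fun_prop))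
    continuousOn_const
  exact ContinuousOn.log (by fun_prop) fun t ht => by
    have : 0 < t := ht
    positivity

/-- `‖(n+1)^w - n^w‖ ≤ ‖w‖ / n` for `Re w ≤ 0` -/
theorem pw_diff {w : ℂ} (hw : w.re ≤ 0) {n : ℕ} (hn : 1 ≤ n) :
    ‖pw ((n + 1 : ℕ) : ℝ) w - pw n w‖ ≤ ‖w‖ / n := by
  have hn1 : (1 : ℝ) ≤ n := by exact_mod_cast hn
  have hd : ∀ y ∈ Set.Icc (n : ℝ) (n + 1), HasDerivWithinAt (fun y : ℝ => pw y w)
      (pw y w * (w * (y⁻¹ : ℝ))) (Set.Icc (n : ℝ) (n + 1)) y := by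
    intro y hy
    have hy0 : y ≠ 0 := by linarith [hy.1]
    exact (((Real.hasDerivAt_log hy0).ofReal_comp.const_mul w).cexp).hasDerivWithinAt
  have hb : ∀ y ∈ Set.Ico (n : ℝ) (n + 1), ‖pw y w * (w * (y⁻¹ : ℝ))‖ ≤ ‖w‖ / n := by
    intro y hy
    have hy0 : 0 < y := by linarith [hy.1]
    rw [norm_mul, norm_mul, norm_pw hy0, Complex.norm_real, Real.norm_of_nonneg (by positivity)]
    have h1 : y ^ w.re ≤ 1 := Real.rpow_le_one_of_one_le_of_nonpos (by linarith [hy.1]) hw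
    have h2 : y⁻¹ ≤ (n : ℝ)⁻¹ := inv_anti₀ (by linarith) hy.1
    calc _ ≤ 1 * (‖w‖ * (n : ℝ)⁻¹) := by gcongr
      _ = _ := by rw [one_mul, div_eq_mul_inv]
  have := norm_image_sub_le_of_norm_deriv_le_segment' hd hb (n + 1) (by simp)
  simpa using this

theorem norm_gw_le {σ : ℝ} (hσ : σ ≠ 0) (v : ℝ) :
    ‖gw (σ + v * I)‖ ≤ Real.exp (σ ^ 2 - v ^ 2) / |σ| := by
  unfold gw
  rw [norm_div, Complex.norm_exp]
  have e : ((σ + v * I : ℂ) ^ 2).re = σ ^ 2 - v ^ 2 := by simp [sq]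
  have h : |σ| ≤ ‖(σ + v * I : ℂ)‖ := by simpa using Complex.abs_re_le_norm (σ + v * I : ℂ)
  rw [e]
  exact div_le_div_of_nonneg_left (Real.exp_pos _).le (abs_pos.2 hσ) h

theorem continuous_gw {σ : ℝ} (hσ : σ ≠ 0) : Continuous fun v : ℝ => gw (σ + v * I) := by
  unfold gw
  refine Continuous.div (by fun_prop) (by fun_prop) fun v h => hσ ?_
  simpa using congrArg Complex.re h

/-- a Gaussian beats every exponential -/
theorem integrable_gauss (L : ℝ) : Integrable fun v : ℝ => Real.exp (-v ^ 2 + L * |v|) := by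
  have h := (integrable_exp_neg_mul_sq (b := 1 / 2) (by norm_num)).const_mul (Real.exp (L ^ 2 / 2))
  refine h.mono' (by fun_prop) (Filter.Eventually.of_forall fun v => ?_)
  rw [Real.norm_of_nonneg (Real.exp_pos _).le, ← Real.exp_add]
  refine Real.exp_le_exp.2 ?_
  nlinarith [sq_nonneg (|v| - L), sq_abs v]

theorem norm_KC (a : ℂ) (ε u : ℝ) {t : ℝ} (ht : 0 < t) :
    ‖KC a ε u t‖ = t ^ a.re * Real.exp (-(ε * t)) := by
  unfold KC
  rw [norm_mul, norm_pw ht, Complex.norm_exp]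
  simp

theorem KC_mul_pw (a w : ℂ) (ε u t : ℝ) : KC a ε u t * pw t w = KC (a + w) ε u t := by
  unfold KC; rw [pw_add]; ring

theorem KC_conj (a : ℂ) (ε u t : ℝ) :
    (starRingEnd ℂ) (KC a ε u t) = KC ((starRingEnd ℂ) a) ε (-u) t := by
  unfold KC
  rw [map_mul, pw_conj, ← Complex.exp_conj]
  congr 2
  simp

theorem continuousOn_KC (a : ℂ) (ε u : ℝ) : ContinuousOn (KC a ε u) (Set.Ioi 0) := by
  unfold KC
  exact (continuousOn_pw a).mul (by fun_prop)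

theorem int_rpow_exp {p ε : ℝ} (hp : -1 < p) (hε : 0 < ε) :
    IntegrableOn (fun t : ℝ => t ^ p * Real.exp (-(ε * t))) (Set.Ioi 0) ∧
    ∫ t in Set.Ioi (0 : ℝ), t ^ p * Real.exp (-(ε * t)) = Real.Gamma (p + 1) * ε ^ (-(p + 1)) := by
  constructor
  · have := integrableOn_rpow_mul_exp_neg_mul_rpow hp (one_pos : (0 : ℝ) < 1) hε
    simpa using this
  · have := Real.integral_rpow_mul_exp_neg_mul_Ioi (a := p + 1) (r := ε) (by linarith) hε
    rw [add_sub_cancel_right] at this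
    rw [this, one_div, Real.inv_rpow hε.le, ← Real.rpow_neg hε.le, mul_comm]

/-- integrability and the trivial bound against the weight -/
theorem KC_triv {a : ℂ} {ε C p : ℝ} (u : ℝ) {f : ℝ → ℂ} (hε : 0 < ε) (hp : -1 < a.re + p)
    (hf : ContinuousOn f (Set.Ioi 0)) (hb : ∀ t, 0 < t → ‖f t‖ ≤ C * t ^ p) :
    IntegrableOn (fun t => KC a ε u t * f t) (Set.Ioi 0) ∧
    ‖∫ t in Set.Ioi (0 : ℝ), KC a ε u t * f t‖ ≤
      C * Real.Gamma (a.re + p + 1) * ε ^ (-(a.re + p + 1)) := by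
  obtain ⟨h1, h2⟩ := int_rpow_exp hp hε
  have hpt : ∀ᵐ t ∂(volume.restrict (Set.Ioi (0 : ℝ))),
      ‖KC a ε u t * f t‖ ≤ C * (t ^ (a.re + p) * Real.exp (-(ε * t))) := by
    refine (ae_restrict_iff' measurableSet_Ioi).2 (Filter.Eventually.of_forall fun t ht => ?_)
    have ht0 : 0 < t := ht
    rw [norm_mul, norm_KC a ε u ht0, Real.rpow_add ht0]
    calc _ ≤ t ^ a.re * Real.exp (-(ε * t)) * (C * t ^ p) :=
          mul_le_mul_of_nonneg_left (hb t ht0) (by positivity)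
      _ = _ := by ring
  refine ⟨Integrable.mono' (h1.const_mul C)
    (((continuousOn_KC a ε u).mul hf).aestronglyMeasurable measurableSet_Ioi) hpt, ?_⟩
  refine (norm_integral_le_of_norm_le (h1.const_mul C) hpt).trans (le_of_eq ?_)
  rw [integral_const_mul, h2, mul_assoc]

/-- the trivial bound for a finite sum of powers -/
theorem KC_triv_sum {ι : Type} (S : Finset ι) {a : ℂ} {ε : ℝ} (c p : ι → ℝ) (u : ℝ) {f : ℝ → ℂ}
    (hε : 0 < ε) (hp : ∀ i ∈ S, -1 < a.re + p i) (hf : ContinuousOn f (Set.Ioi 0))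
    (hb : ∀ t, 0 < t → ‖f t‖ ≤ ∑ i ∈ S, c i * t ^ p i) :
    IntegrableOn (fun t => KC a ε u t * f t) (Set.Ioi 0) ∧
    ‖∫ t in Set.Ioi (0 : ℝ), KC a ε u t * f t‖ ≤
      ∑ i ∈ S, c i * Real.Gamma (a.re + p i + 1) * ε ^ (-(a.re + p i + 1)) := by
  have h1 : ∀ i ∈ S, Integrable (fun t : ℝ => c i * (t ^ (a.re + p i) * Real.exp (-(ε * t))))
      (volume.restrict (Set.Ioi 0)) := fun i hi => (int_rpow_exp (hp i hi) hε).1.const_mul _
  have hpt : ∀ᵐ t ∂(volume.restrict (Set.Ioi (0 : ℝ))),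
      ‖KC a ε u t * f t‖ ≤ ∑ i ∈ S, c i * (t ^ (a.re + p i) * Real.exp (-(ε * t))) := by
    refine (ae_restrict_iff' measurableSet_Ioi).2 (Filter.Eventually.of_forall fun t ht => ?_)
    have ht0 : 0 < t := ht
    rw [norm_mul, norm_KC a ε u ht0]
    calc _ ≤ t ^ a.re * Real.exp (-(ε * t)) * ∑ i ∈ S, c i * t ^ p i :=
          mul_le_mul_of_nonneg_left (hb t ht0) (by positivity)
      _ = _ := by
          rw [Finset.mul_sum]
          refine Finset.sum_congr rfl fun i _ => ?_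
          rw [Real.rpow_add ht0]; ring
  have h2 := integrable_finsetSum S h1
  refine ⟨Integrable.mono' h2
    (((continuousOn_KC a ε u).mul hf).aestronglyMeasurable measurableSet_Ioi) hpt, ?_⟩
  refine (norm_integral_le_of_norm_le h2 hpt).trans (le_of_eq ?_)
  rw [integral_finsetSum S h1]
  refine Finset.sum_congr rfl fun i hi => ?_
  rw [integral_const_mul, (int_rpow_exp (hp i hi) hε).2, mul_assoc]

theorem log_le_rpow {η : ℝ} (hη : 0 < η) :
    ∃ C : ℝ, 1 ≤ C ∧ ∀ y : ℝ, 1 ≤ y → 1 + Real.log y ≤ C * y ^ η := by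
  refine ⟨1 + 1 / η, by linarith [one_div_pos.2 hη], fun y hy => ?_⟩
  have h1 := Real.log_le_rpow_div (by linarith : 0 ≤ y) hη
  have h2 : 1 ≤ y ^ η := Real.one_le_rpow hy hη.le
  rw [add_mul, one_mul, one_div_mul_eq_div]
  linarith

theorem poly_le_exp (k : ℕ) : ∃ C : ℝ, 1 ≤ C ∧ ∀ y : ℝ, 0 ≤ y → (1 + y) ^ k ≤ C * Real.exp y := by
  have hf : (1 : ℝ) ≤ k.factorial := by exact_mod_cast Nat.factorial_pos _
  refine ⟨k.factorial * Real.exp 1, one_le_mul_of_one_le_of_one_le hf (Real.one_le_exp zero_le_one),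
    fun y hy => ?_⟩
  have := Real.pow_div_factorial_le_exp (1 + y) (by linarith) k
  rw [div_le_iff₀ (by linarith), Real.exp_add] at this
  linarith

theorem om_re (k ε u : ℝ) :
    (om k ε u).re = k * Real.pi * Real.exp (-(2 * u / k)) * Real.sin (2 * ε / k) := by
  unfold om ei
  rw [Complex.re_ofReal_mul, Complex.exp_ofReal_mul_I_re, Real.cos_pi_div_two_sub]

theorem om_im (k ε u : ℝ) :
    (om k ε u).im = k * Real.pi * Real.exp (-(2 * u / k)) * Real.cos (2 * ε / k) := by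
  unfold om ei
  rw [Complex.im_ofReal_mul, Complex.exp_ofReal_mul_I_im, Real.sin_pi_div_two_sub]

theorem norm_MM (k : ℝ) (b : ℂ) (ε u l : ℝ) :
    ‖MM k b ε u l‖ = Real.exp (2 * l / k * b.re - (om k ε u).re * Real.exp (2 * l / k)) := by
  unfold MM
  rw [Complex.norm_exp, Complex.sub_re, Complex.re_ofReal_mul, Complex.re_mul_ofReal]

/-- `Re ω ≥ ε / 2` -/
theorem om_re_ge {k ε u : ℝ} (hk : 1 ≤ k) (h0 : 0 < ε) (h1 : ε ≤ 1 / 2) (hu : |u| ≤ 1) :
    ε / 2 ≤ (om k ε u).re := by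
  rw [om_re]
  have hk0 : 0 < k := by linarith
  have a1 : 2 * ε / k ≤ 1 := by rw [div_le_one hk0]; linarith
  have a0 : 0 ≤ 2 * ε / k := by positivity
  have a2 : 2 / Real.pi * (2 * ε / k) ≤ Real.sin (2 * ε / k) :=
    Real.mul_le_sin a0 (by linarith [Real.pi_gt_three])
  have a3 : Real.exp (-2) ≤ Real.exp (-(2 * u / k)) := by
    refine Real.exp_le_exp.2 (neg_le_neg ?_)
    rw [div_le_iff₀ hk0]
    linarith [(abs_le.1 hu).2]
  have a4 : (1 : ℝ) / 8 ≤ Real.exp (-2) := by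
    rw [Real.exp_neg, ← one_div, one_div_le_one_div (by norm_num) (Real.exp_pos _),
      show (2 : ℝ) = 1 + 1 by norm_num, Real.exp_add]
    nlinarith [Real.exp_one_lt_d9, Real.exp_pos 1]
  have hp := Real.pi_pos
  calc ε / 2 = k * Real.pi * (1 / 8) * (2 / Real.pi * (2 * ε / k)) := by field_simp; ring
    _ ≤ _ := by gcongr; exact a4.trans a3

theorem norm_MM_le {k ε u : ℝ} (hk : 1 ≤ k) (h0 : 0 < ε) (h1 : ε ≤ 1 / 2) (hu : |u| ≤ 1) (b : ℂ)
    (l : ℝ) : ‖MM k b ε u l‖ ≤ Real.exp (2 * l / k * b.re - ε / 2 * Real.exp (2 * l / k)) := by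
  rw [norm_MM]
  refine Real.exp_le_exp.2 (sub_le_sub_left ?_ _)
  exact mul_le_mul_of_nonneg_right (om_re_ge hk h0 h1 hu) (Real.exp_pos _).le

/-- `y ^ p * exp (-l y) ≤ C * l ^ (-p)`, uniformly for `0 ≤ p ≤ p1` -/
theorem sup_pow_exp (p1 : ℝ) : ∃ C : ℝ, 1 ≤ C ∧ ∀ p l y : ℝ, 0 ≤ p → p ≤ p1 → 0 < l → 0 < y →
    y ^ p * Real.exp (-(l * y)) ≤ C * l ^ (-p) := by
  refine ⟨(⌈p1⌉₊).factorial, by exact_mod_cast Nat.factorial_pos _, fun p l y h0 h1 hl hy => ?_⟩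
  have hz : 0 < l * y := mul_pos hl hy
  have hf : (1 : ℝ) ≤ (⌈p1⌉₊).factorial := by exact_mod_cast Nat.factorial_pos _
  have key : (l * y) ^ p * Real.exp (-(l * y)) ≤ (⌈p1⌉₊).factorial := by
    rcases le_total (l * y) 1 with h | h
    · have a1 : (l * y) ^ p ≤ 1 := Real.rpow_le_one hz.le h h0
      have a2 : Real.exp (-(l * y)) ≤ 1 := Real.exp_le_one_iff.2 (by linarith)
      exact (mul_le_one₀ a1 (Real.exp_pos _).le a2).trans hf
    · have a1 : (l * y) ^ p ≤ (l * y) ^ ⌈p1⌉₊ := by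
        rw [← Real.rpow_natCast]
        exact Real.rpow_le_rpow_of_exponent_le h (h1.trans (Nat.le_ceil _))
      have a2 := Real.pow_div_factorial_le_exp (l * y) hz.le ⌈p1⌉₊
      rw [div_le_iff₀ (by linarith)] at a2
      rw [Real.exp_neg, ← div_eq_mul_inv, div_le_iff₀ (Real.exp_pos _)]
      linarith
  rw [Real.mul_rpow hl.le hy.le] at key
  rw [Real.rpow_neg hl.le, ← div_eq_mul_inv, le_div_iff₀ (Real.rpow_pos_of_pos hl _)]
  linarith

theorem sum_inv_sqrt (Y : ℕ) : ∑ n ∈ Icc 1 Y, (n : ℝ) ^ (-(1 : ℝ) / 2) ≤ 2 * √Y := by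
  induction Y with
  | zero => simp
  | succ Y ih =>
    rw [Finset.sum_Icc_succ_top (by omega)]
    have h0 : (0 : ℝ) < ((Y + 1 : ℕ) : ℝ) := by positivity
    have e : ((Y + 1 : ℕ) : ℝ) ^ (-(1 : ℝ) / 2) = 1 / √((Y + 1 : ℕ) : ℝ) := by
      rw [Real.sqrt_eq_rpow, one_div, ← Real.rpow_neg h0.le]; congr 1; ring
    rw [e]
    have h1 : 0 < √((Y + 1 : ℕ) : ℝ) := Real.sqrt_pos.2 h0
    have h2 : √((Y + 1 : ℕ) : ℝ) ^ 2 = Y + 1 := by rw [Real.sq_sqrt h0.le]; push_cast; ring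
    have h3 : √(Y : ℝ) ^ 2 = Y := Real.sq_sqrt (Nat.cast_nonneg Y)
    have h4 : 1 / √((Y + 1 : ℕ) : ℝ) ≤ 2 * √((Y + 1 : ℕ) : ℝ) - 2 * √Y := by
      rw [div_le_iff₀ h1]
      nlinarith [sq_nonneg (√((Y + 1 : ℕ) : ℝ) - √(Y : ℝ))]
    linarith

theorem mm_pos {x t : ℝ} (hx : 0 < x) (ht : 0 < t) : 0 < mm x t := by unfold mm; positivity

section par
variable {ε : ℝ} (h0 : 0 < ε) (h1 : ε ≤ 1 / 2)
include h0 h1

/-- smaller exponent, larger power -/
theorem eps_rpow_le {p q : ℝ} (h : q ≤ p) : ε ^ p ≤ ε ^ q :=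
  Real.rpow_le_rpow_of_exponent_ge h0 (by linarith) h

theorem one_le_xe : 1 ≤ xe ε :=
  Real.one_le_rpow_of_pos_of_le_one_of_nonpos h0 (by linarith) (by norm_num)

theorem Xe_mul_le : (Xe ε : ℝ) * ε ≤ 1 := by
  have _ := h1
  have := Nat.floor_le (a := 1 / ε) (by positivity)
  rwa [le_div_iff₀ h0] at this

theorem two_le_Xe : 2 ≤ Xe ε := Nat.le_floor (by rw [le_div_iff₀ h0]; push_cast; linarith)

theorem le_two_Xe : 1 / ε ≤ 2 * Xe ε := by
  have a := Nat.lt_floor_add_one (1 / ε)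
  have b : (2 : ℝ) ≤ Xe ε := by exact_mod_cast two_le_Xe h0 h1
  unfold Xe at b ⊢
  linarith

theorem Ye_le : (Ye ε : ℝ) ≤ ε ^ (-((1 : ℝ) / 2 - 1 / 20000)) :=
  have _ := h1
  Nat.floor_le (by positivity)

theorem one_le_Ye : 1 ≤ Ye ε := Nat.le_floor (by
  rw [Nat.cast_one]
  exact Real.one_le_rpow_of_pos_of_le_one_of_nonpos h0 (by linarith) (by norm_num))

theorem le_two_Ye : ε ^ (-((1 : ℝ) / 2 - 1 / 20000)) ≤ 2 * Ye ε := by
  have a := Nat.lt_floor_add_one (ε ^ (-((1 : ℝ) / 2 - 1 / 20000)))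
  have b : (1 : ℝ) ≤ Ye ε := by exact_mod_cast one_le_Ye h0 h1
  unfold Ye at b ⊢
  linarith

theorem Ye_sq_mul_le : (Ye ε : ℝ) ^ 2 * ε ≤ 1 := by
  have a : (Ye ε : ℝ) ≤ ε ^ (-(1 : ℝ) / 2) := (Ye_le h0 h1).trans (eps_rpow_le h0 h1 (by norm_num))
  have b : (ε ^ (-(1 : ℝ) / 2)) ^ 2 * ε = 1 := by
    rw [← Real.rpow_natCast, ← Real.rpow_mul h0.le]
    norm_num [Real.rpow_neg_one, h0.ne']
  calc _ ≤ (ε ^ (-(1 : ℝ) / 2)) ^ 2 * ε := by gcongr
    _ = 1 := b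

theorem Ye_mul_le : (Ye ε : ℝ) * ε ≤ 1 := by
  have a := Ye_sq_mul_le h0 h1
  have b : (1 : ℝ) ≤ Ye ε := by exact_mod_cast one_le_Ye h0 h1
  nlinarith

theorem Ye_le_Xe : Ye ε ≤ Xe ε := Nat.le_floor (by rw [le_div_iff₀ h0]; exact Ye_mul_le h0 h1)

end par

end Pool.Agent.CubZ
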