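import Pool.Agent.Lib.MP_d79f69_nt.Iface

/-!
Definitions and interface statements for the cubic moment of Hardy's function.
-/

open Matrix MeasureTheory Complex Finset

namespace Pool.Agent.CubZ

open Pool.Agent.CubH

/-- Hardy's function -/
noncomputable def Zf (t : ℝ) : ℂ :=
  riemannZeta (1 / 2 + t * I) * (Gammaℝ (1 / 2 + t * I) / (‖Gammaℝ (1 / 2 + t * I)‖ : ℝ))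

noncomputable def tht (t : ℝ) : ℝ := t / 2 * Real.log (t / (2 * Real.pi)) - t / 2 - Real.pi / 8

/-- `exp (i x)` -/
noncomputable def ei (x : ℝ) : ℂ := cexp (x * I)

/-- `y ^ w` for `y > 0` -/
noncomputable def pw (y : ℝ) (w : ℂ) : ℂ := cexp (w * Real.log y)

noncomputable def gw (w : ℂ) : ℂ := cexp (w ^ 2) / w

/-- the smooth cut-off -/
noncomputable def VV (y : ℂ) : ℂ :=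
  ((2 * √Real.pi : ℝ) : ℂ)⁻¹ * ∫ r in Set.Ioi (0 : ℝ), cexp (-((r + Complex.log y) ^ 2) / 4)

noncomputable def chi (s : ℂ) : ℂ := Gammaℝ (1 - s) * (Gammaℝ s)⁻¹

/-- integrand of the approximate functional equation -/
noncomputable def FA (s : ℂ) (x : ℝ) (w : ℂ) : ℂ :=
  (1 + w / (s - 1)) * riemannZeta (s + w) * pw x w * gw w

noncomputable def DH (α x : ℝ) (X : ℕ) (t : ℝ) : ℂ :=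
  ∑ n ∈ Icc 1 X, pw n (-(1 / 2 + (α + t) * I)) * VV ((n / x : ℝ) : ℂ)

noncomputable def EH (α x : ℝ) (Y : ℕ) (t : ℝ) : ℂ :=
  ∑ y ∈ Icc 1 Y, pw y (-(1 / 2) + (α + t) * I) * VV ((2 * Real.pi * x * y / t : ℝ) : ℂ)

noncomputable def PW (α : ℝ) (w : ℂ) (Y : ℕ) (t : ℝ) : ℂ :=
  ∑ y ∈ Icc 1 Y, pw y (-(1 / 2) - w + (α + t) * I)

noncomputable def PP (α x : ℝ) (X : ℕ) (t : ℝ) : ℂ :=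
  ei (tht t) * pw (t / (2 * Real.pi)) (α / 2 * I) * DH α x X t

noncomputable def QQ (α x : ℝ) (Y : ℕ) (t : ℝ) : ℂ :=
  ei (-tht t) * pw (t / (2 * Real.pi)) (-(α / 2 * I)) * EH α x Y t

noncomputable def mm (x t : ℝ) : ℝ := x ^ ((3 : ℝ) / 5) + (t / x) ^ ((3 : ℝ) / 5)

/-- the weight `t ^ a * exp (-ε t + i u t)` -/
noncomputable def KC (a : ℂ) (ε u t : ℝ) : ℂ := pw t a * cexp (-(ε * t) + u * t * I)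

noncomputable def om (k ε u : ℝ) : ℂ :=
  ((k * Real.pi * Real.exp (-(2 * u / k)) : ℝ) : ℂ) * ei (Real.pi / 2 - 2 * ε / k)

/-- `ξ ^ (2 b / k) * exp (-ω ξ ^ (2 / k))` at `ξ = exp l` -/
noncomputable def MM (k : ℝ) (b : ℂ) (ε u l : ℝ) : ℂ :=
  cexp (((2 * l / k : ℝ) : ℂ) * b - om k ε u * ((Real.exp (2 * l / k) : ℝ) : ℂ))

/-- `min X (1 / ‖θ‖)` -/
noncomputable def mn (X θ : ℝ) : ℝ := X / max 1 (X * |θ - round θ|)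

noncomputable def xe (ε : ℝ) : ℝ := ε ^ (-((1 : ℝ) / 2 + 1 / 10000))
noncomputable def Xe (ε : ℝ) : ℕ := ⌊1 / ε⌋₊
noncomputable def Ye (ε : ℝ) : ℕ := ⌊ε ^ (-((1 : ℝ) / 2 - 1 / 20000))⌋₊

/-- the target bound -/
def Tgt (A : ℕ) (f : ℝ → ℝ → ℂ) : Prop := ∃ C : ℝ, 0 < C ∧ ∀ ε u : ℝ, 0 < ε → ε ≤ 1 / 2 → |u| ≤ 1 →
  ‖∫ t in Set.Ioi (0 : ℝ), KC A ε u t * f ε t‖ ≤ C * ε ^ (-((A : ℝ) + 1) + 1 / 60000)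

/-- term of the triple sum -/
noncomputable def T3 (A : ℕ) (α : V3) (ε u : ℝ) (n : Fin 3 → ℕ) : ℂ :=
  (∏ i, pw (n i) (-(1 / 2 + α i * I)) * VV ((n i / xe ε : ℝ) : ℂ)) *
    MM 3 (A + ((α 0 + α 1 + α 2) / 2 : ℝ) * I + 1 / 2) ε u (∑ i, Real.log (n i))

/-! ### the cut-off -/

def StV1 : Prop :=
  (∀ σ : ℝ, 0 ≤ σ → ∃ C : ℝ, 0 < C ∧ ∀ y : ℂ, 0 < y.re → ‖VV y‖ ≤ C * ‖y‖ ^ (-σ)) ∧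
  DifferentiableOn ℂ VV {y | 0 < y.re} ∧
  ∃ C : ℝ, 0 < C ∧ ∀ (x : ℝ) (n : ℕ), 0 < x → 1 ≤ n →
    ‖VV ((((n + 1 : ℕ) : ℝ) / x : ℝ) : ℂ) - VV ((n / x : ℝ) : ℂ)‖ ≤ C / n

def StV2 : Prop :=
  VV 1 = 1 / 2 ∧ ∀ σ y : ℝ, 0 < σ → 0 < y →
    Integrable (fun v : ℝ => gw (σ + v * I) * pw y (-(σ + v * I))) ∧
    VV (y : ℂ) = ((2 * Real.pi : ℝ) : ℂ)⁻¹ * ∫ v : ℝ, gw (σ + v * I) * pw y (-(σ + v * I))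

/-! ### the approximate functional equation -/

def StChi1 : Prop := ∃ C : ℝ, 0 < C ∧ ∀ t v : ℝ, 1 ≤ t →
  ‖chi (1 / 2 + t * I + (-(3 / 5) + v * I)) -
    ei (-(2 * tht t)) * pw (t / (2 * Real.pi)) (-(-(3 / 5) + v * I))‖ ≤
    C * (1 + v ^ 2) ^ 2 * t ^ (-(2 : ℝ) / 5)

def StChi2 : Prop := ∀ α : ℝ, ∃ C : ℝ, 0 < C ∧ ∀ t : ℝ, 1 ≤ t →
  ‖Gammaℝ (1 / 2 + ((t + α : ℝ) : ℂ) * I) / (‖Gammaℝ (1 / 2 + ((t + α : ℝ) : ℂ) * I)‖ : ℝ) -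
    ei (tht t) * pw (t / (2 * Real.pi)) (α / 2 * I)‖ ≤ C / t

def StXi : Prop :=
  (∃ G : ℂ → ℂ, Differentiable ℂ G ∧ (∀ z : ℂ, z ≠ 1 → G z = (z - 1) * riemannZeta z) ∧
    ∃ C : ℝ, 0 < C ∧ ∀ z : ℂ, -(1 / 2) ≤ z.re → z.re ≤ 2 → ‖G z‖ ≤ C * Real.exp (3 * |z.im|)) ∧
  (∀ z : ℂ, -1 < z.re → z.re < 0 → riemannZeta z = chi z * riemannZeta (1 - z)) ∧
  Continuous Zf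

def StAx : Prop := ∀ (s : ℂ) (x : ℝ), s.re = 1 / 2 → 0 < x →
  Integrable (fun v : ℝ => FA s x (3 / 5 + v * I)) ∧
  Integrable (fun v : ℝ => FA s x (-(3 / 5) + v * I)) ∧
  riemannZeta s = ((2 * Real.pi : ℝ) : ℂ)⁻¹ * (∫ v : ℝ, FA s x (3 / 5 + v * I)) -
    ((2 * Real.pi : ℝ) : ℂ)⁻¹ * ∫ v : ℝ, FA s x (-(3 / 5) + v * I)

def StAd : Prop := ∀ σ : ℝ, 2 ≤ σ → ∃ C : ℝ, 0 < C ∧ ∀ (α t x : ℝ) (X : ℕ), 1 ≤ α + t → 0 < x →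
  1 ≤ X →
  ‖((2 * Real.pi : ℝ) : ℂ)⁻¹ * (∫ v : ℝ, FA (1 / 2 + (α + t) * I) x (3 / 5 + v * I)) - DH α x X t‖ ≤
    C * (x ^ ((3 : ℝ) / 5) / (α + t) + x ^ σ * (X : ℝ) ^ (1 - σ))

def StAe : Prop := ∀ σ α : ℝ, 2 ≤ σ → ∃ C : ℝ, 0 < C ∧ ∀ (t x : ℝ) (Y : ℕ), 1 + 2 * |α| ≤ t →
  0 < x → 1 ≤ Y →
  ‖-(((2 * Real.pi : ℝ) : ℂ)⁻¹ * ∫ v : ℝ, FA (1 / 2 + (α + t) * I) x (-(3 / 5) + v * I)) -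
    ei (-(2 * tht t)) * pw (t / (2 * Real.pi)) (-(α * I)) * EH α x Y t‖ ≤
    C * ((t / x) ^ ((3 : ℝ) / 5) / t + (t / x) ^ σ * (Y : ℝ) ^ (1 - σ))

def StSz : Prop :=
  (∃ C : ℝ, 0 < C ∧ ∀ (x : ℝ) (X : ℕ), 0 < x →
    (∑ n ∈ Icc 1 X, (n : ℝ) ^ (-(1 : ℝ) / 2) * ‖VV ((n / x : ℝ) : ℂ)‖ ≤ C * x ^ ((3 : ℝ) / 5)) ∧
    ∀ α t : ℝ, 0 < t → ‖DH α x X t‖ ≤ C * x ^ ((3 : ℝ) / 5) ∧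
      ‖EH α x X t‖ ≤ C * (t / x) ^ ((3 : ℝ) / 5) ∧
      ‖PP α x X t‖ ≤ C * mm x t ∧ ‖QQ α x X t‖ ≤ C * mm x t) ∧
  ∀ (α x : ℝ) (X : ℕ), 0 < x → Continuous (DH α x X) ∧ ContinuousOn (EH α x X) (Set.Ioi 0) ∧
    ContinuousOn (PP α x X) (Set.Ioi 0) ∧ ContinuousOn (QQ α x X) (Set.Ioi 0)

def StAfe : Prop := ∀ α : ℝ,
  (∀ σ : ℝ, 2 ≤ σ → ∃ C : ℝ, 0 < C ∧ ∀ (t x : ℝ) (X Y : ℕ), 0 < t → 1 ≤ x → 1 ≤ X → 1 ≤ Y →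
    ‖Zf (t + α) - PP α x X t - QQ α x Y t‖ ≤
      C * (mm x t / t + x ^ σ * (X : ℝ) ^ (1 - σ) + (t / x) ^ σ * (Y : ℝ) ^ (1 - σ))) ∧
  (∃ C : ℝ, 0 < C ∧ ∀ t x : ℝ, 0 < t → 1 ≤ x → ‖Zf (t + α)‖ ≤ C * mm x t) ∧
  ∃ C : ℝ, 0 < C ∧ ∀ t : ℝ, 0 ≤ t → ‖Zf (t + α)‖ ≤ C * (1 + t) ^ ((3 : ℝ) / 10)

/-! ### the oscillatory integral -/

def StJ : Prop := ∀ k a1 : ℝ, 1 ≤ k → ∃ C : ℝ, 0 < C ∧ ∀ (a : ℂ) (ε u : ℝ), 1 ≤ a.re → a.re ≤ a1 →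
  0 < ε → ε ≤ 1 / 2 → |u| ≤ 1 → ∃ c : ℂ, ‖c‖ ≤ C * Real.exp (3 * |a.im|) ∧ ∀ l : ℝ,
    ‖(∫ t in Set.Ioi (0 : ℝ), KC a ε u t * ei (k * tht t) * ei (-(l * t))) -
      c * MM k (a + 1 / 2) ε u l‖ ≤ C * Real.exp (3 * |a.im|) * ε ^ (-a.re)

def StJs : Prop := ∀ k a1 : ℝ, 1 ≤ k → ∃ C : ℝ, 0 < C ∧ ∀ (a : ℂ) (ε u : ℝ), 1 ≤ a.re → a.re ≤ a1 →
  0 < ε → ε ≤ 1 / 2 → |u| ≤ 1 → ∀ (ι : Type) (S : Finset ι) (c : ι → ℂ) (l : ι → ℝ),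
    ‖∫ t in Set.Ioi (0 : ℝ), KC a ε u t * ei (k * tht t) * ∑ i ∈ S, c i * ei (-(l i * t))‖ ≤
      C * Real.exp (3 * |a.im|) *
        (‖∑ i ∈ S, c i * MM k (a + 1 / 2) ε u (l i)‖ + ε ^ (-a.re) * ∑ i ∈ S, ‖c i‖) ∧
    ‖∫ t in Set.Ioi (0 : ℝ), KC a ε u t * ei (-(k * tht t)) * ∑ i ∈ S, c i * ei (l i * t)‖ ≤
      C * Real.exp (3 * |a.im|) *
        (‖∑ i ∈ S, (starRingEnd ℂ) (c i) * MM k ((starRingEnd ℂ) a + 1 / 2) ε (-u) (l i)‖ +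
          ε ^ (-a.re) * ∑ i ∈ S, ‖c i‖)

def StMix : Prop := ∀ σ L : ℝ, 0 < σ → σ ≤ 1 → 0 ≤ L → ∃ C : ℝ, 0 < C ∧
  ∀ (H : ℝ → ℂ) (α x B : ℝ) (Y : ℕ), 0 < x → 0 ≤ B → ContinuousOn H (Set.Ioi 0) →
    IntegrableOn (fun t => ‖H t‖ * t ^ σ) (Set.Ioi 0) →
    (∀ v : ℝ, ‖∫ t in Set.Ioi (0 : ℝ), H t * pw t (σ + v * I) * PW α (σ + v * I) Y t‖ ≤
      B * Real.exp (L * |v|)) →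
    ‖∫ t in Set.Ioi (0 : ℝ), H t * EH α x Y t‖ ≤ C * B * x ^ (-σ)

/-! ### unbalanced boxes -/

def StDv : Prop := ∀ η : ℝ, 0 < η → ∃ C : ℝ, 0 < C ∧ ∀ (U V : ℕ) (R : ℝ), 1 ≤ U → 1 ≤ V → 0 ≤ R →
  (#{q ∈ (Icc 1 U ×ˢ Icc 1 V) ×ˢ (Icc 1 U ×ˢ Icc 1 V) |
      |(q.1.1 : ℝ) * q.2.2 - q.2.1 * q.1.2| ≤ R} : ℝ) ≤ C * ((U : ℝ) * V) ^ (1 + η) * (1 + R)

def StCp : Prop := ∀ (ι κ : Type) (S : Finset ι) (T : Finset κ) (f : ι → ℝ) (g : κ → ℝ) (ρ : ℝ),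
  0 < ρ → (#{q ∈ S ×ˢ T | |f q.1 - g q.2| ≤ ρ} : ℝ) ≤
    3 * √(#{q ∈ S ×ˢ S | |f q.1 - f q.2| ≤ ρ}) * √(#{q ∈ T ×ˢ T | |g q.1 - g q.2| ≤ ρ})

def StCnt : Prop := ∀ η β0 β1 : ℝ, 0 < η → 0 < β0 → ∃ C : ℝ, 0 < C ∧
  ∀ (β Δ : ℝ) (H X Y : ℕ), β0 ≤ |β| → |β| ≤ β1 → 0 < Δ → Δ ≤ 1 / 2 → 1 ≤ H → 1 ≤ X → 1 ≤ Y →
    (#{q ∈ Ico H (2 * H) ×ˢ Ico X (2 * X) ×ˢ Ico Y (2 * Y) |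
        |β * q.1 * (q.2.1 : ℝ) ^ 2 / (q.2.2 : ℝ) ^ 2 -
          round (β * q.1 * (q.2.1 : ℝ) ^ 2 / (q.2.2 : ℝ) ^ 2)| ≤ Δ ∧
        round (β * q.1 * (q.2.1 : ℝ) ^ 2 / (q.2.2 : ℝ) ^ 2) ≠ 0} : ℝ) ≤
      C * ((H : ℝ) * X * Y) ^ η * ((H + H * √(H * Δ)) * (X * √X / √Y) + (√(H * Δ) + H * Δ) * (X * Y))

def StWm : Prop := ∀ η β0 β1 : ℝ, 0 < η → 0 < β0 → ∃ C : ℝ, 0 < C ∧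
  ∀ (β : ℝ) (Z X Y : ℕ), β0 ≤ |β| → |β| ≤ β1 → 1 ≤ Z → 1 ≤ X → 1 ≤ Y →
    ∑ x ∈ Ico X (2 * X), ∑ y ∈ Ico Y (2 * Y), ∑ h ∈ Icc 1 Z,
      mn Z (β * h * (x : ℝ) ^ 2 / (y : ℝ) ^ 2) ≤
      C * ((Z : ℝ) * X * Y) ^ η * (Z * X * Y + (Z : ℝ) ^ 2 * (X * √X / √Y) + (Y : ℝ) ^ 3 / X)

def StWy : Prop := ∀ (θ B : ℝ) (Z p q : ℕ) (a : ℕ → ℂ), 1 ≤ Z → q ≤ p + Z → 0 ≤ B →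
  (∀ n ∈ Ico p q, ‖a n‖ ≤ B) → ∑ n ∈ Ico p (q - 1), ‖a (n + 1) - a n‖ ≤ B →
  ‖∑ n ∈ Ico p q, a n * ee (θ * (n : ℝ) ^ 2)‖ ^ 2 ≤
    4 * B ^ 2 * (Z + 2 * ∑ h ∈ Icc 1 Z, mn Z (2 * θ * h))

/-- size and variation of the weight on a dyadic block -/
def StMv : Prop := ∀ b1 : ℝ, ∃ C : ℝ, 0 < C ∧ ∀ (b : ℂ) (ε u r p : ℝ) (Z q : ℕ) (a : ℕ → ℂ),
  1 ≤ b.re → b.re ≤ b1 → 0 < ε → ε ≤ 1 / 2 → |u| ≤ 1 → 0 < r → -1 ≤ p → p ≤ 1 → 1 ≤ Z → q ≤ 2 * Z →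
  (∀ n, 1 ≤ n → ‖a n‖ ≤ 1 ∧ ‖a (n + 1) - a n‖ ≤ 1 / n) →
  ∃ g : ℕ → ℂ,
    (∀ n, 1 ≤ n → a n * pw n (-(1 / 2)) * MM 1 b ε u (Real.log (n * r)) =
      g n * ee (-(Real.exp (-(2 * u)) * Real.cos (2 * ε) / 2 * r ^ 2) * (n : ℝ) ^ 2)) ∧
    (∀ n ∈ Ico Z q, ‖g n‖ ≤ C * (1 + |b.im|) * (ε ^ (-(b.re + p / 2)) * (Z * r) ^ (-p) / √Z)) ∧
    ∑ n ∈ Ico Z (q - 1), ‖g (n + 1) - g n‖ ≤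
      C * (1 + |b.im|) * (ε ^ (-(b.re + p / 2)) * (Z * r) ^ (-p) / √Z)

def StQb : Prop := ∀ η b1 : ℝ, 0 < η → ∃ C : ℝ, 0 < C ∧
  ∀ (b : ℂ) (ε u : ℝ) (Z X Y q : ℕ) (a : ℕ → ℂ), 1 ≤ b.re → b.re ≤ b1 → 0 < ε → ε ≤ 1 / 2 → |u| ≤ 1 →
    1 ≤ X → X ≤ Z → 1 ≤ Y → (Y : ℝ) ^ 2 * ε ≤ 1 → q ≤ 2 * Z →
    (∀ n, 1 ≤ n → ‖a n‖ ≤ 1 ∧ ‖a (n + 1) - a n‖ ≤ 1 / n) →
    ∑ x ∈ Ico X (2 * X), ∑ y ∈ Ico Y (2 * Y), ((x : ℝ) * y) ^ (-(1 : ℝ) / 2) *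
      ‖∑ n ∈ Ico Z q, a n * pw n (-(1 / 2)) * MM 1 b ε u (Real.log (n * (x / y)))‖ ≤
      C * (1 + |b.im|) * ((Z : ℝ) * X * Y) ^ η * ε ^ (-(b.re + 5 / 16)) * (Y : ℝ) ^ ((3 : ℝ) / 8)

def StQs : Prop := ∀ η b1 : ℝ, 0 < η → ∃ C : ℝ, 0 < C ∧
  ∀ (b : ℂ) (ε u B : ℝ) (M1 M2 M3 : ℕ) (a1 a2 a3 : ℕ → ℂ), 1 ≤ b.re → b.re ≤ b1 → 0 < ε →
    ε ≤ 1 / 2 → |u| ≤ 1 → 0 < B → (M1 : ℝ) * ε ≤ 1 → (M2 : ℝ) * ε ≤ 1 → (M3 : ℝ) ^ 2 * ε ≤ 1 →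
    (∀ n, 1 ≤ n → ‖a1 n‖ ≤ B ∧ ‖a1 (n + 1) - a1 n‖ ≤ B / n) →
    (∀ n, 1 ≤ n → ‖a2 n‖ ≤ B ∧ ‖a2 (n + 1) - a2 n‖ ≤ B / n) → (∀ n, 1 ≤ n → ‖a3 n‖ ≤ B) →
    ‖∑ m ∈ Icc 1 M1 ×ˢ Icc 1 M2 ×ˢ Icc 1 M3,
      a1 m.1 * pw m.1 (-(1 / 2)) * (a2 m.2.1 * pw m.2.1 (-(1 / 2))) *
        (a3 m.2.2 * pw m.2.2 (-(1 / 2))) * MM 1 b ε u (Real.log ((m.1 : ℝ) * m.2.1 / m.2.2))‖ ≤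
      C * B ^ 3 * (1 + |b.im|) * ε ^ (-(b.re + 5 / 16 + η)) * (M3 : ℝ) ^ ((3 : ℝ) / 8)

/-! ### balanced boxes -/

def StHU : Prop := ∀ (N : ℕ) (R c : ℝ), 1 ≤ R → ∃ C : ℝ, 1 ≤ C ∧ ∀ μ : ℝ, 1 ≤ μ →
  ∀ B : M3, NearI (4 * R ^ 2) B →
  ∀ (X H ρ L M A V : ℝ) (W : V3 → ℂ) (a : V3) (h : ℤ × ℤ), ‖((h.1 : ℝ), (h.2 : ℝ))‖ = H →
    1 ≤ H → C ≤ ρ → ρ ^ 2 ≤ L → ρ ^ 2 ≤ M →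
    μ ^ 2 * H * ρ ^ 2 * L ^ 2 ≤ X → μ ^ 2 * H ^ 3 * ρ ^ 2 * M ^ 2 ≤ X ^ 3 → μ ^ 2 * H ^ 5 ≤ X ^ 3 →
    μ ^ 2 * H ^ 3 * ρ * L ≤ X ^ 2 → ρ ^ 2 * L ≤ X → ρ * H ≤ X → ρ * M ≤ X →
    Wt N R X A W → 0 ≤ V →
    ∫⁻ κ, (ResSet (4 * R ^ 2) B (μ ^ 2 * c) ((h.1 : ℝ), (h.2 : ℝ)) X (L / ρ) (M / ρ)).indicator
      (fun _ => (1 : ENNReal)) κ ≤ ENNReal.ofReal V →
    ‖∑' n : Z3, FF B (μ ^ 2 * c) W a (n + ![h.1, h.2, 0]) *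
      (starRingEnd ℂ) (FF B (μ ^ 2 * c) W a n)‖ ≤ C * A ^ 2 * (X ^ 6 / ρ ^ N + X ^ 2 * V)

open Classical in
def StRU : Prop := ∀ Q c : ℝ, 1 ≤ Q → c ≠ 0 → ∃ C : ℝ, 1 ≤ C ∧ ∀ μ : ℝ, 1 ≤ μ →
  ∀ B : M3, NearI Q B →
  ∀ (X H L0 M0 : ℝ) (h : ℝ × ℝ), ‖h‖ = H → 1 ≤ H → 1 ≤ X → C * μ ^ 2 * H ^ 3 ≤ X ^ 2 →
    μ ^ 3 * H ^ 3 * √H ≤ X ^ 2 → μ ^ 2 * √H ≤ M0 → C * μ ≤ M0 → C * μ ≤ L0 →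
    ∫⁻ κ, (ResSet Q B (μ ^ 2 * c) h X (L0 / μ) (M0 / μ)).indicator (fun _ => (1 : ENNReal)) κ ≤
      ENNReal.ofReal (C * (1 + Real.log (μ ^ 2 * H)) ^ 3 * √H / (H ^ 2 * L0 ^ 2) *
        ((if Good Q h then 0 else √H * X) + X ^ 3 / (M0 * H ^ 2)))

def StE0 : Prop := ∃ N : ℕ, ∀ R c : ℝ, 1 ≤ R → c ≠ 0 → ∃ C : ℝ, 0 < C ∧ ∀ μ : ℝ, 1 ≤ μ →
  ∀ B : M3, NearI (4 * R ^ 2) B → ∀ (X A : ℝ) (W : V3 → ℂ) (a : V3), μ ^ 280 ≤ X → Wt N R X A W →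
    ‖∑' n, FF B (μ ^ 2 * c) W a n‖ ≤ C * A * X ^ ((5 : ℝ) / 2 - 1 / 70)

def StBox : Prop := ∃ N : ℕ, ∀ R c0 c1 : ℝ, 1 ≤ R → 0 < c0 → ∃ C : ℝ, 0 < C ∧
  ∀ (c Xm A : ℝ) (P : V3) (W : V3 → ℂ), c0 ≤ |c| → |c| ≤ c1 → 1 ≤ Xm →
    (∀ i, Xm ≤ P i ∧ P i ≤ Xm ^ ((401 : ℝ) / 400)) → Wt N R 1 A W →
    ‖∑' n : Z3, W (zr n / P) * ee (c * ph (zr n))‖ ≤
      C * A * (P 0 * P 1 * P 2) ^ ((5 : ℝ) / 6 - 1 / 300)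

def StWt : Prop := ∀ (N : ℕ) (R κ : ℝ) (F : V3 → ℂ), 1 ≤ R → 0 < κ → κ ≤ 1 / (4 * R) →
  ContDiff ℝ (⊤ : ℕ∞) F → HasCompactSupport F → (∀ x, F x ≠ 0 → ∀ i, 1 / R ≤ x i ∧ x i ≤ R) →
  ∃ C : ℝ, 0 < C ∧ ∀ (G : C3 → ℂ) (A : ℝ), DifferentiableOn ℂ G {p | ∀ i, 0 < (p i).re} →
    (∀ (x : V3) (w : C3), Dr (2 * R) x → ‖w‖ ≤ κ → ‖G (cv x + w)‖ ≤ A) →
    Wt N R 1 (C * A) (fun x => F x * G (cv x))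

/-- the bump `ψ (x) = smoothTransition (x + 1) - smoothTransition x` -/
noncomputable def psi (x : ℝ) : ℝ := Real.smoothTransition (x + 1) - Real.smoothTransition x

def St3g : Prop := ∀ (A : ℕ) (α : V3), 1 ≤ A → ∃ C : ℝ, 0 < C ∧
  ∀ (ε u Xm : ℝ) (j : Fin 3 → ℕ), 0 < ε → ε ≤ 1 / 2 → |u| ≤ 1 → 1 ≤ Xm →
    (∀ i, Xm ≤ Real.exp (j i) ∧ Real.exp (j i) ≤ Xm ^ ((401 : ℝ) / 400) ∧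
      Real.exp (j i + 1) ≤ Xe ε) →
    ‖∑ n ∈ Fintype.piFinset (fun _ : Fin 3 => Icc 1 (Xe ε)),
      ((∏ i, psi (Real.log (n i) - j i) : ℝ) : ℂ) * T3 A α ε u n‖ ≤
      C * ε ^ (-((A : ℝ) + 1) + 1 / 200)

def St3 : Prop := ∀ (A : ℕ) (α : V3), 200000 ≤ A → ∃ C : ℝ, 0 < C ∧
  ∀ ε u : ℝ, 0 < ε → ε ≤ 1 / 2 → |u| ≤ 1 →
    ‖∑ n ∈ Fintype.piFinset (fun _ : Fin 3 => Icc 1 (Xe ε)), T3 A α ε u n‖ ≤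
      C * ε ^ (-((A : ℝ) + 1) + 1 / 60000)

/-! ### the four types and the end -/

def StPPP : Prop := ∀ (A : ℕ) (α β γ : ℝ), 200000 ≤ A →
  Tgt A (fun ε t => PP α (xe ε) (Xe ε) t * PP β (xe ε) (Xe ε) t * PP γ (xe ε) (Xe ε) t)

def StPPQ : Prop := ∀ (A : ℕ) (α β γ : ℝ), 200000 ≤ A →
  Tgt A (fun ε t => PP α (xe ε) (Xe ε) t * PP β (xe ε) (Xe ε) t * QQ γ (xe ε) (Ye ε) t)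

def StPQQ : Prop := ∀ (A : ℕ) (α β γ : ℝ), 200000 ≤ A →
  Tgt A (fun ε t => PP α (xe ε) (Xe ε) t * QQ β (xe ε) (Ye ε) t * QQ γ (xe ε) (Ye ε) t)

def StQQQ : Prop := ∀ (A : ℕ) (α β γ : ℝ), 200000 ≤ A →
  Tgt A (fun ε t => QQ α (xe ε) (Ye ε) t * QQ β (xe ε) (Ye ε) t * QQ γ (xe ε) (Ye ε) t)

def StErr : Prop := ∀ (A : ℕ) (α β γ : ℝ), 200000 ≤ A →
  Tgt A (fun ε t => Zf (t + α) * Zf (t + β) * Zf (t + γ) -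
    (PP α (xe ε) (Xe ε) t + QQ α (xe ε) (Ye ε) t) * (PP β (xe ε) (Xe ε) t + QQ β (xe ε) (Ye ε) t) *
      (PP γ (xe ε) (Xe ε) t + QQ γ (xe ε) (Ye ε) t))

def StMain : Prop := ∀ (A : ℕ) (α β γ : ℝ), 200000 ≤ A →
  Tgt A (fun _ t => Zf (t + α) * Zf (t + β) * Zf (t + γ))

def StDesc : Prop := ∀ (f : ℝ → ℂ) (A : ℕ), Continuous f →
  (∃ C : ℝ, ∀ t : ℝ, 0 ≤ t → ‖f t‖ ≤ C * (1 + t)) → Tgt A (fun _ => f) → Tgt 0 (fun _ => f)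

def StUns : Prop := ∀ f : ℝ → ℂ, Continuous f →
  (∃ C : ℝ, ∀ t : ℝ, 0 ≤ t → ‖f t‖ ≤ C * (1 + t) ^ ((9 : ℝ) / 10)) → Tgt 0 (fun _ => f) →
  ∃ C : ℝ, ∀ T : ℝ, 1 ≤ T → ‖∫ t in (0 : ℝ)..T, f t‖ ≤ C * T ^ (1 - (1 : ℝ) / 120000)

end Pool.Agent.CubZ
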