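import Pool.Agent.Lib.MP_d79f69_nt.Z3.Basic

open Matrix MeasureTheory Complex Finset

namespace Pool.Agent.CubZ

open Pool.Agent.CubH

theorem err_tail {ε c σ N : ℝ} (h0 : 0 < ε) (hσ : 1 ≤ σ) (h : ε ^ (-c) ≤ 2 * N) :
    N ^ (1 - σ) ≤ 2 ^ (σ - 1) * ε ^ (c * (σ - 1)) := by
  have hp : 0 < ε ^ (-c) := Real.rpow_pos_of_pos h0 _
  have h1 : N ^ (1 - σ) ≤ (ε ^ (-c) / 2) ^ (1 - σ) :=
    Real.rpow_le_rpow_of_nonpos (by positivity) (by linarith) (by linarith)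
  refine h1.trans (le_of_eq ?_)
  rw [Real.div_rpow hp.le (by norm_num), ← Real.rpow_mul h0.le, div_eq_mul_inv,
    ← Real.rpow_neg (by norm_num), mul_comm]
  congr 2 <;> ring

theorem err_prod {z1 z2 z3 w1 w2 w3 : ℂ} {m e : ℝ} (hm : 0 ≤ m) (he : 0 ≤ e)
    (a2 : ‖z2‖ ≤ m) (a3 : ‖z3‖ ≤ m) (b1 : ‖w1‖ ≤ m) (b2 : ‖w2‖ ≤ m)
    (c1 : ‖z1 - w1‖ ≤ e) (c2 : ‖z2 - w2‖ ≤ e) (c3 : ‖z3 - w3‖ ≤ e) :
    ‖z1 * z2 * z3 - w1 * w2 * w3‖ ≤ 3 * (m ^ 2 * e) := by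
  have e0 : z1 * z2 * z3 - w1 * w2 * w3 =
      (z1 - w1) * z2 * z3 + w1 * (z2 - w2) * z3 + w1 * w2 * (z3 - w3) := by ring
  have h1 : ‖(z1 - w1) * z2 * z3‖ ≤ e * m * m := by
    rw [norm_mul, norm_mul]; gcongr
  have h2 : ‖w1 * (z2 - w2) * z3‖ ≤ m * e * m := by
    rw [norm_mul, norm_mul]; gcongr
  have h3 : ‖w1 * w2 * (z3 - w3)‖ ≤ m * m * e := by
    rw [norm_mul, norm_mul]; gcongr
  rw [e0]
  refine (norm_add₃_le).trans ?_
  nlinarith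

theorem err_alg {u v s e2 e3 D f2 f3 : ℝ} (hu : 0 ≤ u) (hv : 0 ≤ v) (hs : 0 ≤ s) (hD : 1 ≤ D)
    (g2 : 0 ≤ f2) (g3 : 0 ≤ f3) (h2 : e2 ≤ D * f2) (h3 : e3 ≤ D * f3) :
    (u + v) ^ 2 * ((u + v) * s + e2 + e3) ≤
      4 * D * (u ^ 3 * s + v ^ 3 * s + u ^ 2 * f2 + v ^ 2 * f2 + u ^ 2 * f3 + v ^ 2 * f3) := by
  have a1 : (u + v) ^ 2 ≤ 4 * (u ^ 2 + v ^ 2) := by nlinarith [sq_nonneg (u - v)]
  have a2 : (u + v) ^ 3 ≤ 4 * (u ^ 3 + v ^ 3) := by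
    nlinarith [mul_nonneg (add_nonneg hu hv) (sq_nonneg (u - v))]
  have a3 : (u + v) ^ 3 * s ≤ D * (4 * (u ^ 3 + v ^ 3) * s) :=
    (mul_le_mul_of_nonneg_right a2 hs).trans (le_mul_of_one_le_left (by positivity) hD)
  have a4 : (u + v) ^ 2 * (e2 + e3) ≤ 4 * (u ^ 2 + v ^ 2) * (D * f2 + D * f3) :=
    (mul_le_mul_of_nonneg_left (add_le_add h2 h3) (by positivity)).trans
      (mul_le_mul_of_nonneg_right a1 (by positivity))
  nlinarith

theorem err_main (hA : StAfe) (hS : StSz) (hXi : StXi) (σ : ℝ) (hσ : σ = 100000) : StErr := by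
  intro A α β γ hA0
  have hσ2 : 2 ≤ σ := by rw [hσ]; norm_num
  obtain ⟨⟨C0, hC0, hsz⟩, hcont⟩ := hS
  obtain ⟨h1, ⟨_, _, _⟩, _⟩ := hA α
  obtain ⟨h2, ⟨Z2, hZ2, z2⟩, _⟩ := hA β
  obtain ⟨h3, ⟨Z3, hZ3, z3⟩, _⟩ := hA γ
  obtain ⟨E1, hE1, e1⟩ := h1 σ hσ2
  obtain ⟨E2, hE2, e2⟩ := h2 σ hσ2
  obtain ⟨E3, hE3, e3⟩ := h3 σ hσ2
  set D : ℝ := 2 ^ (σ - 1) with hD
  have hD1 : 1 ≤ D := Real.one_le_rpow (by norm_num) (by linarith)
  set M : ℝ := 2 * C0 + Z2 + Z3 with hM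
  set E : ℝ := E1 + E2 + E3 with hE
  set K : ℝ := 12 * D * M ^ 2 * E with hK
  have hK0 : 0 < K := by positivity
  set a : ℝ := (1 : ℝ) / 2 + 1 / 10000 with ha
  set b : ℝ := (1 : ℝ) / 2 - 1 / 20000 with hb
  set p : Fin 6 → ℝ := ![-1, 4 / 5, 0, 6 / 5, σ, σ + 6 / 5] with hp
  set r : Fin 6 → ℝ := ![-(9 / 5 * a), 9 / 5 * a, σ - 1 - a * σ - 6 / 5 * a,
    σ - 1 - a * σ + 6 / 5 * a, a * σ + b * (σ - 1) - 6 / 5 * a,
    a * σ + b * (σ - 1) + 6 / 5 * a] with hr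
  have hA1 : (200000 : ℝ) ≤ A := by exact_mod_cast hA0
  have hp1 : ∀ i, -1 ≤ p i := by
    intro i
    fin_cases i <;> simp [hp] <;> linarith
  have hpr : ∀ i, 1 / 60000 ≤ r i - p i := by
    intro i
    fin_cases i <;> simp only [hp, hr, ha, hb, hσ] <;> norm_num
  have hG : ∀ i, 0 < Real.Gamma (A + p i + 1) := fun i =>
    Real.Gamma_pos_of_pos (by linarith [hp1 i])
  refine ⟨∑ i, K * Real.Gamma (A + p i + 1),
    Finset.sum_pos (fun i _ => mul_pos hK0 (hG i)) Finset.univ_nonempty, fun ε u h0 h1 _ => ?_⟩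
  have hx1 := one_le_xe h0 h1
  have hx0 : 0 < xe ε := by linarith
  have hX1 : 1 ≤ Xe ε := le_trans (by norm_num) (two_le_Xe h0 h1)
  have hY1 := one_le_Ye h0 h1
  have hxs : ∀ s : ℝ, xe ε ^ s = ε ^ (-(a * s)) := fun s => by
    rw [xe, ← Real.rpow_mul h0.le, neg_mul]
  have hZc : ∀ δ : ℝ, ContinuousOn (fun t : ℝ => Zf (t + δ)) (Set.Ioi 0) := fun δ =>
    (hXi.2.2.comp (continuous_id.add continuous_const)).continuousOn
  have hWc : ∀ δ : ℝ, ContinuousOn (fun t : ℝ => PP δ (xe ε) (Xe ε) t + QQ δ (xe ε) (Ye ε) t)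
      (Set.Ioi 0) := fun δ =>
    (hcont δ _ (Xe ε) hx0).2.2.1.add (hcont δ _ (Ye ε) hx0).2.2.2
  have key := (KC_triv_sum Finset.univ (a := (A : ℂ)) (ε := ε) (fun i => K * ε ^ r i) p u
    (f := fun t => Zf (t + α) * Zf (t + β) * Zf (t + γ) -
      (PP α (xe ε) (Xe ε) t + QQ α (xe ε) (Ye ε) t) *
        (PP β (xe ε) (Xe ε) t + QQ β (xe ε) (Ye ε) t) *
        (PP γ (xe ε) (Xe ε) t + QQ γ (xe ε) (Ye ε) t)) h0
    (fun i _ => by rw [Complex.natCast_re]; linarith [hp1 i])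
    ((((hZc α).mul (hZc β)).mul (hZc γ)).sub (((hWc α).mul (hWc β)).mul (hWc γ)))
    (fun t ht => by
      have hm := mm_pos hx0 ht
      have hts : ∀ s : ℝ, (t / xe ε) ^ s = ε ^ (a * s) * t ^ s := fun s => by
        rw [Real.div_rpow ht.le hx0.le, hxs, Real.rpow_neg h0.le, div_inv_eq_mul, mul_comm]
      have hW : ∀ δ : ℝ, ‖PP δ (xe ε) (Xe ε) t + QQ δ (xe ε) (Ye ε) t‖ ≤ M * mm (xe ε) t := by
        intro δ
        have w1 := ((hsz _ (Xe ε) hx0).2 δ t ht).2.2.1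
        have w2 := ((hsz _ (Ye ε) hx0).2 δ t ht).2.2.2
        refine (norm_add_le _ _).trans ?_
        rw [hM]
        nlinarith [mul_pos hZ2 hm, mul_pos hZ3 hm]
      set e : ℝ := mm (xe ε) t / t + xe ε ^ σ * (Xe ε : ℝ) ^ (1 - σ) +
        (t / xe ε) ^ σ * (Ye ε : ℝ) ^ (1 - σ) with he
      have he0 : 0 ≤ e := by positivity
      have c1 := e1 t _ _ _ ht hx1 hX1 hY1
      have c2 := e2 t _ _ _ ht hx1 hX1 hY1
      have c3 := e3 t _ _ _ ht hx1 hX1 hY1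
      rw [sub_sub, ← he] at c1 c2 c3
      have main := err_prod (m := M * mm (xe ε) t) (e := E * e) (by positivity) (by positivity)
        ((z2 t _ ht hx1).trans (by rw [hM]; nlinarith [mul_pos hC0 hm, mul_pos hZ3 hm]))
        ((z3 t _ ht hx1).trans (by rw [hM]; nlinarith [mul_pos hC0 hm, mul_pos hZ2 hm]))
        (hW α) (hW β)
        (c1.trans (by rw [hE]; nlinarith [mul_nonneg hE2.le he0, mul_nonneg hE3.le he0]))
        (c2.trans (by rw [hE]; nlinarith [mul_nonneg hE1.le he0, mul_nonneg hE3.le he0]))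
        (c3.trans (by rw [hE]; nlinarith [mul_nonneg hE1.le he0, mul_nonneg hE2.le he0]))
      have t2 : xe ε ^ σ * (Xe ε : ℝ) ^ (1 - σ) ≤ D * ε ^ (σ - 1 - a * σ) := by
        have := err_tail (c := 1) (σ := σ) (N := Xe ε) h0 (by linarith) (by
          rw [Real.rpow_neg_one, ← one_div]; exact le_two_Xe h0 h1)
        rw [hxs, sub_eq_add_neg (σ - 1), Real.rpow_add h0]
        rw [one_mul] at this
        calc _ ≤ ε ^ (-(a * σ)) * (D * ε ^ (σ - 1)) :=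
              mul_le_mul_of_nonneg_left this (by positivity)
          _ = _ := by ring
      have t3 : (t / xe ε) ^ σ * (Ye ε : ℝ) ^ (1 - σ) ≤
          D * (ε ^ (a * σ + b * (σ - 1)) * t ^ σ) := by
        have := err_tail (c := b) (σ := σ) (N := Ye ε) h0 (by linarith) (le_two_Ye h0 h1)
        rw [hts, Real.rpow_add h0]
        calc _ ≤ ε ^ (a * σ) * t ^ σ * (D * ε ^ (b * (σ - 1))) :=
              mul_le_mul_of_nonneg_left this (by positivity)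
          _ = _ := by ring
      have alg := err_alg (u := xe ε ^ ((3 : ℝ) / 5)) (v := (t / xe ε) ^ ((3 : ℝ) / 5))
        (s := t ^ (-1 : ℝ)) (by positivity) (by positivity) (by positivity) hD1
        (by positivity) (by positivity) t2 t3
      have em : mm (xe ε) t ^ 2 * e = (xe ε ^ ((3 : ℝ) / 5) + (t / xe ε) ^ ((3 : ℝ) / 5)) ^ 2 *
          ((xe ε ^ ((3 : ℝ) / 5) + (t / xe ε) ^ ((3 : ℝ) / 5)) * t ^ (-1 : ℝ) +
            xe ε ^ σ * (Xe ε : ℝ) ^ (1 - σ) + (t / xe ε) ^ σ * (Ye ε : ℝ) ^ (1 - σ)) := by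
        rw [he, Real.rpow_neg_one, mm, div_eq_mul_inv _ t]
      rw [← em] at alg
      have u3 : (xe ε ^ ((3 : ℝ) / 5)) ^ 3 = ε ^ (-(9 / 5 * a)) := by
        rw [← Real.rpow_natCast, ← Real.rpow_mul hx0.le, hxs]; congr 1; push_cast; ring
      have u2 : (xe ε ^ ((3 : ℝ) / 5)) ^ 2 = ε ^ (-(6 / 5 * a)) := by
        rw [← Real.rpow_natCast, ← Real.rpow_mul hx0.le, hxs]; congr 1; push_cast; ring
      have v3 : ((t / xe ε) ^ ((3 : ℝ) / 5)) ^ 3 = ε ^ (9 / 5 * a) * t ^ ((9 : ℝ) / 5) := by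
        rw [← Real.rpow_natCast, ← Real.rpow_mul (by positivity), hts]
        congr 2 <;> push_cast <;> ring
      have v2 : ((t / xe ε) ^ ((3 : ℝ) / 5)) ^ 2 = ε ^ (6 / 5 * a) * t ^ ((6 : ℝ) / 5) := by
        rw [← Real.rpow_natCast, ← Real.rpow_mul (by positivity), hts]
        congr 2 <;> push_cast <;> ring
      have s1 : t ^ ((4 : ℝ) / 5) = t ^ ((9 : ℝ) / 5) * t ^ (-1 : ℝ) := by
        rw [← Real.rpow_add ht]; norm_num
      rw [u3, u2, v3, v2] at alg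
      refine main.trans ?_
      have e5 : 3 * ((M * mm (xe ε) t) ^ 2 * (E * e)) =
          3 * M ^ 2 * E * (mm (xe ε) t ^ 2 * e) := by ring
      rw [e5]
      refine (mul_le_mul_of_nonneg_left alg (by positivity)).trans (le_of_eq ?_)
      simp only [Fin.sum_univ_six, hp, hr, Matrix.cons_val, hK]
      rw [s1, Real.rpow_zero, Real.rpow_add ht σ, sub_eq_add_neg (σ - 1 - a * σ),
        sub_eq_add_neg (a * σ + b * (σ - 1)), Real.rpow_add h0 (σ - 1 - a * σ),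
        Real.rpow_add h0 (σ - 1 - a * σ), Real.rpow_add h0 (a * σ + b * (σ - 1)),
        Real.rpow_add h0 (a * σ + b * (σ - 1))]
      ring)).2
  refine key.trans ?_
  rw [Finset.sum_mul]
  refine Finset.sum_le_sum fun i _ => ?_
  rw [Complex.natCast_re]
  have h5 : ε ^ r i * ε ^ (-(A + p i + 1)) ≤ ε ^ (-((A : ℝ) + 1) + 1 / 60000) := by
    rw [← Real.rpow_add h0]
    exact eps_rpow_le h0 h1 (by linarith [hpr i])
  calc _ = K * Real.Gamma (A + p i + 1) * (ε ^ r i * ε ^ (-(A + p i + 1))) := by ring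
    _ ≤ _ := mul_le_mul_of_nonneg_left h5 (mul_pos hK0 (hG i)).le

theorem stErr (hA : StAfe) (hS : StSz) (hXi : StXi) : StErr := err_main hA hS hXi _ rfl

end Pool.Agent.CubZ
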