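import Pool.Agent.Lib.MP_d79f69_nt.Z3.Basic

open Matrix MeasureTheory Complex Finset

namespace Pool.Agent.CubZ

open Pool.Agent.CubH

theorem js_one {k C ε u : ℝ} {a c0 : ℂ} (ha : 1 ≤ a.re) (h0 : 0 < ε) (hc : ‖c0‖ ≤ C)
    (h : ∀ l : ℝ, ‖(∫ t in Set.Ioi (0 : ℝ), KC a ε u t * ei (k * tht t) * ei (-(l * t))) -
      c0 * MM k (a + 1 / 2) ε u l‖ ≤ C * ε ^ (-a.re)) {ι : Type} (S : Finset ι) (c : ι → ℂ)
    (l : ι → ℝ) :
    ‖∫ t in Set.Ioi (0 : ℝ), KC a ε u t * ei (k * tht t) * ∑ i ∈ S, c i * ei (-(l i * t))‖ ≤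
      C * (‖∑ i ∈ S, c i * MM k (a + 1 / 2) ε u (l i)‖ + ε ^ (-a.re) * ∑ i ∈ S, ‖c i‖) := by
  have hi : ∀ i, IntegrableOn (fun t => KC a ε u t * ei (k * tht t) * ei (-(l i * t)))
      (Set.Ioi 0) := fun i => by
    simp only [mul_assoc]
    refine (KC_triv (C := 1) (p := 0) u h0 (by linarith) ?_ fun t _ => ?_).1
    · exact (continuous_ei.comp_continuousOn (continuousOn_const.mul continuousOn_tht)).mul
        (continuous_ei.comp (by fun_prop)).continuousOn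
    · simp [ei, norm_exp_ofReal_mul_I, -ofReal_mul, -ofReal_neg]
  have e1 : ∫ t in Set.Ioi (0 : ℝ), KC a ε u t * ei (k * tht t) * ∑ i ∈ S, c i * ei (-(l i * t)) =
      ∑ i ∈ S, c i * ∫ t in Set.Ioi (0 : ℝ), KC a ε u t * ei (k * tht t) * ei (-(l i * t)) := by
    simp only [← integral_const_mul]
    rw [← integral_finsetSum _ fun i _ => (hi i).const_mul _]
    refine integral_congr_ae (.of_forall fun t => ?_)
    simp only [mul_sum]
    exact sum_congr rfl fun i _ => by ring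
  have e2 : ∑ i ∈ S, c i * ∫ t in Set.Ioi (0 : ℝ), KC a ε u t * ei (k * tht t) * ei (-(l i * t)) =
      c0 * ∑ i ∈ S, c i * MM k (a + 1 / 2) ε u (l i) + ∑ i ∈ S, c i *
        ((∫ t in Set.Ioi (0 : ℝ), KC a ε u t * ei (k * tht t) * ei (-(l i * t))) -
          c0 * MM k (a + 1 / 2) ε u (l i)) := by
    rw [mul_sum, ← sum_add_distrib]
    exact sum_congr rfl fun i _ => by ring
  rw [e1, e2, mul_add]
  refine (norm_add_le _ _).trans (add_le_add ?_ ((norm_sum_le _ _).trans ?_))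
  · rw [norm_mul]
    gcongr
  · rw [← mul_assoc, mul_sum]
    refine sum_le_sum fun i _ => ?_
    rw [norm_mul, mul_comm]
    gcongr
    exact h _

theorem stJs (hJ : StJ) : StJs := by
  intro k a1 hk
  obtain ⟨C, hC, H⟩ := hJ k a1 hk
  refine ⟨C, hC, fun a ε u ha ha1 h0 h1 hu ι S c l => ⟨?_, ?_⟩⟩
  · obtain ⟨c0, h2, h3⟩ := H a ε u ha ha1 h0 h1 hu
    exact js_one ha h0 h2 h3 S c l
  · obtain ⟨c0, h2, h3⟩ := H ((starRingEnd ℂ) a) ε (-u) ha ha1 h0 h1 (by rwa [abs_neg])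
    have h4 := js_one (a := (starRingEnd ℂ) a) ha h0 h2 h3 S (fun i => (starRingEnd ℂ) (c i)) l
    simp only [conj_im, abs_neg, conj_re, RCLike.norm_conj] at h4
    refine le_of_eq_of_le ?_ h4
    rw [← RCLike.norm_conj, ← integral_conj]
    congr 2
    funext t
    simp only [map_mul, map_sum, KC_conj, ei_conj, neg_neg]

end Pool.Agent.CubZ
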