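import Pool.Agent.Lib.MP_d79f69_nt.Z3.Basic

open Matrix MeasureTheory

namespace Pool.Agent.CubZ

open Pool.Agent.CubH

lemma ru_hv (B : M3) (m : ℝ) (h : ℝ × ℝ) : hv B (m • h) = m • hv B h := by
  unfold hv
  rw [← Matrix.mulVec_smul]; congr 1
  ext i; fin_cases i <;> simp

lemma ru_res (B : M3) (c : ℝ) {m : ℝ} (hm : m ≠ 0) (h θ : ℝ × ℝ) (L M r : ℝ) :
    Res B c (m • h) L M θ (m * r) ↔ Res B (m * c) h L M θ r := by
  have e1 : gA B c (m • h) θ = gA B (m * c) h θ := by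
    unfold gA G1 t1 sm d2
    rw [ru_hv]; simp only [Pi.div_apply, Pi.smul_apply, smul_eq_mul]; ring
  have e2 : gB B c (m • h) θ = gB B (m * c) h θ := by
    unfold gB G1 t1 sm d2
    rw [ru_hv]; simp only [Pi.div_apply, Pi.smul_apply, smul_eq_mul]; ring
  have e3 : GG B c (m • h) θ = GG B (m * c) h θ := by
    unfold GG G0 t0 sm
    rw [ru_hv]; simp only [Pi.div_apply, Pi.smul_apply, smul_eq_mul]; ring
  have e4 : kap B c (m • h) θ = m ^ 2 * kap B (m * c) h θ := by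
    unfold kap G2 t2 sm d2 d3
    rw [ru_hv]; simp only [Pi.div_apply, Pi.smul_apply, smul_eq_mul]; ring
  have e5 : m ^ 2 * kap B (m * c) h θ / (24 * (m * r) ^ 2) = kap B (m * c) h θ / (24 * r ^ 2) := by
    rw [show 24 * (m * r) ^ 2 = m ^ 2 * (24 * r ^ 2) by ring, mul_div_mul_left _ _ (pow_ne_zero 2 hm)]
  unfold Res
  rw [e1, e2, e3, e4, e5]

lemma ru_int {m : ℝ} (hm : 0 < m) (f : (ℝ × ℝ) × ℝ → ENNReal) :
    ∫⁻ κ : (ℝ × ℝ) × ℝ, f (κ.1, m * κ.2) = ENNReal.ofReal m⁻¹ * ∫⁻ κ, f κ := by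
  let e : (ℝ × ℝ) × ℝ ≃ᵐ (ℝ × ℝ) × ℝ :=
    MeasurableEquiv.prodCongr (MeasurableEquiv.refl _) (MeasurableEquiv.mulLeft₀ m hm.ne')
  have h1 := lintegral_map_equiv (μ := volume) f e
  have h2 : Measure.map e volume = ENNReal.ofReal m⁻¹ • volume := by
    have := Measure.map_prod_map (volume : Measure (ℝ × ℝ)) (volume : Measure ℝ) measurable_id
      (measurable_const_mul m)
    rw [Measure.map_id, Real.map_volume_mul_left hm.ne', Measure.prod_smul_right,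
      abs_of_pos (inv_pos.2 hm)] at this
    exact this.symm
  rw [h2, lintegral_smul_measure] at h1
  exact h1.symm

theorem stRU (hR : SR) : StRU := by
  classical
  intro Q c hQ hc
  obtain ⟨C, hC, H1⟩ := hR Q c hQ hc
  refine ⟨C, hC, fun μ hμ B hB X H L0 M0 h hH hH1 hX a1 a2 a3 a4 a5 => ?_⟩
  have μ0 : 0 < μ := by linarith
  have m1 : 1 ≤ μ ^ 2 := one_le_pow₀ hμ
  have m0 : 0 < μ ^ 2 := by positivity
  have hs : √(μ ^ 2 * H) = μ * √H := by rw [Real.sqrt_mul m0.le, Real.sqrt_sq μ0.le]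
  have L0p : 0 < L0 := lt_of_lt_of_le (by positivity) a5
  have M0p : 0 < M0 := lt_of_lt_of_le (by positivity) a4
  have key := H1 B hB (μ ^ 2 * X) (μ ^ 2 * H) (L0 / μ) (M0 / μ) (μ ^ 2 • h)
    (by rw [norm_smul, hH, Real.norm_of_nonneg m0.le]) (one_le_mul_of_one_le_of_one_le m1 hH1)
    (one_le_mul_of_one_le_of_one_le m1 hX)
    (by have := mul_le_mul_of_nonneg_left a1 (by positivity : 0 ≤ μ ^ 4); linarith)
    (by have := mul_le_mul_of_nonneg_left a2 (by positivity : 0 ≤ μ ^ 4); rw [hs]; linarith)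
    (by rw [hs, le_div_iff₀ μ0]; linarith) ((le_div_iff₀ μ0).2 a4) ((le_div_iff₀ μ0).2 a5)
  have hset : ∀ κ : (ℝ × ℝ) × ℝ,
      (ResSet Q B (μ ^ 2 * c) h X (L0 / μ) (M0 / μ)).indicator (fun _ => (1 : ENNReal)) κ =
      (ResSet Q B c (μ ^ 2 • h) (μ ^ 2 * X) (L0 / μ) (M0 / μ)).indicator (fun _ => (1 : ENNReal))
        (κ.1, μ ^ 2 * κ.2) := by
    intro κ
    have : κ ∈ ResSet Q B (μ ^ 2 * c) h X (L0 / μ) (M0 / μ) ↔
        (κ.1, μ ^ 2 * κ.2) ∈ ResSet Q B c (μ ^ 2 • h) (μ ^ 2 * X) (L0 / μ) (M0 / μ) := by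
      simp only [ResSet, Set.mem_ofPred_eq]
      rw [ru_res B c m0.ne', mul_div_assoc, mul_left_comm Q, mul_le_mul_iff_right₀ m0,
        mul_le_mul_iff_right₀ m0]
    by_cases hk : κ ∈ ResSet Q B (μ ^ 2 * c) h X (L0 / μ) (M0 / μ)
    · rw [Set.indicator_of_mem hk, Set.indicator_of_mem (this.1 hk)]
    · rw [Set.indicator_of_notMem hk, Set.indicator_of_notMem (fun e => hk (this.2 e))]
  simp only [hset]
  rw [ru_int m0]
  refine (mul_le_mul_right key _).trans (le_of_eq ?_)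
  rw [← ENNReal.ofReal_mul (by positivity)]
  congr 1
  have hg : Good Q (μ ^ 2 • h) ↔ Good Q h := by
    unfold Good
    rw [Prod.smul_fst, Prod.smul_snd, smul_eq_mul, smul_eq_mul, abs_mul, abs_mul, abs_of_pos m0,
      mul_left_comm, mul_le_mul_iff_right₀ m0]
  have H0 : 0 < H := by linarith
  rw [hs]
  simp only [hg]
  split_ifs <;> field_simp <;> ring

end Pool.Agent.CubZ
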