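import Pool.Agent.Lib.MP_d79f69_nt.Z3.Basic

open Matrix MeasureTheory Complex Finset

namespace Pool.Agent.CubZ

open Pool.Agent.CubH

noncomputable def v1_F (z : ℂ) : ℂ := ∫ r in Set.Ioi (0 : ℝ), cexp (-((r + z) ^ 2) / 4)

noncomputable def v1_D (z : ℂ) (r : ℝ) : ℂ := cexp (-((r + z) ^ 2) / 4) * (-(r + z) / 2)

theorem v1_norm (z : ℂ) (r : ℝ) :
    ‖cexp (-((r + z) ^ 2) / 4)‖ = Real.exp (z.im ^ 2 / 4 - (r + z.re) ^ 2 / 4) := by
  rw [Complex.norm_exp]
  congr 1
  simp [pow_two]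
  ring

theorem v1_gauss (l : ℝ) : Integrable (fun r : ℝ => Real.exp (-(1 / 8) * (r + l) ^ 2)) :=
  (integrable_exp_neg_mul_sq (show (0 : ℝ) < 1 / 8 by norm_num)).comp_add_right l

/-- Integrals over the half line of functions under a shifted Gaussian. -/
theorem v1_int_le {f : ℝ → ℂ} {K l : ℝ} (hK : 0 ≤ K)
    (h : ∀ r : ℝ, 0 < r → ‖f r‖ ≤ K * Real.exp (-(1 / 8) * (r + l) ^ 2)) :
    ‖∫ r in Set.Ioi (0 : ℝ), f r‖ ≤ K * √(Real.pi / (1 / 8)) := by
  have h1 := (v1_gauss l).const_mul K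
  refine (norm_integral_le_of_norm_le h1.integrableOn
    ((ae_restrict_iff' measurableSet_Ioi).2 (ae_of_all _ h))).trans ?_
  refine (setIntegral_le_integral h1 (ae_of_all _ fun r => by positivity)).trans ?_
  rw [integral_const_mul, integral_add_right_eq_self (fun r : ℝ => Real.exp (-(1 / 8) * r ^ 2)) l,
    integral_gaussian]

theorem v1_F_le (σ : ℝ) (hσ : 0 ≤ σ) (z : ℂ) (hz : |z.im| ≤ 4) :
    ‖v1_F z‖ ≤ Real.exp (4 + 2 * σ ^ 2 - σ * z.re) * √(Real.pi / (1 / 8)) := by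
  refine v1_int_le (l := z.re) (Real.exp_pos _).le fun r hr => ?_
  rw [v1_norm, ← Real.exp_add, Real.exp_le_exp]
  have h1 : z.im ^ 2 ≤ 4 ^ 2 := sq_le_sq' (by linarith [neg_abs_le z.im]) (le_of_abs_le hz)
  nlinarith [sq_nonneg (r + z.re - 4 * σ), mul_nonneg hσ hr.le]

theorem v1_D_norm (z : ℂ) (r : ℝ) :
    ‖v1_D z r‖ ≤ Real.exp (z.im ^ 2 / 2) * Real.exp (-(1 / 8) * (r + z.re) ^ 2) := by
  have h1 : ‖(-((r : ℂ) + z) / 2)‖ ≤ Real.exp ((r + z.re) ^ 2 / 8 + z.im ^ 2 / 8) := by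
    have h2 : ‖(r : ℂ) + z‖ ^ 2 = (r + z.re) ^ 2 + z.im ^ 2 := by
      rw [Complex.sq_norm, Complex.normSq_apply]
      simp
      ring
    have h3 := Real.add_one_le_exp ((r + z.re) ^ 2 / 8 + z.im ^ 2 / 8)
    rw [norm_div, norm_neg, Complex.norm_two]
    nlinarith [sq_nonneg (‖(r : ℂ) + z‖ - 2)]
  unfold v1_D
  rw [norm_mul, v1_norm]
  refine (mul_le_mul_of_nonneg_left h1 (Real.exp_pos _).le).trans ?_
  rw [← Real.exp_add, ← Real.exp_add, Real.exp_le_exp]
  nlinarith [sq_nonneg z.im]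

theorem v1_deriv (z : ℂ) : HasDerivAt v1_F (∫ r in Set.Ioi (0 : ℝ), v1_D z r) z := by
  set M := ‖z‖ + 1 with hM
  refine (hasDerivAt_integral_of_dominated_loc_of_deriv_le (μ := volume.restrict (Set.Ioi 0))
    (F := fun w (r : ℝ) => cexp (-((r + w) ^ 2) / 4)) (F' := v1_D)
    (bound := fun r => Real.exp (M ^ 2) * Real.exp (-(1 / 16) * r ^ 2))
    (Metric.ball_mem_nhds z one_pos) ?_ ?_ ?_ ?_ ?_ ?_).2
  · exact Filter.Eventually.of_forall fun w => Continuous.aestronglyMeasurable (by fun_prop)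
  · refine Integrable.mono' ((v1_gauss z.re).const_mul (Real.exp (z.im ^ 2 / 4))).integrableOn
      (Continuous.aestronglyMeasurable (by fun_prop)) (ae_of_all _ fun r => ?_)
    rw [v1_norm, ← Real.exp_add, Real.exp_le_exp]
    nlinarith [sq_nonneg (r + z.re)]
  · exact Continuous.aestronglyMeasurable (by unfold v1_D; fun_prop)
  · refine ae_of_all _ fun r w hw => (v1_D_norm w r).trans ?_
    have h1 : ‖w‖ ≤ M := by
      have := norm_sub_norm_le w z
      have := mem_ball_iff_norm.1 hw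
      linarith
    have h2 : w.re ^ 2 + w.im ^ 2 ≤ M ^ 2 := by
      have h3 : ‖w‖ ^ 2 = w.re ^ 2 + w.im ^ 2 := by
        rw [Complex.sq_norm, Complex.normSq_apply]
        ring
      rw [← h3]
      gcongr
    rw [← Real.exp_add, ← Real.exp_add, Real.exp_le_exp]
    nlinarith [sq_nonneg (r + 2 * w.re), sq_nonneg w.re, sq_nonneg w.im]
  · exact ((integrable_exp_neg_mul_sq (show (0 : ℝ) < 1 / 16 by norm_num)).const_mul
      _).integrableOn
  · refine ae_of_all _ fun r w _ => ?_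
    have h1 : HasDerivAt (fun w : ℂ => -(((r : ℂ) + w) ^ 2) / 4) (-(r + w) / 2) w := by
      have h2 : HasDerivAt (fun w : ℂ => -(((r : ℂ) + w) ^ 2) / 4)
          (-(((2 : ℕ) : ℂ) * ((r : ℂ) + w) ^ (2 - 1) * 1) / 4) w :=
        ((((hasDerivAt_id w).const_add (r : ℂ)).pow 2).neg).div_const 4
      convert h2 using 1
      push_cast
      ring
    exact h1.cexp

theorem v1_lip (a b : ℝ) : ‖v1_F b - v1_F a‖ ≤ √(Real.pi / (1 / 8)) * |b - a| := by
  have h := (convex_univ (𝕜 := ℝ) (E := ℝ)).norm_image_sub_le_of_norm_hasDerivWithin_le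
    (f := fun l : ℝ => v1_F l) (f' := fun l : ℝ => ∫ r in Set.Ioi (0 : ℝ), v1_D l r)
    (C := √(Real.pi / (1 / 8))) (x := a) (y := b)
    (fun l _ => (v1_deriv l).comp_ofReal.hasDerivWithinAt)
    (fun l _ => by
      have := v1_int_le (f := v1_D l) (K := 1) (l := l) zero_le_one fun r _ => by
        simpa using v1_D_norm l r
      simpa using this) trivial trivial
  simpa using h

theorem stV1 : StV1 := by
  have hV : ∀ y, VV y = ((2 * √Real.pi : ℝ) : ℂ)⁻¹ * v1_F (Complex.log y) := fun _ => rfl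
  have hc : 0 < ‖((2 * √Real.pi : ℝ) : ℂ)⁻¹‖ := by
    have : (0 : ℝ) < 2 * √Real.pi := by positivity
    exact norm_pos_iff.2 (inv_ne_zero (Complex.ofReal_ne_zero.2 this.ne'))
  have hs : 0 < √(Real.pi / (1 / 8)) := by positivity
  set c := ((2 * √Real.pi : ℝ) : ℂ)⁻¹
  set s := √(Real.pi / (1 / 8))
  refine ⟨fun σ hσ => ⟨‖c‖ * (Real.exp (4 + 2 * σ ^ 2) * s), by positivity, fun y hy => ?_⟩,
    fun y hy => ?_, ‖c‖ * s, by positivity, fun x n hx hn => ?_⟩
  · have h0 : 0 < ‖y‖ := norm_pos_iff.2 fun h => by simp [h] at hy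
    have h1 := v1_F_le σ hσ (Complex.log y) (by
      rw [Complex.log_im]
      linarith [Complex.abs_arg_le_pi y, Real.pi_le_four])
    rw [Complex.log_re] at h1
    change _ ≤ _ * s at h1
    clear_value s
    rw [hV, norm_mul, Real.rpow_def_of_pos h0, mul_assoc]
    refine mul_le_mul_of_nonneg_left (h1.trans (le_of_eq ?_)) hc.le
    rw [sub_eq_add_neg, Real.exp_add]
    ring_nf
  · have h1 : DifferentiableAt ℂ (fun y => c * v1_F (Complex.log y)) y :=
      ((v1_deriv _).differentiableAt.comp y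
        (Complex.differentiableAt_log (Or.inl hy))).const_mul c
    exact h1.differentiableWithinAt
  · have hn' : (0 : ℝ) < n := by exact_mod_cast hn
    have h1 : (0 : ℝ) < ((n + 1 : ℕ) : ℝ) := by positivity
    rw [hV, hV, ← mul_sub, norm_mul, ← Complex.ofReal_log (by positivity),
      ← Complex.ofReal_log (by positivity), mul_div_assoc]
    refine mul_le_mul_of_nonneg_left ((v1_lip _ _).trans ?_) hc.le
    rw [← Real.log_div (by positivity) (by positivity), div_div_div_cancel_right₀ hx.ne',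
      div_eq_mul_one_div s]
    refine mul_le_mul_of_nonneg_left ?_ hs.le
    have h2 : 1 ≤ ((n + 1 : ℕ) : ℝ) / n := by
      rw [le_div_iff₀ hn']
      push_cast
      linarith
    rw [abs_of_nonneg (Real.log_nonneg h2)]
    refine (Real.log_le_sub_one_of_pos (by positivity)).trans (le_of_eq ?_)
    push_cast
    field_simp
    ring

end Pool.Agent.CubZ
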